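import Pool.Agent.Lib.RC5.Defs

/-! Statements of the blocks. -/

namespace Pool.Agent.Lib.RC5

open Finset Real

/-- COUNT: number of matchings with prescribed types -/
def St_COUNT : Prop :=
  ∀ (α T : Type) [Fintype α] [DecidableEq α] [Fintype T] (ty : α → T) (ι : T → T),
    (∀ t, ι (ι t) = t) →
    ((Comp ty ι).Nonempty → ∀ t, num ty (ι t) = num ty t) ∧
    ((∀ t, ι t ≠ t) → (∀ t, num ty (ι t) = num ty t) →
      (Comp ty ι).card ^ 2 = ∏ t, (num ty t).factorial)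

/-- SUB: probability of containing given pairs -/
def St_SUB : Prop :=
  ∀ (α T : Type) [Fintype α] [DecidableEq α] (ty : α → T) (ι : T → T) (M : ℕ)
    (F : Finset (α × α)), (∀ h, M ≤ num ty (ty h)) → (∀ p ∈ F, (p.2, p.1) ∉ F) →
    (sel (Comp ty ι) fun m => ∀ p ∈ F, m p.1 = p.2).card * (M - 2 * F.card) ^ F.card
      ≤ (Comp ty ι).card

/-- OM: number of all matchings -/
def St_OM : Prop :=
  ∀ (α : Type) [Fintype α] [DecidableEq α] (k : ℕ), Fintype.card α = 2 * k →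
    0 < (Om α).card ∧ (Om α).card ≤ 2 ^ k * k.factorial

/-- CONC: concentration for the Hamming distance -/
def St_CONC : Prop :=
  ∀ (α : Type) [Fintype α] [DecidableEq α] (A : Finset (α → α)) (t l : ℝ), A ⊆ Om α → 0 ≤ l →
    (A.card : ℝ) * (sel (Om α) fun m => ∀ m' ∈ A, t < ham m m').card
      ≤ ((Om α).card : ℝ) ^ 2 * exp (-(l * t) + 8 * Fintype.card α * l ^ 2)

/-- MULT: multinomial coefficients -/
def St_MULT : Prop :=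
  ∀ (n : ℕ) (X : Type) [Fintype X] (w : X → ℕ), ∑ x, w x = n →
    (sel (univ : Finset (Fin n → X)) fun a => ∀ x, num a x = w x).card * ∏ x, (w x).factorial
      = n.factorial

/-- STI: factorials -/
def St_STI : Prop :=
  ∀ k : ℕ, (k : ℝ) * log k - k ≤ log k.factorial ∧
    log k.factorial ≤ (k : ℝ) * log k - k + log (k + 1) + 1

/-- SP1: dense sets of a given size (from SUB) -/
def St_SP1 : Prop :=
  ∀ n D u : ℕ, 1 ≤ D → 1 ≤ u → 3 * u ≤ n →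
    ((sel (Om (HE n)) fun m => ∃ U : Finset (Fin n), U.card = u ∧
        (2 * D + 1) * u ≤ D * inn m U).card : ℝ)
      ≤ (40 ^ (2 * D + 1) * u / n) ^ ((u + 2 * D - 1) / (2 * D)) * (Om (HE n)).card

/-- SP: small sets are sparse (from SP1) -/
def St_SP : Prop :=
  ∀ D : ℕ, 1 ≤ D → ∀ ε : ℝ, 0 < ε → ∃ n0 : ℕ, ∀ n, n0 ≤ n →
    ((sel (Om (HE n)) fun m => ¬ Sparse m D ((1 / 256000) ^ D * n)).card : ℝ)
      ≤ ε * (Om (HE n)).card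

/-- BALL: balls are small and nearness is symmetric -/
def St_BALL : Prop :=
  ∀ (n : ℕ) (m : HE n → HE n) (k : ℕ) (u : Fin n),
    (sel univ fun h : HE n => Near m k u h.1).card ≤ 3 * 4 ^ k ∧
    (IsM m → ∀ v, Near m k u v → Near m k v u)

/-- G1: expected number of short cycles (from SUB) -/
def St_G1 : Prop :=
  ∀ g n : ℕ, 2 * g ≤ n → ∑ m ∈ Om (HE n), ncyc m g ≤ g * 5 ^ g * (Om (HE n)).card

/-- G2: a switching destroys a short cycle and makes none (from BALL) -/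
def St_G2 : Prop :=
  ∀ (n g : ℕ) (m : HE n → HE n) (a c : HE n), IsM m → OnCyc m g a → ¬ Near m (2 * g) a.1 c.1 →
    ¬ OnCyc m g c → ¬ OnCyc m g (m c) →
    IsM (sw (m a) c m) ∧ sw (m a) c m a = c ∧ Near (sw (m a) c m) g a.1 (m a).1 ∧
      ∀ h, OnCyc (sw (m a) c m) g h → OnCyc m g h ∧ h ≠ a

/-- G3: no short cycle with positive probability (from BALL, G1, G2) -/
def St_G3 : Prop :=
  ∀ g : ℕ, ∃ c : ℝ, 0 < c ∧ ∃ n0 : ℕ, ∀ n, n0 ≤ n →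
    c * (Om (HE n)).card ≤ (sel (Om (HE n)) fun m => ∀ h, ¬ OnCyc m g h).card

/-- G4: from matchings to graphs -/
def St_G4 : Prop :=
  ∀ (n g : ℕ) (m : HE n → HE n), IsM m →
    (3 ≤ g → (∀ h, ¬ OnCyc m g h) → Simple m ∧ (g : ℕ∞) ≤ (Gr m).egirth) ∧
    (Simple m → (4 : ℕ∞) ≤ (Gr m).egirth → TriFree m) ∧
    (Col m → Nonempty (Gr m →g SimpleGraph.cycleGraph 5))

/-- TRANS: every cubic graph comes from `6 ^ n` matchings -/
def St_TRANS : Prop :=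
  ∀ (n : ℕ) (P : SimpleGraph (Fin n) → Prop),
    (sel (Om (HE n)) fun m => Simple m ∧ P (Gr m)).card
      = 6 ^ n * {G : SimpleGraph (Fin n) | (∀ v, (G.neighborSet v).ncard = 3) ∧ P G}.ncard

/-- MAD: sparse parts map to the five-cycle -/
def St_MAD : Prop :=
  ∀ (n : ℕ) (m : HE n → HE n) (R : Finset (Fin n)), IsM m → Simple m → TriFree m →
    (∀ U ⊆ R, U.Nonempty → 4 * inn m U < 9 * U.card) →
    ∃ c : Fin n → ZMod 5, ∀ h : HE n, h.1 ∈ R → (m h).1 ∈ R → Ad (c h.1) (c (m h).1)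

/-- UP: closing a small set under short ears -/
def St_UP : Prop :=
  ∀ (n D : ℕ) (x : ℝ) (m : HE n → HE n) (U : Finset (Fin n)), Sparse m D x →
    (((2 * D + 2) * U.card + D : ℕ) : ℝ) ≤ x →
    ∃ R, U ⊆ R ∧ R.card ≤ (2 * D + 2) * U.card ∧ EarFree m R D

/-- LEV: trees hang from a set without short ears -/
def St_LEV : Prop :=
  ∀ (n L : ℕ) (m : HE n → HE n) (R : Finset (Fin n)), IsM m → EarFree m R (2 * L + 3) →
    ∃ lev par, Lev m R L lev par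

/-- TL: the edges of these trees are distinct -/
def St_TL : Prop :=
  ∀ (n L : ℕ) (m m' : HE n → HE n) (R : Finset (Fin n)) (lev : Fin n → ℕ) (par : Fin n → Fin 3),
    IsM m → IsM m' → Lev m R L lev par → (∀ h : HE n, h.1 ∉ R → m' h = m h) →
    ∀ h : HE n, h.1 ∈ R → (m h).1 ∉ R → TL m' L h

/-- EXT: free trees absorb any colouring of `R` -/
def St_EXT : Prop :=
  ∀ (n L : ℕ) (m m' : HE n → HE n) (R : Finset (Fin n)) (lev : Fin n → ℕ) (par : Fin n → Fin 3)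
    (a : Lab n) (c : Fin n → ZMod 5),
    IsM m → m' ∈ Comp (ty1 a) io1 → Lev m R L lev par → (∀ h : HE n, h.1 ∉ R → m' h = m h) →
    (∀ h : HE n, h.1 ∈ R → (m h).1 ∉ R → msg a m' L h = univ) →
    (∀ h : HE n, h.1 ∈ R → (m h).1 ∈ R → Ad (c h.1) (c (m h).1)) → Col m

/-- REP: repair (from MAD, UP, LEV, TL, EXT) -/
def St_REP : Prop :=
  ∀ (n L : ℕ) (x : ℝ) (m m' : HE n → HE n) (a : Lab n), 1 ≤ L → IsM m → Simple m → TriFree m →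
    Sparse m (2 * L + 3) x → m' ∈ Comp (ty1 a) io1 →
    (((4 * L + 8) * (ham m m' + nbad a m' L) + (2 * L + 3) : ℕ) : ℝ) ≤ x → Col m

/-- CLS: facts on the counted class -/
def St_CLS : Prop :=
  ∀ n : ℕ, Even n → (∑ x, nn (n / 130) (n % 130 / 2) x = n) ∧ ∀ a ∈ Cl n,
    (∀ t, 39 * (n / 130) ≤ num (ty1 a) t) ∧ (∀ t, num (ty1 a) (io1 t) = num (ty1 a) t) ∧
    (∀ c, num (fun v => (a v).1) c ≤ 26 * (n / 130) + 64) ∧
    ncst a = 10 * (n / 130) + 2 * (n % 130 / 2)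

/-- FC: trees in the planted model against the ideal tree (from SUB) -/
def St_FC : Prop :=
  ∀ (n L k M : ℕ) (a : Lab n), (∀ x, num a x ≤ (if cst x.2 then k else 4 * k)) →
    (∀ t, M ≤ num (ty1 a) t) → ∀ (h : HE n) (S : Finset (ZMod 5)),
    ((sel (Comp (ty1 a) io1) fun m => TL m L h ∧ msg a m L h = S).card : ℝ)
        * ((M - 2 ^ (L + 2) : ℕ) : ℝ) ^ (2 ^ (L + 1) - 1)
      ≤ mu L (ty1 a h).2 S * (39 * k) ^ (2 ^ (L + 1) - 1) * (Comp (ty1 a) io1).card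

/-- FM: most planted matchings have few trees that are not free (from CLS, FC) -/
def St_FM : Prop :=
  ∀ (L : ℕ) (u : ℝ), 0 < u → (∀ d, nf L d ≤ u) → ∃ n0 : ℕ, ∀ n, n0 ≤ n → Even n → ∀ a ∈ Cl n,
    (Comp (ty1 a) io1).card
      ≤ 2 * (sel (Comp (ty1 a) io1) fun m => (nbad a m L : ℝ) ≤ 12 * u * n).card

/-- FN1: the ideal tree of depth 26 -/
def St_FN1 : Prop := ∀ d, nf 26 d ≤ 1 / 16384

/-- FN2: faster than any exponential (from FN1) -/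
def St_FN2 : Prop := ∀ K : ℝ, 0 < K → ∃ L, 1 ≤ L ∧ ∀ d, nf L d ≤ 1 / K ^ L

/-- M1: first moment (from COUNT, MULT, STI, CLS) -/
def St_M1 : Prop :=
  ∀ δ : ℝ, 0 < δ → ∃ n0 : ℕ, ∀ n, n0 ≤ n → Even n →
    exp (n * (c1 + 3 / 2 * log n - δ)) ≤ ∑ a ∈ Cl n, ((Comp (ty1 a) io1).card : ℝ)

/-- M2A: generating function -/
def St_M2A : Prop :=
  ∀ (n s : ℕ) (χ : Fin n → X2) (N : T2 → ℕ) (p : T2 → ℝ), Adm p →
    ((sel (univ : Finset (Lab n × Lab n)) fun q => col2 q = χ ∧ (∀ t, num (ty2 q) t = N t) ∧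
        ncst q.1 = s ∧ ncst q.2 = s).card : ℝ) * exp (∑ t, N t * p t) ≤ 16 ^ s

/-- the exponent for one profile -/
noncomputable def expo (n s : ℕ) (N : T2 → ℕ) (w : X2 → ℕ) (p : T2 → ℝ) : ℝ :=
  1 / 2 * ∑ t, log (N t).factorial + s * log 16 - ∑ t, N t * p t + log n.factorial
    - ∑ x, log (w x).factorial

/-- a possible profile -/
structure Prof (n : ℕ) (N : T2 → ℕ) (w : X2 → ℕ) : Prop where
  bal : ∀ t, N (io2 t) = N t
  tri : ∀ x, ∑ d, N (x, d) = 3 * w x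
  tot : ∑ x, w x = n
  cap : ∀ x, w x ≤ 26 * (n / 130) + 64

/-- M2B: one profile (from COUNT, MULT, CLS, M2A) -/
def St_M2B : Prop :=
  ∀ (n : ℕ) (N : T2 → ℕ), Even n →
    ∑ q ∈ sel (Cl n ×ˢ Cl n) fun q => ∀ t, num (ty2 q) t = N t, (Comp (ty2 q) io2).card = 0 ∨
    ∃ w, Prof n N w ∧ ∀ p, Adm p →
      ∑ q ∈ sel (Cl n ×ˢ Cl n) fun q => ∀ t, num (ty2 q) t = N t, ((Comp (ty2 q) io2).card : ℝ)
        ≤ exp (expo n (10 * (n / 130) + 2 * (n % 130 / 2)) N w p)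

/-- AN: the entropy inequality (from S, PHI, R) -/
def St_AN : Prop :=
  ∀ ν : T2 → ℝ, (∀ t, 0 ≤ ν t) → (∀ t, ν (io2 t) = ν t) → ∑ t, ν t = 25 →
    (∀ x, ∑ d, ν (x, d) ≤ 5.002) →
    ∃ p, Adm p ∧ -∑ x, (∑ d, ν (x, d)) * log (∑ d, ν (x, d))
      + ∑ t, (-3 * (ν t * p t) + 3 / 2 * (ν t * log (ν t))) ≤ 25 * log (169 / 32)

/-- M2C: asymptotics of one profile (from STI, AN) -/
def St_M2C : Prop :=
  ∀ δ : ℝ, 0 < δ → ∃ n0 : ℕ, ∀ n, n0 ≤ n → ∀ N w s, Prof n N w → s ≤ 10 * (n / 130) + 128 →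
    ∃ p, Adm p ∧ expo n s N w p ≤ n * (c2 + 3 / 2 * log n + δ)

/-- M2: second moment (from M2B, M2C) -/
def St_M2 : Prop :=
  ∀ δ : ℝ, 0 < δ → ∃ n0 : ℕ, ∀ n, n0 ≤ n → Even n →
    ∑ q ∈ Cl n ×ˢ Cl n, ((Comp (ty2 q) io2).card : ℝ) ≤ exp (n * (c2 + 3 / 2 * log n + δ))

/-- SM: second moment method (from OM, STI, M1, M2) -/
def St_SM : Prop :=
  ∀ δ : ℝ, 0 < δ → ∃ n0 : ℕ, ∀ n, n0 ≤ n → Even n →
    ∀ good : Lab n → (HE n → HE n) → Prop,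
      (∀ a ∈ Cl n, (Comp (ty1 a) io1).card ≤ 2 * (sel (Comp (ty1 a) io1) (good a)).card) →
      exp (-(δ * n)) * (Om (HE n)).card
        ≤ (sel (Om (HE n)) fun m => ∃ a ∈ Cl n, m ∈ Comp (ty1 a) io1 ∧ good a m).card

/-- PHI: subadditivity -/
def St_PHI : Prop :=
  ∀ f : ZMod 5 → ZMod 5 → ℝ, (∀ i j, 0 ≤ f i j) → ∑ i, ∑ j, f i j = 25 →
    5 * ∑ i, Ph ((∑ j, f i j) / 5) + 5 * ∑ j, Ph ((∑ i, f i j) / 5)
      ≤ ∑ i, ∑ j, Ph (f i j) + 25 * Ph 1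

/-- R: the inequality of a line (from RD) -/
def St_R : Prop :=
  ∃ k : ℝ → ℝ, ∀ g e : ZMod 5 → ℝ, (∀ i, 0 ≤ e i) → (∀ i, e i + e (i - 1) ≤ g i) →
    (∀ i, g i ≤ 5.002) →
    ∑ i, rowT k (g i) (e i) (e (i - 1)) ≤ 5 * Ph ((∑ i, g i) / 5) - 1 / 2 * ∑ i, Ph (g i)
      - 1 / 2 * Ph 1 * ∑ i, g i - 5 / 512 * ∑ i, (g i - 1)

/-- RD: the dual inequality (from RDW) -/
def St_RD : Prop :=
  ∀ x0 x1 x2 x3 x4 : ℝ, x0 ∈ Set.Icc (-8 : ℝ) (413 / 256) → x1 ∈ Set.Icc (-8 : ℝ) (413 / 256) →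
    x2 ∈ Set.Icc (-8 : ℝ) (413 / 256) → x3 ∈ Set.Icc (-8 : ℝ) (413 / 256) →
    x4 ∈ Set.Icc (-8 : ℝ) (413 / 256) → DIn x0 x1 x2 x3 x4

/-- RDW: the dual inequality in a fundamental domain (certificate, from RDC) -/
def St_RDW : Prop :=
  ∀ x0 x1 x2 x3 x4 : ℝ, x0 ≤ 413 / 256 → -8 ≤ x1 → -8 ≤ x2 → -8 ≤ x3 → -8 ≤ x4 →
    x1 ≤ x0 → x2 ≤ x0 → x3 ≤ x0 → x4 ≤ x1 → DIn x0 x1 x2 x3 x4

/-- RDC: the dual inequality near the centre -/
def St_RDC : Prop :=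
  ∀ x0 x1 x2 x3 x4 : ℝ, |x0| ≤ 1 / 1024 → |x1| ≤ 1 / 1024 → |x2| ≤ 1 / 1024 → |x3| ≤ 1 / 1024 →
    |x4| ≤ 1 / 1024 → DIn x0 x1 x2 x3 x4

/-- S: the inequality at a point (from ST) -/
def St_S : Prop :=
  ∀ E W N S : ℝ, 0 ≤ E → 0 ≤ W → 0 ≤ N → 0 ≤ S → E + W + N + S = 1 → SIn E W N S

/-- the inequality holds on a tetrahedron whose vertices are given in quarters -/
def Tet (v0 v1 v2 v3 : ℝ × ℝ × ℝ × ℝ) : Prop :=
  ∀ a b c d : ℝ, 0 ≤ a → 0 ≤ b → 0 ≤ c → 0 ≤ d → a + b + c + d = 1 →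
    SIn ((a * v0.1 + b * v1.1 + c * v2.1 + d * v3.1) / 4)
      ((a * v0.2.1 + b * v1.2.1 + c * v2.2.1 + d * v3.2.1) / 4)
      ((a * v0.2.2.1 + b * v1.2.2.1 + c * v2.2.2.1 + d * v3.2.2.1) / 4)
      ((a * v0.2.2.2 + b * v1.2.2.2 + c * v2.2.2.2 + d * v3.2.2.2) / 4)

/-- ST: three tetrahedra (certificate, from SC) -/
def St_ST : Prop :=
  Tet (2, 0, 2, 0) (4, 0, 0, 0) (2, 2, 0, 0) (2, 0, 1, 1) ∧
  Tet (2, 0, 2, 0) (2, 0, 1, 1) (1, 1, 1, 1) (2, 2, 0, 0) ∧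
  Tet (2, 0, 2, 0) (1, 1, 2, 0) (1, 1, 1, 1) (2, 2, 0, 0)

/-- SC: the inequality near the centre -/
def St_SC : Prop :=
  ∀ E W N S : ℝ, E + W + N + S = 1 → |E + W - N - S| ≤ 1 / 128 → |E - W| ≤ 1 / 128 →
    |N - S| ≤ 1 / 128 → SIn E W N S

/-- AAS: almost all matchings are colourable or degenerate (from OM, CONC, SP, REP, FM, FN2, SM) -/
def St_AAS : Prop :=
  ∀ ε : ℝ, 0 < ε → ∃ n0 : ℕ, ∀ n, n0 ≤ n → Even n →
    ((sel (Om (HE n)) fun m => Simple m ∧ TriFree m ∧ ¬ Col m).card : ℝ) ≤ ε * (Om (HE n)).card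

/-- MAIN (from OM, G3, G4, TRANS, AAS) -/
def St_MAIN : Prop :=
  ∀ g : ℕ, 4 ≤ g → ∀ ε : ℝ, 0 < ε → ∃ n0 : ℕ, ∀ n, n0 ≤ n → Even n →
    0 < {G : SimpleGraph (Fin n) |
      (∀ v, (G.neighborSet v).ncard = 3) ∧ (g : ℕ∞) ≤ G.egirth}.ncard ∧
    ({G : SimpleGraph (Fin n) | (∀ v, (G.neighborSet v).ncard = 3) ∧ (g : ℕ∞) ≤ G.egirth ∧
        IsEmpty (G →g SimpleGraph.cycleGraph 5)}.ncard : ℝ)
      ≤ ε * {G : SimpleGraph (Fin n) |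
        (∀ v, (G.neighborSet v).ncard = 3) ∧ (g : ℕ∞) ≤ G.egirth}.ncard

/-- the unfolding lemmas of the two recursions are generated once, here -/
theorem seed_eq : True := by
  have := @ports.eq_def
  have := @ports.eq_1
  have := @ports.eq_2
  have := @mu.eq_def
  have := @mu.eq_1
  have := @mu.eq_2
  trivial

end Pool.Agent.Lib.RC5
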