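import Pool.Agent.Lib.RC5.Blue

/-! Balls, nearness and closing a path to a cycle. -/

namespace Pool.Agent.Lib.RC5

open Finset

namespace T25

variable {n : ℕ} {m : HE n → HE n}

theorem near_mono {k l : ℕ} {u v : Fin n} (h : Near m k u v) (hl : k ≤ l) : Near m l u v := by
  induction l, hl using Nat.le_induction with
  | base => exact h
  | succ l _ ih => exact Or.inl ih

theorem near_refl (m : HE n → HE n) (k : ℕ) (u : Fin n) : Near m k u u :=
  near_mono (k := 0) rfl (Nat.zero_le k)

theorem near_step {k : ℕ} {u : Fin n} {h : HE n} (e : Near m k u h.1) :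
    Near m (k + 1) u (m h).1 := Or.inr ⟨h, e, rfl⟩

theorem near_trans {k l : ℕ} {u v w : Fin n} (h1 : Near m k u v) (h2 : Near m l v w) :
    Near m (k + l) u w := by
  induction l generalizing w with
  | zero => obtain rfl : w = v := h2; exact h1
  | succ l ih =>
    rcases h2 with h2 | ⟨h, h2, rfl⟩
    · exact Or.inl (ih h2)
    · exact near_step (ih h2)

theorem near_symm (hm : IsM m) {k : ℕ} {u v : Fin n} (h : Near m k u v) : Near m k v u := by
  induction k generalizing v with
  | zero => exact Eq.symm h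
  | succ k ih =>
    rcases h with h | ⟨q, h, rfl⟩
    · exact Or.inl (ih h)
    · have h1 : Near m (0 + 1) (m q).1 (m (m q)).1 := near_step rfl
      rw [(hm q).1] at h1
      exact near_mono (near_trans h1 (ih h)) (by omega)

theorem ball_he (P : Fin n → Prop) :
    (sel univ fun h : HE n => P h.1).card = 3 * (sel univ P).card := by
  have : (sel univ fun h : HE n => P h.1) = sel univ P ×ˢ univ := by
    ext h
    simp
  rw [this, card_product, card_univ, Fintype.card_fin, mul_comm]

theorem ball_card (m : HE n → HE n) (u : Fin n) (k : ℕ) :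
    (sel univ (Near m k u)).card ≤ 4 ^ k := by
  classical
  induction k with
  | zero => exact card_le_one.2 fun a ha b hb => (mem_sel.1 ha).2.trans (mem_sel.1 hb).2.symm
  | succ k ih =>
    have hsub : sel univ (Near m (k + 1) u) ⊆ sel univ (Near m k u) ∪
        (sel univ fun h : HE n => Near m k u h.1).image fun h => (m h).1 := by
      intro v hv
      rcases (mem_sel.1 hv).2 with h | ⟨h, e, rfl⟩
      · exact mem_union_left _ (mem_sel.2 ⟨mem_univ _, h⟩)
      · exact mem_union_right _ (mem_image.2 ⟨h, mem_sel.2 ⟨mem_univ _, e⟩, rfl⟩)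
    have h1 := (card_le_card hsub).trans ((card_union_le _ _).trans
      (add_le_add le_rfl card_image_le))
    rw [ball_he] at h1
    rw [pow_succ]
    omega

theorem cyc_close {p : ℕ → HE n} {l : ℕ}
    (h1 : ∀ r, r < l → (m (p r)).1 = (p (r + 1)).1 ∧ m (p r) ≠ p (r + 1))
    (h2 : (m (p l)).1 = (p 0).1 ∧ m (p l) ≠ p 0)
    (h3 : ∀ r s, r < s → s ≤ l → (p r).1 ≠ (p s).1) {g : ℕ} (hg : l + 1 < g) :
    OnCyc m g (p l) := by
  refine ⟨l + 1, hg, fun t => p ((t + l) % (l + 1)), ⟨Nat.succ_pos l, fun i => ?_, fun i => ?_,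
    fun i j hij hj => ?_⟩, ?_⟩
  · simp only
    rw [show i + (l + 1) + l = i + l + (l + 1) by ring, Nat.add_mod_right]
  · have hr : (i + l) % (l + 1) < l + 1 := Nat.mod_lt _ (Nat.succ_pos l)
    have e : (i + 1 + l) % (l + 1) = ((i + l) % (l + 1) + 1) % (l + 1) := by
      rw [Nat.mod_add_mod]
      congr 1
      ring
    simp only
    rw [e]
    rcases Nat.lt_succ_iff_lt_or_eq.1 hr with h | h
    · rw [Nat.mod_eq_of_lt (by omega : (i + l) % (l + 1) + 1 < l + 1)]
      exact h1 _ h
    · rw [show (i + l) % (l + 1) = l from h, Nat.mod_self]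
      exact h2
  · have a1 : (i + l) % (l + 1) < l + 1 := Nat.mod_lt _ (Nat.succ_pos l)
    have a2 : (j + l) % (l + 1) < l + 1 := Nat.mod_lt _ (Nat.succ_pos l)
    have hne : (i + l) % (l + 1) ≠ (j + l) % (l + 1) := by
      intro e
      have hd : l + 1 ∣ (j + l) - (i + l) := (Nat.modEq_iff_dvd' (by omega)).1 e
      have := Nat.le_of_dvd (by omega) hd
      omega
    rcases lt_or_gt_of_ne hne with h | h
    · exact h3 _ _ h (by omega)
    · exact (h3 _ _ h (by omega)).symm
  · simp only
    rw [zero_add, Nat.mod_eq_of_lt (Nat.lt_succ_self l)]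

end T25

open T25 in
theorem st_BALL : St_BALL := by
  intro n m k u
  refine ⟨?_, fun hm v h => near_symm hm h⟩
  rw [ball_he (Near m k u)]
  exact Nat.mul_le_mul_left 3 (ball_card m u k)

end Pool.Agent.Lib.RC5
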