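import Pool.Agent.Lib.RC5.Blue

/-! Expected number of half-edges on short cycles. -/

namespace Pool.Agent.Lib.RC5

open Finset

namespace T25

variable {n : ℕ}

/-- the pairs described by a cyclic list of half-edges and ports -/
def prs (k : ℕ) (d : Fin (k + 1) → HE n × Fin 3) : Finset (HE n × HE n) :=
  univ.image fun i => ((d i).1, ((d (i + 1)).1.1, (d i).2))

theorem sub_triv (hS : St_SUB) (F : Finset (HE n × HE n)) (hF : ∀ p ∈ F, (p.2, p.1) ∉ F) :
    (sel (Om (HE n)) fun m => ∀ p ∈ F, m p.1 = p.2).card * (3 * n - 2 * F.card) ^ F.card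
      ≤ (Om (HE n)).card := by
  have e : Comp (fun _ : HE n => ()) id = Om (HE n) := by
    ext m
    simp [Comp]
  have := hS (HE n) Unit (fun _ => ()) id (3 * n) F (fun h => ?_) hF
  · rwa [e] at this
  · have : (sel univ fun _ : HE n => () = ()) = univ := by
      ext x
      simp
    rw [num, this]
    simp [mul_comm]

theorem cyc_data {m : HE n → HE n} {k : ℕ} {c : ℕ → HE n} (hc : Cyc m (k + 1) c) :
    ∃ d : Fin (k + 1) → HE n × Fin 3, (d 0).1 = c 0 ∧ (prs k d).card = k + 1 ∧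
      (∀ p ∈ prs k d, (p.2, p.1) ∉ prs k d) ∧ ∀ p ∈ prs k d, m p.1 = p.2 := by
  have hper : ∀ t, c (t % (k + 1)) = c t := Function.Periodic.map_mod_nat hc.2.1
  have hs : ∀ i : Fin (k + 1), c (i + 1 : Fin (k + 1)) = c (i + 1) := by
    intro i
    rw [Fin.val_add, Fin.val_one', Nat.add_mod_mod, hper]
  have hinj : ∀ i j : Fin (k + 1), (c i).1 = (c j).1 → i = j := by
    intro i j e
    rcases lt_trichotomy (i : ℕ) j with h | h | h
    · exact absurd e (hc.2.2.2 _ _ h (by omega))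
    · exact Fin.ext h
    · exact absurd e.symm (hc.2.2.2 _ _ h (by omega))
  have e : prs k (fun i => (c i, (m (c i)).2)) =
      univ.image fun i : Fin (k + 1) => (c i, m (c i)) := by
    refine image_congr fun i _ => ?_
    simp only
    rw [hs, ← (hc.2.2.1 i).1]
  refine ⟨fun i => (c i, (m (c i)).2), rfl, ?_, ?_, ?_⟩ <;> rw [e]
  · rw [card_image_of_injective _ fun i j h => hinj i j (congrArg (fun p => p.1.1) h)]
    simp
  · intro p hp hq
    obtain ⟨i, -, rfl⟩ := mem_image.1 hp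
    obtain ⟨j, -, hj⟩ := mem_image.1 hq
    have h1 : c j = m (c i) := congrArg Prod.fst hj
    have h2 : j = i + 1 := hinj _ _ (by rw [h1, hs, (hc.2.2.1 i).1])
    rw [h2, hs] at h1
    exact (hc.2.2.1 i).2 h1.symm
  · intro p hp
    obtain ⟨i, -, rfl⟩ := mem_image.1 hp
    rfl

theorem cyc_count (hS : St_SUB) (k : ℕ) (hk : 2 * (k + 1) ≤ n) :
    ∑ m ∈ Om (HE n), (sel univ fun h => ∃ c, Cyc m (k + 1) c ∧ c 0 = h).card
      ≤ 5 ^ (k + 1) * (Om (HE n)).card := by
  classical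
  set V : Finset (Fin (k + 1) → HE n × Fin 3) :=
    sel univ fun d => (prs k d).card = k + 1 ∧ ∀ p ∈ prs k d, (p.2, p.1) ∉ prs k d with hV
  have h1 : ∀ m : HE n → HE n, (sel univ fun h => ∃ c, Cyc m (k + 1) c ∧ c 0 = h).card
      ≤ (V.filter fun d => ∀ p ∈ prs k d, m p.1 = p.2).card := by
    intro m
    refine card_le_card_of_surjOn (fun d => (d 0).1) fun h hh => ?_
    obtain ⟨c, hc, rfl⟩ := (mem_sel.1 (mem_coe.1 hh)).2
    obtain ⟨d, d1, d2, d3, d4⟩ := cyc_data hc
    exact ⟨d, mem_coe.2 (mem_filter.2 ⟨mem_sel.2 ⟨mem_univ _, d2, d3⟩, d4⟩), d1⟩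
  have h2 : ∑ m ∈ Om (HE n), (V.filter fun d => ∀ p ∈ prs k d, m p.1 = p.2).card
      = ∑ d ∈ V, (sel (Om (HE n)) fun m => ∀ p ∈ prs k d, m p.1 = p.2).card := by
    simp only [sel_eq, card_filter]
    exact sum_comm
  have h3 : ∀ d ∈ V, (sel (Om (HE n)) fun m => ∀ p ∈ prs k d, m p.1 = p.2).card
      * (2 * n) ^ (k + 1) ≤ (Om (HE n)).card := by
    intro d hd
    obtain ⟨-, a, b⟩ := mem_sel.1 hd
    have := sub_triv hS _ b
    rw [a] at this
    exact le_trans (Nat.mul_le_mul_left _ (Nat.pow_le_pow_left (by omega) _)) this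
  have h4 : V.card ≤ (5 * (2 * n)) ^ (k + 1) := by
    refine (card_le_univ V).trans ?_
    rw [Fintype.card_fun, Fintype.card_fin]
    refine Nat.pow_le_pow_left ?_ _
    simp only [Fintype.card_prod, Fintype.card_fin]
    omega
  have h5 := sum_le_card_nsmul V _ _ h3
  rw [← sum_mul, ← h2, smul_eq_mul] at h5
  refine (sum_le_sum fun m _ => h1 m).trans
    (Nat.le_of_mul_le_mul_right ?_ (pow_pos (by omega : 0 < 2 * n) (k + 1)))
  refine h5.trans ((Nat.mul_le_mul_right _ h4).trans (le_of_eq ?_))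
  rw [mul_pow]
  ring

end T25

open T25 in
theorem st_G1 (hS : St_SUB) : St_G1 := by
  classical
  intro g n hn
  have h1 : ∀ m : HE n → HE n, ncyc m g
      ≤ ∑ k ∈ range g, (sel univ fun h => ∃ c, Cyc m k c ∧ c 0 = h).card := by
    intro m
    refine le_trans (card_le_card fun h hh => ?_) card_biUnion_le
    obtain ⟨k, hk, hc⟩ := (mem_sel.1 hh).2
    exact mem_biUnion.2 ⟨k, mem_range.2 hk, mem_sel.2 ⟨mem_univ _, hc⟩⟩
  refine (sum_le_sum fun m _ => h1 m).trans ?_
  rw [sum_comm, mul_assoc]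
  refine (sum_le_card_nsmul _ _ (5 ^ g * (Om (HE n)).card) fun k hk => ?_).trans (by simp)
  have hk' := mem_range.1 hk
  rcases k with _ | k
  · rw [sum_eq_zero]
    · exact Nat.zero_le _
    · intro m _
      rw [card_eq_zero, eq_empty_iff_forall_notMem]
      intro h hh
      obtain ⟨c, hc, -⟩ := (mem_sel.1 hh).2
      exact absurd hc.1 (lt_irrefl 0)
  · exact (cyc_count hS k (by omega)).trans
      (Nat.mul_le_mul_right _ (Nat.pow_le_pow_right (by norm_num) hk'.le))

end Pool.Agent.Lib.RC5
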