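import Pool.Agent.Lib.RC5.B_BALL

/-! A switching destroys a short cycle and makes none. -/

namespace Pool.Agent.Lib.RC5

open Finset

namespace T25

section
variable {α : Type} [DecidableEq α] {m : α → α}

theorem sw_sw (b c : α) (m : α → α) : sw b c (sw b c m) = m := by
  funext h
  simp [sw]

theorem sw_isM (hm : IsM m) (b c : α) : IsM (sw b c m) := by
  intro h
  refine ⟨by simp [sw, (hm _).1], fun e => (hm (Equiv.swap b c h)).2 ?_⟩
  have := congrArg (Equiv.swap b c) e
  simpa [sw] using this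

theorem sw_off (hm : IsM m) {a c h : α} (h1 : h ≠ a) (h2 : h ≠ m a) (h3 : h ≠ c) (h4 : h ≠ m c) :
    sw (m a) c m h = m h := by
  rw [sw, Equiv.swap_apply_of_ne_of_ne h2 h3, Equiv.swap_apply_of_ne_of_ne]
  · intro e
    exact h1 (by rw [← (hm h).1, e, (hm a).1])
  · intro e
    exact h4 (by rw [← e, (hm h).1])

theorem sw_a (hm : IsM m) {a c : α} (h1 : a ≠ c) : sw (m a) c m a = c := by
  rw [sw, Equiv.swap_apply_of_ne_of_ne (hm a).2.symm h1, Equiv.swap_apply_left]

theorem sw_b (hm : IsM m) {a c : α} (h1 : a ≠ c) : sw (m a) c m (m a) = m c := by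
  rw [sw, Equiv.swap_apply_left, Equiv.swap_apply_of_ne_of_ne _ (hm c).2]
  intro e
  exact h1 (by rw [← (hm a).1, ← e, (hm c).1])

end

variable {n : ℕ} {m m' : HE n → HE n}

theorem cyc_near {k : ℕ} {c : ℕ → HE n} (hc : Cyc m' k c) (i t : ℕ)
    (he : ∀ s, i ≤ s → s < i + t → m (c s) = m' (c s)) : Near m t (c i).1 (c (i + t)).1 := by
  induction t with
  | zero => rfl
  | succ t ih =>
    have := near_step (ih fun s a b => he s a (by omega))
    rwa [he _ (by omega) (by omega), (hc.2.2.1 _).1] at this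

theorem next_use {k : ℕ} {c : ℕ → HE n} (hc : Cyc m' k c) (S : HE n → Prop)
    (hS : ∀ h, ¬ S h → m h = m' h) {i : ℕ} (hi : S (c i)) :
    ∃ t, t < k ∧ S (c (i + 1 + t)) ∧ (∀ s, i + 1 ≤ s → s < i + 1 + t → m (c s) = m' (c s)) ∧
      Near m t (m' (c i)).1 (c (i + 1 + t)).1 := by
  classical
  have hk := hc.1
  have h0 : S (c (i + 1 + (k - 1))) := by
    rw [show i + 1 + (k - 1) = i + k by omega, hc.2.1]
    exact hi
  have hex : ∃ t, S (c (i + 1 + t)) := ⟨_, h0⟩
  have h1 := Nat.find_min' hex h0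
  have h2 : ∀ s, i + 1 ≤ s → s < i + 1 + Nat.find hex → m (c s) = m' (c s) := by
    intro s a b
    refine hS _ ?_
    have := Nat.find_min hex (show s - (i + 1) < Nat.find hex by omega)
    rwa [show i + 1 + (s - (i + 1)) = s by omega] at this
  refine ⟨Nat.find hex, by omega, Nat.find_spec hex, h2, ?_⟩
  rw [(hc.2.2.1 i).1]
  exact cyc_near hc _ _ h2

theorem no_return (hm : IsM m) {k g i t : ℕ} {c : ℕ → HE n} (hc : Cyc m' k c) (hk : k < g)
    (ht : t < k) (he : ∀ s, i + 1 ≤ s → s < i + 1 + t → m (c s) = m' (c s))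
    (hn : ¬ OnCyc m g (m (m' (c i)))) :
    c (i + 1 + t) ≠ m' (c i) ∧ c (i + 1 + t) ≠ m (m' (c i)) := by
  refine ⟨fun e => ?_, fun e => hn ?_⟩
  · rcases Nat.eq_zero_or_pos t with rfl | h0
    · exact (hc.2.2.1 i).2 e.symm
    · refine hc.2.2.2 (i + 1) (i + 1 + t) (by omega) (by omega) ?_
      rw [e, (hc.2.2.1 i).1]
  · rw [← e]
    refine cyc_close (p := fun r => c (i + 1 + r)) (l := t) (fun r hr => ?_) ?_
      (fun r s a b => hc.2.2.2 _ _ (by omega) (by omega)) (by omega)
    · rw [he _ (by omega) (by omega)]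
      exact hc.2.2.1 _
    · rw [e, (hm _).1]
      exact hc.2.2.1 i

end T25

open T25 in
theorem st_G2 : St_G2 := by
  intro n g m a c hm ha hfar hc hd
  obtain ⟨k, hk, cy, hcy, h0⟩ := ha
  have hk0 := hcy.1
  have hm' := sw_isM hm (m a) c
  have ac : a ≠ c := fun e => hfar (e ▸ near_refl m _ _)
  have ea := sw_a hm ac
  have eb := sw_b hm ac
  set m' := sw (m a) c m with hdef
  have ec : m' c = a := by rw [← ea, (hm' a).1]
  have ed : m' (m c) = m a := by rw [← eb, (hm' _).1]
  have hoff : ∀ h, ¬ (h = a ∨ h = m a ∨ h = c ∨ h = m c) → m h = m' h := by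
    intro h hh
    push Not at hh
    exact (sw_off hm hh.1 hh.2.1 hh.2.2.1 hh.2.2.2).symm
  have far : ∀ (p q : HE n) (t : ℕ), (p = a ∨ p = m a) → (q = c ∨ q = m c) → t ≤ g →
      ¬ Near m t p.1 q.1 := by
    intro p q t hp hq ht hn
    have n1 : Near m 1 a.1 p.1 := by
      rcases hp with rfl | rfl
      · exact near_refl _ _ _
      · exact near_step (k := 0) rfl
    have n2 : Near m 1 q.1 c.1 := by
      rcases hq with rfl | rfl
      · exact near_refl _ _ _
      · exact near_symm hm (near_step (k := 0) rfl)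
    exact hfar (near_mono (near_trans (near_trans n1 hn) n2) (by omega))
  refine ⟨hm', ea, ?_, ?_⟩
  · have hnear : ∀ s, Near m s a.1 (cy s).1 := fun s => by
      have := cyc_near (m := m) hcy 0 s fun _ _ _ => rfl
      rwa [h0, zero_add] at this
    have h1 := cyc_near (m := m') hcy 1 (k - 1) fun s a1 a2 => by
      refine (hoff _ ?_).symm
      rintro (e | e | e | e)
      · exact hcy.2.2.2 0 s (by omega) (by omega) (by rw [h0, e])
      · rcases Nat.eq_or_lt_of_le a1 with rfl | a3
        · exact (hcy.2.2.1 0).2 (by rw [h0]; exact e.symm)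
        · refine hcy.2.2.2 1 s a3 (by omega) ?_
          rw [e, ← h0]
          exact (hcy.2.2.1 0).1.symm
      · exact far a _ s (Or.inl rfl) (Or.inl e) (by omega) (hnear s)
      · exact far a _ s (Or.inl rfl) (Or.inr e) (by omega) (hnear s)
    have e1 : (cy 1).1 = (m a).1 := by rw [← h0]; exact (hcy.2.2.1 0).1.symm
    rw [show 1 + (k - 1) = 0 + k by omega, hcy.2.1, h0, e1] at h1
    exact near_mono (near_symm hm' h1) (by omega)
  rintro h ⟨k', hk', c', hc', rfl⟩
  have step1 : ∀ i, ¬ (c' i = a ∨ c' i = m a) := by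
    intro i hi
    obtain ⟨t, t1, t2, t3, t4⟩ := next_use hc' _ hoff (i := i)
      (hi.imp id Or.inl)
    have hx : m' (c' i) = c ∨ m' (c' i) = m c := by
      rcases hi with e | e <;> rw [e]
      · exact Or.inl ea
      · exact Or.inr eb
    have hy : c' (i + 1 + t) = c ∨ c' (i + 1 + t) = m c := by
      rcases t2 with e | e | e
      · exact absurd (near_symm hm t4) (far _ _ t (Or.inl e) hx (by omega))
      · exact absurd (near_symm hm t4) (far _ _ t (Or.inr e) hx (by omega))
      · exact e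
    rcases hx with e | e
    · have := no_return hm hc' hk' t1 t3 (by rw [e]; exact hd)
      rw [e] at this
      exact hy.elim this.1 this.2
    · have := no_return hm hc' hk' t1 t3 (by rw [e, (hm c).1]; exact hc)
      rw [e, (hm c).1] at this
      exact hy.elim this.2 this.1
  have step2 : ∀ i, ¬ (c' i = a ∨ c' i = m a ∨ c' i = c ∨ c' i = m c) := by
    intro i hi
    obtain ⟨t, t1, t2, -, t4⟩ := next_use hc' _ hoff (i := i) hi
    have hx : m' (c' i) = a ∨ m' (c' i) = m a := by
      rcases hi with e | e | e | e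
      · exact absurd (Or.inl e) (step1 i)
      · exact absurd (Or.inr e) (step1 i)
      · exact Or.inl (by rw [e, ec])
      · exact Or.inr (by rw [e, ed])
    rcases t2 with e | e | e
    · exact step1 _ (Or.inl e)
    · exact step1 _ (Or.inr e)
    · exact far _ _ t hx e (by omega) t4
  refine ⟨⟨k', hk', c', ⟨hc'.1, hc'.2.1, fun i => ?_, hc'.2.2.2⟩, rfl⟩,
    fun e => step1 0 (Or.inl e)⟩
  rw [hoff _ (step2 i)]
  exact hc'.2.2.1 i

end Pool.Agent.Lib.RC5
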