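import Pool.Agent.Lib.RC5.B_G2

/-! With positive probability there is no short cycle. -/

namespace Pool.Agent.Lib.RC5

open Finset

namespace T25

variable {n : ℕ}

theorem sel_mono {β : Type} {S : Finset β} {P Q : β → Prop} (h : ∀ x ∈ S, P x → Q x) :
    (sel S P).card ≤ (sel S Q).card :=
  card_le_card fun x hx => mem_sel.2 ⟨(mem_sel.1 hx).1, h x (mem_sel.1 hx).1 (mem_sel.1 hx).2⟩

theorem sel_or {β : Type} {S : Finset β} {P Q R : β → Prop} (h : ∀ x ∈ S, P x → Q x ∨ R x) :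
    (sel S P).card ≤ (sel S Q).card + (sel S R).card := by
  classical
  refine le_trans (card_le_card fun x hx => ?_) (card_union_le _ _)
  obtain ⟨a, b⟩ := mem_sel.1 hx
  exact mem_union.2 ((h x a b).imp (fun e => mem_sel.2 ⟨a, e⟩) fun e => mem_sel.2 ⟨a, e⟩)

theorem good_many (hB : St_BALL) {m : HE n → HE n} (hm : IsM m) (g : ℕ) (a : HE n) :
    3 * n ≤ (sel univ fun c : HE n => ¬ Near m (2 * g) a.1 c.1 ∧ ¬ OnCyc m g c ∧
      ¬ OnCyc m g (m c)).card + (3 * 4 ^ (2 * g) + 2 * ncyc m g) := by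
  have e0 : (sel univ fun _ : HE n => True).card = 3 * n := ball_he (fun _ => True) |>.trans <| by
    rw [show sel univ (fun _ : Fin n => True) = univ by ext; simp]
    simp
  have e1 := sel_or (S := univ) (P := fun _ : HE n => True)
    (Q := fun c : HE n => ¬ Near m (2 * g) a.1 c.1 ∧ ¬ OnCyc m g c ∧ ¬ OnCyc m g (m c))
    (R := fun c : HE n => Near m (2 * g) a.1 c.1 ∨ OnCyc m g c ∨ OnCyc m g (m c))
    fun x _ _ => by tauto
  have e2 := sel_or (S := univ)
    (P := fun c : HE n => Near m (2 * g) a.1 c.1 ∨ OnCyc m g c ∨ OnCyc m g (m c))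
    fun x _ h => h
  have e3 := sel_or (S := univ) (P := fun c : HE n => OnCyc m g c ∨ OnCyc m g (m c))
    fun x _ h => h
  have e4 := (hB n m (2 * g) a.1).1
  have e5 : (sel univ fun c : HE n => OnCyc m g (m c)).card ≤ ncyc m g :=
    card_le_card_of_injOn m (fun c hc => mem_coe.2 (mem_sel.2 ⟨mem_univ _,
      (mem_sel.1 (mem_coe.1 hc)).2⟩)) fun x _ y _ e => by rw [← (hm x).1, e, (hm y).1]
  have e6 : (sel univ (OnCyc m g)).card ≤ ncyc m g := le_rfl
  omega

theorem one_less (hB : St_BALL) (h2 : St_G2) (g j : ℕ) (hj : 1 ≤ j) (h0 : 0 < n)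
    (hn : 3 * 4 ^ (2 * g) + 2 * j ≤ 2 * n) :
    (sel (Om (HE n)) fun m => ncyc m g = j).card
      ≤ 9 * 4 ^ g * (sel (Om (HE n)) fun m => ncyc m g < j).card := by
  classical
  set B := sel (Om (HE n)) fun m => ncyc m g < j with hBdef
  set T : Finset ((HE n → HE n) × HE n × HE n) :=
    sel univ fun t => t.1 ∈ B ∧ Near t.1 g t.2.1.1 t.2.2.1 with hT
  have hTc : T.card ≤ 3 * 4 ^ g * (B ×ˢ (univ : Finset (HE n))).card := by
    refine card_le_mul_card_image_of_maps_to (f := fun t => (t.1, t.2.1))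
      (fun t ht => mem_product.2 ⟨(mem_sel.1 ht).2.1, mem_univ _⟩) _ fun b _ => ?_
    refine le_trans (card_le_card_of_injOn (fun t => t.2.2) (fun t ht => ?_)
      fun t ht s hs e => ?_) (hB n b.1 g b.2.1).1
    · obtain ⟨a1, rfl⟩ := mem_filter.1 (mem_coe.1 ht)
      exact mem_coe.2 (mem_sel.2 ⟨mem_univ _, (mem_sel.1 a1).2.2⟩)
    · have a1 := ((mem_filter.1 (mem_coe.1 ht)).2).trans ((mem_filter.1 (mem_coe.1 hs)).2).symm
      exact Prod.ext (Prod.mk.inj a1).1 (Prod.ext (Prod.mk.inj a1).2 e)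
  have hmain := card_mul_le_card_mul
    (fun (m : HE n → HE n) (t : (HE n → HE n) × HE n × HE n) => m = sw t.2.2 (t.1 t.2.1) t.1)
    (s := sel (Om (HE n)) fun m => ncyc m g = j) (t := T) (m := n) (n := 1) (fun m hm => ?_)
    fun t _ => card_le_one.2 fun x hx y hy =>
      ((mem_bipartiteBelow _).1 hx).2.trans ((mem_bipartiteBelow _).1 hy).2.symm
  · rw [card_product, card_univ, Fintype.card_prod, Fintype.card_fin, Fintype.card_fin] at hTc
    refine Nat.le_of_mul_le_mul_right (hmain.trans ?_) h0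
    rw [mul_one]
    exact hTc.trans (le_of_eq (by ring))
  obtain ⟨m1, m2⟩ := mem_sel.1 hm
  have hM : IsM m := (mem_sel.1 m1).2
  obtain ⟨a, ha⟩ : (sel univ (OnCyc m g)).Nonempty := card_pos.1 (by change 0 < ncyc m g; omega)
  have hg := good_many hB hM g a
  refine le_trans (by omega) (card_le_card_of_injOn (s := sel univ fun c : HE n =>
    ¬ Near m (2 * g) a.1 c.1 ∧ ¬ OnCyc m g c ∧ ¬ OnCyc m g (m c))
    (fun c => (sw (m a) c m, a, m a)) (fun c hc => ?_) fun c hc c' hc' e => ?_)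
  · obtain ⟨-, c1, c2, c3⟩ := mem_sel.1 (mem_coe.1 hc)
    obtain ⟨d1, d2, d3, d4⟩ := h2 n g m a c hM (mem_sel.1 ha).2 c1 c2 c3
    refine mem_coe.2 ((mem_bipartiteAbove _).2 ⟨mem_sel.2 ⟨mem_univ _,
      mem_sel.2 ⟨mem_sel.2 ⟨mem_univ _, d1⟩, ?_⟩, d3⟩, ?_⟩)
    · rw [← m2]
      refine card_lt_card ⟨fun h hh => mem_sel.2 ⟨mem_univ _, (d4 h (mem_sel.1 hh).2).1⟩,
        fun e => (d4 a (mem_sel.1 (e ha)).2).2 rfl⟩
    · simp only
      rw [d2, sw_sw]
  · obtain ⟨-, c1, c2, c3⟩ := mem_sel.1 (mem_coe.1 hc)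
    obtain ⟨-, c1', c2', c3'⟩ := mem_sel.1 (mem_coe.1 hc')
    rw [← (h2 n g m a c hM (mem_sel.1 ha).2 c1 c2 c3).2.1,
      show sw (m a) c m = sw (m a) c' m from congrArg Prod.fst e]
    exact (h2 n g m a c' hM (mem_sel.1 ha).2 c1' c2' c3').2.1

theorem markov (h1 : St_G1) (g : ℕ) (hn : 2 * g ≤ n) :
    (Om (HE n)).card ≤ 2 * (sel (Om (HE n)) fun m => ncyc m g < 2 * (g * 5 ^ g) + 1).card := by
  classical
  have e1 := card_filter_add_card_filter_not (s := Om (HE n))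
    fun m => ncyc m g < 2 * (g * 5 ^ g) + 1
  have e2 := card_nsmul_le_sum ((Om (HE n)).filter fun m => ¬ ncyc m g < 2 * (g * 5 ^ g) + 1)
    (fun m => ncyc m g) (2 * (g * 5 ^ g) + 1) fun m hm => not_lt.1 (mem_filter.1 hm).2
  have e3 := (e2.trans (sum_le_sum_of_subset (filter_subset _ _))).trans (h1 g n hn)
  rw [sel_eq, smul_eq_mul] at *
  by_contra hlt
  nlinarith [Nat.zero_le (g * 5 ^ g)]

end T25

open T25 in
theorem st_G3 (hB : St_BALL) (h1 : St_G1) (h2 : St_G2) : St_G3 := by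
  intro g
  set J := 2 * (g * 5 ^ g) with hJ
  set K := 1 + 9 * 4 ^ g with hK
  have hK0 : 0 < 2 * K ^ J := by positivity
  refine ⟨1 / ((2 * K ^ J : ℕ) : ℝ), by positivity, 3 * 4 ^ (2 * g) + 2 * J + 2 * g + 1,
    fun n hn => ?_⟩
  have key : ∀ j, j ≤ J → (sel (Om (HE n)) fun m => ncyc m g < j + 1).card
      ≤ K ^ j * (sel (Om (HE n)) fun m => ∀ h, ¬ OnCyc m g h).card := by
    intro j hj
    induction j with
    | zero =>
      rw [pow_zero, one_mul]
      refine sel_mono fun m _ hm h hh => ?_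
      have : 0 < ncyc m g := card_pos.2 ⟨h, mem_sel.2 ⟨mem_univ _, hh⟩⟩
      omega
    | succ j ih =>
      have a1 := sel_or (S := Om (HE n)) (P := fun m => ncyc m g < j + 1 + 1)
        (Q := fun m => ncyc m g < j + 1) (R := fun m => ncyc m g = j + 1) fun m _ h => by omega
      have a2 := one_less (n := n) hB h2 g (j + 1) (by omega) (by omega) (by omega)
      refine (a1.trans (add_le_add le_rfl a2)).trans ?_
      rw [pow_succ', mul_assoc K]
      exact le_trans (le_of_eq (by rw [hK]; ring)) (Nat.mul_le_mul_left K (ih (by omega)))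
  have a3 := (markov (n := n) h1 g (by omega)).trans (Nat.mul_le_mul_left 2 (key J le_rfl))
  rw [div_mul_eq_mul_div, one_mul, div_le_iff₀ (by exact_mod_cast hK0)]
  exact_mod_cast a3.trans (le_of_eq (by ring))

end Pool.Agent.Lib.RC5
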