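import Pool.Agent.Lib.RC5.B_BALL

/-! From matchings to graphs. -/

namespace Pool.Agent.Lib.RC5

open Finset

namespace T25

variable {n : ℕ} {m : HE n → HE n}

theorem gr_adj (hm : IsM m) {u v : Fin n} (h : (Gr m).Adj u v) :
    ∃ q : HE n, q.1 = u ∧ (m q).1 = v := by
  rcases ((SimpleGraph.fromRel_adj _ _ _).1 h).2 with ⟨i, hi⟩ | ⟨i, hi⟩
  · exact ⟨(u, i), rfl, hi⟩
  · exact ⟨m (v, i), hi, by rw [(hm _).1]⟩

theorem gr_adj' (hs : Simple m) (q : HE n) : (Gr m).Adj q.1 (m q).1 :=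
  (SimpleGraph.fromRel_adj _ _ _).2 ⟨(hs q).1.symm, Or.inl ⟨q.2, rfl⟩⟩

theorem simple_of (hm : IsM m) {g : ℕ} (hg : 3 ≤ g) (hc : ∀ h, ¬ OnCyc m g h) : Simple m := by
  have h1 : ∀ h, (m h).1 ≠ h.1 := fun h e =>
    hc h (cyc_close (p := fun _ => h) (l := 0) (fun r hr => by omega) ⟨e, (hm h).2⟩
      (fun r s a b => by omega) (by omega))
  refine fun h => ⟨h1 h, fun h' e1 e2 => ?_⟩
  by_contra hne
  refine hc (m h') (cyc_close (p := fun t => if t = 0 then h else m h') (l := 1)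
    (fun r hr => ?_) ?_ (fun r s a b => ?_) (by omega))
  · obtain rfl : r = 0 := by omega
    simp only [if_true, zero_add, one_ne_zero, if_false]
    exact ⟨e2.symm, fun e => hne (by rw [← (hm h').1, ← e, (hm h).1])⟩
  · simp only [if_true, one_ne_zero, if_false, (hm h').1]
    exact ⟨e1, hne⟩
  · obtain rfl : r = 0 := by omega
    obtain rfl : s = 1 := by omega
    simp only [if_true, one_ne_zero, if_false]
    rw [e2]
    exact (h1 h).symm

theorem girth_of (hm : IsM m) {g : ℕ} (hc : ∀ h, ¬ OnCyc m g h) :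
    (g : ℕ∞) ≤ (Gr m).egirth := by
  refine SimpleGraph.le_egirth.2 fun u w hw => ?_
  rw [Nat.cast_le]
  by_contra hlt
  have h3 := hw.three_le_length
  have hp : ∀ r, ∃ q : HE n, r < w.length → q.1 = w.getVert r ∧ (m q).1 = w.getVert (r + 1) := by
    intro r
    by_cases hr : r < w.length
    · obtain ⟨q, hq⟩ := gr_adj hm (w.adj_getVert_succ hr)
      exact ⟨q, fun _ => hq⟩
    · exact ⟨(u, 0), fun e => absurd e hr⟩
  choose p hp using hp
  obtain ⟨l, hl⟩ : ∃ l, w.length = l + 1 := ⟨w.length - 1, by omega⟩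
  have i1 : ∀ r s, r ≤ l → s ≤ l → w.getVert r = w.getVert s → r = s := fun r s a b e =>
    hw.getVert_injOn' (show r ≤ w.length - 1 by omega) (show s ≤ w.length - 1 by omega) e
  have i2 : ∀ r s, 1 ≤ r → r ≤ l + 1 → 1 ≤ s → s ≤ l + 1 → w.getVert r = w.getVert s → r = s :=
    fun r s a b c d e => hw.getVert_injOn (show 1 ≤ r ∧ r ≤ w.length by omega)
      (show 1 ≤ s ∧ s ≤ w.length by omega) e
  refine hc (p l) (cyc_close (fun r hr => ⟨?_, fun e => ?_⟩) ⟨?_, fun e => ?_⟩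
    (fun r s a b e => ?_) (by omega))
  · rw [(hp r (by omega)).2, (hp (r + 1) (by omega)).1]
  · have e1 := (hp (r + 1) (by omega)).2
    rw [← e, (hm _).1, (hp r (by omega)).1] at e1
    rcases Nat.eq_zero_or_pos r with h0 | h0
    · have := i1 _ _ (by omega) (by omega) e1
      omega
    · have := i2 _ _ (by omega) (by omega) (by omega) (by omega) e1
      omega
  · rw [(hp l (by omega)).2, (hp 0 (by omega)).1, ← hl, w.getVert_length, w.getVert_zero]
  · have e1 := (hp 0 (by omega)).2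
    rw [← e, (hm _).1, (hp l (by omega)).1] at e1
    have := i1 _ _ (by omega) (by omega) e1
    omega
  · rw [(hp r (by omega)).1, (hp s (by omega)).1] at e
    have := i1 _ _ (by omega) (by omega) e
    omega

theorem ad_cyc : ∀ x y : ZMod 5, Ad x y → (SimpleGraph.cycleGraph 5).Adj x y := by
  unfold Ad
  decide

end T25

open T25 in
theorem st_G4 : St_G4 := by
  classical
  intro n g m hm
  refine ⟨fun hg hc => ⟨simple_of hm hg hc, girth_of hm hc⟩, fun hs h4 h1 h2 h3 e1 e2 e3 => ?_,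
    fun ⟨c, hc⟩ => ⟨⟨c, fun {u v} h => ?_⟩⟩⟩
  · have a1 := gr_adj' hs h1
    have a2 := gr_adj' hs h2
    have a3 := gr_adj' hs h3
    rw [e1] at a1
    rw [e2] at a2
    rw [e3] at a3
    obtain ⟨u, w, hw, hl⟩ := SimpleGraph.is3Clique_iff_exists_cycle_length_three.1
      ⟨_, SimpleGraph.is3Clique_triple_iff.2 ⟨a1, a3.symm, a2⟩⟩
    have := SimpleGraph.le_egirth.1 h4 u w hw
    rw [hl] at this
    exact absurd this (by decide)
  · obtain ⟨q, rfl, rfl⟩ := gr_adj hm h
    exact ad_cyc _ _ (hc q)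

end Pool.Agent.Lib.RC5
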