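import Pool.Agent.Lib.RC5.Blue

/-! The number of perfect matchings. -/

namespace Pool.Agent.Lib.RC5

open Finset

namespace T13

variable {α : Type} [Fintype α] [DecidableEq α]

/-- involutions that move exactly the points of `S` -/
noncomputable def invS (S : Finset α) : Finset (α → α) :=
  sel univ fun m => ∀ h, m (m h) = h ∧ (m h ≠ h ↔ h ∈ S)

theorem invS_fibre (S : Finset α) (a b : α) :
    ((invS S).filter fun m => m a = b).card ≤ (invS ((S.erase a).erase b)).card := by
  refine card_le_card_of_injOn (fun m h => if h = a ∨ h = b then h else m h) ?_ ?_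
  · intro m hm
    simp only [invS, coe_filter, mem_sel, mem_univ, true_and, Set.mem_ofPred_eq, mem_coe] at hm ⊢
    obtain ⟨h1, h2⟩ := hm
    have h3 : m b = a := by rw [← h2, (h1 a).1]
    intro h
    by_cases hh : h = a ∨ h = b
    · simp only [if_pos hh, mem_erase]
      tauto
    · have h4 : ¬(m h = a ∨ m h = b) := by
        rintro (e | e)
        · exact hh (Or.inr (by rw [← (h1 h).1, e, h2]))
        · exact hh (Or.inl (by rw [← (h1 h).1, e, h3]))
      simp only [if_neg hh, if_neg h4, mem_erase, (h1 h).1, (h1 h).2]
      tauto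
  · intro m hm m' hm' e
    simp only [invS, coe_filter, mem_sel, mem_univ, true_and, Set.mem_ofPred_eq] at hm hm'
    funext h
    by_cases ha : h = a
    · rw [ha, hm.2, hm'.2]
    · by_cases hb : h = b
      · rw [hb]
        conv_lhs => rw [← hm.2, (hm.1 a).1]
        rw [← hm'.2, (hm'.1 a).1]
      · simpa [ha, hb] using congrFun e h

theorem invS_card (k : ℕ) :
    ∀ S : Finset α, S.card = 2 * k → (invS S).card ≤ 2 ^ k * k.factorial := by
  induction k with
  | zero =>
    intro S hS
    rw [mul_zero, card_eq_zero] at hS
    subst hS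
    refine card_le_one.2 fun m hm m' hm' => funext fun h => ?_
    simp only [invS, mem_sel, mem_univ, true_and, notMem_empty, iff_false, not_not] at hm hm'
    rw [(hm h).2, (hm' h).2]
  | succ k ih =>
    intro S hS
    obtain ⟨a, ha⟩ := card_pos.1 (show 0 < S.card by omega)
    have h1 : (invS S).card ≤ 2 ^ k * k.factorial * (S.erase a).card := by
      refine card_le_mul_card_image_of_maps_to (f := fun m : α → α => m a) (fun m hm => ?_) _
        fun b hb => (invS_fibre S a b).trans (ih _ ?_)
      · simp only [invS, mem_sel, mem_univ, true_and] at hm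
        have h2 := (hm a).2.2 ha
        exact mem_erase.2 ⟨h2, (hm (m a)).2.1 (by rw [(hm a).1]; exact h2.symm)⟩
      · rw [card_erase_of_mem hb, card_erase_of_mem ha]; omega
    rw [card_erase_of_mem ha, hS] at h1
    refine h1.trans ?_
    rw [pow_succ, Nat.factorial_succ]
    calc 2 ^ k * k.factorial * (2 * (k + 1) - 1) ≤ 2 ^ k * k.factorial * (2 * (k + 1)) := by
          gcongr; omega
      _ = 2 ^ k * 2 * ((k + 1) * k.factorial) := by ring

end T13

theorem st_OM : St_OM := by
  intro α _ _ k hk
  constructor
  · obtain ⟨e⟩ : Nonempty (α ≃ Fin k × Bool) := Fintype.card_eq.1 (by simp [hk, mul_comm])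
    refine card_pos.2 ⟨fun h => e.symm ((e h).1, !(e h).2), ?_⟩
    simp only [Om, mem_sel, mem_univ, true_and]
    intro h
    refine ⟨by simp, fun c => ?_⟩
    have := congrArg (fun x => (e x).2) c
    simp at this
  · refine le_trans (card_le_card fun m hm => ?_) (T13.invS_card k univ (by rw [card_univ, hk]))
    simp only [Om, T13.invS, mem_sel, mem_univ, true_and, iff_true] at hm ⊢
    exact hm

end Pool.Agent.Lib.RC5
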