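import Pool.Agent.Lib.RC5.Blue

namespace Pool.Agent.Lib.RC5

open Finset

namespace T50

lemma sp_const (D : ℕ) (hD : 1 ≤ D) : (40 : ℝ) ^ (2 * D + 1) * (1 / 256000) ^ D ≤ 1 / 4 := by
  induction D, hD using Nat.le_induction with
  | base => norm_num
  | succ D _ ih =>
    have e : (40 : ℝ) ^ (2 * (D + 1) + 1) * (1 / 256000) ^ (D + 1) =
        40 ^ (2 * D + 1) * (1 / 256000) ^ D * (1 / 160) := by
      rw [show 2 * (D + 1) + 1 = 2 * D + 1 + 2 by ring, pow_add, pow_succ (1 / 256000 : ℝ)]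
      ring
    have h0 : (0 : ℝ) ≤ 40 ^ (2 * D + 1) * (1 / 256000) ^ D := by positivity
    rw [e]
    linarith

lemma sp_term {D u : ℕ} (hD : 1 ≤ D) (hu : 1 ≤ u) {x ρ : ℝ} (hx0 : 0 ≤ x) (hx : x ≤ 1 / 4)
    (hρ0 : 0 ≤ ρ) (hρ1 : ρ ≤ 1) (hρ : 1 / 4 ≤ ρ ^ (2 * D)) :
    x ^ ((u + 2 * D - 1) / (2 * D)) ≤ 4 * x * ρ ^ u := by
  obtain ⟨s, hs⟩ : ∃ s, s = (u + 2 * D - 1) / (2 * D) := ⟨_, rfl⟩
  have h1 := Nat.div_add_mod (u + 2 * D - 1) (2 * D)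
  have h2 := Nat.mod_lt (u + 2 * D - 1) (show 0 < 2 * D by omega)
  rw [← hs] at h1 ⊢
  have h3 : u ≤ 2 * D * s := by omega
  obtain ⟨t, rfl⟩ : ∃ t, s = t + 1 := by
    rcases s with _ | t
    · omega
    · exact ⟨t, rfl⟩
  have h4 : (1 / 4 : ℝ) ^ (t + 1) ≤ ρ ^ u :=
    calc (1 / 4 : ℝ) ^ (t + 1) ≤ (ρ ^ (2 * D)) ^ (t + 1) := pow_le_pow_left₀ (by norm_num) hρ _
      _ = ρ ^ (2 * D * (t + 1)) := by rw [← pow_mul]
      _ ≤ ρ ^ u := pow_le_pow_of_le_one hρ0 hρ1 h3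
  have h5 : x ^ t ≤ (1 / 4 : ℝ) ^ t := pow_le_pow_left₀ hx0 hx _
  rw [pow_succ] at h4 ⊢
  nlinarith [mul_le_mul_of_nonneg_right h5 hx0, mul_le_mul_of_nonneg_left h4 hx0]

end T50

theorem st_SP (h : St_SP1) : St_SP := by
  classical
  intro D hD ε hε
  have hD' : (1 : ℝ) ≤ D := by exact_mod_cast hD
  obtain ⟨ρ, hρ⟩ : ∃ ρ : ℝ, ρ = 1 - 1 / (4 * D) := ⟨_, rfl⟩
  have hq0 : (0 : ℝ) < 1 / (4 * D) := by positivity
  have hq1 : 1 / (4 * (D : ℝ)) ≤ 1 / 4 := one_div_le_one_div_of_le (by norm_num) (by linarith)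
  have hρ0 : 0 ≤ ρ := by linarith
  have hρ1 : ρ < 1 := by linarith
  have hρ2 : 1 / 4 ≤ ρ ^ (2 * D) := by
    have h1 := one_add_mul_le_pow (a := -(1 / (4 * (D : ℝ)))) (by linarith) (2 * D)
    have h2 : ((2 * D : ℕ) : ℝ) * -(1 / (4 * (D : ℝ))) = -(1 / 2) := by
      push_cast; field_simp; ring
    rw [h2, ← sub_eq_add_neg, ← sub_eq_add_neg, ← hρ] at h1
    linarith
  have hsum : Summable fun u : ℕ => (u : ℝ) ^ 1 * ρ ^ u :=
    summable_pow_mul_geometric_of_norm_lt_one 1 (by rw [Real.norm_eq_abs, abs_of_nonneg hρ0]; exact hρ1)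
  obtain ⟨C, hC⟩ : ∃ C : ℝ, C = ∑' u : ℕ, (u : ℝ) ^ 1 * ρ ^ u := ⟨_, rfl⟩
  obtain ⟨a, ha⟩ : ∃ a : ℝ, a = 40 ^ (2 * D + 1) := ⟨_, rfl⟩
  have ha0 : 0 < a := by rw [ha]; positivity
  obtain ⟨n0, hn0⟩ := exists_nat_gt (4 * a * C / ε)
  refine ⟨n0 + 1, fun n hn => ?_⟩
  have hn1 : (n0 : ℝ) + 1 ≤ n := by exact_mod_cast hn
  have hnpos : (0 : ℝ) < n := by linarith [Nat.cast_nonneg (α := ℝ) n0]
  obtain ⟨κ, hκ⟩ : ∃ κ : ℝ, κ = (1 / 256000) ^ D := ⟨_, rfl⟩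
  have hκ0 : 0 ≤ κ := by rw [hκ]; positivity
  have hκ1 : κ ≤ 1 / 256000 := by
    rw [hκ]
    simpa using pow_le_pow_of_le_one (a := (1 / 256000 : ℝ)) (by norm_num) (by norm_num) hD
  have haκ : a * κ ≤ 1 / 4 := by rw [ha, hκ]; exact T50.sp_const D hD
  rw [← hκ]
  set I : Finset ℕ := (range (n + 1)).filter (fun u => 1 ≤ u ∧ (u : ℝ) ≤ κ * n) with hI
  set A : ℕ → Finset (HE n → HE n) := fun u => sel (Om (HE n)) fun m =>
    ∃ U : Finset (Fin n), U.card = u ∧ (2 * D + 1) * u ≤ D * inn m U with hA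
  have hsub : (sel (Om (HE n)) fun m => ¬ Sparse m D (κ * n)) ⊆ I.biUnion A := by
    intro m hm
    rw [mem_sel] at hm
    obtain ⟨hm1, hm2⟩ := hm
    unfold Sparse at hm2
    push Not at hm2
    obtain ⟨U, U1, U2, U3⟩ := hm2
    rw [mem_biUnion]
    refine ⟨U.card, ?_, ?_⟩
    · rw [hI, mem_filter, mem_range]
      have := card_le_univ U
      rw [Fintype.card_fin] at this
      exact ⟨by omega, card_pos.2 U1, U2⟩
    · rw [hA, mem_sel]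
      exact ⟨hm1, U, rfl, U3⟩
  have hterm : ∀ u ∈ I, ((A u).card : ℝ) ≤
      4 * a / n * ((u : ℝ) ^ 1 * ρ ^ u) * (Om (HE n)).card := by
    intro u hu
    obtain ⟨_, u1, u2⟩ := mem_filter.1 hu
    have u3 : 3 * u ≤ n := by
      have : (3 : ℝ) * u ≤ n := by nlinarith
      exact_mod_cast this
    refine (h n D u hD u1 u3).trans (mul_le_mul_of_nonneg_right ?_ (Nat.cast_nonneg _))
    rw [← ha]
    have hx : a * u / n ≤ 1 / 4 := by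
      rw [div_le_iff₀ hnpos]
      nlinarith [mul_le_mul_of_nonneg_left u2 ha0.le, mul_le_mul_of_nonneg_right haκ hnpos.le]
    refine (T50.sp_term hD u1 (by positivity) hx hρ0 hρ1.le hρ2).trans (le_of_eq ?_)
    ring
  have hle : ∑ u ∈ I, (u : ℝ) ^ 1 * ρ ^ u ≤ C := by
    rw [hC]
    exact hsum.sum_le_tsum I fun u _ => by positivity
  calc ((sel (Om (HE n)) fun m => ¬ Sparse m D (κ * n)).card : ℝ)
      ≤ ((∑ u ∈ I, (A u).card : ℕ) : ℝ) := by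
        exact_mod_cast (card_le_card hsub).trans card_biUnion_le
    _ = ∑ u ∈ I, ((A u).card : ℝ) := by push_cast; rfl
    _ ≤ ∑ u ∈ I, 4 * a / n * ((u : ℝ) ^ 1 * ρ ^ u) * (Om (HE n)).card := sum_le_sum hterm
    _ = 4 * a / n * (∑ u ∈ I, (u : ℝ) ^ 1 * ρ ^ u) * (Om (HE n)).card := by
        rw [← sum_mul, ← mul_sum]
    _ ≤ ε * (Om (HE n)).card := by
        apply mul_le_mul_of_nonneg_right _ (Nat.cast_nonneg _)
        have h1 : 4 * a / n * (∑ u ∈ I, (u : ℝ) ^ 1 * ρ ^ u) ≤ 4 * a / n * C :=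
          mul_le_mul_of_nonneg_left hle (by positivity)
        refine h1.trans ?_
        rw [div_lt_iff₀ hε] at hn0
        rw [div_mul_eq_mul_div, div_le_iff₀ hnpos]
        nlinarith

end Pool.Agent.Lib.RC5
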