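import Pool.Agent.Lib.RC5.B_G1

/-! Probability of a dense set of given size. -/

namespace Pool.Agent.Lib.RC5

open Finset

namespace T44

variable {n : ℕ}

theorem pairs_of_dense {m : HE n → HE n} (hm : IsM m) (U : Finset (Fin n)) {e : ℕ}
    (he : 2 * e ≤ inn m U + 1) :
    ∃ F ∈ powersetCard e ((U ×ˢ (univ : Finset (Fin 3))) ×ˢ (U ×ˢ (univ : Finset (Fin 3)))),
      (∀ p ∈ F, (p.2, p.1) ∉ F) ∧ ∀ p ∈ F, m p.1 = p.2 := by
  classical
  let r : HE n → ℕ := fun h => Fintype.equivFin (HE n) h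
  have hr : ∀ a b, r a = r b → a = b := fun a b h =>
    (Fintype.equivFin (HE n)).injective (Fin.ext h)
  set I := univ.filter fun h : HE n => (h.1 ∈ U ∧ (m h).1 ∈ U) ∧ r h < r (m h) with hI
  have h1 : inn m U = 2 * I.card := by
    have e1 : (sel univ fun h : HE n => h.1 ∈ U ∧ (m h).1 ∈ U) = I ∪ I.image m := by
      ext h
      simp only [mem_sel, mem_univ, true_and, mem_union, mem_image, hI, mem_filter]
      constructor
      · intro hh
        rcases lt_trichotomy (r h) (r (m h)) with a | a | a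
        · exact Or.inl ⟨hh, a⟩
        · exact absurd (hr _ _ a).symm (hm h).2
        · exact Or.inr ⟨m h, by rw [(hm h).1]; exact ⟨hh.symm, a⟩, (hm h).1⟩
      · rintro (a | ⟨b, a, rfl⟩)
        · exact a.1
        · rw [(hm b).1]; exact a.1.symm
    rw [inn, e1, card_union_of_disjoint, card_image_of_injective _
      (Function.LeftInverse.injective fun h => (hm h).1), two_mul]
    rw [disjoint_left]
    intro h a b
    obtain ⟨c, hc, rfl⟩ := mem_image.1 b
    have a1 := (mem_filter.1 a).2.2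
    rw [(hm c).1] at a1
    exact absurd (mem_filter.1 hc).2.2 (not_lt.2 a1.le)
  obtain ⟨J, hJ, hc⟩ := exists_subset_card_eq (s := I) (n := e) (by omega)
  refine ⟨J.image fun h => (h, m h), mem_powersetCard.2 ⟨fun p hp => ?_, ?_⟩, fun p hp hq => ?_,
    fun p hp => ?_⟩
  · obtain ⟨h, hh, rfl⟩ := mem_image.1 hp
    have := (mem_filter.1 (hJ hh)).2.1
    simp [this.1, this.2]
  · rw [card_image_of_injective _ fun a b h => congrArg Prod.fst h, hc]
  · obtain ⟨h, hh, rfl⟩ := mem_image.1 hp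
    obtain ⟨h', hh', e'⟩ := mem_image.1 hq
    have a1 := (mem_filter.1 (hJ hh)).2.2
    have a2 := (mem_filter.1 (hJ hh')).2.2
    rw [show m h' = h from congrArg Prod.snd e', show h' = m h from congrArg Prod.fst e'] at a2
    omega
  · obtain ⟨h, -, rfl⟩ := mem_image.1 hp
    rfl

theorem count_dense (hS : St_SUB) (u e : ℕ) :
    (sel (Om (HE n)) fun m => ∃ U : Finset (Fin n), U.card = u ∧ 2 * e ≤ inn m U + 1).card *
      (3 * n - 2 * e) ^ e ≤ n.choose u * ((9 * u ^ 2).choose e * (Om (HE n)).card) := by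
  classical
  let V : Finset (Fin n) → Finset (Finset (HE n × HE n)) := fun U =>
    (powersetCard e ((U ×ˢ (univ : Finset (Fin 3))) ×ˢ (U ×ˢ (univ : Finset (Fin 3))))).filter
      fun F => ∀ p ∈ F, (p.2, p.1) ∉ F
  have h1 : (sel (Om (HE n)) fun m => ∃ U : Finset (Fin n), U.card = u ∧ 2 * e ≤ inn m U + 1) ⊆
      (powersetCard u univ).biUnion fun U => (V U).biUnion fun F =>
        sel (Om (HE n)) fun m => ∀ p ∈ F, m p.1 = p.2 := by
    intro m hm
    obtain ⟨h0, U, hU, hd⟩ := mem_sel.1 hm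
    obtain ⟨F, f1, f2, f3⟩ := pairs_of_dense (mem_sel.1 h0).2 U hd
    exact mem_biUnion.2 ⟨U, mem_powersetCard.2 ⟨subset_univ _, hU⟩,
      mem_biUnion.2 ⟨F, mem_filter.2 ⟨f1, f2⟩, mem_sel.2 ⟨h0, f3⟩⟩⟩
  refine (Nat.mul_le_mul_right _ ((card_le_card h1).trans card_biUnion_le)).trans ?_
  rw [sum_mul]
  refine (sum_le_card_nsmul _ _ ((9 * u ^ 2).choose e * (Om (HE n)).card) fun U hU => ?_).trans
    (by simp)
  refine (Nat.mul_le_mul_right _ card_biUnion_le).trans ?_
  rw [sum_mul]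
  refine (sum_le_card_nsmul _ _ (Om (HE n)).card fun F hF => ?_).trans ?_
  · obtain ⟨f1, f2⟩ := mem_filter.1 hF
    have := T25.sub_triv hS F f2
    rwa [(mem_powersetCard.1 f1).2] at this
  · refine Nat.mul_le_mul_right _ ((card_filter_le _ _).trans (le_of_eq ?_))
    rw [card_powersetCard, card_product, card_product, (mem_powersetCard.1 hU).2]
    congr 1
    simp only [card_univ, Fintype.card_fin]
    ring

theorem choose_le (a : ℕ) {k : ℕ} (hk : 1 ≤ k) :
    (a.choose k : ℝ) ≤ (a * Real.exp 1 / k) ^ k := by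
  have h0 : (0 : ℝ) < k := by exact_mod_cast hk
  have h1 := Real.pow_div_factorial_le_exp (k : ℝ) h0.le k
  have h2 : (0 : ℝ) < k.factorial := by exact_mod_cast k.factorial_pos
  refine (Nat.choose_le_pow_div k a).trans ?_
  rw [div_pow, mul_pow, Real.exp_one_pow, div_le_div_iff₀ h2 (by positivity), mul_assoc]
  rw [div_le_iff₀ h2] at h1
  gcongr

end T44

open T44 in
theorem st_SP1 (hS : St_SUB) : St_SP1 := by
  intro n D u hD hu hn
  obtain ⟨s, hs⟩ : ∃ s, s = (u + 2 * D - 1) / (2 * D) := ⟨_, rfl⟩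
  rw [← hs]
  have s1 : 2 * D * s ≤ u + 2 * D - 1 := hs ▸ Nat.mul_div_le _ _
  have s2 : u + 2 * D - 1 < 2 * D * (s + 1) := hs ▸ Nat.lt_mul_div_succ _ (by omega)
  have s3 : u ≤ 2 * D * s := by rw [mul_add] at s2; omega
  have s4 : s ≤ u := by
    by_contra h
    have : 2 * D * (u + 1) ≤ 2 * D * s := Nat.mul_le_mul_left _ (by omega)
    have : u ≤ D * u := Nat.le_mul_of_pos_left _ hD
    have e : 2 * D * (u + 1) = 2 * (D * u) + 2 * D := by ring
    omega
  have h1 : (sel (Om (HE n)) fun m => ∃ U : Finset (Fin n), U.card = u ∧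
      (2 * D + 1) * u ≤ D * inn m U) ⊆ sel (Om (HE n)) fun m =>
      ∃ U : Finset (Fin n), U.card = u ∧ 2 * (u + s) ≤ inn m U + 1 := by
    intro m hm
    obtain ⟨h0, U, hU, hd⟩ := mem_sel.1 hm
    refine mem_sel.2 ⟨h0, U, hU, ?_⟩
    by_contra h
    have a1 : D * (inn m U + 2) ≤ D * (2 * (u + s)) := Nat.mul_le_mul_left _ (by omega)
    have e1 : D * (inn m U + 2) = D * inn m U + 2 * D := by ring
    have e2 : D * (2 * (u + s)) = 2 * (D * u) + 2 * D * s := by ring
    have e3 : (2 * D + 1) * u = 2 * (D * u) + u := by ring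
    omega
  have h2 := (Nat.mul_le_mul_right _ (card_le_card h1)).trans (count_dense hS u (u + s))
  have h3 := (Nat.cast_le (α := ℝ)).2 h2
  rw [Nat.cast_mul, Nat.cast_mul, Nat.cast_mul, Nat.cast_pow] at h3
  have u0 : (0 : ℝ) < u := by exact_mod_cast hu
  have n0 : (0 : ℝ) < n := by exact_mod_cast (by omega : 0 < n)
  have h4 : 5 * (n : ℝ) / 3 ≤ (3 * n - 2 * (u + s) : ℕ) := by
    rw [div_le_iff₀ (by norm_num)]
    exact_mod_cast (by omega : 5 * n ≤ (3 * n - 2 * (u + s)) * 3)
  have e0 := Real.exp_pos 1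
  have e1 := Real.exp_one_lt_d9
  have h5 : ((9 * u ^ 2).choose (u + s) : ℝ) ≤ (9 * u * Real.exp 1) ^ (u + s) := by
    refine (choose_le _ (by omega)).trans (pow_le_pow_left₀ (by positivity) ?_ _)
    push_cast
    rw [div_le_iff₀ (by positivity)]
    nlinarith [mul_nonneg (mul_pos u0 e0).le (Nat.cast_nonneg (α := ℝ) s)]
  have h6 : (n.choose u : ℝ) * (9 * u * Real.exp 1) ^ (u + s) ≤
      (40 ^ (2 * D + 1) * u / n) ^ s * (5 * n / 3) ^ (u + s) := by
    calc _ ≤ (n * Real.exp 1 / u) ^ u * (9 * u * Real.exp 1) ^ (u + s) := by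
          gcongr; exact choose_le _ hu
      _ = (n * Real.exp 1 / u * (9 * u * Real.exp 1)) ^ u * (9 * u * Real.exp 1) ^ s := by
          rw [mul_pow (n * Real.exp 1 / u), pow_add, ← mul_assoc]
      _ ≤ (40 * (5 * n / 3)) ^ u * (40 * u / n * (5 * n / 3)) ^ s := by
          refine mul_le_mul (pow_le_pow_left₀ (by positivity) ?_ _)
            (pow_le_pow_left₀ (by positivity) ?_ _) (by positivity) (by positivity)
          · have : n * Real.exp 1 / u * (9 * u * Real.exp 1) = 9 * Real.exp 1 ^ 2 * n := by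
              field_simp
            rw [this]
            have : 9 * Real.exp 1 ^ 2 ≤ 200 / 3 := by nlinarith
            nlinarith
          · have : 40 * u / n * (5 * n / 3) = 200 / 3 * (u : ℝ) := by field_simp; norm_num
            rw [this]
            nlinarith
      _ = 40 ^ u * ((40 * u / n) ^ s * (5 * n / 3) ^ (u + s)) := by
          rw [mul_pow, mul_pow, pow_add]; ring
      _ ≤ 40 ^ (2 * D * s) * ((40 * u / n) ^ s * (5 * n / 3) ^ (u + s)) := by
          gcongr; norm_num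
      _ = _ := by
          rw [← mul_assoc, pow_mul, ← mul_pow, pow_succ]
          congr 2
          ring
  refine le_of_mul_le_mul_right ?_ (pow_pos (show 0 < 5 * (n : ℝ) / 3 by positivity) (u + s))
  calc _ ≤ _ := mul_le_mul_of_nonneg_left (pow_le_pow_left₀ (by positivity) h4 _)
        (Nat.cast_nonneg _)
    _ ≤ _ := h3
    _ ≤ (n.choose u : ℝ) * ((9 * u * Real.exp 1) ^ (u + s) * (Om (HE n)).card) := by gcongr
    _ ≤ _ := by
        rw [← mul_assoc, mul_right_comm _ ((Om (HE n)).card : ℝ)]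
        gcongr

end Pool.Agent.Lib.RC5
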