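import Pool.Agent.Lib.RC5.B_G2

/-! Probability that a matching with prescribed types contains given pairs. -/

namespace Pool.Agent.Lib.RC5

open Finset

namespace T98

variable {α T : Type} [Fintype α] [DecidableEq α]

theorem mem_comp_iff {ty : α → T} {ι : T → T} {m : α → α} :
    m ∈ Comp ty ι ↔ IsM m ∧ ∀ h, ty (m h) = ι (ty h) := by
  simp [Comp, Om]

theorem sw_mem_comp {ty : α → T} {ι : T → T} {m : α → α} (hm : m ∈ Comp ty ι) {b c : α}
    (hbc : ty c = ty b) : sw b c m ∈ Comp ty ι := by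
  rw [mem_comp_iff] at hm ⊢
  have hs : ∀ h, ty (Equiv.swap b c h) = ty h := fun h => by
    rw [Equiv.swap_apply_def]
    split_ifs with h1 h2
    · rw [h1, hbc]
    · rw [h2, hbc]
    · rfl
  exact ⟨T25.sw_isM hm.1 b c, fun h => by rw [sw, hs, hm.2, hs]⟩

theorem sub_step (ty : α → T) (ι : T → T) (M : ℕ) (hM : ∀ h, M ≤ num ty (ty h))
    (F : Finset (α × α)) (a b : α) (hab : (a, b) ∉ F) (hba : (b, a) ∉ F) :
    (sel (Comp ty ι) fun m => ∀ p ∈ insert (a, b) F, m p.1 = p.2).card * (M - (2 * F.card + 1))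
      ≤ (sel (Comp ty ι) fun m => ∀ p ∈ F, m p.1 = p.2).card := by
  set P : Finset α := insert a (F.image Prod.fst ∪ F.image Prod.snd) with hP
  set B : Finset α := (sel univ fun h => ty h = ty b) \ P with hB
  have hPc : P.card ≤ 2 * F.card + 1 := by
    have h1 := card_insert_le a (F.image Prod.fst ∪ F.image Prod.snd)
    have h2 := card_union_le (F.image Prod.fst) (F.image Prod.snd)
    have h3 : (F.image Prod.fst).card ≤ F.card := card_image_le
    have h4 : (F.image Prod.snd).card ≤ F.card := card_image_le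
    rw [hP]
    omega
  have hBc : M - (2 * F.card + 1) ≤ B.card := by
    have h1 := le_card_sdiff P (sel univ fun h => ty h = ty b)
    have h2 := hM b
    rw [num] at h2
    rw [hB]
    omega
  have hfirst : ∀ m ∈ sel (Comp ty ι) fun m => ∀ p ∈ insert (a, b) F, m p.1 = p.2, ∀ c ∈ B,
      sw b c m a = c := by
    intro m hm c hc
    rw [mem_sel] at hm
    have e : m a = b := hm.2 (a, b) (mem_insert_self _ _)
    have h1 : a ≠ b := fun h => ((mem_comp_iff.mp hm.1).1 a).2 (e.trans h.symm)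
    have h2 : a ≠ c := fun h => (mem_sdiff.mp hc).2 (h ▸ mem_insert_self _ _)
    rw [sw, Equiv.swap_apply_of_ne_of_ne h1 h2, e, Equiv.swap_apply_left]
  refine (Nat.mul_le_mul_left _ hBc).trans ?_
  rw [← card_product]
  refine card_le_card_of_injOn (fun z => sw b z.2 z.1) ?_ ?_
  · rintro ⟨m, c⟩ hz
    obtain ⟨hm, hc⟩ := mem_product.mp (mem_coe.mp hz)
    rw [mem_sel] at hm
    obtain ⟨hc1, hc2⟩ := mem_sdiff.mp hc
    have hI : IsM m := (mem_comp_iff.mp hm.1).1
    have e : m a = b := hm.2 (a, b) (mem_insert_self _ _)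
    refine mem_coe.mpr (mem_sel.mpr ⟨sw_mem_comp hm.1 (mem_sel.mp hc1).2, fun p hp => ?_⟩)
    have ep : m p.1 = p.2 := hm.2 p (mem_insert_of_mem hp)
    have h1 : p.1 ≠ b := fun h => hba (by
      have h' : p.2 = a := by rw [← ep, h, ← e, (hI a).1]
      rw [← h, ← h']; exact hp)
    have h2 : p.2 ≠ b := fun h => hab (by
      have h' : p.1 = a := by rw [← (hI p.1).1, ep, h, ← e, (hI a).1]
      rw [← h, ← h']; exact hp)
    have h3 : p.1 ≠ c := fun h => hc2 (mem_insert_of_mem (mem_union_left _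
      (mem_image.mpr ⟨p, hp, h⟩)))
    have h4 : p.2 ≠ c := fun h => hc2 (mem_insert_of_mem (mem_union_right _
      (mem_image.mpr ⟨p, hp, h⟩)))
    change sw b c m p.1 = p.2
    rw [sw, Equiv.swap_apply_of_ne_of_ne h1 h3, ep, Equiv.swap_apply_of_ne_of_ne h2 h4]
  · rintro ⟨m, c⟩ hz ⟨m', c'⟩ hz' h
    obtain ⟨hm, hc⟩ := mem_product.mp (mem_coe.mp hz)
    obtain ⟨hm', hc'⟩ := mem_product.mp (mem_coe.mp hz')
    have h0 : sw b c m = sw b c' m' := h
    have h1 : c = c' := by rw [← hfirst m hm c hc, h0, hfirst m' hm' c' hc']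
    subst h1
    have h2 : m = m' := by rw [← T25.sw_sw b c m, h0, T25.sw_sw]
    rw [h2]

end T98

theorem st_SUB : St_SUB := by
  intro α T _ _ ty ι M F hM
  induction F using Finset.induction_on with
  | empty =>
    intro _
    rw [card_empty, pow_zero, mul_one]
    exact card_le_card fun m hm => (mem_sel.mp hm).1
  | insert p F hp ih =>
    intro hF
    obtain ⟨a, b⟩ := p
    have h1 := ih fun q hq hq' => hF q (mem_insert_of_mem hq) (mem_insert_of_mem hq')
    have h2 := T98.sub_step ty ι M hM F a b hp fun h =>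
      hF (a, b) (mem_insert_self _ _) (mem_insert_of_mem h)
    rw [card_insert_of_notMem hp, pow_succ', ← mul_assoc]
    refine le_trans (Nat.mul_le_mul (le_trans (Nat.mul_le_mul_left _ (by omega)) h2)
      (Nat.pow_le_pow_left (by omega) _)) h1

end Pool.Agent.Lib.RC5
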