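import Pool.Agent.Lib.RC5.Blue

/-! Every cubic graph comes from `6 ^ n` matchings of half-edges. -/

namespace Pool.Agent.Lib.RC5

open Finset

namespace T4

theorem adj_iff {n : ℕ} {m : HE n → HE n} (hm : IsM m) (hs : Simple m) (u v : Fin n) :
    (Gr m).Adj u v ↔ ∃ i, (m (u, i)).1 = v := by
  unfold Gr
  rw [SimpleGraph.fromRel_adj]
  constructor
  · rintro ⟨_, h | ⟨i, hi⟩⟩
    · exact h
    · refine ⟨(m (v, i)).2, ?_⟩
      have e : (u, (m (v, i)).2) = m (v, i) := by rw [← hi]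
      rw [e, (hm _).1]
  · rintro ⟨i, hi⟩
    refine ⟨?_, Or.inl ⟨i, hi⟩⟩
    intro e
    exact (hs (u, i)).1 (by rw [hi]; exact e.symm)

theorem port_inj {n : ℕ} {m : HE n → HE n} (hs : Simple m) (v : Fin n) :
    Function.Injective fun i : Fin 3 => (m (v, i)).1 := by
  intro i j e
  exact (Prod.ext_iff.1 ((hs (v, j)).2 (v, i) rfl e)).2

theorem nbr_eq {n : ℕ} {m : HE n → HE n} (hm : IsM m) (hs : Simple m) (v : Fin n) :
    Set.range (fun i : Fin 3 => (m (v, i)).1) = (Gr m).neighborSet v := by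
  ext w
  rw [SimpleGraph.mem_neighborSet, adj_iff hm hs]
  rfl

theorem cubic {n : ℕ} {m : HE n → HE n} (hm : IsM m) (hs : Simple m) (v : Fin n) :
    ((Gr m).neighborSet v).ncard = 3 := by
  rw [← nbr_eq hm hs v, Set.ncard_range_of_injective (port_inj hs v)]
  simp

/-- numberings of a set with three points -/
noncomputable def ords {n : ℕ} (N : Set (Fin n)) : Finset (Fin 3 → Fin n) :=
  sel univ fun ψ => Function.Injective ψ ∧ Set.range ψ = N

theorem card_ords {n : ℕ} (N : Set (Fin n)) (hN : N.ncard = 3) : (ords N).card = 6 := by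
  classical
  have h3 : Fintype.card N = 3 := by
    rw [← Nat.card_eq_fintype_card, Nat.card_coe_set_eq, hN]
  have h6 : (univ : Finset (Fin 3 ↪ N)).card = 6 := by
    rw [Finset.card_univ, Fintype.card_embedding_eq, h3, Fintype.card_fin]
    rfl
  rw [← h6]
  symm
  refine Finset.card_bij (fun e _ => fun j => (e j : Fin n)) ?_ ?_ ?_
  · intro e _
    have hi : Function.Injective fun j => (e j : Fin n) :=
      Subtype.val_injective.comp e.injective
    refine mem_sel.2 ⟨mem_univ _, hi, ?_⟩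
    refine Set.eq_of_subset_of_ncard_le ?_ ?_ (Set.toFinite _)
    · rintro _ ⟨j, rfl⟩
      exact (e j).2
    · rw [Set.ncard_range_of_injective hi, hN]
      simp
  · intro e _ e' _ h
    ext j
    exact congrArg Fin.val (congrFun h j)
  · intro ψ hψ
    obtain ⟨_, hi, hr⟩ := mem_sel.1 hψ
    refine ⟨⟨fun j => ⟨ψ j, hr ▸ Set.mem_range_self j⟩, ?_⟩, mem_univ _, rfl⟩
    intro i j e
    exact hi (congrArg Subtype.val e)

theorem fibre {n : ℕ} (G : SimpleGraph (Fin n)) (hG : ∀ v, (G.neighborSet v).ncard = 3) :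
    (sel (Om (HE n)) fun m => Simple m ∧ Gr m = G).card = 6 ^ n := by
  classical
  have hc : (Fintype.piFinset fun v : Fin n => ords (G.neighborSet v)).card = 6 ^ n := by
    rw [Fintype.card_piFinset, Finset.prod_congr rfl fun v _ => card_ords _ (hG v)]
    simp
  rw [← hc]
  refine Finset.card_bij (fun m _ => fun v i => (m (v, i)).1) ?_ ?_ ?_
  · intro m hm
    obtain ⟨h1, hs, rfl⟩ := mem_sel.1 hm
    have hM : IsM m := (mem_sel.1 h1).2
    exact Fintype.mem_piFinset.2 fun v =>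
      mem_sel.2 ⟨mem_univ _, port_inj hs v, nbr_eq hM hs v⟩
  · intro m hm m' hm' e
    obtain ⟨h1, hs, _⟩ := mem_sel.1 hm
    obtain ⟨h1', _, _⟩ := mem_sel.1 hm'
    have hM : IsM m := (mem_sel.1 h1).2
    have hM' : IsM m' := (mem_sel.1 h1').2
    have e1 : ∀ h : HE n, (m h).1 = (m' h).1 := fun h => congrFun (congrFun e h.1) h.2
    funext h
    refine (hs (m' h)).2 (m h) (e1 h) ?_
    rw [(hM h).1, e1 (m' h), (hM' h).1]
  · intro φ hφ
    have hφ' : ∀ v, Function.Injective (φ v) ∧ Set.range (φ v) = G.neighborSet v := fun v =>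
      (mem_sel.1 (Fintype.mem_piFinset.1 hφ v)).2
    have hadj : ∀ v i, G.Adj v (φ v i) := fun v i => by
      have : φ v i ∈ G.neighborSet v := (hφ' v).2 ▸ Set.mem_range_self i
      exact this
    have hex : ∀ h : HE n, ∃ j, φ (φ h.1 h.2) j = h.1 := fun h => by
      have : h.1 ∈ Set.range (φ (φ h.1 h.2)) := by
        rw [(hφ' _).2]
        exact (hadj h.1 h.2).symm
      exact this
    choose J hJ using hex
    have hM : IsM fun h : HE n => ((φ h.1 h.2, J h) : HE n) := by
      intro h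
      refine ⟨?_, ?_⟩
      · refine Prod.ext (hJ h) ?_
        have h2 := hJ (φ h.1 h.2, J h)
        simp only [hJ h] at h2
        exact (hφ' h.1).1 h2
      · intro e
        exact (hadj h.1 h.2).ne' (congrArg Prod.fst e)
    have hs : Simple fun h : HE n => ((φ h.1 h.2, J h) : HE n) := by
      intro h
      refine ⟨(hadj h.1 h.2).ne', ?_⟩
      intro h' e1 e2
      refine Prod.ext e1 ?_
      simp only [e1] at e2
      exact (hφ' h.1).1 e2
    refine ⟨fun h => (φ h.1 h.2, J h), mem_sel.2 ⟨mem_sel.2 ⟨mem_univ _, hM⟩, hs, ?_⟩, rfl⟩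
    ext u v
    rw [adj_iff hM hs, ← SimpleGraph.mem_neighborSet, ← (hφ' u).2]
    rfl

end T4

theorem st_TRANS : St_TRANS := by
  classical
  intro n P
  have hfin : {G : SimpleGraph (Fin n) | (∀ v, (G.neighborSet v).ncard = 3) ∧ P G}.Finite :=
    Set.toFinite _
  rw [Set.ncard_eq_toFinset_card _ hfin,
    Finset.card_eq_sum_card_fiberwise (f := Gr) (t := hfin.toFinset), mul_comm,
    ← smul_eq_mul, ← Finset.sum_const]
  · refine Finset.sum_congr rfl fun G hG => ?_
    obtain ⟨h3, hP⟩ := hfin.mem_toFinset.1 hG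
    rw [← T4.fibre G h3]
    congr 1
    ext m
    simp only [Finset.mem_filter, mem_sel]
    constructor
    · rintro ⟨⟨h1, h2, _⟩, h4⟩
      exact ⟨h1, h2, h4⟩
    · rintro ⟨h1, h2, h4⟩
      exact ⟨⟨h1, h2, h4 ▸ hP⟩, h4⟩
  · intro m hm
    obtain ⟨h1, hs, hP⟩ := mem_sel.1 (Finset.mem_coe.1 hm)
    exact Finset.mem_coe.2 (hfin.mem_toFinset.2 ⟨T4.cubic (mem_sel.1 h1).2 hs, hP⟩)

end Pool.Agent.Lib.RC5
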