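import Pool.Agent.Lib.RC5.Blue

/-! Block MULT: multinomial coefficients count colourings with prescribed class sizes. -/

namespace Pool.Agent.Lib.RC5

open Finset

namespace T99

open Classical in
theorem card_sel_univ {β : Type} [Fintype β] (P : β → Prop) :
    (sel univ P).card = ∑ b, if P b then 1 else 0 := by
  rw [sel_eq, card_filter]

open Classical in
theorem num_cons {n : ℕ} {X : Type} (y : X) (a : Fin n → X) (x : X) :
    num (Fin.cons y a : Fin (n + 1) → X) x = (if y = x then 1 else 0) + num a x := by
  unfold num
  rw [card_sel_univ, card_sel_univ, Fin.sum_univ_succ]
  simp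

end T99

open T99

theorem st_MULT : St_MULT := by
  classical
  intro n X _
  induction n with
  | zero =>
    intro w hw
    have h0 : ∀ x, w x = 0 := fun x => (sum_eq_zero_iff.1 hw) x (mem_univ x)
    have h1 : (sel (univ : Finset (Fin 0 → X)) fun a => ∀ x, num a x = w x) = univ := by
      ext a
      simp only [mem_sel, mem_univ, true_and, iff_true, h0, num, card_sel_univ]
      simp
    rw [h1]
    simp [h0]
  | succ n ih =>
    intro w hw
    have h1 : (sel (univ : Finset (Fin (n + 1) → X)) fun a => ∀ x, num a x = w x).card
        = ∑ y, (sel (univ : Finset (Fin n → X)) fun a =>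
          ∀ x, (if y = x then 1 else 0) + num a x = w x).card := by
      simp only [card_sel_univ]
      rw [← Fintype.sum_prod_type', ← (Fin.consEquiv fun _ : Fin (n + 1) => X).sum_comp]
      refine sum_congr rfl fun p _ => ?_
      have : ∀ x, num ((Fin.consEquiv fun _ : Fin (n + 1) => X) p) x
          = (if p.1 = x then 1 else 0) + num p.2 x := fun x => by
        convert num_cons p.1 p.2 x
        rfl
      simp only [this]
      congr
    have h2 : ∀ y, (sel (univ : Finset (Fin n → X)) fun a =>
        ∀ x, (if y = x then 1 else 0) + num a x = w x).card * ∏ x, (w x).factorial
        = w y * n.factorial := by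
      intro y
      rcases Nat.eq_zero_or_pos (w y) with h | h
      · have : (sel (univ : Finset (Fin n → X)) fun a =>
            ∀ x, (if y = x then 1 else 0) + num a x = w x) = ∅ := by
          ext a
          simp only [mem_sel, mem_univ, true_and, notMem_empty, iff_false, not_forall]
          exact ⟨y, by simp [h]⟩
        rw [this, h]; simp
      · have hw' : ∑ x, Function.update w y (w y - 1) x = n := by
          rw [sum_update_of_mem (mem_univ y)]
          rw [← add_sum_erase _ _ (mem_univ y), ← sdiff_singleton_eq_erase] at hw
          omega
        have h3 := ih _ hw'
        have h4 : (sel (univ : Finset (Fin n → X)) fun a =>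
            ∀ x, (if y = x then 1 else 0) + num a x = w x)
            = sel univ fun a => ∀ x, num a x = Function.update w y (w y - 1) x := by
          ext a
          simp only [mem_sel, mem_univ, true_and]
          refine forall_congr' fun x => ?_
          by_cases hx : y = x
          · subst hx; simp; omega
          · simp [hx, Function.update_of_ne (Ne.symm hx)]
        have h5 : ∏ x, (w x).factorial
            = w y * ∏ x, (Function.update w y (w y - 1) x).factorial := by
          rw [← mul_prod_erase _ _ (mem_univ y), ← mul_prod_erase univ
            (fun x => (Function.update w y (w y - 1) x).factorial) (mem_univ y), ← mul_assoc]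
          congr 1
          · rw [Function.update_self, Nat.mul_factorial_pred h.ne']
          · exact prod_congr rfl fun x hx => by
              rw [Function.update_of_ne (ne_of_mem_erase hx)]
        rw [h4, h5, ← h3]; ring
    rw [h1, sum_mul, sum_congr rfl fun y _ => h2 y, ← sum_mul, hw, Nat.factorial_succ]

end Pool.Agent.Lib.RC5
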