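import Pool.Agent.Lib.RC5.Blue

/-! Two-sided bounds for factorials. -/

namespace Pool.Agent.Lib.RC5

open Real

theorem sti_upper (j : ℕ) :
    log (j + 1).factorial ≤ ((j : ℝ) + 1) * log (j + 1) - (j + 1) + log (j + 1) + 1 := by
  induction j with
  | zero => simp
  | succ j ih =>
    rw [Nat.factorial_succ (j + 1)]
    push_cast
    rw [log_mul (by positivity) (by exact_mod_cast (j + 1).factorial_ne_zero)]
    have h0 : (0 : ℝ) < j + 1 := by positivity
    have h1 : (0 : ℝ) < j + 1 + 1 := by positivity
    have a1 := log_le_sub_one_of_pos (x := ((j : ℝ) + 1) / (j + 1 + 1)) (by positivity)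
    rw [log_div h0.ne' h1.ne'] at a1
    have a3 := mul_le_mul_of_nonneg_left a1 h1.le
    have a4 : ((j : ℝ) + 1 + 1) * ((j + 1) / (j + 1 + 1) - 1) = -1 := by field_simp; ring
    rw [a4] at a3
    nlinarith

theorem st_STI : St_STI := by
  intro k
  have h2 : (0 : ℝ) < k.factorial := by exact_mod_cast k.factorial_pos
  rcases k with _ | j
  · simp
  have h0 : (0 : ℝ) < ((j + 1 : ℕ) : ℝ) := by positivity
  constructor
  · have h1 := log_le_log (by positivity) (pow_div_factorial_le_exp ((j + 1 : ℕ) : ℝ) h0.le (j + 1))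
    rw [log_div (by positivity) h2.ne', log_pow, log_exp] at h1
    linarith
  · have h3 := sti_upper j
    have h4 : log ((j : ℝ) + 1) ≤ log ((j : ℝ) + 1 + 1) :=
      log_le_log (by positivity) (by linarith)
    push_cast
    linarith

end Pool.Agent.Lib.RC5
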