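import Pool.Agent.Lib.RC5.B_TL

/-! Free trees absorb any colouring of the core. -/

namespace Pool.Agent.Lib.RC5

open Finset

namespace T25

variable {n : ℕ}

theorem ad_symm {x y : ZMod 5} (h : Ad x y) : Ad y x := by
  rcases h with h | h
  · right; rw [h]; ring
  · left; rw [h]; ring

theorem ad_sg (x : ZMod 5) (d : Bool) : Ad x (x + sg d) := by
  cases d
  · right; simp [sg]; ring
  · left; simp [sg]

theorem stp_ad {d : Bool} {Y : Finset (ZMod 5)} {x p : ZMod 5} (h : x - p ∈ stp d Y) :
    ∃ y ∈ Y, Ad x (p + sg d + y) := by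
  rcases (mem_filter.1 h).2 with h | h
  · exact ⟨_, h, Or.inl (by ring)⟩
  · exact ⟨_, h, Or.inr (by ring)⟩

theorem comp_isM {a : Lab n} {m' : HE n → HE n} (h : m' ∈ Comp (ty1 a) io1) : IsM m' :=
  (mem_sel.1 (mem_sel.1 h).1).2

theorem comp_col {a : Lab n} {m' : HE n → HE n} (h : m' ∈ Comp (ty1 a) io1) (q : HE n) :
    (a (m' q).1).1 = (a q.1).1 + sg (ty1 a q).2 :=
  congrArg Prod.fst ((mem_sel.1 h).2 q)

variable {L : ℕ} {m m' : HE n → HE n} {R : Finset (Fin n)} {lev : Fin n → ℕ}
  {par : Fin n → Fin 3} {a : Lab n} {c : Fin n → ZMod 5}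

theorem dn_par (hm : IsM m) (hl : Lev m R L lev par) {v : Fin n} (h1 : 1 ≤ lev v)
    (h2 : lev v ≤ L + 1) : Dn m R par (m (v, par v)) := by
  have hu := hl.up v h1 h2
  refine ⟨fun _ => ?_, fun hR e => ?_⟩
  · rw [(hm _).1]
    intro e
    have := (hl.zero v).2 e
    omega
  · have h0 : lev (m (v, par v)).1 ≠ 0 := fun e => hR ((hl.zero _).1 e)
    have := hl.up (m (v, par v)).1 (by omega) (by omega)
    rw [← e, Prod.mk.eta, (hm _).1] at this
    simp only at this
    omega

theorem ext_ind (hm : IsM m) (hc : m' ∈ Comp (ty1 a) io1) (hl : Lev m R L lev par)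
    (he : ∀ h : HE n, h.1 ∉ R → m' h = m h)
    (hf : ∀ h : HE n, h.1 ∈ R → (m h).1 ∉ R → msg a m' L h = univ) (i : ℕ) (hi : i ≤ L) :
    ∃ col : Fin n → ZMod 5, (∀ v ∈ R, col v = c v) ∧ (∀ v, i < lev v → col v = (a v).1) ∧
      (∀ v, 1 ≤ lev v → lev v ≤ i → Ad (col (m (v, par v)).1) (col v)) ∧
      ∀ q : HE n, Dn m R par q → lev q.1 = i → col q.1 - (a q.1).1 ∈ msg a m' (L - i) q := by
  classical
  induction i with
  | zero =>
    refine ⟨fun v => if v ∈ R then c v else (a v).1, fun v hv => if_pos hv, fun v hv => ?_,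
      fun v h1 h2 => by omega, fun q hq h0 => ?_⟩
    · exact if_neg fun e => by have := (hl.zero v).2 e; omega
    · have hR := (hl.zero _).1 h0
      rw [Nat.sub_zero, hf q hR (hq.1 hR)]
      exact mem_univ _
  | succ i ih =>
    obtain ⟨col, c1, c2, c3, c4⟩ := ih (by omega)
    have hy : ∀ v, ∃ y : ZMod 5, lev v = i + 1 → Ad (col (m (v, par v)).1) ((a v).1 + y) ∧
        ∀ t, t ≠ par v → y ∈ msg a m' (L - (i + 1)) (v, t) := by
      intro v
      by_cases hv : lev v = i + 1
      swap
      · exact ⟨0, fun e => absurd e hv⟩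
      have hd := dn_par hm hl (v := v) (by omega) (by omega)
      have hu := hl.up v (by omega) (by omega)
      have h4 := c4 _ hd (by omega)
      have e1 : m' (m (v, par v)) = (v, par v) := by
        rw [dn_eq hm (comp_isM hc) he hd.1, (hm _).1]
      have e2 := comp_col hc (m (v, par v))
      rw [show L - i = (L - (i + 1)) + 1 by omega, msg, e1] at h4
      rw [e1] at e2
      obtain ⟨y, y1, y2⟩ := stp_ad h4
      refine ⟨y, fun _ => ⟨by rw [show (a v).1 = _ from e2]; exact y2, fun t ht => ?_⟩⟩
      have ht' : t = par v + 1 ∨ t = par v + 2 := by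
        revert ht
        generalize par v = s
        revert s t
        decide
      rcases ht' with rfl | rfl
      · exact (mem_inter.1 y1).1
      · exact (mem_inter.1 y1).2
    choose y hy using hy
    refine ⟨fun v => if lev v = i + 1 then (a v).1 + y v else col v, fun v hv => ?_,
      fun v hv => ?_, fun v h1 h2 => ?_, fun q hq h0 => ?_⟩
    · have := (hl.zero v).2 hv
      rw [← c1 v hv]
      exact if_neg (by omega)
    · rw [← c2 v (by omega)]
      exact if_neg (by omega)
    · have hu := hl.up v h1 (by omega)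
      simp only
      rw [if_neg (by omega)]
      split_ifs with hv
      · exact (hy v hv).1
      · exact c3 v h1 (by omega)
    · simp only
      rw [if_pos h0, add_sub_cancel_left]
      exact (hy q.1 h0).2 q.2 (hq.2 fun e => by have := (hl.zero _).2 e; omega)

end T25

open T25 in
theorem st_EXT : St_EXT := by
  intro n L m m' R lev par a c hm hc hl he hf hR
  obtain ⟨col, c1, c2, c3, c4⟩ := ext_ind (c := c) hm hc hl he hf L le_rfl
  have key : ∀ h : HE n, lev h.1 ≤ L → Ad (col h.1) (col (m h).1) := by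
    intro h hL
    by_cases hd : Dn m R par h
    · obtain ⟨d1, d2, d3, -⟩ := dn_child hl hd hL
      by_cases hw : lev (m h).1 ≤ L
      · have := c3 (m h).1 (by omega) hw
        rwa [d2, Prod.mk.eta, (hm h).1] at this
      · have h4 := c4 h hd (by omega)
        rw [Nat.sub_self, msg] at h4
        obtain ⟨y, y1, y2⟩ := stp_ad h4
        have e2 := comp_col hc h
        rw [dn_eq hm (comp_isM hc) he hd.1] at e2
        rw [c2 (m h).1 (by omega), e2]
        rwa [mem_singleton.1 y1, add_zero] at y2
    · by_cases h1 : h.1 ∈ R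
      · have h2 : (m h).1 ∈ R := by
          by_contra h2
          exact hd ⟨fun _ => h2, fun e => absurd h1 e⟩
        rw [c1 _ h1, c1 _ h2]
        exact hR h h1 h2
      · have h2 : h.2 = par h.1 := by
          by_contra h2
          exact hd ⟨fun e => absurd e h1, fun _ => h2⟩
        have h0 : lev h.1 ≠ 0 := fun e => h1 ((hl.zero _).1 e)
        have := c3 h.1 (by omega) hL
        rw [← h2, Prod.mk.eta] at this
        exact ad_symm this
  refine ⟨col, fun h => ?_⟩
  by_cases h1 : lev h.1 ≤ L
  · exact key h h1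
  by_cases h2 : lev (m h).1 ≤ L
  · have := key (m h) h2
    rw [(hm h).1] at this
    exact ad_symm this
  · have e2 := comp_col hc h
    rw [he h fun e => by have := (hl.zero _).2 e; omega] at e2
    rw [c2 h.1 (by omega), c2 (m h).1 (by omega), e2]
    exact ad_sg _ _

end Pool.Agent.Lib.RC5
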