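import Pool.Agent.Lib.RC5.Blue

/-! Block FN1: the ideal tree of depth 26, by a seven-state recursion in fixed point. -/

namespace Pool.Agent.Lib.RC5

open Finset

namespace T65

/-- the seven sets that occur -/
def stl : List (List (ZMod 5)) :=
  [[0, 2], [0, 2, 3], [0, 2, 4], [0, 1, 2, 3], [0, 2, 3, 4], [0, 1, 2, 4], [0, 1, 2, 3, 4]]

/-- the set of index `i` in direction `d` -/
def st (d : Bool) (i : Fin 7) : Finset (ZMod 5) :=
  univ.filter fun c => sg d * c ∈ stl.getD i.val []

/-- transition tables -/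
def tbl : List (List (List (Fin 7))) :=
  [[[1, 1, 1, 1, 1, 1, 1],
    [1, 4, 1, 4, 4, 1, 4],
    [1, 1, 3, 1, 3, 3, 3],
    [1, 4, 1, 6, 4, 6, 6],
    [1, 4, 3, 4, 6, 3, 6],
    [1, 1, 3, 6, 3, 6, 6],
    [1, 4, 3, 6, 6, 6, 6]],
   [[0, 1, 0, 1, 1, 0, 1],
    [2, 4, 2, 4, 4, 2, 4],
    [0, 1, 0, 3, 1, 3, 3],
    [2, 4, 5, 4, 6, 5, 6],
    [2, 4, 2, 6, 4, 6, 6],
    [0, 1, 5, 3, 6, 6, 6],
    [2, 4, 5, 6, 6, 6, 6]],
   [[0, 2, 0, 2, 2, 0, 2],
    [1, 4, 1, 4, 4, 1, 4],
    [0, 2, 0, 5, 2, 5, 5],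
    [1, 4, 3, 4, 6, 3, 6],
    [1, 4, 1, 6, 4, 6, 6],
    [0, 2, 3, 5, 6, 6, 6],
    [1, 4, 3, 6, 6, 6, 6]],
   [[2, 2, 2, 2, 2, 2, 2],
    [2, 4, 2, 4, 4, 2, 4],
    [2, 2, 5, 2, 5, 5, 5],
    [2, 4, 2, 6, 4, 6, 6],
    [2, 4, 5, 4, 6, 5, 6],
    [2, 2, 5, 6, 5, 6, 6],
    [2, 4, 5, 6, 6, 6, 6]]]

/-- transition -/
def tb (d d1 d2 : Bool) (i1 i2 : Fin 7) : Fin 7 :=
  (((tbl.getD ((if d1 = d then 2 else 0) + (if d2 = d then 1 else 0)) []).getD i1.val []).getD
    i2.val 0)

/-- upper bounds in units of `2 ^ (-40)` -/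
def wl : List (List ℕ) :=
  [[1099511627776, 0, 0, 0,
    0, 0, 0],
   [676622540170, 84577817522, 338311270085, 0,
    0, 0, 0],
   [576530448430, 124114193760, 352324162930, 8007367340,
    6505985964, 32029469358, 0],
   [503553812847, 145226577565, 362763654907, 18651802611,
    17382752219, 50491748481, 1441279161],
   [448510500689, 157685378049, 364908253287, 27706169145,
    29672413304, 66249854655, 4779058681],
   [403579223899, 165154020241, 362721126009, 35925133013,
    41940418381, 80123030561, 10068675744],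
   [364854689626, 169366881344, 357619797368, 43594950034,
    53984813116, 92737389336, 17353107099],
   [330015456803, 171223910269, 350241226168, 50881934300,
    65838453215, 104456328085, 26854319234],
   [297583062238, 171165244579, 340783253751, 57895160894,
    77600005657, 115512956019, 38971945237],
   [266558038325, 169355557514, 329181740720, 64696403000,
    89355330051, 126033174327, 54331385040],
   [236242617652, 165770593211, 315185371273, 71293590548,
    101135003615, 136033763399, 73850690483],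
   [206159653697, 160237756206, 298389628744, 77620984064,
    112868453457, 145395466168, 98839690252],
   [176033027686, 152457377857, 278259997674, 83503066816,
    124314741614, 153807606236, 131135819521],
   [145817237132, 142026291000, 254172867073, 88596586484,
    134952205611, 160676857961, 173269601774],
   [115772236011, 128491904969, 225514630992, 92307350292,
    143812695928, 164997079069, 228615769036],
   [86573198355, 111481748410, 191903007428, 93692597433,
    149268253659, 165201725710, 301391173827],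
   [59412716613, 90972500462, 153614859003, 91404632449,
    148857163268, 159095536977, 396154373099],
   [35979802980, 67746528866, 112262461836, 83834960941,
    139436872150, 144131345658, 516119963539],
   [18104487680, 43928627551, 71504895600, 69770616543,
    118283354090, 118536442776, 659383819929],
   [6896446300, 23066845439, 36952485333, 49840021866,
    85798989354, 83698540544, 813259531730],
   [1722260465, 8788549227, 13902862716, 28098017229,
    48800247775, 46643023827, 951559132122],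
   [226566238, 2071247594, 3252857490, 11088211586,
    19245507167, 18194513428, 1045437655451],
   [11390184, 242694139, 381040394, 2612142573,
    4482365436, 4239956164, 1087551901268],
   [140253, 10612022, 16757621, 300714265,
    506549480, 484069400, 1098212509592],
   [236, 117024, 186104, 13000732,
    21515446, 20835837, 1099495422468],
   [1, 186, 297, 143374,
    234602, 229459, 1099589921418],
   [1, 1, 2, 229,
    373, 366, 1099669435592]]

/-- upper bound at level `L` -/
def wN (L : ℕ) (i : Fin 7) : ℕ := (wl.getD L []).getD i.val 0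

/-- numerator of `pw` -/
def cN (d d1 d2 : Bool) : ℕ := if d1 = !d ∧ d2 = !d then 1 else 4

theorem tb_ok : ∀ (d d1 d2 : Bool) (i1 i2 : Fin 7),
    stp d (st d1 i1 ∩ st d2 i2) = st d (tb d d1 d2 i1 i2) := by
  decide +kernel

theorem st_zero : ∀ d : Bool, stp d {0} = st d 0 := by decide +kernel

theorem st_six : ∀ d : Bool, st d 6 = univ := by decide +kernel

theorem wN_ok : ∀ (L : Fin 26) (d : Bool) (j : Fin 7),
    (∑ d1 : Bool, ∑ d2 : Bool, ∑ i1 : Fin 7, ∑ i2 : Fin 7,
      if tb d d1 d2 i1 i2 = j then cN d d1 d2 * (wN L.val i1 * wN L.val i2) else 0) ≤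
      13 * 2 ^ 40 * wN (L.val + 1) j := by
  decide +kernel

theorem wN_zero : wN 0 0 = 2 ^ 40 := by decide +kernel

theorem wN_last : (∑ i : Fin 7, if i = 6 then 0 else wN 26 i) * 16384 ≤ 2 ^ 40 := by
  decide +kernel

/-- real weights -/
noncomputable def w (L : ℕ) (i : Fin 7) : ℝ := (wN L i : ℝ) / 2 ^ 40

theorem w_nonneg (L : ℕ) (i : Fin 7) : 0 ≤ w L i := by unfold w; positivity

theorem pw_eq (d d1 d2 : Bool) : pw d d1 d2 = (cN d d1 d2 : ℝ) / 13 := by
  unfold pw cN; split_ifs <;> norm_num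

theorem pw_ge (d d1 d2 : Bool) : 0 ≤ pw d d1 d2 := by
  rw [pw_eq]; positivity

theorem w_step (L : ℕ) (hL : L < 26) (d : Bool) (j : Fin 7) :
    (∑ d1 : Bool, ∑ d2 : Bool, ∑ i1 : Fin 7, ∑ i2 : Fin 7,
      if tb d d1 d2 i1 i2 = j then pw d d1 d2 * (w L i1 * w L i2) else 0) ≤ w (L + 1) j := by
  have h := wN_ok ⟨L, hL⟩ d j
  have h2 : ((∑ d1 : Bool, ∑ d2 : Bool, ∑ i1 : Fin 7, ∑ i2 : Fin 7,
      if tb d d1 d2 i1 i2 = j then cN d d1 d2 * (wN L i1 * wN L i2) else 0 : ℕ) : ℝ) ≤
      ((13 * 2 ^ 40 * wN (L + 1) j : ℕ) : ℝ) := Nat.cast_le.mpr h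
  have h3 : (∑ d1 : Bool, ∑ d2 : Bool, ∑ i1 : Fin 7, ∑ i2 : Fin 7,
      if tb d d1 d2 i1 i2 = j then pw d d1 d2 * (w L i1 * w L i2) else 0) =
      ((∑ d1 : Bool, ∑ d2 : Bool, ∑ i1 : Fin 7, ∑ i2 : Fin 7,
      if tb d d1 d2 i1 i2 = j then cN d d1 d2 * (wN L i1 * wN L i2) else 0 : ℕ) : ℝ) /
        (13 * 2 ^ 40 * 2 ^ 40) := by
    simp only [Nat.cast_sum, Finset.sum_div]
    refine sum_congr rfl fun d1 _ => sum_congr rfl fun d2 _ => sum_congr rfl fun i1 _ =>
      sum_congr rfl fun i2 _ => ?_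
    split_ifs
    · rw [pw_eq]; unfold w; push_cast; field_simp
    · simp
  rw [h3, div_le_iff₀ (by positivity)]
  refine h2.trans (le_of_eq ?_)
  unfold w; push_cast; field_simp; ring

theorem mu_ge : ∀ (L : ℕ) (d : Bool) (S : Finset (ZMod 5)), 0 ≤ mu L d S
  | 0, d, S => by unfold mu; split_ifs <;> norm_num
  | L + 1, d, S => by
    unfold mu
    refine sum_nonneg fun d1 _ => sum_nonneg fun d2 _ => sum_nonneg fun S1 _ =>
      sum_nonneg fun S2 _ => ?_
    split_ifs
    · exact mul_nonneg (pw_ge _ _ _) (mul_nonneg (mu_ge L d1 S1) (mu_ge L d2 S2))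
    · exact le_rfl

theorem mu_test (L : ℕ) (d : Bool) (f : Finset (ZMod 5) → ℝ) :
    ∑ S, mu (L + 1) d S * f S = ∑ d1, ∑ d2, pw d d1 d2 *
      ∑ S1, mu L d1 S1 * ∑ S2, mu L d2 S2 * f (stp d (S1 ∩ S2)) := by
  simp only [mu, Finset.sum_mul, Finset.mul_sum]
  rw [sum_comm]
  refine sum_congr rfl fun d1 _ => ?_
  rw [sum_comm]
  refine sum_congr rfl fun d2 _ => ?_
  rw [sum_comm]
  refine sum_congr rfl fun S1 _ => ?_
  rw [sum_comm]
  refine sum_congr rfl fun S2 _ => ?_
  simp only [ite_mul, zero_mul, sum_ite_eq', mem_univ, if_true]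
  ring

theorem dom (L : ℕ) (hL : L ≤ 26) : ∀ (d : Bool) (f : Finset (ZMod 5) → ℝ), (∀ S, 0 ≤ f S) →
    ∑ S, mu L d S * f S ≤ ∑ i, w L i * f (st d i) := by
  induction L with
  | zero =>
    intro d f hf
    have h1 : ∑ S, mu 0 d S * f S = f (st d 0) := by
      simp only [mu, ite_mul, one_mul, zero_mul, sum_ite_eq', mem_univ, if_true, st_zero]
    have h2 : w 0 0 = 1 := by unfold w; rw [wN_zero]; norm_num
    rw [h1]
    have h3 := single_le_sum (f := fun i => w 0 i * f (st d i))
      (fun i _ => mul_nonneg (w_nonneg 0 i) (hf _)) (mem_univ (0 : Fin 7))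
    simpa only [h2, one_mul] using h3
  | succ L ih =>
    intro d f hf
    have ih' := ih (by omega)
    rw [mu_test]
    have hmu : ∀ d1 d2, ∑ S1, mu L d1 S1 * ∑ S2, mu L d2 S2 * f (stp d (S1 ∩ S2)) ≤
        ∑ i1, w L i1 * ∑ i2, w L i2 * f (st d (tb d d1 d2 i1 i2)) := by
      intro d1 d2
      refine (ih' d1 (fun S1 => ∑ S2, mu L d2 S2 * f (stp d (S1 ∩ S2))) fun S1 =>
        sum_nonneg fun S2 _ => mul_nonneg (mu_ge L d2 S2) (hf _)).trans ?_
      refine sum_le_sum fun i1 _ => mul_le_mul_of_nonneg_left ?_ (w_nonneg L i1)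
      refine (ih' d2 (fun S2 => f (stp d (st d1 i1 ∩ S2))) fun S2 => hf _).trans (le_of_eq ?_)
      simp only [tb_ok]
    calc _ ≤ ∑ d1, ∑ d2, pw d d1 d2 *
          ∑ i1, w L i1 * ∑ i2, w L i2 * f (st d (tb d d1 d2 i1 i2)) :=
          sum_le_sum fun d1 _ => sum_le_sum fun d2 _ =>
            mul_le_mul_of_nonneg_left (hmu d1 d2) (pw_ge d d1 d2)
      _ = ∑ j, (∑ d1 : Bool, ∑ d2 : Bool, ∑ i1 : Fin 7, ∑ i2 : Fin 7,
          if tb d d1 d2 i1 i2 = j then pw d d1 d2 * (w L i1 * w L i2) else 0) * f (st d j) := by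
          simp only [Finset.sum_mul, Finset.mul_sum]
          symm
          rw [sum_comm]
          refine sum_congr rfl fun d1 _ => ?_
          rw [sum_comm]
          refine sum_congr rfl fun d2 _ => ?_
          rw [sum_comm]
          refine sum_congr rfl fun i1 _ => ?_
          rw [sum_comm]
          refine sum_congr rfl fun i2 _ => ?_
          simp only [ite_mul, zero_mul, sum_ite_eq, mem_univ, if_true]
          ring
      _ ≤ _ := sum_le_sum fun j _ =>
          mul_le_mul_of_nonneg_right (w_step L (by omega) d j) (hf _)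

end T65

theorem st_FN1 : St_FN1 := by
  intro d
  have h := T65.dom 26 le_rfl d (fun S => if S = univ then 0 else 1)
    (fun S => by split_ifs <;> norm_num)
  have h1 : nf 26 d = ∑ S, mu 26 d S * (if S = univ then (0 : ℝ) else 1) := by
    unfold nf
    rw [← Finset.add_sum_erase _ _ (mem_univ (univ : Finset (ZMod 5)))]
    simp only [if_true, mul_zero, zero_add]
    refine sum_congr rfl fun S hS => ?_
    rw [if_neg (ne_of_mem_erase hS), mul_one]
  have h2 : ∑ i, T65.w 26 i * (if T65.st d i = univ then (0 : ℝ) else 1) ≤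
      ((∑ i : Fin 7, if i = 6 then 0 else T65.wN 26 i : ℕ) : ℝ) / 2 ^ 40 := by
    simp only [Nat.cast_sum, Finset.sum_div]
    refine sum_le_sum fun i _ => ?_
    by_cases hi : i = 6
    · subst hi; simp [T65.st_six]
    · rw [if_neg hi]
      have := T65.w_nonneg 26 i
      unfold T65.w at this ⊢
      split_ifs <;> linarith
  have h3 : (((∑ i : Fin 7, if i = 6 then 0 else T65.wN 26 i) * 16384 : ℕ) : ℝ) ≤
      ((2 ^ 40 : ℕ) : ℝ) := Nat.cast_le.mpr T65.wN_last
  rw [h1]
  refine (h.trans h2).trans ?_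
  rw [div_le_div_iff₀ (by positivity) (by positivity)]
  rw [Nat.cast_mul] at h3
  refine le_trans (le_of_eq ?_) (h3.trans (le_of_eq ?_))
  · norm_num
  · norm_num

end Pool.Agent.Lib.RC5
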