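import Pool.Agent.Lib.RC5.Blue

/-! The ideal tree is free up to a probability that decays faster than any exponential. -/

namespace Pool.Agent.Lib.RC5

open Finset

namespace T57

theorem pw_nonneg (d d1 d2 : Bool) : 0 ≤ pw d d1 d2 := by
  unfold pw
  split_ifs <;> norm_num

theorem pw_sum (d : Bool) : ∑ d1, ∑ d2, pw d d1 d2 = 1 := by
  cases d <;> simp [pw] <;> norm_num

theorem mu_nonneg (L : ℕ) : ∀ d S, 0 ≤ mu L d S := by
  induction L with
  | zero => intro d S; unfold mu; split_ifs <;> norm_num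
  | succ L ih =>
    intro d S
    unfold mu
    refine sum_nonneg fun d1 _ => sum_nonneg fun d2 _ => sum_nonneg fun S1 _ =>
      sum_nonneg fun S2 _ => ?_
    split_ifs
    · exact mul_nonneg (pw_nonneg _ _ _) (mul_nonneg (ih _ _) (ih _ _))
    · exact le_rfl

theorem ex_succ (L : ℕ) (d : Bool) (f : Finset (ZMod 5) → ℝ) :
    ∑ S, mu (L + 1) d S * f S = ∑ d1, ∑ d2, pw d d1 d2 *
      ∑ S1, ∑ S2, mu L d1 S1 * mu L d2 S2 * f (stp d (S1 ∩ S2)) := by
  simp only [mu, sum_mul, mul_sum]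
  rw [sum_comm]
  refine sum_congr rfl fun d1 _ => ?_
  rw [sum_comm]
  refine sum_congr rfl fun d2 _ => ?_
  rw [sum_comm]
  refine sum_congr rfl fun S1 _ => ?_
  rw [sum_comm]
  refine sum_congr rfl fun S2 _ => ?_
  simp only [ite_mul, zero_mul, sum_ite_eq', mem_univ, if_true, mul_assoc]

theorem mu_sum (L : ℕ) : ∀ d, ∑ S, mu L d S = 1 := by
  induction L with
  | zero => intro d; simp [mu]
  | succ L ih =>
    intro d
    have := ex_succ L d fun _ => 1
    simpa only [mul_one, ← mul_sum, ← sum_mul, ih, pw_sum] using this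

theorem zero_mem_stp : ∀ (d : Bool) (S : Finset (ZMod 5)), 0 ∈ S → 0 ∈ stp d S := by decide

theorem stp_grow : ∀ (d : Bool) (S : Finset (ZMod 5)), 0 ∈ S →
    stp d S = univ ∨ (S.card + 1 ≤ (stp d S).card ∧ (stp d S).card ≤ 4) := by decide

theorem mu_supp (L : ℕ) : ∀ d S, 0 ∉ S → mu L d S = 0 := by
  induction L with
  | zero =>
    intro d S h
    exact if_neg fun h' : S = stp d {0} => h (h' ▸ zero_mem_stp d _ (mem_singleton_self _))
  | succ L ih =>
    intro d S h
    unfold mu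
    refine sum_eq_zero fun d1 _ => sum_eq_zero fun d2 _ => sum_eq_zero fun S1 _ =>
      sum_eq_zero fun S2 _ => ?_
    split_ifs with h'
    · by_cases h1 : 0 ∈ S1
      · rw [ih d2 S2 fun h2 => h (h' ▸ zero_mem_stp d _ (mem_inter.2 ⟨h1, h2⟩)), mul_zero, mul_zero]
      · rw [ih d1 S1 h1, zero_mul, mul_zero]
    · rfl

/-- The weight of a message. -/
noncomputable def om (t : ℝ) (S : Finset (ZMod 5)) : ℝ := if S = univ then 0 else t ^ (4 - S.card)

variable {t : ℝ} (ht : 4 ≤ t)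
include ht

theorem om_nonneg (S : Finset (ZMod 5)) : 0 ≤ om t S := by
  unfold om
  split_ifs
  · exact le_rfl
  · exact pow_nonneg (by linarith) _

theorem om_ge {S : Finset (ZMod 5)} (h : S ≠ univ) : 1 ≤ om t S := by
  rw [om, if_neg h]
  exact one_le_pow₀ (by linarith)

theorem om_le {S : Finset (ZMod 5)} (h : 0 ∈ S) : om t S ≤ t ^ 3 := by
  unfold om
  split_ifs
  · exact pow_nonneg (by linarith) _
  · have := card_pos.2 ⟨0, h⟩
    exact pow_le_pow_right₀ (by linarith) (by omega)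

theorem om_one (d : Bool) {S : Finset (ZMod 5)} (h : 0 ∈ S) : om t (stp d S) ≤ om t S / t := by
  have t0 : 0 < t := by linarith
  by_cases h1 : stp d S = univ
  · rw [om, if_pos h1]
    exact div_nonneg (om_nonneg ht S) t0.le
  · obtain ⟨h2, h3⟩ := (stp_grow d S h).resolve_left h1
    have h4 : S ≠ univ := by
      rintro rfl
      rw [card_univ, ZMod.card] at h2
      omega
    rw [om, om, if_neg h1, if_neg h4, le_div_iff₀ t0, ← pow_succ]
    exact pow_le_pow_right₀ (by linarith) (by omega)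

theorem om_two (d : Bool) {S1 S2 : Finset (ZMod 5)} (h1 : 0 ∈ S1) (h2 : 0 ∈ S2) :
    om t (stp d (S1 ∩ S2)) ≤ om t S1 / t + om t S2 / t + t ^ 3 * (om t S1 * om t S2) := by
  have t0 : 0 < t := by linarith
  have a1 := div_nonneg (om_nonneg ht S1) t0.le
  have a2 := div_nonneg (om_nonneg ht S2) t0.le
  have a3 := mul_nonneg (pow_nonneg t0.le 3) (mul_nonneg (om_nonneg ht S1) (om_nonneg ht S2))
  by_cases k2 : S2 = univ
  · have := om_one ht d h1
    subst k2
    rw [inter_univ]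
    linarith
  by_cases k1 : S1 = univ
  · have := om_one ht d h2
    subst k1
    rw [univ_inter]
    linarith
  have := om_le ht (zero_mem_stp d _ (mem_inter.2 ⟨h1, h2⟩))
  have := le_mul_of_one_le_right (pow_nonneg t0.le 3)
    (one_le_mul_of_one_le_of_one_le (om_ge ht k1) (om_ge ht k2))
  linarith

theorem step {L : ℕ} {y : ℝ} (hy : t ^ 4 * y ≤ 1) (h : ∀ d, ∑ S, mu L d S * om t S ≤ y) (d : Bool) :
    ∑ S, mu (L + 1) d S * om t S ≤ y * (3 / t) := by
  have t0 : 0 < t := by linarith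
  have e0 : ∀ d, 0 ≤ ∑ S, mu L d S * om t S := fun d =>
    sum_nonneg fun S _ => mul_nonneg (mu_nonneg _ _ _) (om_nonneg ht S)
  rw [ex_succ, ← one_mul (y * (3 / t)), ← pw_sum d, sum_mul]
  refine sum_le_sum fun d1 _ => ?_
  rw [sum_mul]
  refine sum_le_sum fun d2 _ => mul_le_mul_of_nonneg_left ?_ (pw_nonneg _ _ _)
  have h1 : ∑ S1, ∑ S2, mu L d1 S1 * mu L d2 S2 * om t (stp d (S1 ∩ S2)) ≤
      ∑ S1, ∑ S2, (mu L d1 S1 * om t S1 / t * mu L d2 S2 + mu L d1 S1 * (mu L d2 S2 * om t S2 / t) +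
        t ^ 3 * (mu L d1 S1 * om t S1 * (mu L d2 S2 * om t S2))) := by
    refine sum_le_sum fun S1 _ => sum_le_sum fun S2 _ => ?_
    by_cases k1 : 0 ∈ S1
    · by_cases k2 : 0 ∈ S2
      · refine (mul_le_mul_of_nonneg_left (om_two ht d k1 k2)
          (mul_nonneg (mu_nonneg _ _ _) (mu_nonneg _ _ _))).trans_eq (by ring)
      · simp [mu_supp L d2 S2 k2]
    · simp [mu_supp L d1 S1 k1]
  simp only [sum_add_distrib, ← mul_sum, ← sum_mul, ← sum_div, mu_sum, mul_one, one_mul] at h1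
  have h2 := mul_le_mul (h d1) (h d2) (e0 d2) ((e0 d1).trans (h d1))
  have h3 : t ^ 3 * (y * y) ≤ y / t := by
    rw [le_div_iff₀ t0]
    nlinarith [(e0 d1).trans (h d1)]
  have h4 := mul_le_mul_of_nonneg_left h2 (pow_nonneg t0.le 3)
  have h5 := div_le_div_of_nonneg_right (h d1) t0.le
  have h6 := div_le_div_of_nonneg_right (h d2) t0.le
  have h7 : y * (3 / t) = 3 * (y / t) := by ring
  linarith

theorem decay {L : ℕ} (h : ∀ d, t ^ 7 * nf L d ≤ 1) (k : ℕ) (d : Bool) :
    nf (L + k) d ≤ (3 / t) ^ k := by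
  have t0 : 0 < t := by linarith
  have q1 : 3 / t ≤ 1 := (div_le_one t0).2 (by linarith)
  have red : ∀ L d, ∑ S, mu L d S * om t S = ∑ S ∈ univ.erase univ, mu L d S * om t S :=
    fun L d => (sum_erase _ (by simp [om])).symm
  have key : ∀ k d, ∑ S, mu (L + k) d S * om t S ≤ (t ^ 4)⁻¹ * (3 / t) ^ k := by
    intro k
    induction k with
    | zero =>
      intro d
      have h1 : ∑ S ∈ univ.erase univ, mu L d S * om t S ≤ nf L d * t ^ 3 := by
        rw [nf, sum_mul]
        refine sum_le_sum fun S _ => ?_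
        by_cases k1 : 0 ∈ S
        · exact mul_le_mul_of_nonneg_left (om_le ht k1) (mu_nonneg _ _ _)
        · simp [mu_supp L d S k1]
      rw [add_zero, red, pow_zero, mul_one, ← one_div, le_div_iff₀ (by positivity)]
      nlinarith [mul_le_mul_of_nonneg_right h1 (pow_nonneg t0.le 4), h d]
    | succ k ih =>
      intro d
      rw [pow_succ (3 / t), ← mul_assoc]
      refine step ht ?_ ih d
      rw [mul_inv_cancel_left₀ (by positivity)]
      exact pow_le_one₀ (by positivity) q1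
  refine le_trans ?_ ((key k d).trans (mul_le_of_le_one_left (by positivity)
    (inv_le_one_of_one_le₀ (one_le_pow₀ (by linarith)))))
  rw [red]
  exact sum_le_sum fun S hS => le_mul_of_one_le_right (mu_nonneg _ _ _)
    (om_ge ht (ne_of_mem_erase hS))

end T57

theorem st_FN2 (h : St_FN1) : St_FN2 := by
  intro K hK
  obtain ⟨t, ht, htK⟩ : ∃ t : ℝ, 4 ≤ t ∧ 4 * K ≤ t := ⟨max 4 (4 * K), le_max_left _ _, le_max_right _ _⟩
  have t0 : 0 < t := by linarith
  have h1 := T57.decay (t := 4) le_rfl (L := 26) fun d => by linarith [h d]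
  obtain ⟨k, hk⟩ := exists_pow_lt_of_lt_one (x := 1 / t ^ 7) (y := (3 / 4 : ℝ)) (by positivity)
    (by norm_num)
  have h2 := T57.decay ht (L := 26 + k) fun d =>
    (le_div_iff₀' (by positivity)).1 ((h1 k d).trans hk.le)
  obtain ⟨j, hj⟩ := exists_pow_lt_of_lt_one (x := 1 / K ^ (26 + k)) (y := (3 / 4 : ℝ))
    (by positivity) (by norm_num)
  refine ⟨26 + k + j, by omega, fun d => (h2 j d).trans ?_⟩
  have h3 : 3 / t * K ≤ 3 / 4 := by
    rw [div_mul_eq_mul_div, div_le_iff₀ t0]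
    linarith
  rw [pow_add, ← div_div, le_div_iff₀ (by positivity), ← mul_pow]
  exact (pow_le_pow_left₀ (by positivity) h3 j).trans hj.le

end Pool.Agent.Lib.RC5
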