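import Pool.Agent.Lib.RC5.Blue

/-! Block AN: the entropy inequality from its three parts. -/

namespace Pool.Agent.Lib.RC5

open Finset Real

namespace T99

theorem mul_log_div (a f : ℝ) (hf : 0 < f) (ha : 0 ≤ a) :
    f * (a / f * log (a / f)) = a * log a - a * log f := by
  rcases ha.eq_or_lt with h | h
  · subst h; simp
  · rw [log_div h.ne' hf.ne']; field_simp

theorem mul_log_four (a : ℝ) (ha : 0 ≤ a) : a * log (4 * a) = a * log a + a * log 4 := by
  rcases ha.eq_or_lt with h | h
  · subst h; simp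
  · rw [log_mul (by norm_num) h.ne']; ring

theorem log_const : log (169 / 32 : ℝ) = 2 * log (13 / 16) + 3 / 2 * log 4 := by
  have h1 : (169 / 32 : ℝ) = (13 / 16) ^ 2 * 2 ^ 3 := by norm_num
  have h2 : (4 : ℝ) = 2 ^ 2 := by norm_num
  rw [h1, log_mul (by norm_num) (by norm_num), log_pow, log_pow, h2, log_pow]
  push_cast; ring

theorem an_pt (hS : St_S) (k : ℝ → ℝ) (E W N S : ℝ) (hE : 0 ≤ E) (hW : 0 ≤ W) (hN : 0 ≤ N)
    (hS0 : 0 ≤ S) : ∃ a b c d : ℝ, Pp (exp a) (exp b) (exp c) (exp d) ≤ 1 ∧
      -((E + W + N + S) * log (E + W + N + S)) - 3 * (E * a + W * b + N * c + S * d)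
        + 3 / 2 * (E * log E + W * log W + N * log N + S * log S)
      ≤ rowT k (E + W + N + S) E W + rowT k (E + W + N + S) N S
        + (E + W + N + S) * log (169 / 32) := by
  obtain ⟨f, hf⟩ : ∃ f, f = E + W + N + S := ⟨_, rfl⟩
  rw [← hf]
  have hf0 : 0 ≤ f := by rw [hf]; positivity
  rcases hf0.eq_or_lt with h | h
  · obtain ⟨a, b, c, d, h1, -⟩ := hS 1 0 0 0 (by norm_num) le_rfl le_rfl le_rfl (by norm_num)
    refine ⟨a, b, c, d, h1, ?_⟩
    have e1 : E = 0 := by linarith
    have e2 : W = 0 := by linarith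
    have e3 : N = 0 := by linarith
    have e4 : S = 0 := by linarith
    subst e1 e2 e3 e4
    rw [← h]
    simp [rowT]
  · obtain ⟨a, b, c, d, h1, h2⟩ := hS (E / f) (W / f) (N / f) (S / f) (by positivity)
      (by positivity) (by positivity) (by positivity) (by field_simp; linarith)
    refine ⟨a, b, c, d, h1, ?_⟩
    have h3 := mul_le_mul_of_nonneg_left h2 h.le
    have l1 := mul_log_div E f h hE
    have l2 := mul_log_div W f h hW
    have l3 := mul_log_div N f h hN
    have l4 := mul_log_div S f h hS0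
    have q1 : f * (-3 * (E / f * a + W / f * b + N / f * c + S / f * d))
        = -3 * (E * a + W * b + N * c + S * d) := by field_simp
    have q2 : f * (21 / 8 * ((E / f - W / f) ^ 2 + (N / f - S / f) ^ 2))
        = 21 / 8 * (E - W) ^ 2 / f + 21 / 8 * (N - S) ^ 2 / f := by field_simp
    have q3 : f * (9 / 320 * (E / f + W / f - N / f - S / f) ^ 4)
        = 9 / 640 * (2 * (E + W) - f) ^ 4 / f ^ 3 + 9 / 640 * (2 * (N + S) - f) ^ 4 / f ^ 3 := by
      have a1 : 2 * (E + W) - f = E + W - N - S := by rw [hf]; ring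
      have a2 : 2 * (N + S) - f = -(E + W - N - S) := by rw [hf]; ring
      rw [a1, a2]; field_simp; ring
    have q4 : (2 * (E + W) - f) * k f + (2 * (N + S) - f) * k f = 0 := by
      have a1 : (2 * (E + W) - f) + (2 * (N + S) - f) = 0 := by rw [hf]; ring
      rw [← add_mul, a1, zero_mul]
    have q5 : f * log f = E * log f + W * log f + N * log f + S * log f := by
      generalize log f = L; rw [hf]; ring
    have q6 : f * log 4 = E * log 4 + W * log 4 + N * log 4 + S * log 4 := by
      rw [hf]; ring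
    rw [mul_add, mul_add, mul_add, q1, q2, q3] at h3
    unfold rowT
    rw [mul_log_four E hE, mul_log_four W hW, mul_log_four N hN, mul_log_four S hS0, log_const]
    linarith

theorem sum_dir (φ : Bool × Bool → ℝ) :
    ∑ d, φ d = φ (true, true) + φ (false, false) + φ (true, false) + φ (false, true) := by
  simp only [Fintype.sum_prod_type, Fintype.sum_bool]; ring

theorem sum_grid (φ : X2 → ℝ) : ∑ x, φ x = ∑ X : ZMod 5, ∑ Y : ZMod 5, φ (X + Y, X - Y) := by
  have hb : Function.Bijective fun z : X2 => ((z.1 + z.2, z.1 - z.2) : X2) := by decide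
  rw [← hb.sum_comp φ, Fintype.sum_prod_type]

end T99

open T99

theorem st_AN (hS : St_S) (hP : St_PHI) (hR : St_R) : St_AN := by
  intro ν h0 hio htot hcap
  obtain ⟨k, hk⟩ := hR
  choose a b c d hadm hpt using fun x : X2 => an_pt hS k (ν (x, true, true)) (ν (x, false, false))
    (ν (x, true, false)) (ν (x, false, true)) (h0 _) (h0 _) (h0 _) (h0 _)
  refine ⟨fun t => if t.2.1 then (if t.2.2 then a t.1 else c t.1)
    else (if t.2.2 then d t.1 else b t.1), fun x => by simpa using hadm x, ?_⟩
  obtain ⟨f, hf⟩ : ∃ f : X2 → ℝ, ∀ x, f x = ∑ d, ν (x, d) := ⟨_, fun _ => rfl⟩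
  have hf' : ∀ x, ν (x, true, true) + ν (x, false, false) + ν (x, true, false)
      + ν (x, false, true) = f x := fun x => by rw [hf, sum_dir]
  have hf0 : ∀ x, 0 ≤ f x := fun x => by rw [hf]; exact sum_nonneg fun _ _ => h0 _
  simp only [← hf] at hcap ⊢
  simp only [hf'] at hpt
  have hft : ∑ x, f x = 25 := by
    rw [← htot, Fintype.sum_prod_type ν]; exact sum_congr rfl fun x _ => hf x
  have hs := sum_le_sum fun x (_ : x ∈ univ) => hpt x
  have hW : ∀ X Y : ZMod 5, ν ((X + Y, X - Y), false, false)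
      = ν ((X - 1 + Y, X - 1 - Y), true, true) := fun X Y => by
    rw [← hio]
    congr 1
    simp only [io2, sg, Bool.not_false, Bool.false_eq_true, if_false]
    congr 2 <;> ring
  have hSS : ∀ X Y : ZMod 5, ν ((X + Y, X - Y), false, true)
      = ν ((X + (Y - 1), X - (Y - 1)), true, false) := fun X Y => by
    rw [← hio]
    congr 1
    simp only [io2, sg, Bool.not_false, Bool.not_true, Bool.false_eq_true, if_false, if_true]
    congr 2 <;> ring
  have r1 : ∀ Y : ZMod 5, _ := fun Y => hk (fun X => f (X + Y, X - Y))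
    (fun X => ν ((X + Y, X - Y), true, true)) (fun _ => h0 _)
    (fun X => by
      have := hf' (X + Y, X - Y)
      have h1 := h0 ((X + Y, X - Y), true, false)
      have h2 := h0 ((X + Y, X - Y), false, true)
      rw [← hW]; linarith) (fun _ => hcap _)
  have r2 : ∀ X : ZMod 5, _ := fun X => hk (fun Y => f (X + Y, X - Y))
    (fun Y => ν ((X + Y, X - Y), true, false)) (fun _ => h0 _)
    (fun Y => by
      have := hf' (X + Y, X - Y)
      have h1 := h0 ((X + Y, X - Y), true, true)
      have h2 := h0 ((X + Y, X - Y), false, false)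
      rw [← hSS]; linarith) (fun _ => hcap _)
  simp only [← hW] at r1
  simp only [← hSS] at r2
  have s1 := sum_le_sum fun Y (_ : Y ∈ univ) => r1 Y
  have s2 := sum_le_sum fun X (_ : X ∈ univ) => r2 X
  have ph := hP (fun X Y => f (X + Y, X - Y)) (fun _ _ => hf0 _) (by rw [← sum_grid, hft])
  have g1 := sum_grid fun x => rowT k (f x) (ν (x, true, true)) (ν (x, false, false))
  have g2 := sum_grid fun x => rowT k (f x) (ν (x, true, false)) (ν (x, false, true))
  have g3 := sum_grid f
  rw [hft] at g3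
  have g4 : ∑ Y : ZMod 5, ∑ X : ZMod 5, f (X + Y, X - Y) = 25 := by rw [sum_comm, ← g3]
  have g5 : ∑ Y : ZMod 5, ∑ X : ZMod 5, Ph (f (X + Y, X - Y))
      = ∑ X : ZMod 5, ∑ Y : ZMod 5, Ph (f (X + Y, X - Y)) := sum_comm
  rw [sum_comm] at g1
  simp only [sum_sub_distrib, ← mul_sum] at s1 s2
  rw [← g1, g4, g5] at s1
  rw [← g2, ← g3] at s2
  simp only [sum_add_distrib, sum_sub_distrib, ← sum_mul, sum_neg_distrib] at hs
  rw [hft] at hs
  have c5 : ∑ _X : ZMod 5, ∑ _Y : ZMod 5, (1 : ℝ) = 25 := by
    simp [ZMod.card]; norm_num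
  rw [c5] at s1 s2
  rw [Fintype.sum_prod_type (fun t : T2 => -3 * (ν t * _) + 3 / 2 * (ν t * log (ν t)))]
  simp only [sum_dir, if_true, Bool.false_eq_true, if_false]
  have fin : ∑ x : X2, (-3 * (ν (x, true, true) * a x) + 3 / 2 * (ν (x, true, true) * log (ν (x, true, true)))
      + (-3 * (ν (x, false, false) * b x) + 3 / 2 * (ν (x, false, false) * log (ν (x, false, false))))
      + (-3 * (ν (x, true, false) * c x) + 3 / 2 * (ν (x, true, false) * log (ν (x, true, false))))
      + (-3 * (ν (x, false, true) * d x) + 3 / 2 * (ν (x, false, true) * log (ν (x, false, true)))))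
      = -∑ x : X2, 3 * (ν (x, true, true) * a x + ν (x, false, false) * b x
        + ν (x, true, false) * c x + ν (x, false, true) * d x)
      + ∑ x : X2, 3 / 2 * (ν (x, true, true) * log (ν (x, true, true))
        + ν (x, false, false) * log (ν (x, false, false))
        + ν (x, true, false) * log (ν (x, true, false))
        + ν (x, false, true) * log (ν (x, false, true))) := by
    rw [← sum_neg_distrib, ← sum_add_distrib]
    exact sum_congr rfl fun x _ => by ring
  rw [fin]
  linarith

end Pool.Agent.Lib.RC5
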