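import Pool.Agent.Lib.RC5.Blue

namespace Pool.Agent.Lib.RC5

open Finset

namespace T12

def al (x : Star) : ℕ := if cst x.2 then 1 else 4

def be (x : Star) : ℕ := if x = (0, fun _ => true) ∨ x = (1, fun _ => false) then 1 else 0

theorem nn_eq (k r : ℕ) (x : Star) : nn k r x = k * al x + r * be x := by
  unfold nn al be
  split_ifs <;> omega

theorem sum_nn (k r : ℕ) (f : Star → ℕ) :
    ∑ x, nn k r x * f x = k * ∑ x, al x * f x + r * ∑ x, be x * f x := by
  simp only [nn_eq, add_mul, sum_add_distrib, mul_sum, mul_assoc]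

theorem sum_lab {n : ℕ} (a : Lab n) (f : Star → ℕ) : ∑ v, f (a v) = ∑ x, num a x * f x := by
  rw [← sum_fiberwise (s := univ) (g := a)]
  refine sum_congr rfl fun x _ => ?_
  rw [num, sel_eq, sum_congr rfl (g := fun _ => f x) fun v hv => by rw [(mem_filter.1 hv).2]]
  simp

def ft (t : T1) (x : Star) : ℕ := ∑ j : Fin 3, if (x.1, x.2 j) = t then 1 else 0

theorem num_ty {n : ℕ} (a : Lab n) (t : T1) : num (ty1 a) t = ∑ v, ft t (a v) := by
  rw [num, sel_eq, card_filter, Fintype.sum_prod_type]
  rfl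

theorem al_ft : ∀ t : T1, ∑ x, al x * ft t x = 39 := by decide +kernel

theorem be_ft : ∀ t : T1, ∑ x, be x * ft (io1 t) x = ∑ x, be x * ft t x := by decide +kernel

theorem al_c : ∀ c : ZMod 5, ∑ x : Star, al x * (if x.1 = c then 1 else 0) = 26 := by
  decide +kernel

theorem be_c : ∀ c : ZMod 5, ∑ x : Star, be x * (if x.1 = c then 1 else 0) ≤ 1 := by
  decide +kernel

theorem al_s : ∑ x : Star, al x * (if cst x.2 then 1 else 0) = 10 := by decide +kernel

theorem be_s : ∑ x : Star, be x * (if cst x.2 then 1 else 0) = 2 := by decide +kernel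

theorem al_1 : ∑ x : Star, al x * 1 = 130 := by decide +kernel

theorem be_1 : ∑ x : Star, be x * 1 = 2 := by decide +kernel

end T12

open T12 in
theorem st_CLS : St_CLS := by
  intro n hn
  have hn' : n % 2 = 0 := Nat.even_iff.1 hn
  refine ⟨?_, fun a ha => ?_⟩
  · have := sum_nn (n / 130) (n % 130 / 2) fun _ => 1
    rw [al_1, be_1] at this
    simp only [mul_one] at this
    omega
  · have h1 : ∀ f : Star → ℕ, ∑ v, f (a v) =
        n / 130 * ∑ x, al x * f x + n % 130 / 2 * ∑ x, be x * f x := fun f => by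
      rw [sum_lab, ← sum_nn]
      exact sum_congr rfl fun x _ => by rw [(mem_sel.1 ha).2 x]
    refine ⟨fun t => ?_, fun t => ?_, fun c => ?_, ?_⟩
    · rw [num_ty, h1, al_ft]
      omega
    · rw [num_ty, num_ty, h1, h1, al_ft, al_ft, be_ft]
    · rw [num, sel_eq, card_filter, h1 fun x => if x.1 = c then 1 else 0, al_c]
      have := Nat.mul_le_mul_left (n % 130 / 2) (be_c c)
      omega
    · rw [ncst, sel_eq, card_filter, h1 fun x => if cst x.2 then 1 else 0, al_s, be_s]
      omega

end Pool.Agent.Lib.RC5
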