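import Pool.Agent.Lib.RC5.B_G2

/-! Concentration for the Hamming distance on perfect matchings. -/

namespace Pool.Agent.Lib.RC5

open Finset Real

namespace T80

/-- values within distance four of each other -/
theorem hoeff {β : Type} (B : Finset β) (y : β → ℝ) (μ l : ℝ) (hy : ∀ b ∈ B, |y b - μ| ≤ 4)
    (hs : ∑ b ∈ B, (y b - μ) = 0) :
    ∑ b ∈ B, exp (l * y b) ≤ B.card * exp (l * μ + 8 * l ^ 2) := by
  have h1 : ∀ b ∈ B, exp (l * y b)
      ≤ exp (l * μ) * (cosh (4 * l) + (y b - μ) * (sinh (4 * l) / 4)) := by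
    intro b hb
    have h2 : |(y b - μ) / 4| ≤ 1 := by
      rw [abs_div, div_le_one (by norm_num), abs_of_pos (by norm_num : (0 : ℝ) < 4)]
      exact hy b hb
    have h3 := exp_mul_le_cosh_add_mul_sinh h2 (4 * l)
    calc exp (l * y b) = exp (l * μ) * exp ((y b - μ) / 4 * (4 * l)) := by
          rw [← exp_add]; congr 1; ring
      _ ≤ _ := mul_le_mul_of_nonneg_left (h3.trans_eq (by ring)) (exp_pos _).le
  calc _ ≤ _ := sum_le_sum h1
    _ = B.card * (exp (l * μ) * cosh (4 * l)) := by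
        rw [← mul_sum, sum_add_distrib, ← sum_mul, hs, sum_const, nsmul_eq_mul]; ring
    _ ≤ _ := by
        rw [exp_add]
        have := cosh_le_exp_half_sq (4 * l)
        rw [show (4 * l) ^ 2 / 2 = 8 * l ^ 2 by ring] at this
        gcongr

variable {α : Type} [Fintype α] [DecidableEq α]

/-- the matchings that agree with `m0` outside `S` -/
noncomputable def OmS (S : Finset α) (m0 : α → α) : Finset (α → α) :=
  sel univ fun m => IsM m ∧ ∀ h, h ∉ S → m h = m0 h

theorem mem_OmS {S : Finset α} {m0 m : α → α} :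
    m ∈ OmS S m0 ↔ IsM m ∧ ∀ h, h ∉ S → m h = m0 h := by
  simp [OmS]

theorem OmS_univ (m0 : α → α) : OmS univ m0 = Om α := by
  ext m
  simp [OmS, Om]

theorem OmS_empty {m0 : α → α} (h0 : IsM m0) : OmS ∅ m0 = {m0} := by
  ext m
  rw [mem_OmS, mem_singleton]
  exact ⟨fun h => funext fun x => h.2 x (notMem_empty x),
    fun h => by rw [h]; exact ⟨h0, fun _ _ => rfl⟩⟩

variable {S : Finset α} {m0 m : α → α} {a b c : α}

theorem img_mem (hS : ∀ h, h ∉ S → m0 h ∉ S) (hm : m ∈ OmS S m0) (ha : a ∈ S) :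
    m a ∈ S.erase a := by
  obtain ⟨h1, h2⟩ := mem_OmS.1 hm
  refine mem_erase.2 ⟨(h1 a).2, by_contra fun h => hS _ h ?_⟩
  rw [← h2 _ h, (h1 a).1]
  exact ha

theorem sw_mem (hS : ∀ h, h ∉ S → m0 h ∉ S) (hm : m ∈ OmS S m0) (hb : b ∈ S) (hc : c ∈ S) :
    sw b c m ∈ OmS S m0 := by
  obtain ⟨h1, h2⟩ := mem_OmS.1 hm
  refine mem_OmS.2 ⟨T25.sw_isM h1 b c, fun h hh => ?_⟩
  have h3 : ∀ x, x ∉ S → Equiv.swap b c x = x := fun x hx =>
    Equiv.swap_apply_of_ne_of_ne (fun e => hx (e ▸ hb)) fun e => hx (e ▸ hc)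
  rw [sw, h3 h hh, h2 h hh, h3 _ (hS h hh)]

omit [Fintype α] in
theorem sw_at (hb : b ≠ a) (hc : c ≠ a) (e : m a = b) : sw b c m a = c := by
  rw [sw, Equiv.swap_apply_of_ne_of_ne hb.symm hc.symm, e, Equiv.swap_apply_left]

omit [Fintype α] in
theorem sw_comm (b c : α) (m : α → α) : sw b c m = sw c b m := by
  funext h
  rw [sw, sw, Equiv.swap_comm]

/-- switching carries one class onto another -/
theorem sum_class (hS : ∀ h, h ∉ S → m0 h ∉ S) (hb : b ∈ S.erase a) (hc : c ∈ S.erase a)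
    (g : (α → α) → ℝ) :
    ∑ m ∈ (OmS S m0).filter (fun m => m a = c), g m
      = ∑ m ∈ (OmS S m0).filter (fun m => m a = b), g (sw b c m) := by
  obtain ⟨hb1, hb2⟩ := mem_erase.1 hb
  obtain ⟨hc1, hc2⟩ := mem_erase.1 hc
  refine sum_nbij' (sw b c) (sw b c) (fun m hm => ?_) (fun m hm => ?_)
    (fun m _ => T25.sw_sw b c m) (fun m _ => T25.sw_sw b c m) fun m _ => by rw [T25.sw_sw]
  · rw [mem_filter] at hm ⊢
    exact ⟨sw_mem hS hm.1 hb2 hc2, by rw [sw_comm]; exact sw_at hc1 hb1 hm.2⟩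
  · rw [mem_filter] at hm ⊢
    exact ⟨sw_mem hS hm.1 hb2 hc2, sw_at hb1 hc1 hm.2⟩

/-- a class is a set of the same kind with two points less -/
theorem class_eq (h0 : IsM m0) (hS : ∀ h, h ∉ S → m0 h ∉ S) (ha : a ∈ S) (hb : b ∈ S.erase a) :
    ∃ m1, IsM m1 ∧ (∀ h, h ∉ (S.erase a).erase b → m1 h ∉ (S.erase a).erase b) ∧
      (OmS S m0).filter (fun m => m a = b) = OmS ((S.erase a).erase b) m1 := by
  have hm0 : m0 ∈ OmS S m0 := mem_OmS.2 ⟨h0, fun _ _ => rfl⟩
  have h1 := mem_erase.1 (img_mem hS hm0 ha)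
  obtain ⟨hb1, hb2⟩ := mem_erase.1 hb
  obtain ⟨h2, h3⟩ := mem_OmS.1 (sw_mem hS hm0 h1.2 hb2)
  have h4 : sw (m0 a) b m0 a = b := sw_at h1.1 hb1 rfl
  generalize sw (m0 a) b m0 = m1 at h2 h3 h4
  have h5 : m1 b = a := by rw [← h4, (h2 a).1]
  have h6 : ∀ h, h ∉ (S.erase a).erase b → h = b ∨ h = a ∨ h ∉ S := by
    intro h hh
    simp only [mem_erase] at hh
    tauto
  refine ⟨m1, h2, fun h hh => ?_, ?_⟩
  · rcases h6 h hh with rfl | rfl | hh
    · simp [h5]
    · simp [h4]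
    · rw [h3 h hh]
      exact fun e => hS h hh (mem_of_mem_erase (mem_of_mem_erase e))
  · ext m
    rw [mem_filter, mem_OmS, mem_OmS]
    constructor
    · rintro ⟨⟨e1, e2⟩, e3⟩
      refine ⟨e1, fun h hh => ?_⟩
      rcases h6 h hh with rfl | rfl | hh
      · rw [h5, ← e3, (e1 a).1]
      · rw [e3, h4]
      · rw [e2 h hh, h3 h hh]
    · rintro ⟨e1, e2⟩
      refine ⟨⟨e1, fun h hh => ?_⟩, ?_⟩
      · rw [e2 h fun e => hh (mem_of_mem_erase (mem_of_mem_erase e)), h3 h hh]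
      · rw [e2 a (by simp), h4]

theorem sum_split (hS : ∀ h, h ∉ S → m0 h ∉ S) (ha : a ∈ S) (g : (α → α) → ℝ) :
    ∑ m ∈ OmS S m0, g m
      = ∑ b ∈ S.erase a, ∑ m ∈ (OmS S m0).filter (fun m => m a = b), g m :=
  (sum_fiberwise_of_maps_to (fun _ hm => img_mem hS hm ha) g).symm

/-- exponential moments of a function that a switching changes by at most four -/
theorem mgf (f : (α → α) → ℝ) (hf : ∀ m, IsM m → ∀ b c, f (sw b c m) ≤ f m + 4) (l : ℝ) (n : ℕ) :
    ∀ (S : Finset α) (m0 : α → α), S.card = n → IsM m0 → (∀ h, h ∉ S → m0 h ∉ S) →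
      ∑ m ∈ OmS S m0, exp (l * f m) ≤ (OmS S m0).card *
        exp (l * ((∑ m ∈ OmS S m0, f m) / (OmS S m0).card) + 4 * n * l ^ 2) := by
  induction n using Nat.strong_induction_on with
  | _ n ih =>
  intro S m0 hn h0 hS
  rcases S.eq_empty_or_nonempty with rfl | ⟨a, ha⟩
  · rw [← hn, OmS_empty h0]
    simp
  have hm0 : m0 ∈ OmS S m0 := mem_OmS.2 ⟨h0, fun _ _ => rfl⟩
  have hb0 := img_mem hS hm0 ha
  set C : α → Finset (α → α) := fun b => (OmS S m0).filter fun m => m a = b with hC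
  set k : ℝ := ((C (m0 a)).card : ℝ) with hk
  have hk0 : 0 < k := by
    have : m0 ∈ C (m0 a) := mem_filter.2 ⟨hm0, rfl⟩
    rw [hk]
    exact_mod_cast card_pos.2 ⟨m0, this⟩
  have hcard : ∀ b ∈ S.erase a, ((C b).card : ℝ) = k := by
    intro b hb
    have := sum_class hS hb0 hb fun _ => (1 : ℝ)
    rwa [sum_const, sum_const, nsmul_one, nsmul_one] at this
  have hB : (0 : ℝ) < (S.erase a).card := by exact_mod_cast card_pos.2 ⟨_, hb0⟩
  have htot : ((OmS S m0).card : ℝ) = (S.erase a).card * k := by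
    have := sum_split hS ha fun _ => (1 : ℝ)
    rw [sum_congr rfl fun b hb => (show ∑ _m ∈ C b, (1 : ℝ) = k by
      rw [← hcard b hb]; simp)] at this
    simpa using this
  set y : α → ℝ := fun b => (∑ m ∈ C b, f m) / k with hy
  set μ : ℝ := (∑ m ∈ OmS S m0, f m) / (OmS S m0).card with hμ
  have hsum : ∑ b ∈ S.erase a, y b = (S.erase a).card * μ := by
    rw [hμ, htot, sum_split hS ha f, ← sum_div]
    field_simp
    rfl
  have hyy : ∀ b ∈ S.erase a, ∀ c ∈ S.erase a, y c ≤ y b + 4 := by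
    intro b hb c hc
    have h1 : ∑ m ∈ C c, f m ≤ ∑ m ∈ C b, (f m + 4) := by
      rw [hC, sum_class hS hb hc f]
      exact sum_le_sum fun m hm => hf m (mem_OmS.1 (mem_filter.1 hm).1).1 b c
    rw [sum_add_distrib, sum_const, nsmul_eq_mul, hcard b hb] at h1
    simp only [hy]
    rw [div_le_iff₀ hk0, add_mul, div_mul_cancel₀ _ hk0.ne']
    linarith
  have habs : ∀ b ∈ S.erase a, |y b - μ| ≤ 4 := by
    intro b hb
    have h1 : ∑ c ∈ S.erase a, y c ≤ ∑ _c ∈ S.erase a, (y b + 4) :=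
      sum_le_sum fun c hc => hyy b hb c hc
    have h2 : ∑ _c ∈ S.erase a, (y b - 4) ≤ ∑ c ∈ S.erase a, y c :=
      sum_le_sum fun c hc => by linarith [hyy c hc b hb]
    rw [hsum, sum_const, nsmul_eq_mul] at h1 h2
    have h3 := le_of_mul_le_mul_left h1 hB
    have h4 := le_of_mul_le_mul_left h2 hB
    rw [abs_le]
    constructor <;> linarith
  have hH := hoeff (S.erase a) y μ l habs (by
    rw [sum_sub_distrib, hsum, sum_const, nsmul_eq_mul, sub_self])
  have hn2 : 2 ≤ n := by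
    have := card_erase_add_one ha
    have := card_pos.2 ⟨_, hb0⟩
    omega
  have hcl : ∀ b ∈ S.erase a, ∑ m ∈ C b, exp (l * f m)
      ≤ k * exp (4 * (n - 2) * l ^ 2) * exp (l * y b) := by
    intro b hb
    obtain ⟨m1, e1, e2, e3⟩ := class_eq h0 hS ha hb
    have h1 := ih (n - 2) (by omega) _ m1 (by
      rw [card_erase_of_mem hb, card_erase_of_mem ha, hn]; rfl) e1 e2
    rw [← e3] at h1
    change ∑ m ∈ C b, _ ≤ ((C b).card : ℝ) * exp (l * ((∑ m ∈ C b, f m) / (C b).card) + _) at h1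
    rw [hcard b hb, Nat.cast_sub hn2, exp_add] at h1
    exact h1.trans_eq (by simp only [hy]; push_cast; ring)
  calc _ = _ := sum_split hS ha _
    _ ≤ _ := sum_le_sum hcl
    _ ≤ k * exp (4 * (n - 2) * l ^ 2) * ((S.erase a).card * exp (l * μ + 8 * l ^ 2)) := by
        rw [← mul_sum]
        gcongr
    _ = _ := by
        rw [htot, show l * μ + 4 * n * l ^ 2 = 4 * (n - 2) * l ^ 2 + (l * μ + 8 * l ^ 2) by ring,
          exp_add (4 * (n - 2) * l ^ 2)]
        ring

theorem ham_sw (hm : IsM m) (b c : α) (m' : α → α) : ham (sw b c m) m' ≤ ham m m' + 4 := by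
  have h1 : (sel univ fun h => sw b c m h ≠ m' h)
      ⊆ (sel univ fun h => m h ≠ m' h) ∪ {b, c, m b, m c} := by
    intro h hh
    by_contra hn
    simp only [mem_union, mem_sel, mem_univ, true_and, mem_insert, mem_singleton, not_or,
      not_not] at hn hh
    obtain ⟨e0, e1, e2, e3, e4⟩ := hn
    refine hh ?_
    rw [sw, Equiv.swap_apply_of_ne_of_ne e1 e2, Equiv.swap_apply_of_ne_of_ne, e0]
    · exact fun e => e3 (by rw [← e, (hm h).1])
    · exact fun e => e4 (by rw [← e, (hm h).1])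
  exact (card_le_card h1).trans ((card_union_le _ _).trans (add_le_add le_rfl card_le_four))

end T80

theorem st_CONC : St_CONC := by
  intro α _ _ A t l hA hl
  rcases A.eq_empty_or_nonempty with rfl | hne
  · simp only [card_empty, Nat.cast_zero, zero_mul]
    positivity
  obtain ⟨m0, hm0⟩ := id hne
  have h0 : IsM m0 := (mem_sel.1 (hA hm0)).2
  set f : (α → α) → ℝ := fun m => A.inf' hne fun m' => (ham m m' : ℝ) with hf
  have hlip : ∀ m, IsM m → ∀ b c, f (sw b c m) ≤ f m + 4 := by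
    intro m hm b c
    obtain ⟨m', h1, h2⟩ := exists_mem_eq_inf' hne fun m' => (ham m m' : ℝ)
    refine (inf'_le _ h1).trans ?_
    simp only [hf]
    rw [h2]
    exact_mod_cast T80.ham_sw hm b c m'
  have h1 := T80.mgf f hlip l _ univ m0 card_univ h0 fun h hh => absurd (mem_univ h) hh
  have h2 := T80.mgf f hlip (-l) _ univ m0 card_univ h0 fun h hh => absurd (mem_univ h) hh
  rw [T80.OmS_univ] at h1 h2
  set μ := (∑ m ∈ Om α, f m) / (Om α).card
  set B := sel (Om α) fun m => ∀ m' ∈ A, t < ham m m'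
  have h3 : (B.card : ℝ) * exp (l * t) ≤ ∑ m ∈ Om α, exp (l * f m) := by
    rw [← nsmul_eq_mul, ← sum_const]
    refine (sum_le_sum fun m hm => ?_).trans (sum_le_sum_of_subset_of_nonneg
      (fun m hm => (mem_sel.1 hm).1) fun _ _ _ => (exp_pos _).le)
    exact exp_le_exp.2 (mul_le_mul_of_nonneg_left
      (le_inf' _ _ fun m' hm' => ((mem_sel.1 hm).2 m' hm').le) hl)
  have h4 : (A.card : ℝ) ≤ ∑ m ∈ Om α, exp (-l * f m) := by
    rw [card_eq_sum_ones, Nat.cast_sum]
    refine (sum_le_sum fun m hm => ?_).trans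
      (sum_le_sum_of_subset_of_nonneg hA fun _ _ _ => (exp_pos _).le)
    have h5 : f m ≤ 0 := (inf'_le _ hm).trans (by simp [ham, sel_eq])
    rw [Nat.cast_one]
    exact one_le_exp (by nlinarith)
  have h5 := mul_le_mul (h4.trans h2) (h3.trans h1) (by positivity) (by positivity)
  refine le_of_mul_le_mul_right ?_ (exp_pos (l * t))
  rw [mul_assoc]
  refine h5.trans_eq ?_
  rw [mul_mul_mul_comm, ← exp_add, mul_assoc (_ ^ 2), ← exp_add, ← sq]
  congr 2
  ring

end Pool.Agent.Lib.RC5
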