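import Pool.Agent.Lib.RC5.Blue

/-! The number of matchings with prescribed types. -/

namespace Pool.Agent.Lib.RC5

open Finset

namespace T63

variable {α T : Type} [Fintype α] [DecidableEq α] {ty : α → T} {ι : T → T}

theorem mem_cp {m : α → α} :
    m ∈ Comp ty ι ↔ (∀ h, m (m h) = h ∧ m h ≠ h) ∧ ∀ h, ty (m h) = ι (ty h) := by
  simp [Comp, Om, IsM]

omit [DecidableEq α] in
theorem num_card (t : T) : num ty t = Nat.card {h // ty h = t} := by
  classical
  rw [num, sel_eq, Nat.card_eq_fintype_card, Fintype.card_subtype]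

/-- a matching as a bijection between two types -/
def fibE (hι : ∀ t, ι (ι t) = t) (m : Comp ty ι) (t : T) :
    {h // ty h = t} ≃ {h // ty h = ι t} where
  toFun h := ⟨m.1 h.1, by rw [(mem_cp.1 m.2).2, h.2]⟩
  invFun h := ⟨m.1 h.1, by rw [(mem_cp.1 m.2).2, h.2, hι]⟩
  left_inv h := Subtype.ext ((mem_cp.1 m.2).1 h.1).1
  right_inv h := Subtype.ext ((mem_cp.1 m.2).1 h.1).1

theorem bij (hι : ∀ t, ι (ι t) = t) (hn : ∀ t, ι t ≠ t) {P : T → Prop}
    (hP : ∀ t, P (ι t) ↔ ¬ P t) :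
    Function.Bijective fun (m : Comp ty ι) (t : {t // P t}) => fibE hι m t.1 := by
  classical
  constructor
  · intro m m' e
    refine Subtype.ext (funext fun h => ?_)
    by_cases p : P (ty h)
    · exact congrArg (fun f => (f ⟨h, rfl⟩).1) (congrFun e ⟨ty h, p⟩)
    · exact congrArg (fun f => (f.symm ⟨h, (hι _).symm⟩).1) (congrFun e ⟨ι (ty h), (hP _).2 p⟩)
  · intro f
    let m : α → α := fun h => if p : P (ty h) then (f ⟨ty h, p⟩ ⟨h, rfl⟩).1
      else ((f ⟨ι (ty h), (hP _).2 p⟩).symm ⟨h, (hι _).symm⟩).1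
    have h1 : ∀ (t : {t // P t}) (h : {h // ty h = t.1}), m h.1 = (f t h).1 := by
      rintro ⟨t, p⟩ ⟨h, e⟩
      have e' : t = ty h := e.symm
      subst e'
      exact dif_pos p
    have h2 : ∀ (t : {t // P t}) (h : {h // ty h = ι t.1}), m h.1 = ((f t).symm h).1 := by
      rintro ⟨t, p⟩ ⟨h, e⟩
      have e' : t = ι (ty h) := by rw [show ty h = ι t from e, hι]
      subst e'
      exact dif_neg ((hP _).1 p)
    have h3 : ∀ h, ty (m h) = ι (ty h) ∧ m (m h) = h := by
      intro h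
      by_cases p : P (ty h)
      · have e := h1 ⟨ty h, p⟩ ⟨h, rfl⟩
        refine ⟨e ▸ (f ⟨ty h, p⟩ ⟨h, rfl⟩).2, ?_⟩
        rw [show m h = _ from e, h2 ⟨ty h, p⟩, Equiv.symm_apply_apply]
      · have e := h2 ⟨ι (ty h), (hP _).2 p⟩ ⟨h, (hι _).symm⟩
        refine ⟨e ▸ ((f ⟨ι (ty h), (hP _).2 p⟩).symm ⟨h, (hι _).symm⟩).2, ?_⟩
        rw [show m h = _ from e, h1 ⟨ι (ty h), (hP _).2 p⟩, Equiv.apply_symm_apply]
    refine ⟨⟨m, mem_cp.2 ⟨fun h => ⟨(h3 h).2, fun e => hn (ty h) ?_⟩, fun h => (h3 h).1⟩⟩,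
      funext fun t => Equiv.ext fun h => Subtype.ext (h1 t h)⟩
    rw [← (h3 h).1, e]

end T63

theorem st_COUNT : St_COUNT := by
  intro α T _ _ _ ty ι hι
  classical
  refine ⟨fun ⟨m, hm⟩ t => ?_, fun hn hc => ?_⟩
  · rw [T63.num_card, T63.num_card]
    exact (Nat.card_congr (T63.fibE hι ⟨m, hm⟩ t)).symm
  let e := Fintype.equivFin T
  let P : T → Prop := fun t => e t < e (ι t)
  have hP : ∀ t, P (ι t) ↔ ¬ P t := fun t => by
    have : e (ι t) ≠ e t := fun k => hn t (e.injective k)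
    simp only [P, hι, not_lt]
    exact ⟨le_of_lt, fun k => lt_of_le_of_ne k this⟩
  have h1 : (Comp ty ι).card = ∏ t ∈ univ.filter P, (num ty t).factorial := by
    rw [← Fintype.card_coe, Fintype.card_of_bijective (T63.bij (ty := ty) hι hn hP),
      Fintype.card_pi, Finset.prod_subtype (univ.filter P) (p := P) (by simp)]
    refine Finset.prod_congr rfl fun t _ => ?_
    have k : Fintype.card {h // ty h = t.1} = Fintype.card {h // ty h = ι t.1} := by
      rw [← Nat.card_eq_fintype_card, ← Nat.card_eq_fintype_card, ← T63.num_card,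
        ← T63.num_card, hc]
    rw [Fintype.card_equiv (Fintype.equivOfCardEq k), T63.num_card, Nat.card_eq_fintype_card]
  have h2 : ∏ t ∈ univ.filter (fun t => ¬ P t), (num ty t).factorial
      = ∏ t ∈ univ.filter P, (num ty t).factorial := by
    refine Finset.prod_bij' (fun t _ => ι t) (fun t _ => ι t) ?_ ?_ (fun t _ => hι t)
      (fun t _ => hι t) fun t _ => by rw [hc]
    · intro t ht
      exact mem_filter.2 ⟨mem_univ _, (hP t).2 (mem_filter.1 ht).2⟩
    · intro t ht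
      exact mem_filter.2 ⟨mem_univ _, fun k => (hP t).1 k (mem_filter.1 ht).2⟩
  rw [← Finset.prod_filter_mul_prod_filter_not univ P, h2, h1, sq]

end Pool.Agent.Lib.RC5
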