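import Pool.Agent.Lib.RC5.Blue

/-! Trees in the planted model against the ideal tree. -/

namespace Pool.Agent.Lib.RC5

open Finset Real

namespace T94

variable {n : ℕ}

/-- the possible edge lists of a tree with a given message -/
def Fam (a : Lab n) : ℕ → HE n → Finset (ZMod 5) → Finset (List (HE n × HE n))
  | 0, h, S => if S = stp (ty1 a h).2 {0} then
      (univ.filter fun e => ty1 a e = io1 (ty1 a h)).image fun e => [(h, e)] else ∅
  | L + 1, h, S => (univ.filter fun e => ty1 a e = io1 (ty1 a h)).biUnion fun e =>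
      ((univ : Finset (Finset (ZMod 5) × Finset (ZMod 5))).filter
        fun P => S = stp (ty1 a h).2 (P.1 ∩ P.2)).biUnion fun P =>
        (Fam a L (e.1, e.2 + 1) P.1 ×ˢ Fam a L (e.1, e.2 + 2) P.2).image
          fun q => (h, e) :: (q.1 ++ q.2)

theorem fc_mem (a : Lab n) (m : HE n → HE n) (hm : ∀ h, ty1 a (m h) = io1 (ty1 a h)) :
    ∀ (L : ℕ) (h : HE n), (ports m L h).map (fun p => (p, m p)) ∈ Fam a L h (msg a m L h) := by
  intro L
  induction L with
  | zero =>
    intro h
    have e : msg a m 0 h = stp (ty1 a h).2 {0} := rfl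
    rw [Fam, if_pos e]
    exact mem_image.2 ⟨m h, mem_filter.2 ⟨mem_univ _, hm h⟩, rfl⟩
  | succ L ih =>
    intro h
    rw [Fam]
    refine mem_biUnion.2 ⟨m h, mem_filter.2 ⟨mem_univ _, hm h⟩, mem_biUnion.2
      ⟨(msg a m L ((m h).1, (m h).2 + 1), msg a m L ((m h).1, (m h).2 + 2)),
        mem_filter.2 ⟨mem_univ _, rfl⟩, mem_image.2 ⟨(_, _), mem_product.2 ⟨ih _, ih _⟩, ?_⟩⟩⟩
    rw [ports, List.map_cons, List.map_append]

theorem fc_len (m : HE n → HE n) : ∀ (L : ℕ) (h : HE n),
    (ports m L h).length + 1 = 2 ^ (L + 1) := by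
  intro L
  induction L with
  | zero => intro h; simp [ports]
  | succ L ih =>
    intro h
    have h1 := ih ((m h).1, (m h).2 + 1)
    have h2 := ih ((m h).1, (m h).2 + 2)
    simp only [ports, List.length_cons, List.length_append]
    rw [pow_succ 2 (L + 1)]
    omega

/-- the star with given directions around port `j` -/
def st (j : Fin 3) (b d1 d2 : Bool) : Fin 3 → Bool :=
  fun i => if i = j then b else if i = j + 1 then d1 else d2

theorem st_cst : ∀ (j : Fin 3) (b d1 d2 : Bool), cst (st j b d1 d2) ↔ (d1 = b ∧ d2 = b) := by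
  decide

theorem st_eq : ∀ (j : Fin 3) (s : Fin 3 → Bool), s = st j (s j) (s (j + 1)) (s (j + 2)) := by
  decide

theorem fc_cnt (a : Lab n) (k : ℕ) (hk : ∀ x, num a x ≤ (if cst x.2 then k else 4 * k))
    (c : ZMod 5) (d d1 d2 : Bool) :
    (((univ.filter fun e : HE n => ty1 a e = (c, !d)).filter
      fun e => (a e.1).2 (e.2 + 1) = d1 ∧ (a e.1).2 (e.2 + 2) = d2).card : ℝ)
      ≤ pw d d1 d2 * (39 * k) := by
  have hsub : ((univ.filter fun e : HE n => ty1 a e = (c, !d)).filter
      fun e => (a e.1).2 (e.2 + 1) = d1 ∧ (a e.1).2 (e.2 + 2) = d2) ⊆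
      (univ : Finset (Fin 3)).biUnion fun j =>
        (sel univ fun v => a v = (c, st j (!d) d1 d2)).image fun v => (v, j) := by
    intro e he
    simp only [mem_filter, mem_univ, true_and, ty1, Prod.mk.injEq] at he
    obtain ⟨⟨h1, h2⟩, h3, h4⟩ := he
    simp only [mem_biUnion, mem_univ, true_and, mem_image, mem_sel]
    refine ⟨e.2, e.1, ?_, rfl⟩
    refine Prod.ext h1 ?_
    have := st_eq e.2 (a e.1).2
    rw [h2, h3, h4] at this
    exact this
  have h1 : ∀ j : Fin 3, ((sel univ fun v => a v = (c, st j (!d) d1 d2)).image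
      fun v => ((v, j) : HE n)).card ≤ if d1 = (!d) ∧ d2 = (!d) then k else 4 * k := by
    intro j
    refine card_image_le.trans ?_
    have := hk (c, st j (!d) d1 d2)
    simp only [st_cst] at this
    exact this
  have h2 := (card_le_card hsub).trans (card_biUnion_le.trans (sum_le_sum fun j _ => h1 j))
  simp only [sum_const, card_univ, Fintype.card_fin, smul_eq_mul] at h2
  have h3 : ((3 * (if d1 = (!d) ∧ d2 = (!d) then k else 4 * k) : ℕ) : ℝ)
      = pw d d1 d2 * (39 * k) := by
    unfold pw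
    split_ifs
    · push_cast; ring
    · push_cast; ring
  rw [← h3]
  exact_mod_cast h2

theorem fc_sum (a : Lab n) (k : ℕ) (hk : ∀ x, num a x ≤ (if cst x.2 then k else 4 * k))
    (c : ZMod 5) (d : Bool) (g : Bool → Bool → ℝ) (hg : ∀ x y, 0 ≤ g x y) :
    ∑ e ∈ univ.filter fun e : HE n => ty1 a e = (c, !d),
        g ((a e.1).2 (e.2 + 1)) ((a e.1).2 (e.2 + 2))
      ≤ ∑ d1, ∑ d2, pw d d1 d2 * (39 * k) * g d1 d2 := by
  rw [← sum_fiberwise (s := univ.filter fun e : HE n => ty1 a e = (c, !d))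
    (g := fun e => ((a e.1).2 (e.2 + 1), (a e.1).2 (e.2 + 2))), Fintype.sum_prod_type]
  refine sum_le_sum fun d1 _ => sum_le_sum fun d2 _ => ?_
  have h := fc_cnt a k hk c d d1 d2
  calc _ = ∑ _e ∈ (univ.filter fun e : HE n => ty1 a e = (c, !d)).filter
        fun e => (a e.1).2 (e.2 + 1) = d1 ∧ (a e.1).2 (e.2 + 2) = d2, g d1 d2 := by
        refine sum_congr ?_ ?_
        · ext e; simp only [mem_filter, Prod.mk.injEq]
        · intro e he
          simp only [mem_filter] at he
          rw [he.2.1, he.2.2]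
    _ ≤ _ := by
        rw [sum_const, nsmul_eq_mul]
        exact mul_le_mul_of_nonneg_right h (hg _ _)

theorem pw_nonneg (d d1 d2 : Bool) : 0 ≤ pw d d1 d2 := by
  unfold pw; split_ifs <;> norm_num

theorem pw_sum (d : Bool) : ∑ d1, ∑ d2, pw d d1 d2 = 1 := by
  cases d <;> simp [pw] <;> norm_num

theorem mu_nonneg : ∀ (L : ℕ) (d : Bool) (S : Finset (ZMod 5)), 0 ≤ mu L d S := by
  intro L
  induction L with
  | zero => intro d S; simp only [mu]; split_ifs <;> norm_num
  | succ L ih =>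
    intro d S
    simp only [mu]
    refine sum_nonneg fun d1 _ => sum_nonneg fun d2 _ => sum_nonneg fun S1 _ =>
      sum_nonneg fun S2 _ => ?_
    split_ifs
    · exact mul_nonneg (pw_nonneg _ _ _) (mul_nonneg (ih _ _) (ih _ _))
    · exact le_rfl

theorem fc_card (a : Lab n) (k : ℕ) (hk : ∀ x, num a x ≤ (if cst x.2 then k else 4 * k)) :
    ∀ (L : ℕ) (h : HE n) (S : Finset (ZMod 5)),
      ((Fam a L h S).card : ℝ) ≤ mu L (ty1 a h).2 S * (39 * k) ^ (2 ^ (L + 1) - 1) := by
  intro L
  induction L with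
  | zero =>
    intro h S
    simp only [Fam, mu]
    split_ifs
    · have h1 := fc_sum a k hk ((ty1 a h).1 + sg (ty1 a h).2) (ty1 a h).2 (fun _ _ => 1)
        (fun _ _ => zero_le_one)
      simp only [sum_const, nsmul_eq_mul, mul_one, ← sum_mul, pw_sum] at h1
      have h2 : (((univ.filter fun e => ty1 a e = io1 (ty1 a h)).image
          fun e => [(h, e)]).card : ℝ)
          ≤ (univ.filter fun e => ty1 a e = io1 (ty1 a h)).card := by
        exact_mod_cast card_image_le
      norm_num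
      simpa using h2.trans h1
    · simp
  | succ L ih =>
    intro h S
    set B : ℝ := (39 * k) ^ (2 ^ (L + 1) - 1) with hB
    have hB0 : 0 ≤ B := by positivity
    have hpow : ((39 : ℝ) * k) ^ (2 ^ (L + 1 + 1) - 1) = 39 * k * (B * B) := by
      have h1 : 1 ≤ 2 ^ (L + 1) := Nat.one_le_two_pow
      have h2 : 2 ^ (L + 1 + 1) - 1 = (2 ^ (L + 1) - 1) + (2 ^ (L + 1) - 1) + 1 := by
        rw [pow_succ 2 (L + 1)]; omega
      rw [h2, pow_succ, pow_add]; ring
    let g : Bool → Bool → ℝ := fun d1 d2 => ∑ S1, ∑ S2,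
      if S = stp (ty1 a h).2 (S1 ∩ S2) then mu L d1 S1 * mu L d2 S2 * (B * B) else 0
    have hg : ∀ x y, 0 ≤ g x y := fun x y =>
      sum_nonneg fun S1 _ => sum_nonneg fun S2 _ => by
        split_ifs
        · exact mul_nonneg (mul_nonneg (mu_nonneg _ _ _) (mu_nonneg _ _ _)) (mul_nonneg hB0 hB0)
        · exact le_rfl
    have h1 := fc_sum a k hk ((ty1 a h).1 + sg (ty1 a h).2) (ty1 a h).2 g hg
    have h2 : ((Fam a (L + 1) h S).card : ℝ) ≤
        ∑ e ∈ univ.filter fun e : HE n => ty1 a e = io1 (ty1 a h),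
          g ((a e.1).2 (e.2 + 1)) ((a e.1).2 (e.2 + 2)) := by
      simp only [Fam]
      refine (Nat.cast_le.2 card_biUnion_le).trans ?_
      push_cast
      refine sum_le_sum fun e _ => ?_
      refine (Nat.cast_le.2 card_biUnion_le).trans ?_
      push_cast
      rw [sum_filter, Fintype.sum_prod_type]
      refine sum_le_sum fun S1 _ => sum_le_sum fun S2 _ => ?_
      split_ifs
      · refine (Nat.cast_le.2 card_image_le).trans ?_
        rw [card_product]
        push_cast
        have e1 := ih (e.1, e.2 + 1) S1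
        have e2 := ih (e.1, e.2 + 2) S2
        calc _ ≤ (mu L (ty1 a (e.1, e.2 + 1)).2 S1 * B) * (mu L (ty1 a (e.1, e.2 + 2)).2 S2 * B) :=
              mul_le_mul e1 e2 (Nat.cast_nonneg _) (mul_nonneg (mu_nonneg _ _ _) hB0)
          _ = _ := by simp only [ty1]; ring
      · exact le_rfl
    refine h2.trans (h1.trans (le_of_eq ?_))
    rw [hpow]
    simp only [mu, g, sum_mul, mul_sum]
    refine sum_congr rfl fun d1 _ => sum_congr rfl fun d2 _ => sum_congr rfl fun S1 _ =>
      sum_congr rfl fun S2 _ => ?_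
    split_ifs
    · ring
    · ring

end T94

open T94 in
theorem st_FC (hS : St_SUB) : St_FC := by
  intro n L k M a hk hM h S
  set N := 2 ^ (L + 1) - 1 with hN
  let G : Finset (List (HE n × HE n)) := sel (Fam a L h S) fun l =>
    l.toFinset.card = N ∧ ∀ p ∈ l.toFinset, (p.2, p.1) ∉ l.toFinset
  have hsub : (sel (Comp (ty1 a) io1) fun m => TL m L h ∧ msg a m L h = S) ⊆
      G.biUnion fun l => sel (Comp (ty1 a) io1) fun m => ∀ p ∈ l.toFinset, m p.1 = p.2 := by
    intro m hm
    rw [mem_sel] at hm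
    obtain ⟨hC, ⟨hnd, hno⟩, hmsg⟩ := hm
    have hty : ∀ h, ty1 a (m h) = io1 (ty1 a h) := (mem_sel.1 hC).2
    rw [mem_biUnion]
    refine ⟨(ports m L h).map (fun p => (p, m p)), ?_, ?_⟩
    · refine mem_sel.2 ⟨hmsg ▸ fc_mem a m hty L h, ?_, ?_⟩
      · rw [List.toFinset_card_of_nodup (hnd.map fun x y hxy => (Prod.mk.inj hxy).1),
          List.length_map]
        have := fc_len m L h
        omega
      · intro p hp hq
        simp only [List.mem_toFinset, List.mem_map] at hp hq
        obtain ⟨x, hx, rfl⟩ := hp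
        obtain ⟨y, hy, hxy⟩ := hq
        have : y = m x := (Prod.mk.inj hxy).1
        exact hno x hx (this ▸ hy)
    · refine mem_sel.2 ⟨hC, ?_⟩
      intro p hp
      simp only [List.mem_toFinset, List.mem_map] at hp
      obtain ⟨x, _, rfl⟩ := hp
      rfl
  have hone : ∀ l ∈ G, (sel (Comp (ty1 a) io1) fun m => ∀ p ∈ l.toFinset, m p.1 = p.2).card
      * (M - 2 ^ (L + 2)) ^ N ≤ (Comp (ty1 a) io1).card := by
    intro l hl
    obtain ⟨_, hc, hsw⟩ := mem_sel.1 hl
    have h1 := hS (HE n) T1 (ty1 a) io1 M l.toFinset (fun h => hM _) hsw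
    rw [hc] at h1
    refine le_trans (Nat.mul_le_mul_left _ (Nat.pow_le_pow_left ?_ _)) h1
    have : 2 * N ≤ 2 ^ (L + 2) := by rw [pow_succ 2 (L + 1)]; omega
    omega
  have htot : (sel (Comp (ty1 a) io1) fun m => TL m L h ∧ msg a m L h = S).card
      * (M - 2 ^ (L + 2)) ^ N ≤ (Fam a L h S).card * (Comp (ty1 a) io1).card := by
    calc _ ≤ (∑ l ∈ G, (sel (Comp (ty1 a) io1) fun m => ∀ p ∈ l.toFinset, m p.1 = p.2).card)
          * (M - 2 ^ (L + 2)) ^ N :=
          Nat.mul_le_mul_right _ ((card_le_card hsub).trans card_biUnion_le)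
      _ ≤ ∑ _l ∈ G, (Comp (ty1 a) io1).card := by
          rw [sum_mul]; exact sum_le_sum hone
      _ ≤ _ := by
          rw [sum_const, smul_eq_mul]
          exact Nat.mul_le_mul_right _ (card_le_card fun l hl => (mem_sel.1 hl).1)
  have h2 := fc_card a k hk L h S
  calc _ = (((sel (Comp (ty1 a) io1) fun m => TL m L h ∧ msg a m L h = S).card
        * (M - 2 ^ (L + 2)) ^ N : ℕ) : ℝ) := by rw [Nat.cast_mul, Nat.cast_pow]
    _ ≤ (((Fam a L h S).card * (Comp (ty1 a) io1).card : ℕ) : ℝ) := Nat.cast_le.2 htot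
    _ ≤ _ := by
        rw [Nat.cast_mul]
        exact mul_le_mul_of_nonneg_right h2 (Nat.cast_nonneg _)

end Pool.Agent.Lib.RC5
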