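import Pool.Agent.Lib.RC5.Blue

/-! FM: most planted matchings have few trees that are not free. -/

namespace Pool.Agent.Lib.RC5

open Finset

namespace T97

theorem mu_nonneg : ∀ (L : ℕ) (d : Bool) (S : Finset (ZMod 5)), 0 ≤ mu L d S
  | 0, d, S => by
    unfold mu
    split_ifs <;> norm_num
  | L + 1, d, S => by
    unfold mu
    refine sum_nonneg fun d1 _ => sum_nonneg fun d2 _ => sum_nonneg fun S1 _ =>
      sum_nonneg fun S2 _ => ?_
    split_ifs
    · refine mul_nonneg ?_ (mul_nonneg (mu_nonneg L d1 S1) (mu_nonneg L d2 S2))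
      unfold pw
      split_ifs <;> norm_num
    · exact le_rfl

theorem ratio (l : ℕ) (x D : ℝ) (hD : 0 < D) (hx : 2 * (l + 1) * D ≤ x) :
    x ^ l ≤ 2 * (x - D) ^ l := by
  have hl : (0 : ℝ) ≤ l := Nat.cast_nonneg l
  have hlD : 0 ≤ (l : ℝ) * D := mul_nonneg hl hD.le
  have hx0 : 0 < x := by nlinarith
  have h1 : D / x ≤ 1 := by
    rw [div_le_one hx0]
    nlinarith
  have h2 := one_add_mul_le_pow (a := -(D / x)) (by linarith) l
  have h3 : (l : ℝ) * (D / x) ≤ 1 / 2 := by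
    rw [← mul_div_assoc, div_le_iff₀ hx0]
    nlinarith
  have h4 : x - D = x * (1 + -(D / x)) := by
    field_simp
    ring
  rw [h4, mul_pow]
  have h5 : 0 < x ^ l := pow_pos hx0 l
  nlinarith

theorem markov {β : Type} (C : Finset β) (f : β → ℕ) (t : ℝ) (ht : 0 < t)
    (h : ∑ m ∈ C, (f m : ℝ) ≤ t / 2 * C.card) :
    C.card ≤ 2 * (sel C fun m => (f m : ℝ) ≤ t).card := by
  classical
  have h1 := card_filter_add_card_filter_not (s := C) (fun m => (f m : ℝ) ≤ t)
  have h2 : ((C.filter fun m => ¬ (f m : ℝ) ≤ t).card : ℝ) * t ≤ ∑ m ∈ C, (f m : ℝ) := by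
    calc ((C.filter fun m => ¬ (f m : ℝ) ≤ t).card : ℝ) * t
        = ∑ _m ∈ C.filter fun m => ¬ (f m : ℝ) ≤ t, t := by
          rw [sum_const, nsmul_eq_mul]
      _ ≤ ∑ m ∈ C.filter fun m => ¬ (f m : ℝ) ≤ t, (f m : ℝ) :=
          sum_le_sum fun m hm => (not_le.mp (mem_filter.mp hm).2).le
      _ ≤ ∑ m ∈ C, (f m : ℝ) :=
          sum_le_sum_of_subset_of_nonneg (filter_subset _ _) fun _ _ _ => Nat.cast_nonneg _
  have h3 : ((C.filter fun m => ¬ (f m : ℝ) ≤ t).card : ℝ) * 2 ≤ C.card := by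
    have : (((C.filter fun m => ¬ (f m : ℝ) ≤ t).card : ℝ) * 2) * t ≤ C.card * t := by
      nlinarith
    exact le_of_mul_le_mul_right this ht
  have h4 : (C.filter fun m => ¬ (f m : ℝ) ≤ t).card * 2 ≤ C.card := by exact_mod_cast h3
  rw [sel_eq]
  omega

theorem swap_sum {β γ : Type} [Fintype γ] (C : Finset β) (P : β → γ → Prop) :
    ∑ m ∈ C, (sel univ fun h => P m h).card = ∑ h : γ, (sel C fun m => P m h).card := by
  classical
  simp only [sel_eq, card_filter]
  exact sum_comm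

theorem one_port {β : Type} (C : Finset β) (P : β → Prop) (g : β → Finset (ZMod 5)) :
    (sel C fun m => P m ∧ g m ≠ univ).card
      ≤ ∑ S ∈ (univ : Finset (Finset (ZMod 5))).erase univ, (sel C fun m => P m ∧ g m = S).card := by
  classical
  refine le_trans (card_le_card ?_) card_biUnion_le
  intro m hm
  rw [mem_sel] at hm
  exact mem_biUnion.mpr ⟨g m, mem_erase.mpr ⟨hm.2.2, mem_univ _⟩, mem_sel.mpr ⟨hm.1, hm.2.1, rfl⟩⟩

theorem port_le {β : Type} (C : Finset β) (P : β → Prop) (g : β → Finset (ZMod 5))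
    (w : Finset (ZMod 5) → ℝ) (A u : ℝ) (hA : 0 ≤ A)
    (h : ∀ S, ((sel C fun m => P m ∧ g m = S).card : ℝ) ≤ A * w S)
    (hu : ∑ S ∈ (univ : Finset (Finset (ZMod 5))).erase univ, w S ≤ u) :
    ((sel C fun m => P m ∧ g m ≠ univ).card : ℝ) ≤ A * u := by
  have h1 := one_port C P g
  generalize (univ : Finset (Finset (ZMod 5))).erase univ = E at h1 hu
  have h2 : ((sel C fun m => P m ∧ g m ≠ univ).card : ℝ)
      ≤ ∑ S ∈ E, ((sel C fun m => P m ∧ g m = S).card : ℝ) := by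
    exact_mod_cast h1
  have h3 : ∑ S ∈ E, ((sel C fun m => P m ∧ g m = S).card : ℝ) ≤ ∑ S ∈ E, A * w S :=
    sum_le_sum fun S _ => h S
  rw [← mul_sum] at h3
  exact h2.trans (h3.trans (mul_le_mul_of_nonneg_left hu hA))

end T97

theorem st_FM (hC : St_CLS) (hF : St_FC) : St_FM := by
  intro L u hu hnf
  obtain ⟨l, hl⟩ : ∃ l, l = 2 ^ (L + 1) - 1 := ⟨_, rfl⟩
  obtain ⟨c, hc⟩ : ∃ c, c = 2 ^ (L + 2) := ⟨_, rfl⟩
  refine ⟨130 * (2 * (l + 1) * (2496 + c) + 1), fun n hn hev a ha => ?_⟩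
  obtain ⟨k, hk⟩ : ∃ k, k = n / 130 := ⟨_, rfl⟩
  have hk1 : 2 * (l + 1) * (2496 + c) + 1 ≤ k := by
    rw [hk, Nat.le_div_iff_mul_le (by norm_num)]
    omega
  have hk2 : 2496 + c < k := by nlinarith
  have hM := ((hC n hev).2 a ha).1
  have hnum : ∀ x, num a x ≤ (if cst x.2 then k + 64 else 4 * (k + 64)) := by
    intro x
    have := (mem_sel.mp ha).2 x
    rw [this, ← hk]
    unfold nn
    split_ifs <;> omega
  rw [← hk] at hM
  have hcast : ((39 * k - c : ℕ) : ℝ) = 39 * ((k + 64 : ℕ) : ℝ) - (2496 + c) := by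
    rw [Nat.cast_sub (by omega)]
    push_cast
    ring
  have hpos : (0 : ℝ) < ((39 * k - c : ℕ) : ℝ) := by
    have : 0 < 39 * k - c := by omega
    exact_mod_cast this
  have hrat : (39 * ((k + 64 : ℕ) : ℝ)) ^ l ≤ 2 * ((39 * k - c : ℕ) : ℝ) ^ l := by
    rw [hcast]
    refine T97.ratio l _ _ (by positivity) ?_
    have : 2 * (l + 1) * (2496 + c) ≤ 39 * (k + 64) := by omega
    exact_mod_cast this
  have hS : ∀ (h : HE n) (S : Finset (ZMod 5)),
      ((sel (Comp (ty1 a) io1) fun m => TL m L h ∧ msg a m L h = S).card : ℝ)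
        ≤ 2 * (Comp (ty1 a) io1).card * mu L (ty1 a h).2 S := by
    intro h S
    have h1 := hF n L (k + 64) (39 * k) a hnum hM h S
    rw [← hl, ← hc] at h1
    have h2 := T97.mu_nonneg L (ty1 a h).2 S
    have h3 : (0 : ℝ) ≤ (Comp (ty1 a) io1).card := Nat.cast_nonneg _
    have h4 := mul_le_mul_of_nonneg_left hrat (mul_nonneg h2 h3)
    refine le_of_mul_le_mul_right ?_ (pow_pos hpos l)
    nlinarith
  have hH : ∀ h : HE n,
      ((sel (Comp (ty1 a) io1) fun m => TL m L h ∧ msg a m L h ≠ univ).card : ℝ)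
        ≤ 2 * (Comp (ty1 a) io1).card * u := by
    intro h
    exact T97.port_le _ (fun m => TL m L h) (fun m => msg a m L h) (mu L (ty1 a h).2) _ u
      (by positivity) (hS h) (hnf _)
  have hn0 : (0 : ℝ) < n := by
    have : 0 < n := by omega
    exact_mod_cast this
  refine T97.markov _ (fun m => nbad a m L) _ (by positivity) ?_
  have h1 := T97.swap_sum (Comp (ty1 a) io1) fun m (h : HE n) => TL m L h ∧ msg a m L h ≠ univ
  have h2 : ∑ m ∈ Comp (ty1 a) io1, (nbad a m L : ℝ)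
      = ∑ h : HE n, ((sel (Comp (ty1 a) io1) fun m => TL m L h ∧ msg a m L h ≠ univ).card : ℝ) := by
    exact_mod_cast h1
  rw [h2]
  refine (sum_le_sum fun h _ => hH h).trans (le_of_eq ?_)
  rw [sum_const, nsmul_eq_mul, card_univ, Fintype.card_prod, Fintype.card_fin, Fintype.card_fin]
  push_cast
  ring

end Pool.Agent.Lib.RC5
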