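import Pool.Agent.Lib.RC5.Blue

/-! Trees hang from a set without short ears. -/

namespace Pool.Agent.Lib.RC5

open Finset

namespace T25

variable {n : ℕ}

/-- within `i` steps of `R` -/
def NR (m : HE n → HE n) (R : Finset (Fin n)) : ℕ → Fin n → Prop
  | 0, v => v ∈ R
  | i + 1, v => NR m R i v ∨ ∃ j, NR m R i (m (v, j)).1

theorem lev_ex (m : HE n → HE n) (R : Finset (Fin n)) (L : ℕ) :
    ∃ lev : Fin n → ℕ, (∀ v, lev v = 0 ↔ v ∈ R) ∧
      (∀ v, 1 ≤ lev v → lev v ≤ L + 1 → ∃ j, lev (m (v, j)).1 + 1 = lev v) ∧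
      ∀ h : HE n, lev h.1 ≤ lev (m h).1 + 1 := by
  classical
  have hex : ∀ v, ∃ i, NR m R i v ∨ i = L + 2 := fun v => ⟨L + 2, Or.inr rfl⟩
  have hle : ∀ v, Nat.find (hex v) ≤ L + 2 := fun v => Nat.find_min' _ (Or.inr rfl)
  have hlip : ∀ h : HE n, Nat.find (hex h.1) ≤ Nat.find (hex (m h).1) + 1 := by
    intro h
    rcases Nat.find_spec (hex (m h).1) with h1 | h1
    · exact Nat.find_min' _ (Or.inl (Or.inr ⟨h.2, h1⟩))
    · have := hle h.1
      omega
  refine ⟨fun v => Nat.find (hex v), fun v => ⟨fun h0 => ?_, fun hv => ?_⟩, fun v h1 h2 => ?_, hlip⟩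
  · have := Nat.find_spec (hex v)
    simp only [h0] at this
    rcases this with h | h
    · exact h
    · omega
  · exact Nat.le_zero.1 (Nat.find_min' _ (Or.inl (show NR m R 0 v from hv)))
  · replace h1 : 1 ≤ Nat.find (hex v) := h1
    replace h2 : Nat.find (hex v) ≤ L + 1 := h2
    obtain ⟨i, hi⟩ : ∃ i, Nat.find (hex v) = i + 1 := ⟨Nat.find (hex v) - 1, by omega⟩
    have hs := Nat.find_spec (hex v)
    rw [hi] at hs
    rcases hs with (h | ⟨j, hj⟩) | h
    · have := Nat.find_min' (hex v) (Or.inl h)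
      omega
    · have h3 := Nat.find_min' (hex (m (v, j)).1) (Or.inl hj)
      have h4 : Nat.find (hex v) ≤ Nat.find (hex (m (v, j)).1) + 1 := hlip (v, j)
      exact ⟨j, by show Nat.find (hex (m (v, j)).1) + 1 = Nat.find (hex v); omega⟩
    · omega

theorem anc_ex {m : HE n → HE n} {R : Finset (Fin n)} {L : ℕ} {lev : Fin n → ℕ}
    {par : Fin n → Fin 3} (hz : ∀ v, lev v = 0 ↔ v ∈ R)
    (hu : ∀ v, 1 ≤ lev v → lev v ≤ L + 1 → lev (m (v, par v)).1 + 1 = lev v) (k : ℕ) :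
    ∀ v, lev v = k → k ≤ L + 1 → ∃ W : Finset (Fin n), W.card ≤ k ∧ (v ∈ R ∨ v ∈ W) ∧
      ∀ x ∈ W, 1 ≤ lev x ∧ lev x ≤ L + 1 ∧
        ((m (x, par x)).1 ∈ R ∨ (m (x, par x)).1 ∈ W) := by
  induction k with
  | zero => exact fun v hv _ => ⟨∅, le_rfl, Or.inl ((hz v).1 hv), by simp⟩
  | succ k ih =>
    intro v hv hk
    have h1 := hu v (by omega) (by omega)
    obtain ⟨W, hc, hm, hW⟩ := ih (m (v, par v)).1 (by omega) (by omega)
    refine ⟨insert v W, (card_insert_le _ _).trans (by omega), Or.inr (mem_insert_self _ _), ?_⟩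
    intro x hx
    rcases mem_insert.1 hx with rfl | hx
    · exact ⟨by omega, by omega, hm.imp id mem_insert_of_mem⟩
    · exact ⟨(hW x hx).1, (hW x hx).2.1, (hW x hx).2.2.imp id mem_insert_of_mem⟩

theorem ear_count {m : HE n → HE n} {R W : Finset (Fin n)} {lev : Fin n → ℕ}
    {par : Fin n → Fin 3} (hm : IsM m) (hd : ∀ x ∈ W, x ∉ R)
    (hu : ∀ x ∈ W, lev (m (x, par x)).1 + 1 = lev x)
    (hc : ∀ x ∈ W, (m (x, par x)).1 ∈ R ∨ (m (x, par x)).1 ∈ W) (h : HE n)
    (h1 : h.1 ∈ R ∨ h.1 ∈ W) (h2 : (m h).1 ∈ R ∨ (m h).1 ∈ W) (h3 : ¬ (h.1 ∈ R ∧ (m h).1 ∈ R))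
    (h4 : ∀ x ∈ W, h ≠ (x, par x)) (h5 : ∀ x ∈ W, m h ≠ (x, par x)) :
    inn m R + 2 * W.card + 2 ≤ inn m (R ∪ W) := by
  classical
  have hinj : Function.Injective m := fun a b hab => by rw [← (hm a).1, hab, (hm b).1]
  set A : Finset (HE n) := sel univ fun q : HE n => q.1 ∈ R ∧ (m q).1 ∈ R with hA
  set P : Finset (HE n) := W.image fun x => (x, par x) with hP
  set Q : Finset (HE n) := W.image fun x => m (x, par x) with hQ
  have cP : P.card = W.card := card_image_of_injective _ fun a b hab => congrArg Prod.fst hab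
  have cQ : Q.card = W.card :=
    card_image_of_injective _ fun a b hab => congrArg Prod.fst (hinj hab)
  have cH : ({h, m h} : Finset (HE n)).card = 2 := card_pair (hm h).2.symm
  have d1 : Disjoint A P := by
    rw [disjoint_left]
    intro q hq hq'
    obtain ⟨x, hx, rfl⟩ := mem_image.1 hq'
    exact hd x hx (mem_sel.1 hq).2.1
  have d2 : Disjoint (A ∪ P) Q := by
    rw [disjoint_left]
    intro q hq hq'
    obtain ⟨x, hx, rfl⟩ := mem_image.1 hq'
    rcases mem_union.1 hq with hq | hq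
    · have := (mem_sel.1 hq).2.2
      rw [(hm _).1] at this
      exact hd x hx this
    · obtain ⟨y, hy, hxy⟩ := mem_image.1 hq
      have e1 := hu x hx
      have e2 := hu y hy
      rw [hxy, (hm _).1] at e2
      rw [← hxy] at e1
      simp only at e1 e2
      omega
  have d3 : Disjoint (A ∪ P ∪ Q) {h, m h} := by
    rw [disjoint_left]
    intro q hq hq'
    have hq2 : q = h ∨ q = m h := by simpa using hq'
    rcases mem_union.1 hq with hq | hq
    · rcases mem_union.1 hq with hq | hq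
      · have := (mem_sel.1 hq).2
        rcases hq2 with rfl | rfl
        · exact h3 this
        · rw [(hm _).1] at this
          exact h3 this.symm
      · obtain ⟨x, hx, e⟩ := mem_image.1 hq
        rcases hq2 with rfl | rfl
        · exact h4 x hx e.symm
        · exact h5 x hx e.symm
    · obtain ⟨x, hx, e⟩ := mem_image.1 hq
      rcases hq2 with rfl | rfl
      · exact h5 x hx (by rw [← e, (hm _).1])
      · exact h4 x hx (hinj e).symm
  have hsub : A ∪ P ∪ Q ∪ {h, m h} ⊆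
      sel univ fun q : HE n => q.1 ∈ R ∪ W ∧ (m q).1 ∈ R ∪ W := by
    intro q hq
    rw [mem_sel]
    refine ⟨mem_univ _, ?_⟩
    simp only [mem_union] at hq ⊢
    rcases hq with ((hq | hq) | hq) | hq
    · exact ⟨Or.inl (mem_sel.1 hq).2.1, Or.inl (mem_sel.1 hq).2.2⟩
    · obtain ⟨x, hx, rfl⟩ := mem_image.1 hq
      exact ⟨Or.inr hx, hc x hx⟩
    · obtain ⟨x, hx, rfl⟩ := mem_image.1 hq
      rw [(hm _).1]
      exact ⟨hc x hx, Or.inr hx⟩
    · have hq2 : q = h ∨ q = m h := by simpa using hq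
      rcases hq2 with rfl | rfl
      · exact ⟨h1, h2⟩
      · rw [(hm _).1]
        exact ⟨h2, h1⟩
  have hcard := card_le_card hsub
  rw [card_union_of_disjoint d3, card_union_of_disjoint d2, card_union_of_disjoint d1, cP, cQ,
    cH] at hcard
  have e1 : inn m R = A.card := rfl
  have e2 : inn m (R ∪ W) =
      (sel univ fun q : HE n => q.1 ∈ R ∪ W ∧ (m q).1 ∈ R ∪ W).card := rfl
  omega

end T25

open T25 in
theorem st_LEV : St_LEV := by
  classical
  intro n L m R hm hE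
  obtain ⟨lev, hz, hu, hlip⟩ := lev_ex m R L
  have hp : ∀ v, ∃ j, 1 ≤ lev v → lev v ≤ L + 1 → lev (m (v, j)).1 + 1 = lev v := by
    intro v
    by_cases hv : 1 ≤ lev v ∧ lev v ≤ L + 1
    · obtain ⟨j, hj⟩ := hu v hv.1 hv.2
      exact ⟨j, fun _ _ => hj⟩
    · exact ⟨0, fun a b => absurd ⟨a, b⟩ hv⟩
  choose par hpar using hp
  refine ⟨lev, par, hz, hpar, fun h hL h1 h2 => ?_⟩
  have hw : lev (m h).1 ≤ lev h.1 + 1 := by
    have := hlip (m h)
    rwa [(hm h).1] at this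
  by_cases hc : (m h).1 ∉ R ∧ par (m h).1 = (m h).2
  · refine ⟨?_, hc.2⟩
    have h0 : lev (m h).1 ≠ 0 := fun e => hc.1 ((hz _).1 e)
    have := hpar (m h).1 (by omega) (by omega)
    rw [hc.2, Prod.mk.eta, (hm h).1] at this
    omega
  exfalso
  obtain ⟨W1, c1, m1, w1⟩ := anc_ex hz hpar _ h.1 rfl (by omega)
  obtain ⟨W2, c2, m2, w2⟩ := anc_ex hz hpar _ (m h).1 rfl (by omega)
  have hW : ∀ x ∈ W1 ∪ W2, 1 ≤ lev x ∧ lev x ≤ L + 1 ∧
      ((m (x, par x)).1 ∈ R ∨ (m (x, par x)).1 ∈ W1 ∪ W2) := by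
    intro x hx
    rcases mem_union.1 hx with hx | hx
    · exact ⟨(w1 x hx).1, (w1 x hx).2.1, (w1 x hx).2.2.imp id (mem_union_left _)⟩
    · exact ⟨(w2 x hx).1, (w2 x hx).2.1, (w2 x hx).2.2.imp id (mem_union_right _)⟩
  have hd : ∀ x ∈ W1 ∪ W2, x ∉ R := fun x hx hR => by
    have := (hz x).2 hR
    have := (hW x hx).1
    omega
  have h3 : ¬ (h.1 ∈ R ∧ (m h).1 ∈ R) := fun e => h1 e.1 e.2
  have hne : (W1 ∪ W2).Nonempty := by
    rcases m1 with m1 | m1
    · rcases m2 with m2 | m2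
      · exact absurd ⟨m1, m2⟩ h3
      · exact ⟨_, mem_union_right _ m2⟩
    · exact ⟨_, mem_union_left _ m1⟩
  have hcard : (W1 ∪ W2).card < 2 * L + 3 := by
    have := card_union_le W1 W2
    omega
  have hlt := hE (W1 ∪ W2) (disjoint_left.2 hd) hne hcard
  have hge := ear_count (lev := lev) (par := par) hm hd
    (fun x hx => hpar x (hW x hx).1 (hW x hx).2.1) (fun x hx => (hW x hx).2.2) h
    (m1.imp id (mem_union_left _)) (m2.imp id (mem_union_right _)) h3
    (fun x hx e => h2 (by rw [e]; exact hd x hx) (by rw [e]))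
    (fun x hx e => hc ⟨by rw [e]; exact hd x hx, by rw [e]⟩)
  omega

end Pool.Agent.Lib.RC5
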