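import Pool.Agent.Lib.RC5.Blue

/-! Row M1: the first moment. -/

namespace Pool.Agent.Lib.RC5

open Finset Real

namespace T84

lemma log_shift (k c : ℝ) (hk : 0 < k) (hc : 0 ≤ c) : k * log (k + c) ≤ k * log k + c := by
  have h1 : log (k + c) - log k ≤ c / k := by
    rw [← log_div (by positivity) hk.ne']
    have := log_le_sub_one_of_pos (x := (k + c) / k) (by positivity)
    have e : (k + c) / k - 1 = c / k := by field_simp; ring
    linarith
  have h2 := mul_le_mul_of_nonneg_left h1 hk.le
  have e : k * (c / k) = c := by field_simp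
  rw [mul_sub, e] at h2
  linarith

lemma log_shift' (k c : ℝ) (hk : 1 ≤ k) (hc : 0 ≤ c) : log (k + c) ≤ log k + c := by
  have h := log_shift k c (by linarith) hc
  by_contra hn
  have h1 : log k + c < log (k + c) := not_le.1 hn
  nlinarith

lemma log_small (δ A B : ℝ) (hδ : 0 < δ) (hB : 0 < B) :
    ∃ k0 : ℕ, ∀ k : ℕ, k0 ≤ k → A + B * log k ≤ δ * k := by
  obtain ⟨k0, hk0⟩ := exists_nat_ge (2 * (A - B * log (δ / (2 * B))) / δ)
  refine ⟨k0 + 1, fun k hk => ?_⟩
  have hk1 : (k0 : ℝ) + 1 ≤ k := by exact_mod_cast hk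
  have hk2 : (0 : ℝ) < k := by have : (0 : ℝ) ≤ k0 := Nat.cast_nonneg _; linarith
  have h1 := log_le_sub_one_of_pos (x := δ / (2 * B) * k) (by positivity)
  rw [log_mul (by positivity) hk2.ne'] at h1
  have h2 := mul_le_mul_of_nonneg_left h1 hB.le
  have e : B * (δ / (2 * B) * k - 1) = δ * k / 2 - B := by field_simp
  rw [div_le_iff₀ hδ] at hk0
  nlinarith

/-- the real inequality -/
lemma rate (δ : ℝ) (hδ : 0 < δ) : ∃ k0 : ℕ, 1 ≤ k0 ∧ ∀ k : ℕ, k0 ≤ k → ∀ n : ℝ,
    130 * k ≤ n → n ≤ 130 * k + 130 →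
    n * (c1 + 3 / 2 * log n - δ) ≤ (n * log n - n) + 5 * (39 * k * log (39 * k) - 39 * k)
      - 10 * ((k + 64) * log (k + 64) - (k + 64) + log (k + 64 + 1) + 1)
      - 30 * (4 * k * log (4 * k) - 4 * k + log (4 * k + 1) + 1) := by
  obtain ⟨k0, hk0⟩ := log_small (130 * δ) (130 * |1 + c1| + 65 * log 130 + 50000) 800
    (by positivity) (by norm_num)
  refine ⟨k0 + 1, by omega, fun k hk n h1 h2 => ?_⟩
  have hA := hk0 k (by omega)
  have hk1 : (1 : ℝ) ≤ k := by exact_mod_cast (by omega : 1 ≤ k)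
  generalize (k : ℝ) = x at *
  have hx : 0 < x := by linarith
  have hL : 0 ≤ log x := log_nonneg hk1
  have e39 : log (39 * x) = log 130 + log (3 / 10) + log x := by
    rw [← log_mul (by norm_num) (by norm_num), ← log_mul (by norm_num) hx.ne']; norm_num
  have e4 : log (4 * x) = log 4 + log x := log_mul (by norm_num) hx.ne'
  have a1 := log_shift x 64 hx (by norm_num)
  have a2 := log_shift' x 64 hk1 (by norm_num)
  have a3 : log (x + 64 + 1) ≤ log x + 65 := by
    have := log_shift' x 65 hk1 (by norm_num)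
    rwa [show x + 64 + 1 = x + 65 by ring]
  have a4 : log (4 * x + 1) ≤ log x + 4 := by
    have b1 : log (4 * x + 1) ≤ log (5 * x) := log_le_log (by positivity) (by linarith)
    rw [log_mul (by norm_num) hx.ne'] at b1
    have := log_le_sub_one_of_pos (x := 5) (by norm_num)
    linarith
  have a5 : n * log n ≤ (130 * x + 130) * (log 130 + log (x + 1)) := by
    rw [← log_mul (by norm_num) (by positivity)]
    refine mul_le_mul h2 (log_le_log (by linarith) (by linarith)) (log_nonneg (by linarith))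
      (by positivity)
  have a6 := log_shift x 1 hx (by norm_num)
  have a7 := log_shift' x 1 hk1 (by norm_num)
  have a8 : (n - 130 * x) * (1 + c1) ≤ 130 * |1 + c1| :=
    (mul_le_mul_of_nonneg_left (le_abs_self _) (by linarith)).trans
      (mul_le_mul_of_nonneg_right (by linarith) (abs_nonneg _))
  have a9 : 130 * δ * x ≤ n * δ := by nlinarith
  have e1 : 130 * x * (1 + c1) = 130 * x * log 130 - 120 * x * log 4 + 195 * x * log (3 / 10)
      - 65 * x := by rw [c1]; ring
  rw [e39, e4]
  nlinarith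

lemma prod_nn (k r : ℕ) (hr : r ≤ 64) :
    ∏ x, (nn k r x).factorial ≤ (k + 64).factorial ^ 10 * (4 * k).factorial ^ 30 := by
  have h : ∀ x : Star, (nn k r x).factorial ≤
      if cst x.2 then (k + 64).factorial else (4 * k).factorial := by
    intro x
    by_cases hx : cst x.2
    · simp only [nn, if_pos hx]
      refine Nat.factorial_le ?_
      split_ifs <;> omega
    · have : ¬ (x = (0, fun _ => true) ∨ x = (1, fun _ => false)) := by
        rintro (rfl | rfl) <;> exact hx ⟨rfl, rfl⟩
      simp only [nn, if_neg hx, if_neg this, add_zero, le_refl]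
  refine (prod_le_prod' fun x _ => h x).trans ?_
  rw [prod_ite, prod_const, prod_const]
  have h1 : (univ.filter fun x : Star => cst x.2).card = 10 := by decide +kernel
  have h2 : (univ.filter fun x : Star => ¬ cst x.2).card = 30 := by decide +kernel
  rw [h1, h2]

lemma io1_io1 (t : T1) : io1 (io1 t) = t := by revert t; decide

lemma io1_ne (t : T1) : io1 t ≠ t := by revert t; decide

end T84

theorem st_M1 (hC : St_COUNT) (hM : St_MULT) (hS : St_STI) (hL : St_CLS) : St_M1 := by
  intro δ hδ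
  obtain ⟨k0, hk1, hk0⟩ := T84.rate δ hδ
  refine ⟨130 * k0, fun n hn he => ?_⟩
  obtain ⟨hsum, hcl⟩ := hL n he
  set k := n / 130 with hk
  have hkk : k0 ≤ k := by omega
  have hmult := hM n Star _ hsum
  have hcard : n.factorial ≤ (Cl n).card * ((k + 64).factorial ^ 10 * (4 * k).factorial ^ 30) := by
    rw [← hmult]
    exact Nat.mul_le_mul_left _ (T84.prod_nn k _ (by omega))
  have hcomp : ∀ a ∈ Cl n, (39 * k).factorial ^ 5 ≤ (Comp (ty1 a) io1).card := by
    intro a ha
    obtain ⟨h1, h2, -⟩ := hcl a ha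
    have h3 := (hC (HE n) T1 (ty1 a) io1 T84.io1_io1).2 T84.io1_ne h2
    have h4 : ((39 * k).factorial ^ 5) ^ 2 ≤ (Comp (ty1 a) io1).card ^ 2 := by
      rw [h3, ← pow_mul]
      have : ∏ _t : T1, (39 * k).factorial ≤ ∏ t, (num (ty1 a) t).factorial :=
        prod_le_prod' fun t _ => Nat.factorial_le (h1 t)
      simpa using this
    exact (Nat.pow_le_pow_iff_left (by norm_num)).1 h4
  have hsum2 : ((Cl n).card : ℝ) * ((39 * k).factorial : ℝ) ^ 5
      ≤ ∑ a ∈ Cl n, ((Comp (ty1 a) io1).card : ℝ) := by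
    have := card_nsmul_le_sum (Cl n) (fun a => ((Comp (ty1 a) io1).card : ℝ))
      (((39 * k).factorial : ℝ) ^ 5) fun a ha => by exact_mod_cast hcomp a ha
    simpa using this
  refine le_trans ?_ hsum2
  clear hsum2 hcomp hmult hcl
  generalize (Cl n).card = C at hcard ⊢
  have hpos : (0 : ℝ) < C := by
    have := n.factorial_pos
    have h : 0 < C := by
      rcases Nat.eq_zero_or_pos C with h | h
      · rw [h, zero_mul] at hcard; omega
      · exact h
    exact_mod_cast h
  have f1 : (0 : ℝ) < (39 * k).factorial := by exact_mod_cast Nat.factorial_pos _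
  have f2 : (0 : ℝ) < (k + 64).factorial := by exact_mod_cast Nat.factorial_pos _
  have f3 : (0 : ℝ) < (4 * k).factorial := by exact_mod_cast Nat.factorial_pos _
  have f4 : (0 : ℝ) < n.factorial := by exact_mod_cast Nat.factorial_pos _
  rw [← le_log_iff_exp_le (mul_pos hpos (pow_pos f1 5)), log_mul hpos.ne' (pow_pos f1 5).ne',
    log_pow]
  have hcard' : (n.factorial : ℝ) ≤
      C * (((k + 64).factorial : ℝ) ^ 10 * ((4 * k).factorial : ℝ) ^ 30) := by
    exact_mod_cast hcard
  have hlog := log_le_log f4 hcard'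
  rw [log_mul hpos.ne' (mul_pos (pow_pos f2 10) (pow_pos f3 30)).ne',
    log_mul (pow_pos f2 10).ne' (pow_pos f3 30).ne', log_pow, log_pow] at hlog
  have hr := hk0 k hkk n (by exact_mod_cast (by omega : 130 * k ≤ n))
    (by exact_mod_cast (by omega : n ≤ 130 * k + 130))
  have s1 := (hS n).1
  have s2 := (hS (39 * k)).1
  have s3 := (hS (k + 64)).2
  have s4 := (hS (4 * k)).2
  push_cast at s2 s3 s4 hlog ⊢
  linarith

end Pool.Agent.Lib.RC5
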