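import Pool.Agent.Lib.RC5.Blue

/-! M2: the second moment is a sum over polynomially many profiles. -/

namespace Pool.Agent.Lib.RC5

open Finset Real Filter

theorem st_M2 (hB : St_M2B) (hC : St_M2C) : St_M2 := by
  classical
  intro δ hδ
  obtain ⟨n0, h0⟩ := hC (δ / 2) (half_pos hδ)
  obtain ⟨n1, h1⟩ := eventually_atTop.1
    ((tendsto_natCast_atTop_atTop.comp (tendsto_atTop_mono (f := fun n : ℕ => n)
      (g := fun n => 3 * n + 1) (fun n => by omega) tendsto_id)).eventually
      ((isLittleO_pow_exp_pos_mul_atTop 100 (show 0 < δ / 8 by positivity)).bound one_pos))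
  refine ⟨max n0 (n1 + 1), fun n hn he => ?_⟩
  have h2 := h1 n (by omega)
  have h3 : (1 : ℝ) ≤ n := by exact_mod_cast (by omega : 1 ≤ n)
  rw [← sum_fiberwise_of_maps_to (g := fun q => num (ty2 q))
    (t := Fintype.piFinset fun _ : T2 => range (3 * n + 1)) fun q _ =>
      Fintype.mem_piFinset.2 fun t => mem_range.2 (Nat.lt_succ_of_le
        ((card_le_univ _).trans (by simp [mul_comm])))]
  refine (sum_le_card_nsmul _ _ (exp (n * (c2 + 3 / 2 * log n + δ / 2))) fun N _ => ?_).trans ?_
  · rw [show ((Cl n ×ˢ Cl n).filter fun q => num (ty2 q) = N) =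
      sel (Cl n ×ˢ Cl n) fun q => ∀ t, num (ty2 q) t = N t from by ext q; simp [funext_iff]]
    rcases hB n N he with h | ⟨w, hw, h⟩
    · rw [← Nat.cast_sum, h, Nat.cast_zero]
      positivity
    · obtain ⟨p, hp, h4⟩ := h0 n (by omega) N w (10 * (n / 130) + 2 * (n % 130 / 2)) hw (by omega)
      exact (h p hp).trans (exp_le_exp.2 h4)
  · rw [Fintype.card_piFinset, prod_const, card_range, card_univ,
      show Fintype.card T2 = 100 by simp, nsmul_eq_mul, Nat.cast_pow,
      show n * (c2 + 3 / 2 * log n + δ) = n * (δ / 2) + n * (c2 + 3 / 2 * log n + δ / 2) by ring,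
      exp_add (n * (δ / 2))]
    refine mul_le_mul_of_nonneg_right ?_ (exp_pos _).le
    simp only [Function.comp_apply, one_mul, norm_eq_abs, abs_exp] at h2
    refine ((le_abs_self _).trans h2).trans (exp_le_exp.2 ?_)
    push_cast
    nlinarith

end Pool.Agent.Lib.RC5
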