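import Pool.Agent.Lib.RC5.Blue

set_option autoImplicit false

namespace Pool.Agent.Lib.RC5

open Finset Real

namespace T19

def e3 : Bool × Bool × Bool ≃ (Fin 3 → Bool) where
  toFun x := ![x.1, x.2.1, x.2.2]
  invFun s := (s 0, s 1, s 2)
  left_inv := by rintro ⟨a, b, c⟩; rfl
  right_inv := by intro s; funext i; fin_cases i <;> rfl

lemma sum3 (f : (Fin 3 → Bool) → ℝ) : ∑ s, f s = ∑ a, ∑ b, ∑ c, f ![a, b, c] := by
  rw [← e3.sum_comp, Fintype.sum_prod_type]
  refine sum_congr rfl fun a _ => ?_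
  rw [Fintype.sum_prod_type]
  rfl

noncomputable def cw (s : Fin 3 → Bool) : ℝ := if cst s then 1 / 4 else 1

noncomputable def wt (y : Bool × Bool → ℝ) (σ : (Fin 3 → Bool) × (Fin 3 → Bool)) : ℝ :=
  cw σ.1 * cw σ.2 * ∏ j, y (σ.1 j, σ.2 j)

lemma sum_wt (y : Bool × Bool → ℝ) :
    ∑ σ, wt y σ = Pp (y (true, true)) (y (false, false)) (y (true, false)) (y (false, true)) := by
  rw [Fintype.sum_prod_type, sum3]
  simp only [sum3, Fintype.sum_bool, wt, cw, cst, Fin.prod_univ_three, Matrix.cons_val_zero,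
    Matrix.cons_val_one, Matrix.cons_val, Pp]
  simp
  ring

lemma prod_cw {n : ℕ} (a : Lab n) : ∏ v, cw (a v).2 = (1 / 4) ^ ncst a := by
  unfold cw ncst
  rw [prod_ite, prod_const, prod_const_one, mul_one, sel_eq]

lemma sum_num {α T : Type} [Fintype α] [Fintype T] (ty : α → T) (p : T → ℝ) :
    ∑ t, (num ty t : ℝ) * p t = ∑ h, p (ty h) := by
  classical
  rw [← sum_fiberwise (s := univ) (g := ty) (f := fun h => p (ty h))]
  refine sum_congr rfl fun t _ => ?_
  rw [num, sel_eq, sum_congr rfl (g := fun _ => p t) fun h hh => by rw [(mem_filter.1 hh).2],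
    sum_const, nsmul_eq_mul]

end T19

open T19 in
theorem st_M2A : St_M2A := by
  intro n s χ N p hp
  set Q := sel (univ : Finset (Lab n × Lab n)) fun q => col2 q = χ ∧ (∀ t, num (ty2 q) t = N t) ∧
    ncst q.1 = s ∧ ncst q.2 = s with hQ
  let y : Fin n → Bool × Bool → ℝ := fun v d => exp (p (χ v, d))
  let F : (Fin n → (Fin 3 → Bool) × (Fin 3 → Bool)) → ℝ := fun σ => ∏ v, wt (y v) (σ v)
  let φ : Lab n × Lab n → Fin n → (Fin 3 → Bool) × (Fin 3 → Bool) :=
    fun q v => ((q.1 v).2, (q.2 v).2)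
  have w0 : ∀ v σ, 0 ≤ wt (y v) σ := by
    intro v σ
    have c0 : ∀ s, 0 ≤ cw s := fun s => by unfold cw; split_ifs <;> norm_num
    exact mul_nonneg (mul_nonneg (c0 _) (c0 _)) (prod_nonneg fun j _ => (exp_pos _).le)
  have h1 : ∑ σ, F σ ≤ 1 := by
    have e := prod_univ_sum (fun _ : Fin n => (univ : Finset ((Fin 3 → Bool) × (Fin 3 → Bool))))
      fun v σ => wt (y v) σ
    rw [Fintype.piFinset_univ] at e
    rw [← e]
    refine prod_le_one (fun v _ => sum_nonneg fun σ _ => w0 v σ) fun v _ => ?_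
    rw [sum_wt]
    exact hp (χ v)
  have h2 : ∀ q ∈ Q, F (φ q) = (1 / 16) ^ s * exp (∑ t, N t * p t) := by
    intro q hq
    obtain ⟨_, q1, q2, q3, q4⟩ := mem_sel.1 hq
    have e1 : ∑ t, (N t : ℝ) * p t = ∑ h, p (ty2 q h) := by
      rw [← sum_num]; exact sum_congr rfl fun t _ => by rw [q2 t]
    rw [e1, exp_sum, Fintype.prod_prod_type]
    simp only [F, wt, φ, prod_mul_distrib]
    rw [prod_cw, prod_cw, q3, q4, ← mul_pow]
    congr 1
    · norm_num
    · refine prod_congr rfl fun v _ => prod_congr rfl fun j _ => ?_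
      simp only [y, ty2, q1]
  have h3 : Set.InjOn φ Q := by
    intro q hq q' hq' he
    have c1 := (mem_sel.1 (mem_coe.1 hq)).2.1
    have c2 := (mem_sel.1 (mem_coe.1 hq')).2.1
    have e1 : ∀ v, col2 q v = col2 q' v := fun v => by rw [c1, c2]
    have e2 : ∀ v, φ q v = φ q' v := fun v => by rw [he]
    refine Prod.ext (funext fun v => Prod.ext ?_ ?_) (funext fun v => Prod.ext ?_ ?_)
    · exact (Prod.mk.inj (e1 v)).1
    · exact (Prod.mk.inj (e2 v)).1
    · exact (Prod.mk.inj (e1 v)).2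
    · exact (Prod.mk.inj (e2 v)).2
  have h4 : ∑ q ∈ Q, F (φ q) ≤ ∑ σ, F σ := by
    classical
    rw [← sum_image h3]
    exact sum_le_sum_of_subset_of_nonneg (subset_univ _)
      fun σ _ _ => prod_nonneg fun v _ => w0 v _
  rw [sum_congr rfl h2, sum_const, nsmul_eq_mul] at h4
  have h5 : (0 : ℝ) < 16 ^ s := by positivity
  have h6 := mul_le_mul_of_nonneg_left (h4.trans h1) h5.le
  rw [one_div, inv_pow, mul_left_comm, mul_inv_cancel_left₀ h5.ne', mul_one] at h6
  exact h6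

end Pool.Agent.Lib.RC5
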