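import Pool.Agent.Lib.RC5.Blue

namespace Pool.Agent.Lib.RC5

open Finset Real

namespace T48

theorem num_eq_sum {α T : Type} [Fintype α] [DecidableEq T] (ty : α → T) (t : T) :
    num ty t = ∑ h, if ty h = t then 1 else 0 := by
  rw [num, sel_eq, card_filter]

theorem sum_num {α T : Type} [Fintype α] [Fintype T] [DecidableEq T] (ty : α → T) :
    ∑ t, num ty t = Fintype.card α := by
  simp only [num_eq_sum]
  rw [sum_comm]
  simp

theorem sum_num_ty2 {n : ℕ} (q : Lab n × Lab n) (x : X2) :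
    ∑ d, num (ty2 q) (x, d) = 3 * num (col2 q) x := by
  simp only [num_eq_sum]
  rw [sum_comm, Fintype.sum_prod_type, mul_sum]
  refine sum_congr rfl fun v _ => ?_
  by_cases h : col2 q v = x <;> simp [ty2, h]

theorem io2_io2 (t : T2) : io2 (io2 t) = t := by revert t; decide

theorem io2_ne (t : T2) : io2 t ≠ t := by revert t; decide

end T48

open T48

theorem st_M2B (hC : St_COUNT) (hM : St_MULT) (hL : St_CLS) (hA : St_M2A) : St_M2B := by
  intro n N hn
  set S := sel (Cl n ×ˢ Cl n) fun q => ∀ t, num (ty2 q) t = N t with hS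
  refine or_iff_not_imp_left.mpr fun h0 => ?_
  obtain ⟨q₀, hq₀, h1⟩ := exists_ne_zero_of_sum_ne_zero h0
  obtain ⟨hq₁, hq₂⟩ := mem_sel.mp hq₀
  have hbal (t : T2) : N (io2 t) = N t := by
    rw [← hq₂, ← hq₂]
    exact (hC _ _ (ty2 q₀) io2 io2_io2).1 (card_pos.mp (Nat.pos_of_ne_zero h1)) t
  have htri (q) (hq : q ∈ S) (x : X2) : ∑ d, N (x, d) = 3 * num (col2 q) x := by
    rw [← sum_num_ty2]
    exact sum_congr rfl fun d _ => ((mem_sel.mp hq).2 _).symm
  set w := num (col2 q₀) with hw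
  have htot : ∑ x, w x = n := (sum_num _).trans (Fintype.card_fin n)
  refine ⟨w, ⟨hbal, htri q₀ hq₀, htot, fun x => le_trans (card_le_card fun v hv => ?_)
    (((hL n hn).2 q₀.1 (mem_product.mp hq₁).1).2.2.1 x.1)⟩, fun p hp => ?_⟩
  · exact mem_sel.mpr ⟨mem_univ _, congrArg Prod.fst (mem_sel.mp hv).2⟩
  set s := 10 * (n / 130) + 2 * (n % 130 / 2) with hs
  have hf (m : ℕ) : (0 : ℝ) < m.factorial := by exact_mod_cast m.factorial_pos
  have h2 (q) (hq : q ∈ S) :
      ((Comp (ty2 q) io2).card : ℝ) = exp (1 / 2 * ∑ t, log (N t).factorial) := by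
    have h3 := (hC _ _ (ty2 q) io2 io2_io2).2 io2_ne fun t => by
      rw [(mem_sel.mp hq).2, (mem_sel.mp hq).2, hbal]
    simp only [(mem_sel.mp hq).2] at h3
    refine (pow_left_inj₀ (Nat.cast_nonneg _) (exp_pos _).le two_ne_zero).mp ?_
    rw [← exp_nat_mul, ← mul_assoc, show ((2 : ℕ) : ℝ) * (1 / 2) = 1 by norm_num, one_mul, exp_sum]
    simp only [exp_log (hf _)]
    exact_mod_cast h3
  set W := sel (univ : Finset (Fin n → X2)) fun a => ∀ x, num a x = w x with hW
  have h3 : (S.card : ℝ) ≤ W.card * (16 ^ s * exp (-∑ t, N t * p t)) := by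
    have h4 : S ⊆ W.biUnion fun χ => sel (univ : Finset (Lab n × Lab n)) fun q => col2 q = χ ∧
        (∀ t, num (ty2 q) t = N t) ∧ ncst q.1 = s ∧ ncst q.2 = s := fun q hq => by
      obtain ⟨h5, h6⟩ := mem_sel.mp hq
      refine mem_biUnion.mpr ⟨col2 q, mem_sel.mpr ⟨mem_univ _, fun x => ?_⟩, mem_sel.mpr
        ⟨mem_univ _, rfl, h6, ((hL n hn).2 _ (mem_product.mp h5).1).2.2.2,
          ((hL n hn).2 _ (mem_product.mp h5).2).2.2.2⟩⟩
      exact Nat.eq_of_mul_eq_mul_left (by norm_num) ((htri q hq x).symm.trans (htri q₀ hq₀ x))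
    refine (Nat.cast_le.mpr ((card_le_card h4).trans card_biUnion_le)).trans ?_
    rw [Nat.cast_sum, ← nsmul_eq_mul]
    refine sum_le_card_nsmul _ _ _ fun χ _ => ?_
    rw [exp_neg, ← div_eq_mul_inv, le_div_iff₀ (exp_pos _)]
    exact hA n s χ N p hp
  have h4 : (W.card : ℝ) = exp (log n.factorial - ∑ x, log (w x).factorial) := by
    rw [exp_sub, exp_sum, exp_log (hf _)]
    simp only [exp_log (hf _)]
    rw [eq_div_iff (prod_pos fun x _ => hf _).ne']
    exact_mod_cast hM n X2 w htot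
  rw [sum_congr rfl h2, sum_const, nsmul_eq_mul]
  refine (mul_le_mul_of_nonneg_right h3 (exp_pos _).le).trans_eq ?_
  rw [h4, show (16 : ℝ) ^ s = exp (s * log 16) by rw [exp_nat_mul, exp_log (by norm_num)],
    ← exp_add, ← exp_add, ← exp_add, expo]
  exact congrArg exp (by ring)

end Pool.Agent.Lib.RC5
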