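import Pool.Agent.Lib.RC5.Blue

/-! M2C: the exponent of one profile, from the bounds on factorials and the entropy inequality. -/

namespace Pool.Agent.Lib.RC5

open Finset Real

namespace T34

lemma scale_log (c x : ℝ) (hc : 0 < c) :
    c * x * log (c * x) = c * (x * log x) + c * x * log c := by
  rcases eq_or_ne x 0 with rfl | hx
  · simp
  · rw [log_mul hc.ne' hx]; ring

lemma log_le_lin (ε y : ℝ) (hε : 0 < ε) (hy : 0 < y) : log y ≤ ε * y - log ε := by
  have h := log_le_sub_one_of_pos (mul_pos hε hy)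
  rw [log_mul hε.ne' hy.ne'] at h
  linarith

lemma sum_scale {T : Type} [Fintype T] (c m : ℝ) (hc : 0 < c) (N : T → ℕ) (ν : T → ℝ)
    (h : ∀ t, (N t : ℝ) = c * ν t) (hm : ∑ t, (N t : ℝ) = m) :
    ∑ t, (N t : ℝ) * log (N t) = c * ∑ t, ν t * log (ν t) + m * log c := by
  rw [← hm, mul_sum, sum_mul, ← sum_add_distrib]
  exact sum_congr rfl fun t _ => by rw [h t, scale_log c _ hc]

end T34

theorem st_M2C (hS : St_STI) (hA : St_AN) : St_M2C := by
  intro δ hδ
  obtain ⟨ε, hε⟩ : ∃ ε : ℝ, ε = δ / 408 := ⟨_, rfl⟩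
  have hε0 : 0 < ε := by rw [hε]; positivity
  obtain ⟨n1, hn1⟩ := exists_nat_ge (2 * (256 * log 4 + 51 - 51 * log ε) / δ)
  refine ⟨max n1 800000, fun n hn N w s hP hs => ?_⟩
  have hn8 : (800000 : ℝ) ≤ n := by exact_mod_cast le_trans (le_max_right _ _) hn
  have hn0 : (0 : ℝ) < n := by linarith
  have hC : 256 * log 4 + 51 - 51 * log ε ≤ δ * n / 2 := by
    have h1 : (n1 : ℝ) ≤ n := by exact_mod_cast le_trans (le_max_left _ _) hn
    rw [div_le_iff₀ hδ] at hn1
    have h2 := mul_le_mul_of_nonneg_right h1 hδ.le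
    linarith
  have hq : ((n / 130 : ℕ) : ℝ) ≤ n / 130 := Nat.cast_div_le
  have hw : ∑ x, (w x : ℝ) = n := by exact_mod_cast hP.tot
  have htri : ∀ x, ∑ d, (N (x, d) : ℝ) = 3 * w x := fun x => by exact_mod_cast hP.tri x
  have hN : ∑ t, (N t : ℝ) = 3 * n := by
    rw [Fintype.sum_prod_type]
    simp_rw [htri]
    rw [← mul_sum, hw]
  obtain ⟨ν, hνd⟩ : ∃ ν : T2 → ℝ, ∀ t, ν t = 25 / (3 * n) * N t := ⟨_, fun _ => rfl⟩
  have hν : ∀ t, (N t : ℝ) = 3 * n / 25 * ν t := fun t => by rw [hνd]; field_simp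
  have hfd : ∀ x, ∑ d, ν (x, d) = 25 / n * w x := fun x => by
    simp_rw [hνd]
    rw [← mul_sum, htri]
    field_simp
  have hf : ∀ x, (w x : ℝ) = n / 25 * ∑ d, ν (x, d) := fun x => by rw [hfd]; field_simp
  obtain ⟨p, hp, hin⟩ := hA ν (fun t => by rw [hνd]; positivity)
    (fun t => by rw [hνd, hνd, hP.bal])
    (by
      simp_rw [hνd]
      rw [← mul_sum, hN]
      field_simp)
    (fun x => by
      have h1 : (w x : ℝ) ≤ 26 * ((n / 130 : ℕ) : ℝ) + 64 := by exact_mod_cast hP.cap x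
      rw [hfd, div_mul_eq_mul_div, div_le_iff₀ hn0]
      linarith)
  refine ⟨p, hp, ?_⟩
  have e1 := T34.sum_scale (3 * n / 25) (3 * n) (by positivity) N ν hν hN
  have e2 := T34.sum_scale (n / 25) n (by positivity) w (fun x => ∑ d, ν (x, d)) hf hw
  have e3 : ∑ t, (N t : ℝ) * p t = 3 * n / 25 * ∑ t, ν t * p t := by
    rw [mul_sum]
    exact sum_congr rfl fun t _ => by rw [hν t]; ring
  have l1 : log (3 * (n : ℝ) / 25) = log n + log (3 / 25) := by
    rw [← log_mul hn0.ne' (by norm_num)]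
    congr 1
    ring
  have l2 : log ((n : ℝ) / 25) = log n - log 25 := log_div hn0.ne' (by norm_num)
  have l3 : log 16 = 2 * log 4 := by
    rw [show (16 : ℝ) = 4 ^ 2 by norm_num, log_pow]
    norm_num
  have l4 : 0 < log 4 := log_pos (by norm_num)
  have l5 : log (3 * (n : ℝ) + 1) ≤ ε * (3 * n + 1) - log ε :=
    T34.log_le_lin ε _ hε0 (by positivity)
  have l6 : log ((n : ℝ) + 1) ≤ log (3 * (n : ℝ) + 1) := log_le_log (by positivity) (by linarith)
  have u1 : ∑ t, log (N t).factorial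
      ≤ ∑ t, (N t : ℝ) * log (N t) - 3 * n + 100 * (log (3 * (n : ℝ) + 1) + 1) := by
    have h1 : ∀ t, log (N t).factorial
        ≤ (N t : ℝ) * log (N t) - N t + (log (3 * (n : ℝ) + 1) + 1) := fun t => by
      have h2 : (N t : ℝ) ≤ 3 * n := by
        rw [← hN]
        exact single_le_sum (f := fun t => (N t : ℝ)) (fun _ _ => by positivity) (mem_univ t)
      have h3 : log ((N t : ℝ) + 1) ≤ log (3 * (n : ℝ) + 1) :=
        log_le_log (by positivity) (by linarith)
      linarith [(hS (N t)).2]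
    refine (sum_le_sum fun t _ => h1 t).trans ?_
    rw [sum_add_distrib, sum_sub_distrib, hN, sum_const, card_univ,
      show Fintype.card T2 = 100 by simp, nsmul_eq_mul]
    norm_num
  have u2 : ∑ x, (w x : ℝ) * log (w x) - n ≤ ∑ x, log (w x).factorial := by
    rw [← hw, ← sum_sub_distrib]
    exact sum_le_sum fun x _ => (hS (w x)).1
  have u3 := (hS n).2
  have u4 : (s : ℝ) * log 16 ≤ n * (2 / 13 * log 4) + 256 * log 4 := by
    have h1 : (s : ℝ) ≤ 10 * ((n / 130 : ℕ) : ℝ) + 128 := by exact_mod_cast hs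
    have h2 : (s : ℝ) ≤ n / 13 + 128 := by linarith
    have h3 := mul_le_mul_of_nonneg_right h2 l4.le
    rw [l3]
    linarith
  rw [sum_add_distrib, ← mul_sum, ← mul_sum] at hin
  have u5 := mul_le_mul_of_nonneg_left hin (show (0 : ℝ) ≤ n / 25 by positivity)
  have u6 : 51 * (ε * (3 * n + 1)) ≤ δ * n / 2 := by
    have h1 : δ * 1 ≤ δ * n := mul_le_mul_of_nonneg_left (by linarith) hδ.le
    rw [hε]
    linarith
  rw [l1] at e1
  rw [l2] at e2
  unfold expo c2
  rw [e3]
  linarith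

end Pool.Agent.Lib.RC5
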