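import Pool.Agent.Lib.RC5.B_EXT

/-! Sparse triangle-free parts map to the five-cycle. -/

namespace Pool.Agent.Lib.RC5

open Finset

namespace T25

variable {n : ℕ} {m : HE n → HE n} {R : Finset (Fin n)}

theorem walk4 (a b : ZMod 5) : ∃ x y z, Ad a x ∧ Ad x y ∧ Ad y z ∧ Ad z b := by
  unfold Ad
  revert a b
  decide

theorem ext_col (hm : IsM m) {X : Finset (Fin n)} {c c' : Fin n → ZMod 5}
    (hc : ∀ h : HE n, h.1 ∈ R \ X → (m h).1 ∈ R \ X → Ad (c h.1) (c (m h).1))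
    (he : ∀ v, v ∉ X → c' v = c v)
    (hX : ∀ h : HE n, h.1 ∈ X → (m h).1 ∈ R → Ad (c' h.1) (c' (m h).1)) :
    ∀ h : HE n, h.1 ∈ R → (m h).1 ∈ R → Ad (c' h.1) (c' (m h).1) := by
  intro h h1 h2
  by_cases a1 : h.1 ∈ X
  · exact hX h a1 h2
  by_cases a2 : (m h).1 ∈ X
  · have := hX (m h) a2 (by rw [(hm h).1]; exact h1)
    rw [(hm h).1] at this
    exact ad_symm this
  rw [he _ a1, he _ a2]
  exact hc h (mem_sdiff.2 ⟨h1, a1⟩) (mem_sdiff.2 ⟨h2, a2⟩)

theorem two_nb {v : Fin n} {p k : Fin 3} (hp : (m (v, p)).1 ∈ R) (hk : (m (v, k)).1 ∉ R) :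
    ∃ a, ∀ l, (m (v, l)).1 ∈ R → l = p ∨ (m (v, l)).1 = a := by
  have h3 : ∀ p k : Fin 3, p ≠ k → ∃ q, ∀ l, l ≠ k → l = p ∨ l = q := by decide
  obtain ⟨q, hq⟩ := h3 p k fun e => hk (e ▸ hp)
  exact ⟨(m (v, q)).1, fun l hl => (hq l fun e => hk (e ▸ hl)).imp id fun e => by rw [e]⟩

theorem inn_sum (m : HE n → HE n) (R : Finset (Fin n)) :
    inn m R = ∑ v ∈ R, (univ.filter fun i : Fin 3 => (m (v, i)).1 ∈ R).card := by
  classical
  rw [inn, sel_eq, card_filter, Fintype.sum_prod_type, ← Fintype.sum_ite_mem R]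
  refine sum_congr rfl fun v _ => ?_
  by_cases hv : v ∈ R
  · simp only [hv, true_and, if_true, card_filter]
  · simp [hv]

theorem dense (hm : IsM m)
    (h2 : ∀ v ∈ R, ∃ i j, i ≠ j ∧ (m (v, i)).1 ∈ R ∧ (m (v, j)).1 ∈ R)
    (h3 : ∀ v ∈ R, (∀ i, (m (v, i)).1 ∈ R) ∨
      ∃ i, (m (v, i)).1 ∈ R ∧ ∀ j, (m ((m (v, i)).1, j)).1 ∈ R) :
    9 * R.card ≤ 4 * inn m R := by
  classical
  set T := R.filter fun v => ∀ i, (m (v, i)).1 ∈ R with hT
  set S := R.filter fun v => ¬ ∀ i, (m (v, i)).1 ∈ R with hS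
  have e1 : T.card + S.card = R.card := card_filter_add_card_filter_not _
  have hp : ∀ v, ∃ i, v ∈ S → (m (v, i)).1 ∈ T := by
    intro v
    by_cases hv : v ∈ S
    · obtain ⟨a, b⟩ := mem_filter.1 hv
      obtain ⟨i, c, d⟩ := (h3 v a).resolve_left b
      exact ⟨i, fun _ => mem_filter.2 ⟨c, d⟩⟩
    · exact ⟨0, fun e => absurd e hv⟩
  choose p hp using hp
  have e2 : S.card ≤ (T ×ˢ (univ : Finset (Fin 3))).card := by
    refine card_le_card_of_injOn (fun v => m (v, p v))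
      (fun v hv => mem_coe.2 (mem_product.2 ⟨hp v hv, mem_univ _⟩)) fun v _ w _ e => ?_
    have : (v, p v) = (w, p w) := by
      rw [← (hm (v, p v)).1, show m (v, p v) = m (w, p w) from e, (hm _).1]
    exact congrArg Prod.fst this
  rw [card_product, card_univ, Fintype.card_fin] at e2
  have e3 : T.card * 3 ≤ ∑ v ∈ T, (univ.filter fun i : Fin 3 => (m (v, i)).1 ∈ R).card := by
    refine card_nsmul_le_sum T _ 3 fun v hv => ?_
    rw [filter_true_of_mem fun i _ => (mem_filter.1 hv).2 i]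
    simp
  have e4 : S.card * 2 ≤ ∑ v ∈ S, (univ.filter fun i : Fin 3 => (m (v, i)).1 ∈ R).card := by
    refine card_nsmul_le_sum S _ 2 fun v hv => ?_
    obtain ⟨i, j, a, b, c⟩ := h2 v (mem_filter.1 hv).1
    exact one_lt_card.2 ⟨i, mem_filter.2 ⟨mem_univ _, b⟩, j, mem_filter.2 ⟨mem_univ _, c⟩, a⟩
  rw [inn_sum, ← sum_filter_add_sum_filter_not R fun v => ∀ i, (m (v, i)).1 ∈ R]
  rw [← hT, ← hS]
  omega

theorem thread (hm : IsM m) (hs : Simple m) (ht : TriFree m) {y : Fin n} {i j k : Fin 3}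
    (hy : y ∈ R) (hij : i ≠ j) (hi : (m (y, i)).1 ∈ R) (hj : (m (y, j)).1 ∈ R)
    (hk : (m (y, k)).1 ∉ R) {k1 k2 : Fin 3} (h1 : (m ((m (y, i)).1, k1)).1 ∉ R)
    (h2 : (m ((m (y, j)).1, k2)).1 ∉ R) {c : Fin n → ZMod 5}
    (hc : ∀ h : HE n, h.1 ∈ R \ {(m (y, i)).1, y, (m (y, j)).1} →
      (m h).1 ∈ R \ {(m (y, i)).1, y, (m (y, j)).1} → Ad (c h.1) (c (m h).1)) :
    ∃ c : Fin n → ZMod 5, ∀ h : HE n, h.1 ∈ R → (m h).1 ∈ R → Ad (c h.1) (c (m h).1) := by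
  classical
  obtain ⟨x, p, hx⟩ : ∃ x p, m (y, i) = (x, p) := ⟨_, _, rfl⟩
  obtain ⟨z, q, hz⟩ : ∃ z q, m (y, j) = (z, q) := ⟨_, _, rfl⟩
  have hx' : m (x, p) = (y, i) := by rw [← hx, (hm _).1]
  have hz' : m (z, q) = (y, j) := by rw [← hz, (hm _).1]
  have xy : x ≠ y := by have := (hs (y, i)).1; rwa [hx] at this
  have zy : z ≠ y := by have := (hs (y, j)).1; rwa [hz] at this
  have xz : x ≠ z := fun e => hij (congrArg Prod.snd
    ((hs (y, j)).2 (y, i) rfl (by rw [hx, hz]; exact e)))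
  have h3 : ∀ i j k l : Fin 3, i ≠ j → i ≠ k → j ≠ k → l ≠ k → l = i ∨ l = j := by decide
  have hN : ∀ l, (m (y, l)).1 ∈ R → l = i ∨ l = j := fun l hl =>
    h3 i j k l hij (fun e => hk (e ▸ hi)) (fun e => hk (e ▸ hj)) fun e => hk (e ▸ hl)
  simp only [hx, hz] at hc h1 h2
  obtain ⟨a, ha⟩ := two_nb (m := m) (R := R) (v := x) (p := p) (by rw [hx']; exact hy) h1
  obtain ⟨b, hb⟩ := two_nb (m := m) (R := R) (v := z) (p := q) (by rw [hz']; exact hy) h2
  obtain ⟨cx, cy, cz, w1, w2, w3, w4⟩ := walk4 (c a) (c b)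
  set c' : Fin n → ZMod 5 :=
    fun v => if v = x then cx else if v = y then cy else if v = z then cz else c v with hc'
  have ex : c' x = cx := by simp [hc']
  have ey : c' y = cy := by simp [hc', xy.symm]
  have ez : c' z = cz := by simp [hc', xz.symm, zy]
  have eo : ∀ v, v ≠ x → v ≠ y → v ≠ z → c' v = c v := fun v a1 a2 a3 => by
    simp [hc', a1, a2, a3]
  refine ⟨c', ext_col hm hc (fun v hv => ?_) ?_⟩
  · simp only [mem_insert, mem_singleton, not_or] at hv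
    exact eo v hv.1 hv.2.1 hv.2.2
  rintro ⟨v, l⟩ hv hl
  simp only [mem_insert, mem_singleton] at hv
  rcases hv with rfl | rfl | rfl
  · by_cases e : l = p
    · rw [e, hx', ex, ey]
      exact w2
    · have a1 : (m (v, l)).1 ≠ v := (hs (v, l)).1
      have a2 : (m (v, l)).1 ≠ y := fun e' => e (congrArg Prod.snd
        ((hs (v, p)).2 (v, l) rfl (by rw [hx']; exact e')))
      have a3 : (m (v, l)).1 ≠ z := fun e' =>
        ht (y, i) (v, l) (z, q) (by rw [hx]) e' (by rw [hz'])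
      rw [ex, eo _ a1 a2 a3, (ha l hl).resolve_left e]
      exact ad_symm w1
  · rcases hN l hl with rfl | rfl
    · rw [hx, ex, ey]
      exact ad_symm w2
    · rw [hz, ey, ez]
      exact w3
  · by_cases e : l = q
    · rw [e, hz', ez, ey]
      exact ad_symm w3
    · have a1 : (m (v, l)).1 ≠ v := (hs (v, l)).1
      have a2 : (m (v, l)).1 ≠ y := fun e' => e (congrArg Prod.snd
        ((hs (v, q)).2 (v, l) rfl (by rw [hz']; exact e')))
      have a3 : (m (v, l)).1 ≠ x := fun e' =>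
        ht (y, j) (v, l) (x, p) (by rw [hz]) e' (by rw [hx'])
      rw [ez, eo _ a3 a2 a1, (hb l hl).resolve_left e]
      exact w4

end T25

open T25 in
theorem st_MAD : St_MAD := by
  classical
  intro n m R hm hs ht
  induction R using Finset.strongInduction with
  | H R ih =>
  intro hR
  have ih' : ∀ X : Finset (Fin n), ∀ v ∈ R, v ∈ X → ∃ c : Fin n → ZMod 5,
      ∀ h : HE n, h.1 ∈ R \ X → (m h).1 ∈ R \ X → Ad (c h.1) (c (m h).1) := fun X v h1 h2 =>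
    ih (R \ X) ⟨sdiff_subset, fun e => (mem_sdiff.1 (e h1)).2 h2⟩
      fun U hU => hR U (hU.trans sdiff_subset)
  rcases R.eq_empty_or_nonempty with rfl | hne
  · exact ⟨fun _ => 0, fun h hh => absurd hh (notMem_empty _)⟩
  by_cases h2 : ∀ v ∈ R, ∃ i j, i ≠ j ∧ (m (v, i)).1 ∈ R ∧ (m (v, j)).1 ∈ R
  swap
  · push Not at h2
    obtain ⟨v, hv, h2⟩ := h2
    obtain ⟨w, hw⟩ : ∃ w, ∀ i, (m (v, i)).1 ∈ R → (m (v, i)).1 = w := by
      by_cases e : ∃ j, (m (v, j)).1 ∈ R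
      · obtain ⟨j, hj⟩ := e
        refine ⟨(m (v, j)).1, fun i hi => ?_⟩
        by_cases e : i = j
        · rw [e]
        · exact absurd hj (h2 i j e hi)
      · exact ⟨v, fun i hi => absurd ⟨i, hi⟩ e⟩
    obtain ⟨c, hc⟩ := ih' {v} v hv (mem_singleton_self v)
    refine ⟨Function.update c v (c w + 1), ext_col hm hc
      (fun u hu => Function.update_of_ne (by simpa using hu) _ _) ?_⟩
    rintro ⟨u, l⟩ hu hl
    obtain rfl : u = v := by simpa using hu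
    rw [Function.update_self, Function.update_of_ne (hs (u, l)).1, hw l hl]
    exact Or.inr (by ring)
  by_cases h3 : ∀ v ∈ R, (∀ i, (m (v, i)).1 ∈ R) ∨
      ∃ i, (m (v, i)).1 ∈ R ∧ ∀ j, (m ((m (v, i)).1, j)).1 ∈ R
  · exact absurd (hR R (Subset.refl _) hne) (not_lt.2 (dense hm h2 h3))
  push Not at h3
  obtain ⟨y, hy, ⟨k, hk⟩, h3⟩ := h3
  obtain ⟨i, j, hij, hi, hj⟩ := h2 y hy
  obtain ⟨k1, h4⟩ := h3 i hi
  obtain ⟨k2, h5⟩ := h3 j hj
  obtain ⟨c, hc⟩ := ih' {(m (y, i)).1, y, (m (y, j)).1} y hy (by simp)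
  exact thread hm hs ht hy hij hi hj hk h4 h5 hc

end Pool.Agent.Lib.RC5
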