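import Pool.Agent.Lib.RC5.Blue

set_option autoImplicit false

namespace Pool.Agent.Lib.RC5

open Finset

theorem st_MAIN (hO : St_OM) (h3 : St_G3) (h4 : St_G4) (hT : St_TRANS) (hA : St_AAS) :
    St_MAIN := by
  intro g hg ε hε
  obtain ⟨c, c0, n1, hn1⟩ := h3 g
  obtain ⟨n2, hn2⟩ := hA (ε * c) (mul_pos hε c0)
  refine ⟨max n1 n2, fun n hn hev => ?_⟩
  have a1 := hn1 n (le_trans (le_max_left _ _) hn)
  have a2 := hn2 n (le_trans (le_max_right _ _) hn) hev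
  obtain ⟨k, hk⟩ := hev
  have a3 := (hO (HE n) (3 * k) (by simp [hk]; ring)).1
  have t1 := hT n fun G => (g : ℕ∞) ≤ G.egirth
  have t2 := hT n fun G => (g : ℕ∞) ≤ G.egirth ∧ IsEmpty (G →g SimpleGraph.cycleGraph 5)
  have b1 : (sel (Om (HE n)) fun m => ∀ h, ¬ OnCyc m g h).card
      ≤ (sel (Om (HE n)) fun m => Simple m ∧ (g : ℕ∞) ≤ (Gr m).egirth).card := by
    refine card_le_card fun m hm => ?_
    rw [mem_sel] at hm ⊢
    exact ⟨hm.1, (h4 n g m (mem_sel.1 hm.1).2).1 (by omega) hm.2⟩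
  have b2 : (sel (Om (HE n)) fun m => Simple m ∧ (g : ℕ∞) ≤ (Gr m).egirth
        ∧ IsEmpty (Gr m →g SimpleGraph.cycleGraph 5)).card
      ≤ (sel (Om (HE n)) fun m => Simple m ∧ TriFree m ∧ ¬ Col m).card := by
    refine card_le_card fun m hm => ?_
    rw [mem_sel] at hm ⊢
    obtain ⟨m1, m2, m3, m4⟩ := hm
    have t := h4 n g m (mem_sel.1 m1).2
    refine ⟨m1, m2, t.2.1 m2 (le_trans ?_ m3), fun hc => (t.2.2 hc).elim m4.false⟩
    exact_mod_cast hg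
  rw [t1] at b1
  rw [t2] at b2
  set A := {G : SimpleGraph (Fin n) |
    (∀ v, (G.neighborSet v).ncard = 3) ∧ (g : ℕ∞) ≤ G.egirth}.ncard with hAdef
  set B := {G : SimpleGraph (Fin n) | (∀ v, (G.neighborSet v).ncard = 3) ∧ (g : ℕ∞) ≤ G.egirth ∧
    IsEmpty (G →g SimpleGraph.cycleGraph 5)}.ncard with hBdef
  have c1 : c * ((Om (HE n)).card : ℝ) ≤ 6 ^ n * (A : ℝ) := a1.trans (by exact_mod_cast b1)
  have c2 : (6 : ℝ) ^ n * (B : ℝ) ≤ ε * c * ((Om (HE n)).card : ℝ) :=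
    le_trans (by exact_mod_cast b2) a2
  have c3 : (0 : ℝ) < ((Om (HE n)).card : ℝ) := by exact_mod_cast a3
  have p6 : (0 : ℝ) < 6 ^ n := by positivity
  constructor
  · have : (0 : ℝ) < 6 ^ n * (A : ℝ) := lt_of_lt_of_le (mul_pos c0 c3) c1
    exact_mod_cast (mul_pos_iff_of_pos_left p6).1 this
  · refine le_of_mul_le_mul_left (c2.trans ?_) p6
    have := mul_le_mul_of_nonneg_left c1 hε.le
    linarith

end Pool.Agent.Lib.RC5
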