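import Pool.Agent.Lib.RC5.Blue

/-! Block PHI: subadditivity of the convex function. -/

namespace Pool.Agent.Lib.RC5

open Finset Real

namespace T99

theorem phi_pt (u s a : ℝ) (hu : 0 ≤ u) (hs : 0 ≤ s) (ha : 0 ≤ a) :
    3 / 2 * ((s + a - 1) * u ^ 2) - 1 / 2 * (s * s ^ 2 + a * a ^ 2 - 1
      + (3 / 2 * (s - 1) + 3 / 4 * (s - 1) ^ 2) * (a ^ 2 - 1)
      + (3 / 2 * (a - 1) + 3 / 4 * (a - 1) ^ 2) * (s ^ 2 - 1)) ≤ u ^ 2 * u := by
  have e : s * s ^ 2 + a * a ^ 2 - 1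
      + (3 / 2 * (s - 1) + 3 / 4 * (s - 1) ^ 2) * (a ^ 2 - 1)
      + (3 / 2 * (a - 1) + 3 / 4 * (a - 1) ^ 2) * (s ^ 2 - 1)
      = (s + a - 1) ^ 3 + 3 / 2 * ((s - 1) * (a - 1)) ^ 2 := by ring
  rw [e]
  have hsa : 0 ≤ s * a := mul_nonneg hs ha
  obtain ⟨q, hq⟩ : ∃ q, q = s + a - 1 := ⟨_, rfl⟩
  have hyz : -q ≤ (s - 1) * (a - 1) := by rw [hq]; nlinarith
  have hq1 : -1 ≤ q := by rw [hq]; linarith
  rw [← hq]
  generalize (s - 1) * (a - 1) = z at hyz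
  rcases le_total 0 q with h | h
  · have := mul_nonneg (sq_nonneg (u - q)) (show 0 ≤ 2 * u + q by linarith)
    nlinarith [sq_nonneg z]
  · have h1 : q ^ 2 ≤ z ^ 2 := by nlinarith
    have h2 : 0 ≤ q ^ 2 * (q + 1) := mul_nonneg (sq_nonneg q) (by linarith)
    have h3 : 0 ≤ u ^ 2 * u := mul_nonneg (sq_nonneg u) hu
    have h4 : 0 ≤ -q * u ^ 2 := mul_nonneg (by linarith) (sq_nonneg u)
    nlinarith [sq_nonneg z]

theorem sum5 (φ : ZMod 5 → ℝ) : ∑ i, φ i = φ 0 + φ 1 + φ 2 + φ 3 + φ 4 :=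
  Fin.sum_univ_five (fun i : Fin 5 => φ i)

end T99

open T99

theorem st_PHI : St_PHI := by
  intro f hf ht
  obtain ⟨r, hr⟩ : ∃ r : ZMod 5 → ℝ, ∀ i, r i = (∑ j, f i j) / 5 := ⟨_, fun _ => rfl⟩
  obtain ⟨c, hc⟩ : ∃ c : ZMod 5 → ℝ, ∀ j, c j = (∑ i, f i j) / 5 := ⟨_, fun _ => rfl⟩
  have hr0 : ∀ i, 0 ≤ r i := fun i => by
    rw [hr]; exact div_nonneg (sum_nonneg fun j _ => hf i j) (by norm_num)
  have hc0 : ∀ j, 0 ≤ c j := fun j => by
    rw [hc]; exact div_nonneg (sum_nonneg fun i _ => hf i j) (by norm_num)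
  simp only [← hr, ← hc]
  have hr5 : ∀ i, ∑ j, f i j = 5 * r i := fun i => by rw [hr]; ring
  have hc5 : ∀ j, ∑ i, f i j = 5 * c j := fun j => by rw [hc]; ring
  have hsr : ∑ i, r i = 5 := by
    have : ∑ i, ∑ j, f i j = 5 * ∑ i, r i := by simp only [hr5, mul_sum]
    linarith
  have hsc : ∑ j, c j = 5 := by
    have : ∑ i, ∑ j, f i j = 5 * ∑ j, c j := by rw [sum_comm]; simp only [hc5, mul_sum]
    linarith
  have row : ∀ φ : ZMod 5 → ℝ, ∑ i, ∑ j, φ i * f i j = 5 * ∑ i, φ i * r i := fun φ => by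
    simp only [← mul_sum, hr5]
    rw [mul_sum]; exact sum_congr rfl fun i _ => by ring
  have col : ∀ φ : ZMod 5 → ℝ, ∑ i, ∑ j, φ j * f i j = 5 * ∑ j, φ j * c j := fun φ => by
    rw [sum_comm]
    simp only [← mul_sum, hc5]
    rw [mul_sum]; exact sum_congr rfl fun i _ => by ring
  have prod : ∀ φ ψ : ZMod 5 → ℝ, ∑ i, ∑ j, φ i * ψ j = (∑ i, φ i) * ∑ j, ψ j := fun φ ψ => by
    rw [sum_mul_sum]
  have pt : ∀ i j, 29 / 32 * (3 / 2 * (√(c j) * f i j + √(r i) * f i j - f i j)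
      - 1 / 2 * (√(c j) * c j + √(r i) * r i - 1
      + (r i - 1) * (3 / 2 * (√(c j) - 1) + 3 / 4 * (√(c j) - 1) ^ 2)
      + (3 / 2 * (√(r i) - 1) + 3 / 4 * (√(r i) - 1) ^ 2) * (c j - 1)))
      + 17 / 256 * (2 * (r i * f i j) + 2 * (c j * f i j) - 2 * f i j - r i * r i - c j * c j - 1
        - 2 * (r i * c j) + 2 * r i + 2 * c j) ≤ Ph (f i j) := by
    intro i j
    have h := phi_pt (√(f i j)) (√(c j)) (√(r i)) (sqrt_nonneg _) (sqrt_nonneg _) (sqrt_nonneg _)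
    rw [sq_sqrt (hf i j), sq_sqrt (hc0 j), sq_sqrt (hr0 i)] at h
    unfold Ph
    nlinarith [sq_nonneg (f i j - r i - c j + 1)]
  have hs := sum_le_sum fun i (_ : i ∈ univ) => sum_le_sum fun j (_ : j ∈ univ) => pt i j
  have e1 := col fun j => √(c j)
  have e2 := row fun i => √(r i)
  have e3 := prod (fun i => r i - 1) fun j => 3 / 2 * (√(c j) - 1) + 3 / 4 * (√(c j) - 1) ^ 2
  have e4 := prod (fun i => 3 / 2 * (√(r i) - 1) + 3 / 4 * (√(r i) - 1) ^ 2) fun j => c j - 1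
  have e5 := row r
  have e6 := col c
  have e7 := prod r c
  have z1 : ∑ i, (r i - 1) = 0 := by simp only [sum5] at hsr ⊢; linarith
  have z2 : ∑ i, (c i - 1) = 0 := by simp only [sum5] at hsc ⊢; linarith
  rw [z1, zero_mul] at e3
  rw [z2, mul_zero] at e4
  rw [hsr, hsc] at e7
  refine le_trans ?_ (add_le_add_left hs _)
  simp only [Ph, sqrt_one]
  simp only [sum5] at e1 e2 e3 e4 e5 e6 e7 hsr hsc ht ⊢
  linarith

end Pool.Agent.Lib.RC5
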