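import Pool.Agent.Lib.RC5.Blue

/-! Block R: the inequality of a line from the dual inequality. -/

namespace Pool.Agent.Lib.RC5

open Finset Real

namespace T35

/-- the clamped logarithm -/
noncomputable def xc (g : ℝ) : ℝ := if g ≤ exp (-8) then -8 else log g

/-- the multiplier -/
noncomputable def kk (g : ℝ) : ℝ := 6 / 5 * ell (log g) - 3 / 5 * log g + 3 / 5

theorem xc_mem (g : ℝ) (hg : g ≤ 5.002) : xc g ∈ Set.Icc (-8 : ℝ) (413 / 256) := by
  unfold xc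
  split_ifs with h
  · constructor <;> norm_num
  · push Not at h
    have hp : 0 < g := lt_trans (exp_pos _) h
    constructor
    · exact ((lt_log_iff_exp_lt hp).2 h).le
    · rw [log_le_iff_le_exp hp]
      have := Real.sum_le_exp_of_nonneg (show (0 : ℝ) ≤ 413 / 256 by norm_num) 8
      simp only [sum_range_succ, sum_range_zero, Nat.factorial] at this
      norm_num at this
      linarith

theorem ell_low (y : ℝ) (hy : y ≤ -3 / 2) : ell y = 3 / 4 * y + 39 / 512 := by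
  unfold ell; rw [if_pos hy]

theorem edge (n c : ℝ) (hn : 0 ≤ n) :
    n * (12 / 5 * c + 12 / 5 - 12 / 5 * log (4 * n)) ≤ 3 / 5 * exp c := by
  rcases hn.eq_or_lt with h | h
  · rw [← h]; have := exp_pos c; linarith
  · have h4 : 0 < 4 * n := by linarith
    have h1 := add_one_le_exp (c - log (4 * n))
    rw [exp_sub, exp_log h4, le_div_iff₀ h4] at h1
    linarith

theorem exp8 : exp (-8) ≤ 1 / 2700 := by
  have h1 : (2.7 : ℝ) ≤ exp 1 := by have := Real.exp_one_gt_d9; linarith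
  have h2 : (2.7 : ℝ) ^ 8 ≤ exp 1 ^ 8 := pow_le_pow_left₀ (by norm_num) h1 8
  rw [← exp_nat_mul] at h2
  norm_num at h2
  rw [exp_neg, inv_eq_one_div]
  exact one_div_le_one_div_of_le (by norm_num) (by linarith)

/-- the terms at a vertex -/
theorem vert (g w e s : ℝ) (hg : 0 ≤ g) (hs : 0 ≤ s) (hs3 : s ≤ 3) :
    g * (11 / 20 * w ^ 2 + 9 / 320 * (2 * e ^ 3 + 3 / 2 * e ^ 4) + 17 / 20 * log g
      - 6 / 5 * ell (log g) - 133 / 1280 - 87 / 64 * s - 17 / 128 * s ^ 2)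
      + 29 / 64 * (g * √g) + 17 / 512 * g ^ 2 ≤ gV (xc g) w e s := by
  by_cases h : g ≤ exp (-8)
  · have hx : xc g = -8 := by unfold xc; rw [if_pos h]
    rw [hx]; unfold gV
    rw [if_pos rfl, ell_low (-8) (by norm_num)]
    have hE := exp_pos (-8)
    have h8 := exp8
    have e2 : exp (2 * -8) = exp (-8) ^ 2 := by rw [← exp_nat_mul]; norm_num
    have e3 : exp (3 / 2 * -8) = exp (-8) * √(exp (-8)) := by
      rw [← exp_half, ← exp_add]; norm_num
    have hq : g ^ 2 ≤ exp (-8) ^ 2 := pow_le_pow_left₀ hg h 2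
    have hr : g * √g ≤ exp (-8) * √(exp (-8)) :=
      mul_le_mul h (sqrt_le_sqrt h) (sqrt_nonneg _) hE.le
    rw [e2, e3]
    obtain ⟨B, hB⟩ : ∃ B, B = 11 / 20 * w ^ 2 + 9 / 320 * (2 * e ^ 3 + 3 / 2 * e ^ 4)
      + 17 / 20 * (-8) - 6 / 5 * (3 / 4 * (-8) + 39 / 512) - 133 / 1280 - 87 / 64 * s
      - 17 / 128 * s ^ 2 := ⟨_, rfl⟩
    rw [← hB]
    have hB5 : -5.1 ≤ B := by
      have h1 : -1 / 2 ≤ 2 * e ^ 3 + 3 / 2 * e ^ 4 := by
        nlinarith [mul_nonneg (sq_nonneg (e + 1)) (show 0 ≤ 3 * e ^ 2 - 2 * e + 1 by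
          nlinarith [sq_nonneg (3 * e - 1)])]
      have h2 : s ^ 2 ≤ 9 := by nlinarith
      rw [hB]; nlinarith [sq_nonneg w]
    have key : g * (11 / 20 * w ^ 2 + 9 / 320 * (2 * e ^ 3 + 3 / 2 * e ^ 4) + 17 / 20 * log g
      - 6 / 5 * ell (log g) - 133 / 1280 - 87 / 64 * s - 17 / 128 * s ^ 2)
        ≤ exp (-8) * B + 1 / 512 := by
      rcases hg.eq_or_lt with h0 | h0
      · rw [← h0, zero_mul]; nlinarith
      · have hl : log g ≤ -8 := by rwa [log_le_iff_le_exp h0]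
        rw [ell_low _ (by linarith)]
        have h1 := add_one_le_exp (-8 - log g)
        rw [exp_sub, exp_log h0, le_div_iff₀ h0] at h1
        have h2 : 11 / 20 * w ^ 2 + 9 / 320 * (2 * e ^ 3 + 3 / 2 * e ^ 4) + 17 / 20 * log g
          - 6 / 5 * (3 / 4 * log g + 39 / 512) - 133 / 1280 - 87 / 64 * s - 17 / 128 * s ^ 2
          = B + 1 / 20 * (-8 - log g) := by rw [hB]; ring
        rw [h2]
        have h3 : 0 ≤ (exp (-8) - g) * (B + 5.1) := mul_nonneg (by linarith) (by linarith)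
        nlinarith
    linarith
  · have hx : xc g = log g := by unfold xc; rw [if_neg h]
    push Not at h
    have h0 : 0 < g := lt_trans (exp_pos _) h
    rw [hx]; unfold gV
    have e1 : exp (log g) = g := exp_log h0
    have e2 : exp (2 * log g) = g ^ 2 := by
      rw [show 2 * log g = log g + log g by ring, exp_add, e1]; ring
    have e3 : exp (3 / 2 * log g) = g * √g := by
      rw [show 3 / 2 * log g = log g + log g / 2 by ring, exp_add, exp_half, e1]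
    rw [e1, e2, e3]
    split_ifs <;> linarith

theorem ell_xc (g n : ℝ) (hn : 0 ≤ n) (hng : n ≤ g) : n * ell (log g) ≤ n * ell (xc g) := by
  rcases hn.eq_or_lt with h | h
  · rw [← h]; simp
  · have h0 : 0 < g := by linarith
    refine mul_le_mul_of_nonneg_left ?_ hn
    unfold xc
    split_ifs with h1
    · have hl : log g ≤ -8 := by rwa [log_le_iff_le_exp h0]
      rw [ell_low _ (by linarith), ell_low (-8) (by norm_num)]; linarith
    · exact le_rfl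

/-- the terms of one point -/
theorem row (g a b w e s : ℝ) (ha : 0 ≤ a) (hb : 0 ≤ b) (hg : a + b ≤ g) (hs : 0 ≤ s)
    (hs3 : s ≤ 3) :
    rowT kk g a b + 1 / 2 * Ph g + 1 / 2 * Ph 1 * g + 5 / 512 * g
      - g * (87 / 64 * s + 17 / 128 * s ^ 2)
      ≤ a * (12 / 5 * (ell (xc g) - w - 3 / 64 * e ^ 3) + 6 / 5 - 6 / 5 * log (4 * a))
        + b * (12 / 5 * (ell (xc g) + w - 3 / 64 * e ^ 3) + 6 / 5 - 6 / 5 * log (4 * b))
        + gV (xc g) w e s := by
  have hg0 : 0 ≤ g := by linarith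
  have hv := vert g w e s hg0 hs hs3
  have hl := ell_xc g (a + b) (by linarith) hg
  have t1 : -(21 / 8 * (a - b) ^ 2 / g) ≤ -(12 / 5 * w * (a - b)) + 11 / 20 * w ^ 2 * g := by
    rcases hg0.eq_or_lt with h | h
    · have h1 : a = 0 := by linarith
      have h2 : b = 0 := by linarith
      rw [h1, h2, ← h]; simp
    · obtain ⟨u, hu⟩ : ∃ u, a - b = u * g := ⟨(a - b) / g, by field_simp⟩
      rw [hu, show 21 / 8 * (u * g) ^ 2 / g = 21 / 8 * u ^ 2 * g by field_simp]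
      have : 0 ≤ (21 / 8 * u ^ 2 - 12 / 5 * w * u + 11 / 20 * w ^ 2) * g :=
        mul_nonneg (by nlinarith [sq_nonneg (35 * u - 16 * w), sq_nonneg w]) hg0
      linarith
  have t2 : -(9 / 640 * (2 * (a + b) - g) ^ 4 / g ^ 3)
      ≤ -(9 / 160 * e ^ 3 * (2 * (a + b) - g)) + 27 / 640 * e ^ 4 * g := by
    rcases hg0.eq_or_lt with h | h
    · have h1 : a = 0 := by linarith
      have h2 : b = 0 := by linarith
      rw [h1, h2, ← h]; simp
    · obtain ⟨u, hu⟩ : ∃ u, 2 * (a + b) - g = u * g := ⟨(2 * (a + b) - g) / g, by field_simp⟩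
      rw [hu, show 9 / 640 * (u * g) ^ 4 / g ^ 3 = 9 / 640 * u ^ 4 * g by field_simp]
      have h3 : 0 ≤ u ^ 4 - 4 * e ^ 3 * u + 3 * e ^ 4 := by
        nlinarith [mul_nonneg (sq_nonneg (u - e)) (show 0 ≤ u ^ 2 + 2 * u * e + 3 * e ^ 2 by
          nlinarith [sq_nonneg (u + e), sq_nonneg e])]
      have : 0 ≤ (u ^ 4 - 4 * e ^ 3 * u + 3 * e ^ 4) * g := mul_nonneg h3 hg0
      linarith
  unfold rowT kk Ph
  rw [sqrt_one]
  linarith

theorem mean (m s : ℝ) (hm : 0 ≤ m) (hs : 0 ≤ s) :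
    5 * m * (87 / 64 * s + 17 / 128 * s ^ 2) - 145 / 64 * s ^ 3 - 85 / 256 * s ^ 4
      ≤ 5 * Ph m := by
  obtain ⟨u, hu0, rfl⟩ : ∃ u, 0 ≤ u ∧ m = u ^ 2 := ⟨√m, sqrt_nonneg _, (sq_sqrt hm).symm⟩
  unfold Ph
  rw [sqrt_sq hu0]
  have h1 := mul_nonneg (sq_nonneg (u - s)) (show 0 ≤ u + s / 2 by linarith)
  have h2 := sq_nonneg (u ^ 2 - s ^ 2)
  nlinarith

theorem sum5 (φ : ZMod 5 → ℝ) : ∑ i, φ i = φ 0 + φ 1 + φ 2 + φ 3 + φ 4 :=
  Fin.sum_univ_five (fun i : Fin 5 => φ i)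

end T35

open T35

theorem st_R (h : St_RD) : St_R := by
  refine ⟨kk, fun g e he hge hg => ?_⟩
  obtain ⟨w0, w1, w2, w3, w4, e0, e1, e2, e3, e4, s, hs, hs3, hD⟩ :=
    h _ _ _ _ _ (xc_mem _ (hg 0)) (xc_mem _ (hg 1)) (xc_mem _ (hg 2)) (xc_mem _ (hg 3))
      (xc_mem _ (hg 4))
  have i0 : (0 : ZMod 5) - 1 = 4 := by decide
  have i1 : (1 : ZMod 5) - 1 = 0 := by decide
  have i2 : (2 : ZMod 5) - 1 = 1 := by decide
  have i3 : (3 : ZMod 5) - 1 = 2 := by decide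
  have i4 : (4 : ZMod 5) - 1 = 3 := by decide
  have g0 : ∀ i, 0 ≤ g i := fun i => le_trans (add_nonneg (he _) (he _)) (hge i)
  have r0 := row _ _ _ w0 e0 s (he 0) (he (0 - 1)) (hge 0) hs hs3
  have r1 := row _ _ _ w1 e1 s (he 1) (he (1 - 1)) (hge 1) hs hs3
  have r2 := row _ _ _ w2 e2 s (he 2) (he (2 - 1)) (hge 2) hs hs3
  have r3 := row _ _ _ w3 e3 s (he 3) (he (3 - 1)) (hge 3) hs hs3
  have r4 := row _ _ _ w4 e4 s (he 4) (he (4 - 1)) (hge 4) hs hs3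
  have d0 := edge (e 0) (ell (xc (g 0)) + ell (xc (g 1)) + w1 - w0 - 3 / 64 * (e0 ^ 3 + e1 ^ 3))
    (he 0)
  have d1 := edge (e 1) (ell (xc (g 1)) + ell (xc (g 2)) + w2 - w1 - 3 / 64 * (e1 ^ 3 + e2 ^ 3))
    (he 1)
  have d2 := edge (e 2) (ell (xc (g 2)) + ell (xc (g 3)) + w3 - w2 - 3 / 64 * (e2 ^ 3 + e3 ^ 3))
    (he 2)
  have d3 := edge (e 3) (ell (xc (g 3)) + ell (xc (g 4)) + w4 - w3 - 3 / 64 * (e3 ^ 3 + e4 ^ 3))
    (he 3)
  have d4 := edge (e 4) (ell (xc (g 4)) + ell (xc (g 0)) + w0 - w4 - 3 / 64 * (e4 ^ 3 + e0 ^ 3))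
    (he 4)
  have hm := mean ((g 0 + g 1 + g 2 + g 3 + g 4) / 5) s
    (by have := g0 0; have := g0 1; have := g0 2; have := g0 3; have := g0 4; positivity) hs
  simp only [sum5, i0, i1, i2, i3, i4] at r0 r1 r2 r3 r4 ⊢
  unfold gE at hD
  linarith

end Pool.Agent.Lib.RC5
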