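import Pool.Agent.Lib.RC5.Blue

/-! The dual inequality near the centre. -/

namespace Pool.Agent.Lib.RC5

open Real

namespace T80

theorem exp_two {z : ℝ} (hz : |z| ≤ 1 / 500) :
    1 + z + (1 / 2 - 1 / 2900) * z ^ 2 ≤ exp z ∧ exp z ≤ 1 + z + (1 / 2 + 1 / 2900) * z ^ 2 := by
  have h1 := Real.exp_bound (hz.trans (by norm_num)) (n := 4) (by norm_num)
  have h2 : |z| ^ 4 = z ^ 2 * z ^ 2 := by
    rw [show |z| ^ 4 = |z| ^ 2 * |z| ^ 2 by ring, sq_abs]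
  simp only [Finset.sum_range_succ, Finset.sum_range_zero, Nat.factorial] at h1
  rw [h2, abs_le] at h1
  obtain ⟨h3, h4⟩ := abs_le.1 hz
  have h5 : z ^ 2 * z ^ 2 ≤ z ^ 2 * (1 / 250000) :=
    mul_le_mul_of_nonneg_left (by nlinarith) (sq_nonneg z)
  have h6 := mul_le_mul_of_nonneg_left h3 (sq_nonneg z)
  have h7 := mul_le_mul_of_nonneg_left h4 (sq_nonneg z)
  norm_num at h1
  constructor <;> nlinarith [h1.1, h1.2, sq_nonneg z]

theorem ell_mid {x : ℝ} (hx : |x| ≤ 1 / 1024) : ell x = 191 / 256 * x := by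
  obtain ⟨h1, h2⟩ := abs_le.1 hx
  rw [ell, if_neg (by linarith), if_neg (by linarith), if_pos (by linarith)]

/-- bound for the terms at an edge -/
noncomputable def pE (x y w w' : ℝ) : ℝ :=
  3 / 5 * (1 + (191 / 256 * (x + y) + w' - w)
    + (1 / 2 + 1 / 2900) * (191 / 256 * (x + y) + w' - w) ^ 2)

/-- bound for the terms at a point -/
noncomputable def pV (x y w : ℝ) : ℝ :=
  11 / 20 * (1001 / 1000) * w ^ 2 - 29 / 640 * (x + 999 / 1000 * x ^ 2)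
    - 133 / 1280 * (1 + x + (1 / 2 - 1 / 2900) * x ^ 2)
    - 87 / 64 * (1 + (y + x) + (1 / 2 - 1 / 2900) * (y + x) ^ 2)
    - 17 / 128 * (1 + (2 * y + x) + (1 / 2 - 1 / 2900) * (2 * y + x) ^ 2)
    + 29 / 64 * (1 + 3 / 2 * x + (1 / 2 + 1 / 2900) * (3 / 2 * x) ^ 2)
    + 17 / 512 * (1 + 2 * x + (1 / 2 + 1 / 2900) * (2 * x) ^ 2)

/-- bound for the terms in `s` alone -/
noncomputable def pS (y : ℝ) : ℝ :=
  145 / 64 * (1 + 3 * y + (1 / 2 + 1 / 2900) * (3 * y) ^ 2)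
    + 85 / 256 * (1 + 4 * y + (1 / 2 + 1 / 2900) * (4 * y) ^ 2) - 25 / 512

theorem gE_le {x y w w' : ℝ} (hx : |x| ≤ 1 / 1024) (hy : |y| ≤ 1 / 1024)
    (h1 : -(1 / 500) ≤ 191 / 256 * (x + y) + w' - w) (h2 : 191 / 256 * (x + y) + w' - w ≤ 1 / 500) :
    gE x y w w' 0 0 ≤ pE x y w w' := by
  have h := (exp_two (abs_le.2 ⟨h1, h2⟩)).2
  rw [gE, pE, ell_mid hx, ell_mid hy, show 191 / 256 * x + 191 / 256 * y + w' - w
    - 3 / 64 * ((0 : ℝ) ^ 3 + 0 ^ 3) = 191 / 256 * (x + y) + w' - w by ring]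
  linarith

theorem gV_le {x y : ℝ} (w : ℝ) (hx : |x| ≤ 1 / 1024) (hy : |y| ≤ 1 / 2048) :
    gV x w 0 (exp y) ≤ pV x y w := by
  obtain ⟨h1, h2⟩ := abs_le.1 hx
  obtain ⟨h3, h4⟩ := abs_le.1 hy
  have e1 := exp_two (z := x) (abs_le.2 ⟨by linarith, by linarith⟩)
  have e2 := (exp_two (z := y + x) (abs_le.2 ⟨by linarith, by linarith⟩)).1
  have e3 := (exp_two (z := 2 * y + x) (abs_le.2 ⟨by linarith, by linarith⟩)).1
  have e4 := (exp_two (z := 3 / 2 * x) (abs_le.2 ⟨by linarith, by linarith⟩)).2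
  have e5 := (exp_two (z := 2 * x) (abs_le.2 ⟨by linarith, by linarith⟩)).2
  have e6 : exp x ≤ 1001 / 1000 := by nlinarith [e1.2]
  have e7 : x + 999 / 1000 * x ^ 2 ≤ exp x * x := by
    rcases le_total 0 x with h | h
    · nlinarith [mul_le_mul_of_nonneg_right (add_one_le_exp x) h]
    · nlinarith [mul_le_mul_of_nonpos_right e1.2 h, mul_le_mul_of_nonneg_left h1 (sq_nonneg x)]
  have e8 := mul_le_mul_of_nonneg_right e6 (sq_nonneg w)
  rw [exp_add] at e2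
  rw [exp_add, show exp (2 * y) = exp y ^ 2 by rw [← exp_nat_mul]; rfl] at e3
  rw [gV, pV, ell_mid hx, if_neg (by linarith [h1] : ¬ x = -8)]
  linarith [e1.1]

theorem gS_le {y : ℝ} (hy : |y| ≤ 1 / 2048) :
    exp y ≤ 3 ∧ 145 / 64 * exp y ^ 3 + 85 / 256 * exp y ^ 4 - 25 / 512 ≤ pS y := by
  obtain ⟨h1, h2⟩ := abs_le.1 hy
  have s1 := (exp_two (z := y) (abs_le.2 ⟨by linarith, by linarith⟩)).2
  have s3 := (exp_two (z := 3 * y) (abs_le.2 ⟨by linarith, by linarith⟩)).2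
  have s4 := (exp_two (z := 4 * y) (abs_le.2 ⟨by linarith, by linarith⟩)).2
  rw [show exp (3 * y) = exp y ^ 3 by rw [← exp_nat_mul]; rfl] at s3
  rw [show exp (4 * y) = exp y ^ 4 by rw [← exp_nat_mul]; rfl] at s4
  refine ⟨by nlinarith, ?_⟩
  rw [pS]
  linarith

theorem quad {x0 x1 x2 x3 x4 y w0 w1 w2 w3 w4 : ℝ} (hy : y = (x0 + x1 + x2 + x3 + x4) / 10)
    (h0 : w0 = 13 / 64 * (x1 - x4) + 3 / 64 * (x2 - x3))
    (h1 : w1 = 13 / 64 * (x2 - x0) + 3 / 64 * (x3 - x4))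
    (h2 : w2 = 13 / 64 * (x3 - x1) + 3 / 64 * (x4 - x0))
    (h3 : w3 = 13 / 64 * (x4 - x2) + 3 / 64 * (x0 - x1))
    (h4 : w4 = 13 / 64 * (x0 - x3) + 3 / 64 * (x1 - x2)) :
    pE x0 x1 w0 w1 + pE x1 x2 w1 w2 + pE x2 x3 w2 w3 + pE x3 x4 w3 w4 + pE x4 x0 w4 w0
      + pV x0 y w0 + pV x1 y w1 + pV x2 y w2 + pV x3 y w3 + pV x4 y w4 + pS y ≤ 0 := by
  have h : pE x0 x1 w0 w1 + pE x1 x2 w1 w2 + pE x2 x3 w2 w3 + pE x3 x4 w3 w4 + pE x4 x0 w4 w0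
      + pV x0 y w0 + pV x1 y w1 + pV x2 y w2 + pV x3 y w3 + pV x4 y w4 + pS y
      = -(249571143 / 2375680000
          * (x0 - 363463667 / 499142286 * (x1 + x4) + 60308113 / 249571143 * (x2 + x3)) ^ 2
        + 117037184444218907 / 2371604692008960000
          * (x1 - 12507315438423820 / 10639744040383537 * x2 + 120616226 / 135678619 * x3
            - 6536470768614023 / 10639744040383537 * x4) ^ 2
        + 38829896616655584063371 / 1263831356092918059008000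
          * (x2 - 142742796710494289328151 / 141199624060565760230440 * x3
            + 37831029321137188652031 / 141199624060565760230440 * x4) ^ 2
        + 19132755152396864844288079307717 / 670890245776409730528503398400000
          * (x3 - 1820264233459837 / 2283009038309677 * x4) ^ 2
        + 28173989223215556982371 / 2711849456065766727680000 * x4 ^ 2) := by
    subst hy h0 h1 h2 h3 h4
    simp only [pE, pV, pS]
    ring
  rw [h, neg_nonpos]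
  positivity

end T80

theorem st_RDC : St_RDC := by
  intro x0 x1 x2 x3 x4 h0 h1 h2 h3 h4
  obtain ⟨a0, b0⟩ := abs_le.1 h0
  obtain ⟨a1, b1⟩ := abs_le.1 h1
  obtain ⟨a2, b2⟩ := abs_le.1 h2
  obtain ⟨a3, b3⟩ := abs_le.1 h3
  obtain ⟨a4, b4⟩ := abs_le.1 h4
  obtain ⟨y, hy⟩ : ∃ y, y = (x0 + x1 + x2 + x3 + x4) / 10 := ⟨_, rfl⟩
  obtain ⟨w0, hw0⟩ : ∃ w, w = 13 / 64 * (x1 - x4) + 3 / 64 * (x2 - x3) := ⟨_, rfl⟩
  obtain ⟨w1, hw1⟩ : ∃ w, w = 13 / 64 * (x2 - x0) + 3 / 64 * (x3 - x4) := ⟨_, rfl⟩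
  obtain ⟨w2, hw2⟩ : ∃ w, w = 13 / 64 * (x3 - x1) + 3 / 64 * (x4 - x0) := ⟨_, rfl⟩
  obtain ⟨w3, hw3⟩ : ∃ w, w = 13 / 64 * (x4 - x2) + 3 / 64 * (x0 - x1) := ⟨_, rfl⟩
  obtain ⟨w4, hw4⟩ : ∃ w, w = 13 / 64 * (x0 - x3) + 3 / 64 * (x1 - x2) := ⟨_, rfl⟩
  have hy' : |y| ≤ 1 / 2048 := abs_le.2 ⟨by linarith, by linarith⟩
  have e0 := T80.gE_le (w := w0) (w' := w1) h0 h1 (by linarith) (by linarith)
  have e1 := T80.gE_le (w := w1) (w' := w2) h1 h2 (by linarith) (by linarith)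
  have e2 := T80.gE_le (w := w2) (w' := w3) h2 h3 (by linarith) (by linarith)
  have e3 := T80.gE_le (w := w3) (w' := w4) h3 h4 (by linarith) (by linarith)
  have e4 := T80.gE_le (w := w4) (w' := w0) h4 h0 (by linarith) (by linarith)
  have s := T80.gS_le hy'
  refine ⟨w0, w1, w2, w3, w4, 0, 0, 0, 0, 0, exp y, (exp_pos y).le, s.1, ?_⟩
  linear_combination e0 + e1 + e2 + e3 + e4 + T80.gV_le w0 h0 hy' + T80.gV_le w1 h1 hy'
    + T80.gV_le w2 h2 hy' + T80.gV_le w3 h3 hy' + T80.gV_le w4 h4 hy' + s.2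
    + T80.quad hy hw0 hw1 hw2 hw3 hw4

end Pool.Agent.Lib.RC5
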