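import Pool.Agent.Lib.RC5.RdStep
import Pool.Agent.Lib.RC5.Blue

/-! Soundness of the test at a leaf and of the subdivision tree. -/

set_option exponentiation.threshold 400
set_option linter.unusedVariables false

namespace Pool.Agent.Lib.RC5.X69

open Real

theorem CO.mix_eq {x u : ℝ} {lo G Q X R q : ℕ} (h : CO x u lo G Q X R q) (sg : ℕ) (w e y : ℝ) :
    90 * 2 ^ 185 * gV x w e (sg / 2 ^ 22 * exp y) = 90 * 2 ^ 185 * gV x w e 0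
      - (Nat.add (Nat.mul sg 770336032518110875484160) (Nat.mul (Nat.mul sg sg) 17944029765304320) : ℕ)
        * q ^ 2 * P3 (R * u / 2 ^ 24)
      + mix (Nat.mul sg 770336032518110875484160) (Nat.mul (Nat.mul sg sg) 17944029765304320) q y
        (R * u / 2 ^ 24) := by
  have x1 : exp x = exp (x / 2) ^ 2 := by rw [← exp_nat_mul]; exact congrArg exp (by push_cast; ring)
  have y1 : exp (R * u / 2 ^ 24) = exp (R * u / 2 ^ 25) ^ 2 := by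
    rw [← exp_nat_mul]; exact congrArg exp (by push_cast; ring)
  unfold gV mix
  rw [exp_add, exp_add, two_mul y, exp_add, x1, y1, h.ex]
  simp only [Nat.add_eq, Nat.mul_eq]
  push_cast
  ring

theorem leafB_sound {x0 x1 x2 x3 x4 u0 u1 u2 u3 u4 : ℝ}
    {lo0 lo1 lo2 lo3 lo4 G0 G1 G2 G3 G4 Q0 Q1 Q2 Q3 Q4 X0 X1 X2 X3 X4 R0 R1 R2 R3 R4 q0 q1 q2 q3
    q4 W00 W01 W02 W03 W04 W10 W11 W12 W13 W14 W20 W21 W22 W23 W24 W30 W31 W32 W33 W34 W40 W41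
    W42 W43 W44 w0 w1 w2 w3 w4 e0 e1 e2 e3 e4 S0 S1 S2 S3 S4 sg ex l0c l00 l01 l02 l03 l04 l1c
    l11 l12 l13 l14 l2c l22 l23 l24 l3c l33 l34 l4c l44 : ℕ}
    (h : leafB lo0 lo1 lo2 lo3 lo4 G0 G1 G2 G3 G4 Q0 Q1 Q2 Q3 Q4 X0 X1 X2 X3 X4 R0 R1 R2 R3 R4 q0
    q1 q2 q3 q4 W00 W01 W02 W03 W04 W10 W11 W12 W13 W14 W20 W21 W22 W23 W24 W30 W31 W32 W33 W34
    W40 W41 W42 W43 W44 w0 w1 w2 w3 w4 e0 e1 e2 e3 e4 S0 S1 S2 S3 S4 sg ex l0c l00 l01 l02 l03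
    l04 l1c l11 l12 l13 l14 l2c l22 l23 l24 l3c l33 l34 l4c l44 = true)
    (c0 : CO x0 u0 lo0 G0 Q0 X0 R0 q0) (c1 : CO x1 u1 lo1 G1 Q1 X1 R1 q1)
    (c2 : CO x2 u2 lo2 G2 Q2 X2 R2 q2) (c3 : CO x3 u3 lo3 G3 Q3 X3 R3 q3)
    (c4 : CO x4 u4 lo4 G4 Q4 X4 R4 q4)
    (kW00 : W00 ≤ 4095) (kW01 : W01 ≤ 4095) (kW02 : W02 ≤ 4095) (kW03 : W03 ≤ 4095)
    (kW04 : W04 ≤ 4095) (kW10 : W10 ≤ 4095) (kW11 : W11 ≤ 4095) (kW12 : W12 ≤ 4095)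
    (kW13 : W13 ≤ 4095) (kW14 : W14 ≤ 4095) (kW20 : W20 ≤ 4095) (kW21 : W21 ≤ 4095)
    (kW22 : W22 ≤ 4095) (kW23 : W23 ≤ 4095) (kW24 : W24 ≤ 4095) (kW30 : W30 ≤ 4095)
    (kW31 : W31 ≤ 4095) (kW32 : W32 ≤ 4095) (kW33 : W33 ≤ 4095) (kW34 : W34 ≤ 4095)
    (kW40 : W40 ≤ 4095) (kW41 : W41 ≤ 4095) (kW42 : W42 ≤ 4095) (kW43 : W43 ≤ 4095)
    (kW44 : W44 ≤ 4095) (kw0 : w0 ≤ 16777215) (kw1 : w1 ≤ 16777215) (kw2 : w2 ≤ 16777215)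
    (kw3 : w3 ≤ 16777215) (kw4 : w4 ≤ 16777215) (ke0 : e0 ≤ 511) (ke1 : e1 ≤ 511)
    (ke2 : e2 ≤ 511) (ke3 : e3 ≤ 511) (ke4 : e4 ≤ 511) (kS0 : S0 ≤ 1023) (kS1 : S1 ≤ 1023)
    (kS2 : S2 ≤ 1023) (kS3 : S3 ≤ 1023) (kS4 : S4 ≤ 1023) (ksg : sg ≤ 16777215)
    (kl0c : l0c ≤ 65535) (kl00 : l00 ≤ 65535) (kl01 : l01 ≤ 65535) (kl02 : l02 ≤ 65535)
    (kl03 : l03 ≤ 65535) (kl04 : l04 ≤ 65535) (kl1c : l1c ≤ 65535) (kl11 : l11 ≤ 65535)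
    (kl12 : l12 ≤ 65535) (kl13 : l13 ≤ 65535) (kl14 : l14 ≤ 65535) (kl2c : l2c ≤ 65535)
    (kl22 : l22 ≤ 65535) (kl23 : l23 ≤ 65535) (kl24 : l24 ≤ 65535) (kl3c : l3c ≤ 65535)
    (kl33 : l33 ≤ 65535) (kl34 : l34 ≤ 65535) (kl4c : l4c ≤ 65535) (kl44 : l44 ≤ 65535) :
    DIn x0 x1 x2 x3 x4 := by
  have hU : UB u0 u1 u2 u3 u4 R0 R1 R2 R3 R4 :=
    ⟨c0.hu, c0.R1, c1.hu, c1.R1, c2.hu, c2.R1, c3.hu, c3.R1, c4.hu, c4.R1⟩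
  have b1 : ∀ {W : ℕ}, W ≤ 4095 → W ≤ 8192 := fun h => h.trans (by norm_num)
  have b2 : ∀ {W G : ℕ}, W ≤ 4095 → G ≤ 204 → Nat.add W (Nat.mul 4 G) ≤ 8192 := fun h k => by
    simp only [Nat.add_eq, Nat.mul_eq]; omega
  have ba : Nat.mul sg 770336032518110875484160 ≤ 2 ^ 104 :=
    (Nat.mul_le_mul_right _ ksg).trans (by norm_num)
  have bb : Nat.mul (Nat.mul sg sg) 17944029765304320 ≤ 2 ^ 102 :=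
    (Nat.mul_le_mul_right _ (Nat.mul_le_mul ksg ksg)).trans (by norm_num)
  have bc := (Nat.add_le_add ba bb).trans (by norm_num : _ ≤ 2 ^ 106)
  unfold leafB leafC at h
  obtain ⟨o0, f0⟩ : ∃ o : ℝ, o =
    (w0 - 2 ^ 23) / 2 ^ 20 + lin u0 u1 u2 u3 u4 W00 W01 W02 W03 W04 2048 2048 2048 2048 2048 R0
    R1 R2 R3 R4 := ⟨_, rfl⟩
  obtain ⟨o1, f1⟩ : ∃ o : ℝ, o =
    (w1 - 2 ^ 23) / 2 ^ 20 + lin u0 u1 u2 u3 u4 W10 W11 W12 W13 W14 2048 2048 2048 2048 2048 R0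
    R1 R2 R3 R4 := ⟨_, rfl⟩
  obtain ⟨o2, f2⟩ : ∃ o : ℝ, o =
    (w2 - 2 ^ 23) / 2 ^ 20 + lin u0 u1 u2 u3 u4 W20 W21 W22 W23 W24 2048 2048 2048 2048 2048 R0
    R1 R2 R3 R4 := ⟨_, rfl⟩
  obtain ⟨o3, f3⟩ : ∃ o : ℝ, o =
    (w3 - 2 ^ 23) / 2 ^ 20 + lin u0 u1 u2 u3 u4 W30 W31 W32 W33 W34 2048 2048 2048 2048 2048 R0
    R1 R2 R3 R4 := ⟨_, rfl⟩
  obtain ⟨o4, f4⟩ : ∃ o : ℝ, o =
    (w4 - 2 ^ 23) / 2 ^ 20 + lin u0 u1 u2 u3 u4 W40 W41 W42 W43 W44 2048 2048 2048 2048 2048 R0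
    R1 R2 R3 R4 := ⟨_, rfl⟩
  have l0 := c0.ell_le e0
  have l1 := c1.ell_le e1
  have l2 := c2.ell_le e2
  have l3 := c3.ell_le e3
  have l4 := c4.ell_le e4
  obtain ⟨A0, m0, h, I0⟩ := estep_sound h inv_zero hU
    (b2 kW10 c0.G1) (b1 kW00) (b2 kW11 c1.G1) (b1 kW01) (b1 kW12) (b1 kW02) (b1 kW13) (b1 kW03)
    (b1 kW14) (b1 kW04)
    (Y := ell x0 + ell x1 + o1 - o0 - 3 / 64 * ((((e0 : ℝ) - 256) / 128) ^ 3 +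
    (((e1 : ℝ) - 256) / 128) ^ 3))
    (by rw [f0, f1]; simp only [lin, Nat.add_eq, Nat.mul_eq]; push_cast; linarith)
  obtain ⟨A1, m1, h, I1⟩ := estep_sound h I0 hU
    (b1 kW20) (b1 kW10) (b2 kW21 c1.G1) (b1 kW11) (b2 kW22 c2.G1) (b1 kW12) (b1 kW23) (b1 kW13)
    (b1 kW24) (b1 kW14)
    (Y := ell x1 + ell x2 + o2 - o1 - 3 / 64 * ((((e1 : ℝ) - 256) / 128) ^ 3 +
    (((e2 : ℝ) - 256) / 128) ^ 3))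
    (by rw [f1, f2]; simp only [lin, Nat.add_eq, Nat.mul_eq]; push_cast; linarith)
  obtain ⟨A2, m2, h, I2⟩ := estep_sound h I1 hU
    (b1 kW30) (b1 kW20) (b1 kW31) (b1 kW21) (b2 kW32 c2.G1) (b1 kW22) (b2 kW33 c3.G1) (b1 kW23)
    (b1 kW34) (b1 kW24)
    (Y := ell x2 + ell x3 + o3 - o2 - 3 / 64 * ((((e2 : ℝ) - 256) / 128) ^ 3 +
    (((e3 : ℝ) - 256) / 128) ^ 3))
    (by rw [f2, f3]; simp only [lin, Nat.add_eq, Nat.mul_eq]; push_cast; linarith)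
  obtain ⟨A3, m3, h, I3⟩ := estep_sound h I2 hU
    (b1 kW40) (b1 kW30) (b1 kW41) (b1 kW31) (b1 kW42) (b1 kW32) (b2 kW43 c3.G1) (b1 kW33)
    (b2 kW44 c4.G1) (b1 kW34)
    (Y := ell x3 + ell x4 + o4 - o3 - 3 / 64 * ((((e3 : ℝ) - 256) / 128) ^ 3 +
    (((e4 : ℝ) - 256) / 128) ^ 3))
    (by rw [f3, f4]; simp only [lin, Nat.add_eq, Nat.mul_eq]; push_cast; linarith)
  obtain ⟨A4, m4, h, I4⟩ := estep_sound h I3 hU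
    (b2 kW00 c0.G1) (b1 kW40) (b1 kW01) (b1 kW41) (b1 kW02) (b1 kW42) (b1 kW03) (b1 kW43)
    (b2 kW04 c4.G1) (b1 kW44)
    (Y := ell x4 + ell x0 + o0 - o4 - 3 / 64 * ((((e4 : ℝ) - 256) / 128) ^ 3 +
    (((e0 : ℝ) - 256) / 128) ^ 3))
    (by rw [f4, f0]; simp only [lin, Nat.add_eq, Nat.mul_eq]; push_cast; linarith)
  obtain ⟨_, _, _, _, _, _, _, _, _, _, _, _, _, h, V0⟩ := vpar_sound h c0 hU kw0 ke0 bc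
    (b1 kW00) (b1 kW01) (b1 kW02) (b1 kW03) (b1 kW04)
  rw [← f0] at V0
  obtain ⟨_, _, _, _, _, _, _, _, _, _, _, _, _, h, V1⟩ := vpar_sound h c1 hU kw1 ke1 bc
    (b1 kW10) (b1 kW11) (b1 kW12) (b1 kW13) (b1 kW14)
  rw [← f1] at V1
  obtain ⟨_, _, _, _, _, _, _, _, _, _, _, _, _, h, V2⟩ := vpar_sound h c2 hU kw2 ke2 bc
    (b1 kW20) (b1 kW21) (b1 kW22) (b1 kW23) (b1 kW24)
  rw [← f2] at V2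
  obtain ⟨_, _, _, _, _, _, _, _, _, _, _, _, _, h, V3⟩ := vpar_sound h c3 hU kw3 ke3 bc
    (b1 kW30) (b1 kW31) (b1 kW32) (b1 kW33) (b1 kW34)
  rw [← f3] at V3
  obtain ⟨_, _, _, _, _, _, _, _, _, _, _, _, _, h, V4⟩ := vpar_sound h c4 hU kw4 ke4 bc
    (b1 kW40) (b1 kW41) (b1 kW42) (b1 kW43) (b1 kW44)
  rw [← f4] at V4
  obtain ⟨y, hy⟩ : ∃ y : ℝ, y = lin u0 u1 u2 u3 u4 S0 S1 S2 S3 S4 0 0 0 0 0 R0 R1 R2 R3 R4 := ⟨_, rfl⟩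
  obtain ⟨hs, A5, m5, h, I5⟩ := sstep_sound h (((((I4.v0 V0).v1 V1).v2 V2).v3 V3).v4 V4) hU ksg ba bb
    kS0 c0.q1 kS1 c1.q1 kS2 c2.q1 kS3 c3.q1 kS4 c4.q1 hy
  have hv := qstep_sound h I5 hU (by decide +kernel)
    kl0c kl00 kl01 kl02 kl03 kl04 kl1c kl11 kl12 kl13 kl14 kl2c kl22 kl23 kl24 kl3c kl33 kl34
    kl4c kl44
  refine ⟨o0, o1, o2, o3, o4, (e0 - 256) / 128, (e1 - 256) / 128, (e2 - 256) / 128,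
    (e3 - 256) / 128, (e4 - 256) / 128, sg / 2 ^ 22 * exp y, by positivity, hs, ?_⟩
  have t0 := c0.mix_eq sg o0 ((e0 - 256) / 128) y
  have t1 := c1.mix_eq sg o1 ((e1 - 256) / 128) y
  have t2 := c2.mix_eq sg o2 ((e2 - 256) / 128) y
  have t3 := c3.mix_eq sg o3 ((e3 - 256) / 128) y
  have t4 := c4.mix_eq sg o4 ((e4 - 256) / 128) y
  have y3 : exp (3 * y) = exp y ^ 3 := by rw [← exp_nat_mul]; norm_num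
  have y4 : exp (4 * y) = exp y ^ 4 := by rw [← exp_nat_mul]; norm_num
  rw [y3, y4] at hv
  unfold gE
  linarith

theorem fld_le (h p m : ℕ) : fld h p m ≤ m := Nat.and_le_right

/-- the inequality holds at the points of the fundamental domain in the box -/
def Good (lo0 hi0 lo1 hi1 lo2 hi2 lo3 hi3 lo4 hi4 : ℕ) : Prop :=
  ∀ x0 x1 x2 x3 x4 : ℝ, x0 ≤ 413 / 256 → x1 ≤ x0 → x2 ≤ x0 → x3 ≤ x0 → x4 ≤ x1 →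
    (lo0 : ℝ) ≤ (x0 + 8) * 2 ^ 20 → ((x0 + 8) * 2 ^ 20 < hi0 ∨ 10080256 ≤ hi0) →
    (lo1 : ℝ) ≤ (x1 + 8) * 2 ^ 20 → ((x1 + 8) * 2 ^ 20 < hi1 ∨ 10080256 ≤ hi1) →
    (lo2 : ℝ) ≤ (x2 + 8) * 2 ^ 20 → (x2 + 8) * 2 ^ 20 ≤ hi2 →
    (lo3 : ℝ) ≤ (x3 + 8) * 2 ^ 20 → (x3 + 8) * 2 ^ 20 ≤ hi3 →
    (lo4 : ℝ) ≤ (x4 + 8) * 2 ^ 20 → (x4 + 8) * 2 ^ 20 ≤ hi4 →
    DIn x0 x1 x2 x3 x4

variable {lo0 hi0 lo1 hi1 lo2 hi2 lo3 hi3 lo4 hi4 : ℕ}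

theorem le_hi {x : ℝ} {hi : ℕ} (h1 : x ≤ 413 / 256)
    (h : (x + 8) * 2 ^ 20 < hi ∨ 10080256 ≤ hi) : (x + 8) * 2 ^ 20 ≤ hi := by
  rcases h with h | h
  · exact h.le
  · have : (10080256 : ℝ) ≤ hi := by exact_mod_cast h
    linarith

theorem good_leaf {s : ℕ} (h : leaf s lo0 hi0 lo1 hi1 lo2 hi2 lo3 hi3 lo4 hi4 = true) :
    Good lo0 hi0 lo1 hi1 lo2 hi2 lo3 hi3 lo4 hi4 := by
  intro x0 x1 x2 x3 x4 d0 d1 d2 d3 d4 a0 b0 a1 b1 a2 b2 a3 b3 a4 b4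
  unfold leaf leafA at h
  simp only [Bool.and_eq_true] at h
  obtain ⟨k0, k1, k2, k3, k4, h⟩ := h
  obtain ⟨u0, c0⟩ := co_of k0 a0 (le_hi d0 b0)
  obtain ⟨u1, c1⟩ := co_of k1 a1 (le_hi (d1.trans d0) b1)
  obtain ⟨u2, c2⟩ := co_of k2 a2 b2
  obtain ⟨u3, c3⟩ := co_of k3 a3 b3
  obtain ⟨u4, c4⟩ := co_of k4 a4 b4
  refine leafB_sound h c0 c1 c2 c3 c4
    ?_ ?_ ?_ ?_ ?_ ?_ ?_ ?_ ?_ ?_ ?_ ?_ ?_ ?_ ?_ ?_ ?_ ?_ ?_ ?_ ?_ ?_ ?_ ?_ ?_ ?_ ?_ ?_ ?_ ?_ ?_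
    ?_ ?_ ?_ ?_ ?_ ?_ ?_ ?_ ?_ ?_ ?_ ?_ ?_ ?_ ?_ ?_ ?_ ?_ ?_ ?_ ?_ ?_ ?_ ?_ ?_ ?_ ?_ ?_ ?_ ?_ <;> exact fld_le _ _ _

theorem good_out (h : outB lo0 hi0 lo1 hi1 lo2 hi2 lo3 hi3 lo4 hi4 = true) :
    Good lo0 hi0 lo1 hi1 lo2 hi2 lo3 hi3 lo4 hi4 := by
  intro x0 x1 x2 x3 x4 d0 d1 d2 d3 d4 a0 b0 a1 b1 a2 b2 a3 b3 a4 b4
  simp only [outB, Bool.or_eq_true, Bool.and_eq_true, Nat.ble_eq, Nat.blt_eq] at h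
  exfalso
  rcases h with ⟨h1, h⟩ | ⟨h1, h⟩
  · have := b0.resolve_right (by omega)
    rcases h with h | h | h <;> have := Nat.cast_le (α := ℝ).2 h <;> linarith
  · have := b1.resolve_right (by omega)
    have := Nat.cast_le (α := ℝ).2 h
    linarith

theorem good_cen (hC : St_RDC) (h : cenB lo0 hi0 lo1 hi1 lo2 hi2 lo3 hi3 lo4 hi4 = true) :
    Good lo0 hi0 lo1 hi1 lo2 hi2 lo3 hi3 lo4 hi4 := by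
  intro x0 x1 x2 x3 x4 d0 d1 d2 d3 d4 a0 b0 a1 b1 a2 b2 a3 b3 a4 b4
  simp only [cenB, Bool.and_eq_true, Nat.ble_eq] at h
  have k : ∀ {x : ℝ} {lo hi : ℕ}, 8387584 ≤ lo → hi ≤ 8389632 → (lo : ℝ) ≤ (x + 8) * 2 ^ 20 →
      (x + 8) * 2 ^ 20 ≤ hi → |x| ≤ 1 / 1024 := fun p q r s => by
    have p' := Nat.cast_le (α := ℝ).2 p
    have q' := Nat.cast_le (α := ℝ).2 q
    push_cast at p' q'
    rw [abs_le]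
    constructor <;> linarith
  obtain ⟨p0, q0, p1, q1, p2, q2, p3, q3, p4, q4⟩ := h
  exact hC _ _ _ _ _ (k p0 q0 a0 (le_hi d0 b0)) (k p1 q1 a1 (le_hi (d1.trans d0) b1))
    (k p2 q2 a2 b2) (k p3 q3 a3 b3) (k p4 q4 a4 b4)

theorem good_s0 (m : ℕ) (h1 : Good lo0 m lo1 hi1 lo2 hi2 lo3 hi3 lo4 hi4)
    (h2 : Good m hi0 lo1 hi1 lo2 hi2 lo3 hi3 lo4 hi4) : Good lo0 hi0 lo1 hi1 lo2 hi2 lo3 hi3 lo4 hi4 :=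
  fun x0 x1 x2 x3 x4 d0 d1 d2 d3 d4 a0 b0 a1 b1 a2 b2 a3 b3 a4 b4 =>
    (lt_or_ge ((x0 + 8) * 2 ^ 20) (m : ℝ)).elim (fun h => h1 x0 x1 x2 x3 x4 d0 d1 d2 d3 d4 a0 (Or.inl h) a1 b1 a2 b2 a3 b3 a4 b4)
      (fun h => h2 x0 x1 x2 x3 x4 d0 d1 d2 d3 d4 h b0 a1 b1 a2 b2 a3 b3 a4 b4)

theorem good_s1 (m : ℕ) (h1 : Good lo0 hi0 lo1 m lo2 hi2 lo3 hi3 lo4 hi4)
    (h2 : Good lo0 hi0 m hi1 lo2 hi2 lo3 hi3 lo4 hi4) : Good lo0 hi0 lo1 hi1 lo2 hi2 lo3 hi3 lo4 hi4 :=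
  fun x0 x1 x2 x3 x4 d0 d1 d2 d3 d4 a0 b0 a1 b1 a2 b2 a3 b3 a4 b4 =>
    (lt_or_ge ((x1 + 8) * 2 ^ 20) (m : ℝ)).elim (fun h => h1 x0 x1 x2 x3 x4 d0 d1 d2 d3 d4 a0 b0 a1 (Or.inl h) a2 b2 a3 b3 a4 b4)
      (fun h => h2 x0 x1 x2 x3 x4 d0 d1 d2 d3 d4 a0 b0 h b1 a2 b2 a3 b3 a4 b4)

theorem good_s2 (m : ℕ) (h1 : Good lo0 hi0 lo1 hi1 lo2 m lo3 hi3 lo4 hi4)
    (h2 : Good lo0 hi0 lo1 hi1 m hi2 lo3 hi3 lo4 hi4) : Good lo0 hi0 lo1 hi1 lo2 hi2 lo3 hi3 lo4 hi4 :=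
  fun x0 x1 x2 x3 x4 d0 d1 d2 d3 d4 a0 b0 a1 b1 a2 b2 a3 b3 a4 b4 =>
    (le_total ((x2 + 8) * 2 ^ 20) (m : ℝ)).elim (fun h => h1 x0 x1 x2 x3 x4 d0 d1 d2 d3 d4 a0 b0 a1 b1 a2 h a3 b3 a4 b4)
      (fun h => h2 x0 x1 x2 x3 x4 d0 d1 d2 d3 d4 a0 b0 a1 b1 h b2 a3 b3 a4 b4)

theorem good_s3 (m : ℕ) (h1 : Good lo0 hi0 lo1 hi1 lo2 hi2 lo3 m lo4 hi4)
    (h2 : Good lo0 hi0 lo1 hi1 lo2 hi2 m hi3 lo4 hi4) : Good lo0 hi0 lo1 hi1 lo2 hi2 lo3 hi3 lo4 hi4 :=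
  fun x0 x1 x2 x3 x4 d0 d1 d2 d3 d4 a0 b0 a1 b1 a2 b2 a3 b3 a4 b4 =>
    (le_total ((x3 + 8) * 2 ^ 20) (m : ℝ)).elim (fun h => h1 x0 x1 x2 x3 x4 d0 d1 d2 d3 d4 a0 b0 a1 b1 a2 b2 a3 h a4 b4)
      (fun h => h2 x0 x1 x2 x3 x4 d0 d1 d2 d3 d4 a0 b0 a1 b1 a2 b2 h b3 a4 b4)

theorem good_s4 (m : ℕ) (h1 : Good lo0 hi0 lo1 hi1 lo2 hi2 lo3 hi3 lo4 m)
    (h2 : Good lo0 hi0 lo1 hi1 lo2 hi2 lo3 hi3 m hi4) : Good lo0 hi0 lo1 hi1 lo2 hi2 lo3 hi3 lo4 hi4 :=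
  fun x0 x1 x2 x3 x4 d0 d1 d2 d3 d4 a0 b0 a1 b1 a2 b2 a3 b3 a4 b4 =>
    (le_total ((x4 + 8) * 2 ^ 20) (m : ℝ)).elim (fun h => h1 x0 x1 x2 x3 x4 d0 d1 d2 d3 d4 a0 b0 a1 b1 a2 b2 a3 b3 a4 h)
      (fun h => h2 x0 x1 x2 x3 x4 d0 d1 d2 d3 d4 a0 b0 a1 b1 a2 b2 a3 b3 h b4)

theorem good_chk (hC : St_RDC) (fuel : ℕ) : ∀ s lo0 hi0 lo1 hi1 lo2 hi2 lo3 hi3 lo4 hi4 : ℕ,
    chk fuel s lo0 hi0 lo1 hi1 lo2 hi2 lo3 hi3 lo4 hi4 = true → Good lo0 hi0 lo1 hi1 lo2 hi2 lo3 hi3 lo4 hi4 := by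
  induction fuel with
  | zero => intro s lo0 hi0 lo1 hi1 lo2 hi2 lo3 hi3 lo4 hi4 h; exact absurd h (by simp [chk])
  | succ n ih =>
    intro s lo0 hi0 lo1 hi1 lo2 hi2 lo3 hi3 lo4 hi4 h
    unfold chk at h ih
    simp only [force_eq] at h ih
    generalize Nat.land s 7 = tag at h
    cases h2 : Nat.ble tag 2
    · rw [h2, cond_false] at h
      cases h4 : Nat.ble tag 4
      · rw [h4, cond_false] at h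
        cases h5 : Nat.ble tag 5
        · rw [h5, cond_false] at h
          cases h6 : Nat.ble tag 6
          · rw [h6, cond_false, Bool.and_eq_true] at h
            exact good_s4 _ (ih _ _ _ _ _ _ _ _ _ _ _ h.1) (ih _ _ _ _ _ _ _ _ _ _ _ h.2)
          · rw [h6, cond_true, Bool.and_eq_true] at h
            exact good_s3 _ (ih _ _ _ _ _ _ _ _ _ _ _ h.1) (ih _ _ _ _ _ _ _ _ _ _ _ h.2)
        · rw [h5, cond_true, Bool.and_eq_true] at h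
          exact good_s2 _ (ih _ _ _ _ _ _ _ _ _ _ _ h.1) (ih _ _ _ _ _ _ _ _ _ _ _ h.2)
      · rw [h4, cond_true] at h
        cases h3 : Nat.ble tag 3
        · rw [h3, cond_false, Bool.and_eq_true] at h
          exact good_s1 _ (ih _ _ _ _ _ _ _ _ _ _ _ h.1) (ih _ _ _ _ _ _ _ _ _ _ _ h.2)
        · rw [h3, cond_true, Bool.and_eq_true] at h
          exact good_s0 _ (ih _ _ _ _ _ _ _ _ _ _ _ h.1) (ih _ _ _ _ _ _ _ _ _ _ _ h.2)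
    · rw [h2, cond_true] at h
      cases h0 : Nat.ble tag 0
      · rw [h0, cond_false] at h
        cases h1 : Nat.ble tag 1
        · rw [h1, cond_false] at h
          exact good_cen hC h
        · rw [h1, cond_true] at h
          exact good_out h
      · rw [h0, cond_true] at h
        exact good_leaf h

theorem rdw_of (h : Good 0 10080256 0 10080256 0 10080256 0 10080256 0 10080256) : St_RDW := by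
  intro x0 x1 x2 x3 x4 d0 a1 a2 a3 a4 d1 d2 d3 d4
  refine h x0 x1 x2 x3 x4 d0 d1 d2 d3 d4 ?_ (Or.inr le_rfl) ?_ (Or.inr le_rfl) ?_ ?_ ?_ ?_ ?_ ?_ <;>
    push_cast <;> linarith

end Pool.Agent.Lib.RC5.X69
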