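import Pool.Agent.Lib.RC5.RdC0
import Pool.Agent.Lib.RC5.RdC1
import Pool.Agent.Lib.RC5.RdC2
import Pool.Agent.Lib.RC5.RdC3
import Pool.Agent.Lib.RC5.RdC4
import Pool.Agent.Lib.RC5.RdC5
import Pool.Agent.Lib.RC5.RdC6
import Pool.Agent.Lib.RC5.RdC7
import Pool.Agent.Lib.RC5.RdLeaf

/-! The dual inequality in the fundamental domain. -/

set_option maxRecDepth 10000

namespace Pool.Agent.Lib.RC5

open X69 in
theorem st_RDW (hC : St_RDC) : St_RDW :=
  have g := fun {s a b c d e f i j k l : ℕ} (h : chk 70 s a b c d e f i j k l = true) =>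
    good_chk hC 70 s a b c d e f i j k l h
  rdw_of
    (good_s0 7864320 (good_s0 6815744 (g X69.c0) (good_s1 7864320 (good_s1 6815744 (g X69.c1)
    (good_s2 7864320 (good_s2 6815744 (g X69.c2) (g X69.c3)) (g X69.c4))) (g X69.c5))) (good_s0
    8912896 (good_s1 7864320 (good_s1 6815744 (good_s2 7864320 (good_s2 6815744 (good_s3 7864320
    (g X69.c6) (g X69.c7)) (g X69.c8)) (g X69.c9)) (good_s2 7864320 (good_s2 6815744 (good_s3
    7864320 (good_s3 6815744 (good_s4 7864320 (good_s4 6815744 (g X69.c10) (g X69.c11)) (g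
    X69.c12)) (g X69.c13)) (g X69.c14)) (g X69.c15)) (g X69.c16))) (good_s1 8912896 (good_s2
    7864320 (good_s2 6815744 (good_s3 7864320 (good_s3 6815744 (good_s4 7864320 (good_s4 6815744
    (good_s2 3407872 (g X69.c17) (g X69.c18)) (g X69.c19)) (g X69.c20)) (g X69.c21)) (g X69.c22))
    (good_s3 7864320 (good_s3 6815744 (good_s4 7864320 (good_s4 6815744 (g X69.c23) (g X69.c24))
    (g X69.c25)) (good_s4 7864320 (g X69.c26) (g X69.c27))) (g X69.c28))) (good_s2 8912896
    (good_s3 7864320 (good_s3 6815744 (g X69.c29) (good_s4 7864320 (g X69.c30) (g X69.c31)))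
    (good_s3 8912896 (good_s4 7864320 (g X69.c32) (good_s4 8912896 (good_s1 8388608 (good_s0
    8388608 (g X69.c33) (good_s2 8388608 (good_s3 8388608 (g X69.c34) (g X69.c35)) (g X69.c36)))
    (good_s3 8388608 (good_s4 8388608 (good_s0 8388608 (g X69.c37) (good_s2 8388608 (g X69.c38)
    (g X69.c39))) (good_s0 8388608 (g X69.c40) (good_s2 8388608 (g X69.c41) (g X69.c42))))
    (good_s4 8388608 (g X69.c43) (good_s0 8388608 (g X69.c44) (good_s2 8388608 (g X69.c45) (g
    X69.c46)))))) (g X69.c47))) (g X69.c48))) (g X69.c49))) (g X69.c50))) (good_s0 9437184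
    (good_s1 7864320 (good_s1 6815744 (good_s2 7864320 (g X69.c51) (g X69.c52)) (good_s2 7864320
    (good_s2 6815744 (good_s3 7864320 (good_s3 6815744 (good_s4 7864320 (good_s4 6815744 (g
    X69.c53) (g X69.c54)) (g X69.c55)) (g X69.c56)) (g X69.c57)) (g X69.c58)) (g X69.c59)))
    (good_s1 8912896 (good_s2 7864320 (good_s2 6815744 (good_s3 7864320 (good_s3 6815744 (good_s4
    7864320 (good_s4 6815744 (g X69.c60) (g X69.c61)) (g X69.c62)) (g X69.c63)) (g X69.c64))
    (good_s3 7864320 (good_s3 6815744 (g X69.c65) (g X69.c66)) (g X69.c67))) (good_s2 8912896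
    (good_s3 7864320 (g X69.c68) (g X69.c69)) (g X69.c70))) (good_s1 9437184 (good_s2 7864320
    (good_s2 6815744 (good_s3 7864320 (g X69.c71) (g X69.c72)) (g X69.c73)) (good_s2 8912896
    (good_s3 7864320 (g X69.c74) (g X69.c75)) (g X69.c76))) (g X69.c77)))) (good_s1 7864320
    (good_s1 6815744 (good_s2 7864320 (good_s2 6815744 (g X69.c78) (g X69.c79)) (g X69.c80))
    (good_s2 7864320 (good_s2 6815744 (good_s3 7864320 (good_s3 6815744 (good_s4 7864320 (good_s4
    6815744 (g X69.c81) (g X69.c82)) (g X69.c83)) (g X69.c84)) (g X69.c85)) (g X69.c86)) (g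
    X69.c87))) (good_s1 8912896 (good_s2 7864320 (good_s2 6815744 (good_s3 7864320 (good_s3
    6815744 (good_s4 7864320 (good_s4 6815744 (g X69.c88) (g X69.c89)) (g X69.c90)) (g X69.c91))
    (g X69.c92)) (good_s3 7864320 (g X69.c93) (g X69.c94))) (good_s2 8912896 (g X69.c95) (g
    X69.c96))) (good_s1 9437184 (good_s2 7864320 (good_s2 6815744 (good_s3 7864320 (good_s3
    6815744 (g X69.c97) (g X69.c98)) (g X69.c99)) (g X69.c100)) (good_s2 8912896 (good_s3 7864320
    (g X69.c101) (g X69.c102)) (g X69.c103))) (good_s2 7864320 (good_s2 6815744 (good_s3 7864320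
    (g X69.c104) (g X69.c105)) (g X69.c106)) (good_s2 8912896 (good_s3 7864320 (g X69.c107) (g
    X69.c108)) (good_s2 9437184 (g X69.c109) (good_s3 7864320 (g X69.c110) (good_s3 8912896 (g
    X69.c111) (good_s3 9437184 (g X69.c112) (g X69.c113)))))))))))))

end Pool.Agent.Lib.RC5
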