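import Pool.Agent.Lib.RC5.B_EXT

/-! Repair of a colouring after a small change of the matching. -/

namespace Pool.Agent.Lib.RC5

open Finset

open T25 in
theorem st_REP (hMAD : St_MAD) (hUP : St_UP) (hLEV : St_LEV) (hTL : St_TL) (hEXT : St_EXT) :
    St_REP := by
  classical
  intro n L x m m' a hL hm hs ht hS hc hx
  have hm' := comp_isM hc
  set A : Finset (HE n) := sel univ fun h => m h ≠ m' h with hA
  set B : Finset (HE n) := sel univ fun h => TL m' L h ∧ msg a m' L h ≠ univ with hB
  set U : Finset (Fin n) := A.image Prod.fst ∪ B.image fun h => (m' h).1 with hU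
  have hUc : U.card ≤ ham m m' + nbad a m' L :=
    (card_union_le _ _).trans (add_le_add card_image_le card_image_le)
  have h1 : (2 * (2 * L + 3) + 2) * U.card + (2 * L + 3)
      ≤ (4 * L + 8) * (ham m m' + nbad a m' L) + (2 * L + 3) := by
    rw [show 2 * (2 * L + 3) + 2 = 4 * L + 8 by ring]
    exact Nat.add_le_add_right (Nat.mul_le_mul_left _ hUc) _
  have hx1 : (((2 * (2 * L + 3) + 2) * U.card + (2 * L + 3) : ℕ) : ℝ) ≤ x :=
    le_trans (by exact_mod_cast h1) hx
  obtain ⟨R, hUR, hRc, hE⟩ := hUP n (2 * L + 3) x m U hS hx1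
  obtain ⟨c, hcR⟩ := hMAD n m R hm hs ht fun V hV hne => by
    have h2 : V.card ≤ (2 * (2 * L + 3) + 2) * U.card + (2 * L + 3) :=
      ((card_le_card hV).trans hRc).trans (Nat.le_add_right _ _)
    have h3 := hS V hne (le_trans (by exact_mod_cast h2) hx1)
    have h4 := hne.card_pos
    by_contra h5
    have h6 := Nat.mul_le_mul_left (2 * L + 3) (not_lt.1 h5)
    nlinarith [Nat.mul_le_mul_right V.card hL]
  obtain ⟨lev, par, hl⟩ := hLEV n L m R hm hE
  have he : ∀ h : HE n, h.1 ∉ R → m' h = m h := by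
    intro h hh
    by_contra e
    exact hh (hUR (mem_union_left _
      (mem_image_of_mem _ (mem_sel.2 ⟨mem_univ _, fun e' => e e'.symm⟩))))
  refine hEXT n L m m' R lev par a c hm hc hl he (fun h h1 h2 => ?_) hcR
  by_contra e
  refine h2 (hUR (mem_union_right _ (mem_image.2 ⟨h, mem_sel.2 ⟨mem_univ _, ?_, e⟩, ?_⟩)))
  · exact hTL n L m m' R lev par hm hm' hl he h h1 h2
  · rw [dn_eq hm hm' he fun _ => h2]

end Pool.Agent.Lib.RC5
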