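import Pool.Agent.Lib.RC5.Blue

/-! The inequality at a point from three tetrahedra. -/

namespace Pool.Agent.Lib.RC5

namespace T74

theorem sin_ew {E W N S : ℝ} (h : SIn W E N S) : SIn E W N S := by
  obtain ⟨a, b, c, d, h1, h2⟩ := h
  refine ⟨b, a, c, d, le_trans (le_of_eq (by unfold Pp; ring)) h1, le_trans (le_of_eq ?_) h2⟩
  ring

theorem sin_sw {E W N S : ℝ} (h : SIn N S E W) : SIn E W N S := by
  obtain ⟨a, b, c, d, h1, h2⟩ := h
  refine ⟨c, d, a, b, le_trans (le_of_eq (by unfold Pp; ring)) h1, le_trans (le_of_eq ?_) h2⟩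
  ring

theorem sin_ns {E W N S : ℝ} (h : SIn E W S N) : SIn E W N S := sin_sw (sin_ew (sin_sw h))

theorem sin_dom (hT : St_ST) {E W N S : ℝ} (w0 : 0 ≤ W) (s0 : 0 ≤ S) (h1 : E + W + N + S = 1)
    (a : W ≤ E) (b : S ≤ N) (c : N + S ≤ E + W) : SIn E W N S := by
  obtain ⟨t1, t2, t3⟩ := hT
  rcases le_total (W + N + S) E with h | h
  · have := t1 (2 * (N - S)) (E - W - N - S) (2 * W) (4 * S) (by linarith) (by linarith)
      (by linarith) (by linarith) (by linarith)
    convert this using 1 <;> dsimp only <;> linarith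
  · rcases le_total (N + W) (E + S) with g | g
    · have := t2 (2 * (N - S)) (2 * (E + S - N - W)) (2 * (W + N + S - E)) (E + W - N - S)
        (by linarith) (by linarith) (by linarith) (by linarith) (by linarith)
      convert this using 1 <;> dsimp only <;> linarith
    · have := t3 (2 * (E - W)) (2 * (N + W - E - S)) (4 * S) (E + W - N - S)
        (by linarith) (by linarith) (by linarith) (by linarith) (by linarith)
      convert this using 1 <;> dsimp only <;> linarith

theorem sin_half (hT : St_ST) {E W N S : ℝ} (e0 : 0 ≤ E) (w0 : 0 ≤ W) (n0 : 0 ≤ N) (s0 : 0 ≤ S)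
    (h1 : E + W + N + S = 1) (c : N + S ≤ E + W) : SIn E W N S := by
  rcases le_total W E with a | a <;> rcases le_total S N with b | b
  · exact sin_dom hT w0 s0 h1 a b c
  · exact sin_ns (sin_dom hT w0 n0 (by linarith) a b (by linarith))
  · exact sin_ew (sin_dom hT e0 s0 (by linarith) a b (by linarith))
  · exact sin_ew (sin_ns (sin_dom hT e0 n0 (by linarith) a b (by linarith)))

end T74

open T74 in
theorem st_S (hST : St_ST) : St_S := by
  intro E W N S e0 w0 n0 s0 h1
  rcases le_total (N + S) (E + W) with c | c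
  · exact sin_half hST e0 w0 n0 s0 h1 c
  · exact sin_sw (sin_half hST n0 s0 e0 w0 (by linarith) c)

end Pool.Agent.Lib.RC5
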