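import Pool.Agent.Lib.RC5.Blue

/-! SM: the second moment method. -/

namespace Pool.Agent.Lib.RC5

open Finset Real

namespace T24

theorem rate : 2 * c1 - c2 = 3 / 2 * (log 3 - 1) := by
  have a1 : log 130 = log 2 + log 5 + log 13 := by
    rw [← log_mul (by norm_num) (by norm_num), ← log_mul (by norm_num) (by norm_num)]; norm_num
  have a2 : log 4 = 2 * log 2 := by
    rw [show (4 : ℝ) = 2 ^ 2 by norm_num, log_pow]; norm_num
  have a3 : log 25 = 2 * log 5 := by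
    rw [show (25 : ℝ) = 5 ^ 2 by norm_num, log_pow]; norm_num
  have a4 : log (169 / 32) = 2 * log 13 - 5 * log 2 := by
    rw [log_div (by norm_num) (by norm_num), show (169 : ℝ) = 13 ^ 2 by norm_num,
      show (32 : ℝ) = 2 ^ 5 by norm_num, log_pow, log_pow]; norm_num
  have a5 : log (3 / 10) = log 3 - (log 2 + log 5) := by
    rw [log_div (by norm_num) (by norm_num), ← log_mul (by norm_num) (by norm_num)]; norm_num
  have a6 : log (3 / 25) = log 3 - 2 * log 5 := by rw [log_div (by norm_num) (by norm_num), a3]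
  rw [c1, c2, a1, a2, a3, a4, a5, a6]
  ring

theorem mem_two {n : ℕ} {a b : Lab n} {m : HE n → HE n} (h1 : m ∈ Comp (ty1 a) io1)
    (h2 : m ∈ Comp (ty1 b) io1) : m ∈ Comp (ty2 (a, b)) io2 := by
  simp only [Comp, mem_sel] at h1 h2 ⊢
  refine ⟨h1.1, fun h => ?_⟩
  have e1 := h1.2 h
  have e2 := h2.2 h
  simp only [ty1, io1, Prod.mk.injEq] at e1 e2
  simp only [ty2, col2, io2, e1.1, e1.2, e2.1, e2.2]

theorem cs {n : ℕ} (good : Lab n → (HE n → HE n) → Prop) :
    (∑ a ∈ Cl n, ((sel (Comp (ty1 a) io1) (good a)).card : ℝ)) ^ 2 ≤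
      (sel (Om (HE n)) fun m => ∃ a ∈ Cl n, m ∈ Comp (ty1 a) io1 ∧ good a m).card *
        ∑ q ∈ Cl n ×ˢ Cl n, ((Comp (ty2 q) io2).card : ℝ) := by
  classical
  set A := sel (Om (HE n)) fun m => ∃ a ∈ Cl n, m ∈ Comp (ty1 a) io1 ∧ good a m with hA
  let z : Lab n → (HE n → HE n) → ℝ := fun a m => if m ∈ Comp (ty1 a) io1 ∧ good a m then 1 else 0
  have e1 : ∑ a ∈ Cl n, ((sel (Comp (ty1 a) io1) (good a)).card : ℝ) =
      ∑ m ∈ A, ∑ a ∈ Cl n, z a m := by
    rw [sum_comm]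
    refine sum_congr rfl fun a ha => ?_
    rw [sum_boole]
    refine congrArg _ (congrArg _ (Finset.ext fun m => ?_))
    rw [mem_filter, mem_sel, hA, mem_sel]
    exact ⟨fun h => ⟨⟨(mem_sel.1 h.1).1, a, ha, h⟩, h⟩, fun h => h.2⟩
  rw [e1]
  refine sq_sum_le_card_mul_sum_sq.trans (mul_le_mul_of_nonneg_left ?_ (Nat.cast_nonneg _))
  rw [sum_congr rfl fun m _ => by rw [sq, sum_mul_sum, ← sum_product'], sum_comm]
  refine sum_le_sum fun q _ => ?_
  simp only [z, ite_zero_mul_ite_zero, mul_one, sum_boole]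
  exact Nat.cast_le.2 (card_le_card fun m hm =>
    mem_two (mem_filter.1 hm).2.1.1 (mem_filter.1 hm).2.2.1)

end T24

theorem st_SM (hO : St_OM) (hS : St_STI) (h1 : St_M1) (h2 : St_M2) : St_SM := by
  intro δ hδ
  obtain ⟨n1, h1⟩ := h1 (δ / 4) (by positivity)
  obtain ⟨n2, h2⟩ := h2 (δ / 4) (by positivity)
  obtain ⟨n3, h3⟩ := exists_nat_ge (1920 / δ ^ 2)
  refine ⟨n1 + n2 + n3 + 1, fun n hn he good hg => ?_⟩
  have a1 := h1 n (by omega) he
  have a2 := h2 n (by omega) he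
  have a3 := T24.cs good
  obtain ⟨j, hj⟩ := he
  have n0 : (1 : ℝ) ≤ n := by exact_mod_cast (by omega : 1 ≤ n)
  have k0 : ((3 * j : ℕ) : ℝ) = 3 / 2 * n := by rw [hj]; push_cast; ring
  have a4 : ((Om (HE n)).card : ℝ) ≤ 2 ^ (3 * j) * (3 * j).factorial := by
    exact_mod_cast (hO (HE n) (3 * j) (by simp; omega)).2
  have a5 := (hS (3 * j)).2
  have a6 : ∑ a ∈ Cl n, ((Comp (ty1 a) io1).card : ℝ) ≤
      2 * ∑ a ∈ Cl n, ((sel (Comp (ty1 a) io1) (good a)).card : ℝ) := by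
    rw [mul_sum]
    exact sum_le_sum fun a ha => by exact_mod_cast hg a ha
  generalize ((sel (Om (HE n)) fun m => ∃ a ∈ Cl n, m ∈ Comp (ty1 a) io1 ∧ good a m).card : ℝ) = A
    at a3 ⊢
  have b0 : 0 ≤ A := by
    by_contra hA
    have := exp_pos (n * (c1 + 3 / 2 * log n - δ / 4))
    have : 0 ≤ ∑ q ∈ Cl n ×ˢ Cl n, ((Comp (ty2 q) io2).card : ℝ) := by positivity
    nlinarith
  have b1 : exp (n * (c1 + 3 / 2 * log n - δ / 4)) ^ 2 ≤
      4 * (A * exp (n * (c2 + 3 / 2 * log n + δ / 4))) := by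
    have := pow_le_pow_left₀ (exp_pos _).le (a1.trans a6) 2
    have := mul_le_mul_of_nonneg_left a2 b0
    nlinarith
  have b2 : ((Om (HE n)).card : ℝ) ≤
      exp (3 / 2 * n * (log 3 + log n - 1)) * ((3 / 2 * n + 1) * exp 1) := by
    refine a4.trans ?_
    have f0 : (0 : ℝ) < (3 * j).factorial := by exact_mod_cast Nat.factorial_pos _
    rw [← exp_log f0, ← exp_log (show (0 : ℝ) < 2 ^ (3 * j) by positivity),
      ← exp_log (show (0 : ℝ) < 3 / 2 * n + 1 by positivity), ← exp_add, ← exp_add, ← exp_add,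
      exp_le_exp, log_pow]
    rw [k0, log_mul (by norm_num) (by positivity), log_div (by norm_num) (by norm_num)] at a5
    rw [k0]
    linarith
  have b3 : 4 * ((3 / 2 * n + 1) * exp 1) ≤ exp (δ * n / 4) := by
    have c0 : (n3 : ℝ) ≤ n := by exact_mod_cast (by omega : n3 ≤ n)
    have c1 : 1920 ≤ n * δ ^ 2 := (div_le_iff₀ (by positivity)).1 (h3.trans c0)
    have c2 := add_one_le_exp (δ * n / 8)
    have c3 : exp 1 ≤ 3 := exp_one_lt_d9.le.trans (by norm_num)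
    have c4 : (δ * n / 8) ^ 2 ≤ exp (δ * n / 8) ^ 2 :=
      pow_le_pow_left₀ (by positivity) (by linarith) 2
    rw [show δ * n / 4 = δ * n / 8 + δ * n / 8 by ring, exp_add, ← sq]
    nlinarith
  have b4 : exp (n * (c1 + 3 / 2 * log n - δ / 4)) ^ 2 = exp (-(δ * n)) *
      exp (3 / 2 * n * (log 3 + log n - 1)) * exp (δ * n / 4) *
        exp (n * (c2 + 3 / 2 * log n + δ / 4)) := by
    rw [sq, ← exp_add, ← exp_add, ← exp_add, ← exp_add]
    congr 1
    linear_combination n * T24.rate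
  rw [b4, ← mul_assoc] at b1
  have b5 := le_of_mul_le_mul_right b1 (exp_pos _)
  have b6 := mul_le_mul_of_nonneg_left b2 (exp_pos (-(δ * n))).le
  have b7 := mul_le_mul_of_nonneg_left b3
    (mul_pos (exp_pos (-(δ * n))) (exp_pos (3 / 2 * n * (log 3 + log n - 1)))).le
  nlinarith

end Pool.Agent.Lib.RC5
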