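import Pool.Agent.Lib.RC5.Blue

/-! The edges of the hanging trees are distinct. -/

namespace Pool.Agent.Lib.RC5

open Finset

namespace T25

variable {n : ℕ}

/-- a half-edge that points away from `R` -/
def Dn (m : HE n → HE n) (R : Finset (Fin n)) (par : Fin n → Fin 3) (h : HE n) : Prop :=
  (h.1 ∈ R → (m h).1 ∉ R) ∧ (h.1 ∉ R → h.2 ≠ par h.1)

theorem f3 (i : Fin 3) : i + 1 ≠ i ∧ i + 2 ≠ i ∧ i + 1 ≠ i + 2 := by revert i; decide

variable {L : ℕ} {m m' : HE n → HE n} {R : Finset (Fin n)} {lev : Fin n → ℕ}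
  {par : Fin n → Fin 3}

theorem dn_eq (hm : IsM m) (hm' : IsM m') (he : ∀ h : HE n, h.1 ∉ R → m' h = m h) {h : HE n}
    (hd : h.1 ∈ R → (m h).1 ∉ R) : m' h = m h := by
  by_cases hR : h.1 ∈ R
  · have h1 := he (m h) (hd hR)
    rw [(hm h).1] at h1
    rw [← (hm' (m h)).1, h1]
  · exact he h hR

theorem dn_child (hl : Lev m R L lev par) {h : HE n} (hd : Dn m R par h) (hL : lev h.1 ≤ L) :
    lev (m h).1 = lev h.1 + 1 ∧ par (m h).1 = (m h).2 ∧ (m h).1 ∉ R ∧
      Dn m R par ((m h).1, (m h).2 + 1) ∧ Dn m R par ((m h).1, (m h).2 + 2) := by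
  obtain ⟨h1, h2⟩ := hl.down h hL hd.1 hd.2
  have h3 : (m h).1 ∉ R := fun e => by
    have := (hl.zero _).2 e
    omega
  refine ⟨h1, h2, h3, ⟨fun e => absurd e h3, fun _ => ?_⟩, ⟨fun e => absurd e h3, fun _ => ?_⟩⟩
  · rw [show par ((m h).1, (m h).2 + 1).1 = (m h).2 from h2]
    exact (f3 _).1
  · rw [show par ((m h).1, (m h).2 + 2).1 = (m h).2 from h2]
    exact (f3 _).2.1

theorem ports_mem (hm : IsM m) (hm' : IsM m') (hl : Lev m R L lev par)
    (he : ∀ h : HE n, h.1 ∉ R → m' h = m h) (j : ℕ) :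
    ∀ h : HE n, Dn m R par h → lev h.1 + j ≤ L → ∀ q ∈ ports m' j h,
      Dn m R par q ∧ lev q.1 ≤ L ∧
        ∃ i, lev q.1 = lev h.1 + i ∧ (fun p : HE n => m (p.1, par p.1))^[i] q = h := by
  induction j with
  | zero =>
    intro h hd hL q hq
    have : q = h := by simpa [ports] using hq
    subst this
    exact ⟨hd, by omega, 0, rfl, rfl⟩
  | succ j ih =>
    intro h hd hL q hq
    obtain ⟨c1, c2, -, c4, c5⟩ := dn_child hl hd (by omega)
    simp only [ports, dn_eq hm hm' he hd.1, List.mem_cons, List.mem_append] at hq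
    have key : ∀ t : Fin 3, Dn m R par ((m h).1, t) → q ∈ ports m' j ((m h).1, t) →
        Dn m R par q ∧ lev q.1 ≤ L ∧
        ∃ i, lev q.1 = lev h.1 + i ∧ (fun p : HE n => m (p.1, par p.1))^[i] q = h := by
      intro t ht hq
      obtain ⟨a1, a2, i, a3, a4⟩ := ih _ ht (by simp only; omega) q hq
      refine ⟨a1, a2, i + 1, by simp only at a3; omega, ?_⟩
      rw [Function.iterate_succ_apply', a4]
      simp only
      rw [c2, Prod.mk.eta, (hm h).1]
    rcases hq with rfl | hq | hq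
    · exact ⟨hd, by omega, 0, rfl, rfl⟩
    · exact key _ c4 hq
    · exact key _ c5 hq

theorem ports_nodup (hm : IsM m) (hm' : IsM m') (hl : Lev m R L lev par)
    (he : ∀ h : HE n, h.1 ∉ R → m' h = m h) (j : ℕ) :
    ∀ h : HE n, Dn m R par h → lev h.1 + j ≤ L → (ports m' j h).Nodup := by
  induction j with
  | zero => intro h _ _; simp [ports]
  | succ j ih =>
    intro h hd hL
    obtain ⟨c1, c2, -, c4, c5⟩ := dn_child hl hd (by omega)
    have l1 : lev ((m h).1, (m h).2 + 1).1 + j ≤ L := by simp only; omega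
    have l2 : lev ((m h).1, (m h).2 + 2).1 + j ≤ L := by simp only; omega
    simp only [ports, dn_eq hm hm' he hd.1, List.nodup_cons, List.mem_append, List.nodup_append]
    refine ⟨?_, ih _ c4 l1, ih _ c5 l2, ?_⟩
    · rintro (hq | hq)
      · obtain ⟨-, -, i, a, -⟩ := ports_mem hm hm' hl he j _ c4 l1 h hq
        simp only at a
        omega
      · obtain ⟨-, -, i, a, -⟩ := ports_mem hm hm' hl he j _ c5 l2 h hq
        simp only at a
        omega
    · rintro q hq _ hq' rfl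
      obtain ⟨-, -, i, a, b⟩ := ports_mem hm hm' hl he j _ c4 l1 q hq
      obtain ⟨-, -, i', a', b'⟩ := ports_mem hm hm' hl he j _ c5 l2 q hq'
      simp only at a a'
      obtain rfl : i = i' := by omega
      rw [b] at b'
      exact (f3 _).2.2 (congrArg Prod.snd b')

end T25

open T25 in
theorem st_TL : St_TL := by
  intro n L m m' R lev par hm hm' hl he h h1 h2
  have hd : Dn m R par h := ⟨fun _ => h2, fun e => absurd h1 e⟩
  have hL : lev h.1 + L ≤ L := by rw [(hl.zero _).2 h1]; omega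
  refine ⟨ports_nodup hm hm' hl he L h hd hL, fun p hp hq => ?_⟩
  obtain ⟨a1, a2, -⟩ := ports_mem hm hm' hl he L h hd hL p hp
  rw [dn_eq hm hm' he a1.1] at hq
  obtain ⟨b1, -⟩ := ports_mem hm hm' hl he L h hd hL _ hq
  obtain ⟨-, c2, c3, -⟩ := dn_child hl a1 a2
  exact b1.2 c3 c2.symm

end Pool.Agent.Lib.RC5
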