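import Pool.Agent.Lib.RC5.Blue

/-! Closing a small set under short ears. -/

namespace Pool.Agent.Lib.RC5

open Finset

theorem st_UP : St_UP := by
  classical
  intro n D x m U hS hx
  have hUx : (U.card : ℝ) ≤ x := by
    refine le_trans ?_ hx
    exact_mod_cast (by nlinarith : U.card ≤ (2 * D + 2) * U.card + D)
  obtain ⟨R, hR, hmax⟩ := exists_max_image
    ((univ : Finset (Finset (Fin n))).filter fun R => U ⊆ R ∧ (R.card : ℝ) ≤ x)
    (fun R => (D : ℤ) * inn m R - (2 * D + 2) * R.card)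
    ⟨U, mem_filter.2 ⟨mem_univ _, Subset.refl _, hUx⟩⟩
  obtain ⟨-, hUR, hRx⟩ := mem_filter.1 hR
  have h1 := hmax U (mem_filter.2 ⟨mem_univ _, Subset.refl _, hUx⟩)
  have hc : R.card ≤ (2 * D + 2) * U.card := by
    rcases R.eq_empty_or_nonempty with rfl | hne
    · simp
    · have h2 : (D : ℤ) * inn m R < (2 * D + 1) * R.card := by exact_mod_cast hS R hne hRx
      have h3 : (0 : ℤ) ≤ (D : ℤ) * inn m U := by positivity
      have h4 : (R.card : ℤ) ≤ (2 * D + 2) * U.card := by nlinarith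
      exact_mod_cast h4
  refine ⟨R, hUR, hc, fun W hW _ hWD => ?_⟩
  have hcard : (R ∪ W).card = R.card + W.card := card_union_of_disjoint hW.symm
  have hx2 : ((R ∪ W).card : ℝ) ≤ x := by
    refine le_trans ?_ hx
    exact_mod_cast (by omega : (R ∪ W).card ≤ (2 * D + 2) * U.card + D)
  have h2 := hmax (R ∪ W) (mem_filter.2 ⟨mem_univ _, hUR.trans subset_union_left, hx2⟩)
  by_contra hge
  have h3 : (inn m R : ℤ) + 2 * W.card + 2 ≤ inn m (R ∪ W) := by exact_mod_cast not_lt.1 hge
  have h4 : (W.card : ℤ) < D := by exact_mod_cast hWD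
  have h5 := mul_le_mul_of_nonneg_left h3 (Int.natCast_nonneg D)
  rw [hcard] at h2
  push_cast at h2
  nlinarith

end Pool.Agent.Lib.RC5
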