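import Pool.Agent.Lib.RC5.B_AAS
import Pool.Agent.Lib.RC5.B_AN
import Pool.Agent.Lib.RC5.B_BALL
import Pool.Agent.Lib.RC5.B_CLS
import Pool.Agent.Lib.RC5.B_CONC
import Pool.Agent.Lib.RC5.B_COUNT
import Pool.Agent.Lib.RC5.B_EXT
import Pool.Agent.Lib.RC5.B_FC
import Pool.Agent.Lib.RC5.B_FM
import Pool.Agent.Lib.RC5.B_FN1
import Pool.Agent.Lib.RC5.B_FN2
import Pool.Agent.Lib.RC5.B_G1
import Pool.Agent.Lib.RC5.B_G2
import Pool.Agent.Lib.RC5.B_G3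
import Pool.Agent.Lib.RC5.B_G4
import Pool.Agent.Lib.RC5.B_LEV
import Pool.Agent.Lib.RC5.B_M1
import Pool.Agent.Lib.RC5.B_M2
import Pool.Agent.Lib.RC5.B_M2A
import Pool.Agent.Lib.RC5.B_M2B
import Pool.Agent.Lib.RC5.B_M2C
import Pool.Agent.Lib.RC5.B_MAD
import Pool.Agent.Lib.RC5.B_MAIN
import Pool.Agent.Lib.RC5.B_MULT
import Pool.Agent.Lib.RC5.B_OM
import Pool.Agent.Lib.RC5.B_PHI
import Pool.Agent.Lib.RC5.B_R
import Pool.Agent.Lib.RC5.B_RD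
import Pool.Agent.Lib.RC5.B_RDC
import Pool.Agent.Lib.RC5.B_RDW
import Pool.Agent.Lib.RC5.B_REP
import Pool.Agent.Lib.RC5.B_S
import Pool.Agent.Lib.RC5.B_SM
import Pool.Agent.Lib.RC5.B_SP
import Pool.Agent.Lib.RC5.B_SP1
import Pool.Agent.Lib.RC5.B_STI
import Pool.Agent.Lib.RC5.B_SUB
import Pool.Agent.Lib.RC5.B_TL
import Pool.Agent.Lib.RC5.B_TRANS
import Pool.Agent.Lib.RC5.B_UP

/-! Assembly of the blocks. -/

namespace Pool.Agent.Lib.RC5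

theorem main_of_ST (h : St_ST) : St_MAIN :=
  st_MAIN st_OM (st_G3 st_BALL (st_G1 st_SUB) st_G2) st_G4 st_TRANS
    (st_AAS st_OM st_CONC (st_SP (st_SP1 st_SUB)) (st_REP st_MAD st_UP st_LEV st_TL st_EXT)
      (st_FM st_CLS (st_FC st_SUB)) (st_FN2 st_FN1)
      (st_SM st_OM st_STI (st_M1 st_COUNT st_MULT st_STI st_CLS)
        (st_M2 (st_M2B st_COUNT st_MULT st_CLS st_M2A)
          (st_M2C st_STI (st_AN (st_S h) st_PHI (st_R (st_RD (st_RDW st_RDC))))))))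

end Pool.Agent.Lib.RC5
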