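import Pool.Agent.Lib.RC5.Blue

/-! Block AAS: almost all matchings are colourable or degenerate. -/

namespace Pool.Agent.Lib.RC5

open Finset Real

namespace T10

lemma lin_le (L : ℕ) (hL : 1 ≤ L) : (4 * L + 8) * 26 ≤ 312 ^ L := by
  induction L, hL using Nat.le_induction with
  | base => norm_num
  | succ L _ ih => rw [pow_succ]; omega

lemma const_le (L : ℕ) (hL : 1 ≤ L) :
    ((4 * L + 8) * 26 : ℝ) * (1 / (312 * 256000 ^ 5) ^ L) ≤ (1 / 256000) ^ (2 * L + 3) := by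
  have h1 : ((4 * L + 8) * 26 : ℝ) ≤ 312 ^ L := by exact_mod_cast lin_le L hL
  have h2 : (256000 : ℝ) ^ (2 * L + 3) ≤ (256000 ^ 5) ^ L := by
    rw [← pow_mul]
    exact pow_le_pow_right₀ (by norm_num) (by omega)
  rw [one_div_pow, mul_one_div, div_le_div_iff₀ (by positivity) (by positivity), one_mul, mul_pow]
  exact mul_le_mul h1 h2 (by positivity) (by positivity)

lemma exp_small {c ε : ℝ} (hc : 0 < c) (hε : 0 < ε) :
    ∃ n0 : ℕ, ∀ n : ℕ, n0 ≤ n → exp (-(c * n)) ≤ ε := by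
  obtain ⟨n0, h⟩ := exists_nat_ge (1 / (c * ε))
  refine ⟨n0, fun n hn => ?_⟩
  have h1 : 1 / (c * ε) ≤ n := h.trans (by exact_mod_cast hn)
  rw [div_le_iff₀ (by positivity)] at h1
  have h2 := add_one_le_exp (c * n)
  rw [exp_neg, inv_le_iff_one_le_mul₀ (exp_pos _)]
  nlinarith

end T10

open T10 in
theorem st_AAS (hO : St_OM) (hC : St_CONC) (hS : St_SP) (hR : St_REP) (hF : St_FM) (hN : St_FN2)
    (hM : St_SM) : St_AAS := by
  classical
  intro ε hε
  obtain ⟨L, hL, hnf⟩ := hN (312 * 256000 ^ 5) (by positivity)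
  have hK := const_le L hL
  have hη : (0 : ℝ) < 1 / (312 * 256000 ^ 5) ^ L := by positivity
  generalize (1 / (312 * 256000 ^ 5) ^ L : ℝ) = η at hnf hK hη
  have hκ : (0 : ℝ) < (1 / 256000) ^ (2 * L + 3) := by positivity
  obtain ⟨n1, h1⟩ := hS (2 * L + 3) (by omega) (ε / 2) (by positivity)
  generalize ((1 / 256000) ^ (2 * L + 3) : ℝ) = κ at hK hκ h1
  obtain ⟨n2, h2⟩ := hF L η hη hnf
  obtain ⟨n3, h3⟩ := hM (η ^ 2 / 200) (by positivity)
  obtain ⟨n4, h4⟩ := exp_small (c := η ^ 2 / 200) (ε := ε / 2) (by positivity) (by positivity)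
  obtain ⟨n5, h5⟩ := exists_nat_ge (2 * (2 * L + 3) / κ)
  refine ⟨n1 + n2 + n3 + n4 + n5, fun n hn he => ?_⟩
  have hcard : Fintype.card (HE n) = n * 3 := by simp
  obtain ⟨k, hk⟩ := id he
  have hpos : (0 : ℝ) < (Om (HE n)).card := by
    exact_mod_cast (hO (HE n) (3 * k) (by omega)).1
  have hA := h3 n (by omega) he (fun a m => (nbad a m L : ℝ) ≤ 12 * η * n) (h2 n (by omega) he)
  set A := sel (Om (HE n)) fun m =>
    ∃ a ∈ Cl n, m ∈ Comp (ty1 a) io1 ∧ (nbad a m L : ℝ) ≤ 12 * η * n with hAdef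
  have hB := hC (HE n) A (η * n) (η / 48) (fun m hm => (mem_sel.1 hm).1) (by positivity)
  set B := sel (Om (HE n)) fun m => ∀ m' ∈ A, η * n < ham m m' with hBdef
  have hBle : (B.card : ℝ) ≤ ε / 2 * (Om (HE n)).card := by
    have e1 : exp (-(η / 48 * (η * n)) + 8 * Fintype.card (HE n) * (η / 48) ^ 2)
        ≤ exp (-(η ^ 2 / 200 * n)) * exp (-(η ^ 2 / 200 * n)) := by
      rw [← exp_add, hcard]
      refine exp_le_exp.2 ?_
      have : 0 ≤ η ^ 2 * n := by positivity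
      push_cast
      nlinarith
    have e2 := h4 n (by omega)
    have e3 := exp_pos (-(η ^ 2 / 200 * n))
    refine le_of_mul_le_mul_left ?_ (mul_pos e3 hpos)
    calc exp (-(η ^ 2 / 200 * n)) * (Om (HE n)).card * B.card ≤ A.card * B.card :=
          mul_le_mul_of_nonneg_right hA (Nat.cast_nonneg _)
      _ ≤ ((Om (HE n)).card : ℝ) ^ 2 * (exp (-(η ^ 2 / 200 * n)) * (ε / 2)) :=
          hB.trans (mul_le_mul_of_nonneg_left (e1.trans (mul_le_mul_of_nonneg_left e2 e3.le))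
            (sq_nonneg _))
      _ = _ := by ring
  have hsub : (sel (Om (HE n)) fun m => Simple m ∧ TriFree m ∧ ¬ Col m) ⊆
      (sel (Om (HE n)) fun m => ¬ Sparse m (2 * L + 3) (κ * n)) ∪ B := by
    intro m hm
    obtain ⟨hm, s1, s2, s3⟩ := mem_sel.1 hm
    rw [mem_union]
    by_cases hsp : Sparse m (2 * L + 3) (κ * n)
    · refine Or.inr (mem_sel.2 ⟨hm, fun m' hm' => lt_of_not_ge fun hle => s3 ?_⟩)
      obtain ⟨-, a, -, hc, hb⟩ := mem_sel.1 hm'
      refine hR n L (κ * n) m m' a hL (mem_sel.1 hm).2 s1 s2 hsp hc ?_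
      have g1 : 2 * (2 * L + 3) / κ ≤ n := h5.trans (by exact_mod_cast (by omega : n5 ≤ n))
      rw [div_le_iff₀ hκ] at g1
      have g2 : ((4 * L + 8 : ℝ)) * (ham m m' + nbad a m' L) ≤ (4 * L + 8) * (13 * η * n) :=
        mul_le_mul_of_nonneg_left (by linarith) (by positivity)
      have g3 := mul_le_mul_of_nonneg_right hK (Nat.cast_nonneg (α := ℝ) n)
      push_cast
      nlinarith
    · exact Or.inl (mem_sel.2 ⟨hm, hsp⟩)
  have hc : ((sel (Om (HE n)) fun m => Simple m ∧ TriFree m ∧ ¬ Col m).card : ℝ) ≤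
      (sel (Om (HE n)) fun m => ¬ Sparse m (2 * L + 3) (κ * n)).card + B.card := by
    exact_mod_cast (card_le_card hsub).trans (card_union_le _ _)
  have := h1 n (by omega)
  linarith

end Pool.Agent.Lib.RC5
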