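import Pool.Agent.Lib.RC5.Blue

/-! The dual inequality on the whole cube, by rotation and reflection. -/

namespace Pool.Agent.Lib.RC5

namespace T55

theorem rot {x0 x1 x2 x3 x4 : ℝ} (h : DIn x1 x2 x3 x4 x0) : DIn x0 x1 x2 x3 x4 := by
  obtain ⟨w1, w2, w3, w4, w0, e1, e2, e3, e4, e0, s, h1, h2, h3⟩ := h
  exact ⟨w0, w1, w2, w3, w4, e0, e1, e2, e3, e4, s, h1, h2, by linarith⟩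

theorem gE_symm (x y w w' e e' : ℝ) : gE y x (-w') (-w) e' e = gE x y w w' e e' := by
  unfold gE
  congr 2
  ring

theorem gV_neg (x w e s : ℝ) : gV x (-w) e s = gV x w e s := by
  unfold gV
  rw [neg_sq]

theorem refl {x0 x1 x2 x3 x4 : ℝ} (h : DIn x0 x4 x3 x2 x1) : DIn x0 x1 x2 x3 x4 := by
  obtain ⟨w0, w4, w3, w2, w1, e0, e4, e3, e2, e1, s, h1, h2, h3⟩ := h
  refine ⟨-w0, -w1, -w2, -w3, -w4, e0, e1, e2, e3, e4, s, h1, h2, ?_⟩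
  simp only [gE_symm, gV_neg]
  linarith

theorem top (h : St_RDW) {x0 x1 x2 x3 x4 : ℝ} (h0 : x0 ≤ 413 / 256) (h1 : -8 ≤ x1)
    (h2 : -8 ≤ x2) (h3 : -8 ≤ x3) (h4 : -8 ≤ x4) (a1 : x1 ≤ x0) (a2 : x2 ≤ x0) (a3 : x3 ≤ x0)
    (a4 : x4 ≤ x0) : DIn x0 x1 x2 x3 x4 := by
  rcases le_total x4 x1 with a | a
  · exact h _ _ _ _ _ h0 h1 h2 h3 h4 a1 a2 a3 a
  · exact refl (h _ _ _ _ _ h0 h4 h3 h2 h1 a4 a3 a2 a)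

theorem max5 (x0 x1 x2 x3 x4 : ℝ) :
    (x1 ≤ x0 ∧ x2 ≤ x0 ∧ x3 ≤ x0 ∧ x4 ≤ x0) ∨ (x2 ≤ x1 ∧ x3 ≤ x1 ∧ x4 ≤ x1 ∧ x0 ≤ x1) ∨
    (x3 ≤ x2 ∧ x4 ≤ x2 ∧ x0 ≤ x2 ∧ x1 ≤ x2) ∨ (x4 ≤ x3 ∧ x0 ≤ x3 ∧ x1 ≤ x3 ∧ x2 ≤ x3) ∨
    (x0 ≤ x4 ∧ x1 ≤ x4 ∧ x2 ≤ x4 ∧ x3 ≤ x4) := by
  grind

end T55

open T55 in
theorem st_RD (h : St_RDW) : St_RD := by
  rintro x0 x1 x2 x3 x4 ⟨l0, u0⟩ ⟨l1, u1⟩ ⟨l2, u2⟩ ⟨l3, u3⟩ ⟨l4, u4⟩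
  rcases max5 x0 x1 x2 x3 x4 with ⟨a, b, c, d⟩ | ⟨a, b, c, d⟩ | ⟨a, b, c, d⟩ | ⟨a, b, c, d⟩ |
    ⟨a, b, c, d⟩
  · exact top h u0 l1 l2 l3 l4 a b c d
  · exact rot (top h u1 l2 l3 l4 l0 a b c d)
  · exact rot (rot (top h u2 l3 l4 l0 l1 a b c d))
  · exact rot (rot (rot (top h u3 l4 l0 l1 l2 a b c d)))
  · exact rot (rot (rot (rot (top h u4 l0 l1 l2 l3 a b c d))))

end Pool.Agent.Lib.RC5
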