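import Pool.Agent.Lib.RC5.Blue

/-! The inequality at a point, near the centre. -/

namespace Pool.Agent.Lib.RC5

open Real Finset

namespace X69

theorem log_cubic {y : ℝ} (h : |y| ≤ 1 / 20) :
    |log (1 + y) - (y - y ^ 2 / 2 + y ^ 3 / 3)| ≤ 20 / 19 * y ^ 4 := by
  have h1 := abs_log_sub_add_sum_range_le (x := -y) (by rw [abs_neg]; linarith) 3
  simp only [sum_range_succ, range_zero, sum_empty, abs_neg, sub_neg_eq_add] at h1
  rw [show log (1 + y) - (y - y ^ 2 / 2 + y ^ 3 / 3) = 0 + (-y) ^ (0 + 1) / (((0 : ℕ) : ℝ) + 1)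
    + (-y) ^ (1 + 1) / (((1 : ℕ) : ℝ) + 1) + (-y) ^ (2 + 1) / (((2 : ℕ) : ℝ) + 1) + log (1 + y) by
      push_cast; ring]
  refine h1.trans ?_
  rw [Even.pow_abs (by decide), div_le_iff₀ (by linarith)]
  nlinarith [show (0 : ℝ) ≤ y ^ 4 by positivity]

/-- the polynomial bound of one term -/
noncomputable def Tm (x y : ℝ) : ℝ :=
  -3 * ((1 + x) / 4) * (y - y ^ 2 / 2 + y ^ 3 / 3) + y ^ 4
    + 27 / 10 * ((1 + x) / 4) * (x - x ^ 2 / 2 + x ^ 3 / 3) + x ^ 4

theorem term_le {t x y : ℝ} (ht : t = (1 + x) / 4) (hx : |x| ≤ 1 / 20) (hy : |y| ≤ 1 / 20) :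
    -3 * (t * log (1 + y)) + 27 / 10 * (t * log t) ≤ Tm x y - 27 / 10 * t * log 4 := by
  obtain ⟨x1, x2⟩ := abs_le.1 hx
  have e : log t = log (1 + x) - log 4 := by
    rw [ht, log_div (by linarith) (by norm_num)]
  have t0 : 0 ≤ t := by linarith
  have a1 := mul_le_mul_of_nonneg_left (abs_le.1 (log_cubic hy)).1 t0
  have a2 := mul_le_mul_of_nonneg_left (abs_le.1 (log_cubic hx)).2 t0
  have a3 := mul_le_mul_of_nonneg_right (show t ≤ 3 / 10 by linarith)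
    (show (0 : ℝ) ≤ y ^ 4 by positivity)
  have a4 := mul_le_mul_of_nonneg_right (show t ≤ 3 / 10 by linarith)
    (show (0 : ℝ) ≤ x ^ 4 by positivity)
  have a5 : (0 : ℝ) ≤ y ^ 4 := by positivity
  have a6 : (0 : ℝ) ≤ x ^ 4 := by positivity
  rw [e, Tm, ← ht]
  linarith

theorem sc_poly {e h v : ℝ} (he : |e| ≤ 1 / 128) (hh : |h| ≤ 1 / 128) (hv : |v| ≤ 1 / 128) :
    4 / 169 * Pp (1 + (9 / 10 * e + 37 / 10 * h)) (1 + (9 / 10 * e - 37 / 10 * h))
      (1 + (-(9 / 10 * e) + 37 / 10 * v)) (1 + (-(9 / 10 * e) - 37 / 10 * v)) - 1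
    + Tm (e + 2 * h) (9 / 10 * e + 37 / 10 * h) + Tm (e - 2 * h) (9 / 10 * e - 37 / 10 * h)
    + Tm (-e + 2 * v) (-(9 / 10 * e) + 37 / 10 * v)
    + Tm (-e - 2 * v) (-(9 / 10 * e) - 37 / 10 * v)
    + 21 / 8 * (h ^ 2 + v ^ 2) + 9 / 320 * e ^ 4 ≤ 0 := by
  obtain ⟨e1, e2⟩ := abs_le.1 he
  have E2 : e ^ 2 ≤ 1 / 16384 := by nlinarith
  have H2 : h ^ 2 ≤ 1 / 16384 := by nlinarith [abs_le.1 hh]
  have V2 : v ^ 2 ≤ 1 / 16384 := by nlinarith [abs_le.1 hv]
  have c1 := mul_le_mul_of_nonneg_left E2 (sq_nonneg e)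
  have c2 := mul_le_mul_of_nonneg_left E2 (sq_nonneg h)
  have c3 := mul_le_mul_of_nonneg_left E2 (sq_nonneg v)
  have c4 := mul_le_mul_of_nonneg_left H2 (sq_nonneg h)
  have c5 := mul_le_mul_of_nonneg_left V2 (sq_nonneg v)
  have c6 := mul_le_mul_of_nonneg_left e2 (sq_nonneg h)
  have c7 := mul_le_mul_of_nonneg_left e1 (sq_nonneg v)
  unfold Pp Tm
  linarith [sq_nonneg e, sq_nonneg h, sq_nonneg v]

theorem sc_core {e h v : ℝ} (he : |e| ≤ 1 / 128) (hh : |h| ≤ 1 / 128) (hv : |v| ≤ 1 / 128) :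
    SIn ((1 + (e + 2 * h)) / 4) ((1 + (e - 2 * h)) / 4) ((1 + (-e + 2 * v)) / 4)
      ((1 + (-e - 2 * v)) / 4) := by
  obtain ⟨e1, e2⟩ := abs_le.1 he
  obtain ⟨h1, h2⟩ := abs_le.1 hh
  obtain ⟨v1, v2⟩ := abs_le.1 hv
  have b : ∀ {z : ℝ}, -(1 / 20) ≤ z → z ≤ 1 / 20 → |z| ≤ 1 / 20 := fun p q => abs_le.2 ⟨p, q⟩
  have t1 := term_le (x := e + 2 * h) (y := 9 / 10 * e + 37 / 10 * h) rfl
    (b (by linarith) (by linarith)) (b (by linarith) (by linarith))
  have t2 := term_le (x := e - 2 * h) (y := 9 / 10 * e - 37 / 10 * h) rfl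
    (b (by linarith) (by linarith)) (b (by linarith) (by linarith))
  have t3 := term_le (x := -e + 2 * v) (y := -(9 / 10 * e) + 37 / 10 * v) rfl
    (b (by linarith) (by linarith)) (b (by linarith) (by linarith))
  have t4 := term_le (x := -e - 2 * v) (y := -(9 / 10 * e) - 37 / 10 * v) rfl
    (b (by linarith) (by linarith)) (b (by linarith) (by linarith))
  have p1 : 0 < 1 + (9 / 10 * e + 37 / 10 * h) := by linarith
  have p2 : 0 < 1 + (9 / 10 * e - 37 / 10 * h) := by linarith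
  have p3 : 0 < 1 + (-(9 / 10 * e) + 37 / 10 * v) := by linarith
  have p4 : 0 < 1 + (-(9 / 10 * e) - 37 / 10 * v) := by linarith
  obtain ⟨P, hP⟩ : ∃ P, P = Pp (1 + (9 / 10 * e + 37 / 10 * h)) (1 + (9 / 10 * e - 37 / 10 * h))
    (1 + (-(9 / 10 * e) + 37 / 10 * v)) (1 + (-(9 / 10 * e) - 37 / 10 * v)) := ⟨_, rfl⟩
  have P0 : 0 < P := by
    rw [hP]
    generalize 1 + (9 / 10 * e + 37 / 10 * h) = a at *
    generalize 1 + (9 / 10 * e - 37 / 10 * h) = b at *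
    generalize 1 + (-(9 / 10 * e) + 37 / 10 * v) = c at *
    generalize 1 + (-(9 / 10 * e) - 37 / 10 * v) = d at *
    unfold Pp
    positivity
  have l1 : log P ≤ 4 / 169 * P - 1 + (2 * log (13 / 16) + 3 * log 4) := by
    have a1 := log_le_sub_one_of_pos (show 0 < 4 / 169 * P by positivity)
    have a2 : log ((13 / 16) ^ 2 * 4 ^ 3 * (4 / 169) : ℝ) = 0 := by norm_num
    rw [log_mul (by norm_num) (by norm_num), log_mul (by norm_num) (by norm_num), log_pow,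
      log_pow] at a2
    rw [log_mul (by norm_num) P0.ne'] at a1
    push_cast at a2
    linarith
  refine ⟨log (1 + (9 / 10 * e + 37 / 10 * h)) + -log P / 3,
    log (1 + (9 / 10 * e - 37 / 10 * h)) + -log P / 3,
    log (1 + (-(9 / 10 * e) + 37 / 10 * v)) + -log P / 3,
    log (1 + (-(9 / 10 * e) - 37 / 10 * v)) + -log P / 3, ?_, ?_⟩
  · have k : exp (-log P / 3) ^ 3 * P = 1 := by
      rw [← exp_nat_mul, show ((3 : ℕ) : ℝ) * (-log P / 3) = -log P by push_cast; ring, exp_neg,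
        exp_log P0, inv_mul_cancel₀ P0.ne']
    simp only [exp_add, exp_log p1, exp_log p2, exp_log p3, exp_log p4]
    generalize exp (-log P / 3) = z at *
    refine le_of_eq (Eq.trans ?_ k)
    rw [hP]
    unfold Pp
    ring
  · have c := sc_poly he hh hv
    rw [← hP] at c
    linarith

end X69

theorem st_SC : St_SC := by
  intro E W N S h he hh hv
  have k := X69.sc_core he hh hv
  rwa [show (1 + (E + W - N - S + 2 * (E - W))) / 4 = E by linarith,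
    show (1 + (E + W - N - S - 2 * (E - W))) / 4 = W by linarith,
    show (1 + (-(E + W - N - S) + 2 * (N - S))) / 4 = N by linarith,
    show (1 + (-(E + W - N - S) - 2 * (N - S))) / 4 = S by linarith] at k

end Pool.Agent.Lib.RC5
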