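import Pool.Agent.Lib.RC5.STm
import Pool.Agent.Lib.RC5.STc0
import Pool.Agent.Lib.RC5.STc1
import Pool.Agent.Lib.RC5.STc2

/-! The inequality at a point on three tetrahedra. -/

namespace Pool.Agent.Lib.RC5

open T74 in
theorem st_ST (hSC : St_SC) : St_ST :=
  ⟨top_spec hSC T74.c0 (by norm_num) (by norm_num) (by norm_num) (by norm_num),
    top_spec hSC T74.c1 (by norm_num) (by norm_num) (by norm_num) (by norm_num),
    top_spec hSC T74.c2 (by norm_num) (by norm_num) (by norm_num) (by norm_num)⟩

end Pool.Agent.Lib.RC5
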