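import Mathlib

/-! Definitions for the pairing model of cubic graphs and colourings by the five-cycle. -/

namespace Pool.Agent.Lib.RC5

open Finset

/-- the elements of `S` with property `P` -/
noncomputable def sel {β : Type} (S : Finset β) (P : β → Prop) : Finset β :=
  @Finset.filter β P (Classical.decPred P) S

@[simp] theorem mem_sel {β : Type} {S : Finset β} {P : β → Prop} {x : β} :
    x ∈ sel S P ↔ x ∈ S ∧ P x := @Finset.mem_filter β P (Classical.decPred P) S x

theorem sel_eq {β : Type} (S : Finset β) (P : β → Prop) [DecidablePred P] :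
    sel S P = S.filter P := by
  ext x; simp

section General
variable {α T : Type} [Fintype α]

/-- perfect matchings as involutions without fixed point -/
def IsM (m : α → α) : Prop := ∀ h, m (m h) = h ∧ m h ≠ h

/-- all perfect matchings -/
noncomputable def Om (α : Type) [Fintype α] [DecidableEq α] : Finset (α → α) := sel univ IsM

/-- the matchings that join type `t` to type `ι t` -/
noncomputable def Comp [DecidableEq α] (ty : α → T) (ι : T → T) : Finset (α → α) :=
  sel (Om α) fun m => ∀ h, ty (m h) = ι (ty h)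

/-- number of points of type `t` -/
noncomputable def num (ty : α → T) (t : T) : ℕ := (sel univ fun h => ty h = t).card

/-- Hamming distance -/
noncomputable def ham (m m' : α → α) : ℕ := (sel univ fun h => m h ≠ m' h).card

/-- the switching: conjugation by a transposition -/
def sw [DecidableEq α] (b c : α) (m : α → α) : α → α :=
  fun h => Equiv.swap b c (m (Equiv.swap b c h))

end General

/-- half-edges -/
abbrev HE (n : ℕ) : Type := Fin n × Fin 3

section Graph
variable {n : ℕ}

/-- the simple graph under a matching -/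
def Gr (m : HE n → HE n) : SimpleGraph (Fin n) :=
  SimpleGraph.fromRel fun u v => ∃ i, (m (u, i)).1 = v

/-- no loop and no double edge -/
def Simple (m : HE n → HE n) : Prop :=
  ∀ h, (m h).1 ≠ h.1 ∧ ∀ h', h'.1 = h.1 → (m h').1 = (m h).1 → h' = h

/-- no closed walk of length three -/
def TriFree (m : HE n → HE n) : Prop :=
  ∀ h1 h2 h3, (m h1).1 = h2.1 → (m h2).1 = h3.1 → (m h3).1 ≠ h1.1

/-- adjacent colours -/
def Ad (x y : ZMod 5) : Prop := y = x + 1 ∨ y = x - 1

/-- the multigraph maps to the five-cycle -/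
def Col (m : HE n → HE n) : Prop := ∃ c : Fin n → ZMod 5, ∀ h, Ad (c h.1) (c (m h).1)

/-- number of half-edges of edges inside `U` -/
noncomputable def inn (m : HE n → HE n) (U : Finset (Fin n)) : ℕ :=
  (sel univ fun h : HE n => h.1 ∈ U ∧ (m h).1 ∈ U).card

/-- sets of size at most `x` have average degree below `2 + 1 / D` -/
def Sparse (m : HE n → HE n) (D : ℕ) (x : ℝ) : Prop :=
  ∀ U : Finset (Fin n), U.Nonempty → (U.card : ℝ) ≤ x → D * inn m U < (2 * D + 1) * U.card

/-- a cycle of length `k`, as a periodic sequence of outgoing half-edges -/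
def Cyc (m : HE n → HE n) (k : ℕ) (c : ℕ → HE n) : Prop :=
  0 < k ∧ (∀ i, c (i + k) = c i) ∧ (∀ i, (m (c i)).1 = (c (i + 1)).1 ∧ m (c i) ≠ c (i + 1)) ∧
    ∀ i j, i < j → j < i + k → (c i).1 ≠ (c j).1

/-- the half-edge lies on a cycle shorter than `g` -/
def OnCyc (m : HE n → HE n) (g : ℕ) (h : HE n) : Prop := ∃ k < g, ∃ c, Cyc m k c ∧ c 0 = h

/-- number of half-edges on short cycles -/
noncomputable def ncyc (m : HE n → HE n) (g : ℕ) : ℕ := (sel univ (OnCyc m g)).card

/-- distance at most `k` -/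
def Near (m : HE n → HE n) : ℕ → Fin n → Fin n → Prop
  | 0, u, v => v = u
  | k + 1, u, v => Near m k u v ∨ ∃ h : HE n, Near m k u h.1 ∧ (m h).1 = v

/-- no small set outside `R` brings more edges than vertices -/
def EarFree (m : HE n → HE n) (R : Finset (Fin n)) (D : ℕ) : Prop :=
  ∀ W : Finset (Fin n), Disjoint W R → W.Nonempty → W.card < D →
    inn m (R ∪ W) < inn m R + 2 * W.card + 2

/-- levels and parents of the trees hanging from `R` -/
structure Lev (m : HE n → HE n) (R : Finset (Fin n)) (L : ℕ) (lev : Fin n → ℕ)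
    (par : Fin n → Fin 3) : Prop where
  zero : ∀ v, lev v = 0 ↔ v ∈ R
  up : ∀ v, 1 ≤ lev v → lev v ≤ L + 1 → lev (m (v, par v)).1 + 1 = lev v
  down : ∀ h : HE n, lev h.1 ≤ L → (h.1 ∈ R → (m h).1 ∉ R) → (h.1 ∉ R → h.2 ≠ par h.1) →
    lev (m h).1 = lev h.1 + 1 ∧ par (m h).1 = (m h).2

end Graph

/-- a colour and three directions -/
abbrev Star : Type := ZMod 5 × (Fin 3 → Bool)

/-- labellings of the vertices -/
abbrev Lab (n : ℕ) : Type := Fin n → Star

/-- the step of a direction -/
def sg (d : Bool) : ZMod 5 := if d then 1 else -1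

/-- source or sink -/
def cst (s : Fin 3 → Bool) : Prop := s 0 = s 1 ∧ s 1 = s 2

instance : DecidablePred cst := fun s => inferInstanceAs (Decidable (s 0 = s 1 ∧ s 1 = s 2))

/-- prescribed number of vertices with a given label -/
def nn (k r : ℕ) (x : Star) : ℕ :=
  (if cst x.2 then k else 4 * k) +
    (if x = (0, fun _ => true) ∨ x = (1, fun _ => false) then r else 0)

/-- the class of labellings that is counted -/
noncomputable def Cl (n : ℕ) : Finset (Lab n) :=
  sel univ fun a => ∀ x, num a x = nn (n / 130) (n % 130 / 2) x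

/-- types of half-edges for one labelling -/
abbrev T1 : Type := ZMod 5 × Bool

/-- pairs of colours -/
abbrev X2 : Type := ZMod 5 × ZMod 5

/-- types of half-edges for two labellings -/
abbrev T2 : Type := X2 × (Bool × Bool)

def io1 (t : T1) : T1 := (t.1 + sg t.2, !t.2)

def io2 (t : T2) : T2 := ((t.1.1 + sg t.2.1, t.1.2 + sg t.2.2), (!t.2.1, !t.2.2))

section Lab
variable {n : ℕ}

def ty1 (a : Lab n) (h : HE n) : T1 := ((a h.1).1, (a h.1).2 h.2)

def col2 (q : Lab n × Lab n) (v : Fin n) : X2 := ((q.1 v).1, (q.2 v).1)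

def ty2 (q : Lab n × Lab n) (h : HE n) : T2 := (col2 q h.1, ((q.1 h.1).2 h.2, (q.2 h.1).2 h.2))

/-- number of sources and sinks -/
noncomputable def ncst (a : Lab n) : ℕ := (sel univ fun v => cst (a v).2).card

/-- one more level of a tree, for sets of colours relative to the planted colour -/
def stp (d : Bool) (Y : Finset (ZMod 5)) : Finset (ZMod 5) :=
  univ.filter fun c => c - sg d + 1 ∈ Y ∨ c - sg d - 1 ∈ Y

/-- the changes of colour at `h.1` that the tree of depth `L` behind `h` absorbs -/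
def msg (a : Lab n) (m : HE n → HE n) : ℕ → HE n → Finset (ZMod 5)
  | 0, h => stp (ty1 a h).2 {0}
  | L + 1, h => stp (ty1 a h).2
      (msg a m L ((m h).1, (m h).2 + 1) ∩ msg a m L ((m h).1, (m h).2 + 2))

/-- the outgoing half-edges of the tree of depth `L` behind `h` -/
def ports (m : HE n → HE n) : ℕ → HE n → List (HE n)
  | 0, h => [h]
  | L + 1, h => h :: (ports m L ((m h).1, (m h).2 + 1) ++ ports m L ((m h).1, (m h).2 + 2))

/-- the edges behind `h` are distinct -/
def TL (m : HE n → HE n) (L : ℕ) (h : HE n) : Prop :=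
  (ports m L h).Nodup ∧ ∀ p ∈ ports m L h, m p ∉ ports m L h

/-- number of half-edges with a tree that is not free -/
noncomputable def nbad (a : Lab n) (m : HE n → HE n) (L : ℕ) : ℕ :=
  (sel univ fun h => TL m L h ∧ msg a m L h ≠ univ).card

end Lab

/-- law of the two further directions at the far end of a half-edge of direction `d` -/
noncomputable def pw (d d1 d2 : Bool) : ℝ := if d1 = !d ∧ d2 = !d then 1 / 13 else 4 / 13

/-- law of the message in the ideal tree -/
noncomputable def mu : ℕ → Bool → Finset (ZMod 5) → ℝ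
  | 0, d, S => if S = stp d {0} then 1 else 0
  | L + 1, d, S => ∑ d1, ∑ d2, ∑ S1, ∑ S2,
      if S = stp d (S1 ∩ S2) then pw d d1 d2 * (mu L d1 S1 * mu L d2 S2) else 0

/-- probability that the ideal tree is not free -/
noncomputable def nf (L : ℕ) (d : Bool) : ℝ := ∑ S ∈ univ.erase univ, mu L d S

open Real

/-- generating function of pairs of stars, weight `1 / 4` for each source or sink -/
noncomputable def Pp (E W N S : ℝ) : ℝ :=
  (E ^ 3 + W ^ 3 + N ^ 3 + S ^ 3) / 16 + 3 * (E ^ 2 * W + W ^ 2 * E + N ^ 2 * S + S ^ 2 * N)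
    + 3 / 4 * ((E ^ 2 + W ^ 2) * (N + S) + (N ^ 2 + S ^ 2) * (E + W))
    + 6 * (E * W * (N + S) + N * S * (E + W))

/-- admissible tilts -/
def Adm (p : T2 → ℝ) : Prop :=
  ∀ x : X2, Pp (exp (p (x, true, true))) (exp (p (x, false, false))) (exp (p (x, true, false)))
    (exp (p (x, false, true))) ≤ 1

/-- the inequality at one pair of colours -/
def SIn (E W N S : ℝ) : Prop :=
  ∃ a b c d : ℝ, Pp (exp a) (exp b) (exp c) (exp d) ≤ 1 ∧
    -3 * (E * a + W * b + N * c + S * d)
      + 27 / 10 * (E * log E + W * log W + N * log N + S * log S)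
      + 21 / 8 * ((E - W) ^ 2 + (N - S) ^ 2) + 9 / 320 * (E + W - N - S) ^ 4
      ≤ 3 / 10 * log 4 + 2 * log (13 / 16)

/-- the convex function of the tensorisation -/
noncomputable def Ph (t : ℝ) : ℝ := 29 / 32 * (t * √t) + 17 / 256 * t ^ 2

/-- the share of one point in the inequality of a line -/
noncomputable def rowT (k : ℝ → ℝ) (g a b : ℝ) : ℝ :=
  6 / 5 * (a + b) * log g - 6 / 5 * (a * log (4 * a) + b * log (4 * b))
    - 21 / 8 * (a - b) ^ 2 / g - 9 / 640 * (2 * (a + b) - g) ^ 4 / g ^ 3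
    + 1 / 4 * g * log g + (2 * (a + b) - g) * k g

/-- a piecewise linear increasing function -/
noncomputable def ell (x : ℝ) : ℝ :=
  if x ≤ -3 / 2 then 3 / 4 * x + 39 / 512
  else if x ≤ -1 / 2 then 173 / 256 * x - 18 / 512
  else if x ≤ 1 / 2 then 191 / 256 * x
  else if x ≤ 1 then 195 / 256 * x - 4 / 512
  else 204 / 256 * x - 22 / 512

/-- terms of the dual function at an edge -/
noncomputable def gE (x y w w' e e' : ℝ) : ℝ :=
  3 / 5 * exp (ell x + ell y + w' - w - 3 / 64 * (e ^ 3 + e' ^ 3))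

/-- terms of the dual function at a point -/
noncomputable def gV (x w e s : ℝ) : ℝ :=
  exp x * (11 / 20 * w ^ 2 + 9 / 320 * (2 * e ^ 3 + 3 / 2 * e ^ 4) + 17 / 20 * x - 6 / 5 * ell x
      - 133 / 1280 - 87 / 64 * s - 17 / 128 * s ^ 2)
    + 29 / 64 * exp (3 / 2 * x) + 17 / 512 * exp (2 * x) + if x = -8 then 1 / 512 else 0

/-- the dual inequality of a line -/
def DIn (x0 x1 x2 x3 x4 : ℝ) : Prop :=
  ∃ w0 w1 w2 w3 w4 e0 e1 e2 e3 e4 s : ℝ, 0 ≤ s ∧ s ≤ 3 ∧
    gE x0 x1 w0 w1 e0 e1 + gE x1 x2 w1 w2 e1 e2 + gE x2 x3 w2 w3 e2 e3 + gE x3 x4 w3 w4 e3 e4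
      + gE x4 x0 w4 w0 e4 e0 + gV x0 w0 e0 s + gV x1 w1 e1 s + gV x2 w2 e2 s + gV x3 w3 e3 s
      + gV x4 w4 e4 s + 145 / 64 * s ^ 3 + 85 / 256 * s ^ 4 - 25 / 512 ≤ 0

/-- exponential rate of the first moment -/
noncomputable def c1 : ℝ := log 130 - 12 / 13 * log 4 + 3 / 2 * (log (3 / 10) - 1)

/-- exponential rate of the second moment -/
noncomputable def c2 : ℝ :=
  2 / 13 * log 4 + log 25 + log (169 / 32) + 3 / 2 * (log (3 / 25) - 1)


end Pool.Agent.Lib.RC5
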