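import Pool.Agent.Lib.RC5.RdRel
import Pool.Agent.Lib.RC5.Defs

/-! Bounds for the exponential function used by the checker. -/

set_option exponentiation.threshold 400

namespace Pool.Agent.Lib.RC5.X69

open Real Finset

theorem exp_rem (n : ℕ) {y R F : ℝ} (h : |y| ≤ R) (hF0 : 0 ≤ F) (hF : 1 ≤ F * (1 - R / (n + 1))) :
    |exp y - ∑ i ∈ range n, y ^ i / i.factorial| ≤ R ^ n / n.factorial * F := by
  have hR : 0 ≤ R := (abs_nonneg y).trans h
  have hp : 0 < 1 - R / (n + 1) := by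
    by_contra hh
    nlinarith [mul_nonneg hF0 (neg_nonneg.2 (not_lt.1 hh))]
  have h1 : HasSum (fun i : ℕ => y ^ i / i.factorial) (exp y) := by
    rw [Real.exp_eq_exp_ℝ]; exact NormedSpace.expSeries_div_hasSum_exp y
  have h2 := (hasSum_nat_add_iff' n).2 h1
  have h3 := (hasSum_geometric_of_lt_one (r := R / (n + 1)) (by positivity) (by linarith)).mul_left
    (R ^ n / n.factorial)
  have h4 := HasSum.norm_le_of_bounded h2 h3 fun i => by
    have h5 : (n.factorial : ℝ) * (n + 1) ^ i ≤ (i + n).factorial := by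
      rw [add_comm i n]; exact_mod_cast Nat.factorial_mul_pow_le_factorial
    rw [Real.norm_eq_abs, abs_div, abs_pow, Nat.abs_cast, div_pow, div_mul_div_comm, ← pow_add,
      add_comm n i]
    gcongr
  refine (le_of_eq (Real.norm_eq_abs _).symm).trans (h4.trans ?_)
  gcongr
  rw [inv_le_iff_one_le_mul₀ hp]
  exact hF

/-- six times the Taylor polynomial of degree three -/
def P3 (y : ℝ) : ℝ := 6 + 6 * y + 3 * y ^ 2 + y ^ 3

theorem exp_le_quad {y : ℝ} (h : y ≤ 0) : exp y ≤ 1 + y + y ^ 2 / 2 := by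
  have hd : ∀ x : ℝ, HasDerivAt (fun x => 1 + x + x ^ 2 / 2 - exp x) (1 + x - exp x) x := fun x =>
    (((((hasDerivAt_id x).const_add 1).add ((hasDerivAt_pow 2 x).div_const 2)).sub
      (hasDerivAt_exp x))).congr_deriv (by simp)
  have := antitone_of_deriv_nonpos (fun x => (hd x).differentiableAt)
    (fun x => by rw [(hd x).deriv]; linarith [add_one_le_exp x]) h
  simpa using this

theorem P3_le (y : ℝ) : P3 y ≤ 6 * exp y := by
  rcases le_total 0 y with h | h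
  · have := sum_le_exp_of_nonneg h 4
    simp only [sum_range_succ, range_zero, sum_empty, Nat.factorial] at this
    norm_num at this
    unfold P3
    linarith
  · have hd : ∀ x : ℝ, HasDerivAt (fun x => 6 * exp x - (6 + 6 * x + 3 * x ^ 2 + x ^ 3))
        (6 * exp x - (6 + 6 * x + 3 * x ^ 2)) x := fun x =>
      (((hasDerivAt_exp x).const_mul 6).sub (((((hasDerivAt_id x).const_mul 6).const_add 6).add
        ((hasDerivAt_pow 2 x).const_mul 3)).add (hasDerivAt_pow 3 x))).congr_deriv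
          (by simp; ring)
    have := antitoneOn_of_deriv_nonpos (convex_Iic (0 : ℝ))
      (fun x _ => (hd x).continuousAt.continuousWithinAt)
      (fun x _ => (hd x).differentiableAt.differentiableWithinAt)
      (fun x hx => by
        rw [(hd x).deriv]
        linarith [exp_le_quad (Set.mem_Iic.1 (interior_subset hx))]) h Set.self_mem_Iic h
    simp at this
    unfold P3
    linarith

theorem le_P3 {y R F : ℝ} (h : |y| ≤ R) (hF0 : 0 ≤ F) (hF : 1 ≤ F * (1 - R / 5)) :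
    6 * exp y ≤ P3 y + R ^ 4 / 4 * F := by
  have := (abs_le.1 (exp_rem 4 h hF0 (by norm_num; linarith))).2
  simp only [sum_range_succ, range_zero, sum_empty, Nat.factorial] at this
  norm_num at this
  unfold P3
  linarith

theorem vert_real {t ρ F p pP N Na l la κ Z Zb c3 c4 : ℝ} (ht : |t| ≤ ρ) (hF0 : 0 ≤ F)
    (hF : 1 ≤ F * (1 - 2 * ρ / 5)) (hp : p ≤ pP) (hP : 0 ≤ pP) (hN : |N| ≤ Na) (hl : |l| ≤ la)
    (hκ : 0 ≤ κ) (hZ : |Z| ≤ Zb) (h3 : 0 ≤ c3) (h4 : 0 ≤ c4) :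
    6 * (exp t * (p + N * t + l * Z + κ * Z ^ 2) + c3 * exp (3 / 2 * t) + c4 * exp (2 * t))
      ≤ p * P3 t + (N * t + l * Z) * (6 + 6 * t + 3 * t ^ 2) + κ * Z ^ 2 * (6 + 6 * t)
        + c3 * P3 (3 / 2 * t) + c4 * P3 (2 * t) + F * ((pP + 81 / 16 * c3 + 16 * c4) * ρ ^ 4 / 4
        + (Na * ρ + la * Zb) * ρ ^ 3 + 3 * κ * Zb ^ 2 * ρ ^ 2) := by
  have hρ : 0 ≤ ρ := (abs_nonneg t).trans ht
  have hFρ := mul_nonneg hF0 hρ
  have a1 := le_P3 ht hF0 (by nlinarith)
  have a2 := le_P3 (y := 3 / 2 * t) (R := 3 / 2 * ρ)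
    (by rw [abs_mul, abs_of_pos (by norm_num : (0 : ℝ) < 3 / 2)]; linarith) hF0 (by nlinarith)
  have a3 := le_P3 (y := 2 * t) (R := 2 * ρ)
    (by rw [abs_mul, abs_two]; linarith) hF0 (by nlinarith)
  have a4 := exp_rem 3 ht hF0 (by norm_num; nlinarith)
  have a5 := (abs_le.1 (exp_rem 2 ht hF0 (by norm_num; nlinarith))).2
  simp only [sum_range_succ, range_zero, sum_empty, Nat.factorial] at a4 a5
  norm_num at a4 a5
  have b1 : p * (6 * exp t - P3 t) ≤ pP * (ρ ^ 4 / 4 * F) :=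
    (mul_le_mul_of_nonneg_right hp (by linarith [P3_le t])).trans
      (mul_le_mul_of_nonneg_left (by linarith) hP)
  have b2 : |N * t + l * Z| ≤ Na * ρ + la * Zb := by
    refine (abs_add_le _ _).trans (add_le_add ?_ ?_) <;> rw [abs_mul]
    · exact mul_le_mul hN ht (abs_nonneg _) ((abs_nonneg _).trans hN)
    · exact mul_le_mul hl hZ (abs_nonneg _) ((abs_nonneg _).trans hl)
  have b3 : (N * t + l * Z) * (exp t - (1 + t + t ^ 2 / 2))
      ≤ (Na * ρ + la * Zb) * (ρ ^ 3 / 6 * F) := by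
    refine (le_abs_self _).trans ?_
    rw [abs_mul]
    exact mul_le_mul b2 a4 (abs_nonneg _) ((abs_nonneg _).trans b2)
  have b4 : Z ^ 2 ≤ Zb ^ 2 := by
    rw [← sq_abs Z]; exact pow_le_pow_left₀ (abs_nonneg _) hZ 2
  have b5 : κ * Z ^ 2 * (exp t - (1 + t)) ≤ κ * Zb ^ 2 * (ρ ^ 2 / 2 * F) :=
    mul_le_mul (mul_le_mul_of_nonneg_left b4 hκ) (by linarith) (by linarith [add_one_le_exp t])
      (by positivity)
  have b6 := mul_le_mul_of_nonneg_left a2 h3
  have b7 := mul_le_mul_of_nonneg_left a3 h4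
  nlinarith [b1, b3, b5, b6, b7]

theorem el_le (a : ℕ) : (el a : ℝ) ≤ 2 ^ 80 * exp (a / 2 ^ 36) := by
  have h := sum_le_exp_of_nonneg (x := a / 2 ^ 44) (by positivity) 8
  unfold el
  generalize hu : Nat.div _ _ = u
  have h1 : (u : ℝ) ≤ 2 ^ 72 * exp (a / 2 ^ 44) := by
    rw [← hu]
    refine Nat.cast_div_le.trans ?_
    refine le_trans (le_of_eq ?_) (mul_le_mul_of_nonneg_left h (by positivity))
    simp only [sum_range_succ, range_zero, sum_empty, Nat.factorial, Nat.add_eq, Nat.mul_eq]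
    push_cast
    ring
  have h2 : (u : ℝ) ^ 256 ≤ (2 ^ 72 * exp (a / 2 ^ 44)) ^ 256 :=
    pow_le_pow_left₀ (by positivity) h1 256
  have h3 : ((2 : ℝ) ^ 72) ^ 256 = 2 ^ 80 * 2 ^ 18352 := by rw [← pow_mul, ← pow_add]
  have h4 : exp (a / 2 ^ 44) ^ 256 = exp (a / 2 ^ 36) := by
    rw [← exp_nat_mul]; refine congrArg exp ?_; push_cast; ring
  rw [mul_pow, h3, h4] at h2
  rw [Nat.shiftRight_eq, Nat.shiftRight_eq_div_pow]
  refine Nat.cast_div_le.trans ?_
  rw [Nat.pow_eq, Nat.cast_pow, Nat.cast_pow, Nat.cast_ofNat, div_le_iff₀ (pow_pos two_pos _)]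
  exact h2.trans (le_of_eq (mul_right_comm _ _ _))

theorem el_pos (a : ℕ) : 0 < el a := by
  unfold el
  generalize hu : Nat.div _ _ = u
  have h1 : 2 ^ 72 ≤ u := by
    rw [← hu]
    refine (Nat.le_div_iff_mul_le (by norm_num)).2 (le_trans (by norm_num) (Nat.le_add_left _ _))
  rw [Nat.shiftRight_eq, Nat.shiftRight_eq_div_pow]
  refine Nat.div_pos (le_trans ?_ (Nat.pow_le_pow_left h1 256)) (pow_pos two_pos _)
  rw [← pow_mul]
  exact Nat.pow_le_pow_right two_pos (by norm_num)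

theorem le_div_succ (a : ℕ) {b : ℕ} (hb : 0 < b) :
    (a : ℝ) ≤ (Nat.add (Nat.div a b) 1 : ℕ) * b := by
  have := (Nat.lt_mul_div_succ a hb).le
  rw [mul_comm] at this
  exact_mod_cast this

theorem up_div (c a : ℕ) :
    c / 2 ^ 80 * exp (-(a / 2 ^ 36)) ≤ (Nat.add (Nat.div c (el a)) 1 : ℕ) := by
  have h1 := le_div_succ c (el_pos a)
  have h2 := mul_le_mul_of_nonneg_left (el_le a)
    (Nat.cast_nonneg (α := ℝ) (Nat.add (Nat.div c (el a)) 1))
  rw [exp_neg, ← div_eq_mul_inv, div_div, div_le_iff₀ (by positivity)]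
  linarith

theorem exp_one_le : exp 1 ≤ 363916618873 / 133877442384 + 1 / 10 ^ 20 := by
  linarith [(abs_le.1 exp_one_near_20).2]

theorem exp_nat_le (n : ℕ) :
    exp n ≤ (363916618873 / 133877442384 + 1 / 10 ^ 20) ^ n := by
  rw [← exp_one_pow]
  exact pow_le_pow_left₀ (exp_pos _).le exp_one_le n

/-- what is known about one coordinate of a point in a box -/
structure CO (x u : ℝ) (lo G Q X R q : ℕ) : Prop where
  hu : |u| ≤ 1
  ex : exp (x / 2) = q / 2 ^ 44 * exp (R * u / 2 ^ 25)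
  l1 : X / 2 ^ 21 - 8 ≤ x - R * u / 2 ^ 24
  l2 : x - R * u / 2 ^ 24 ≤ X / 2 ^ 21 - 8 + 1 / 2 ^ 35
  el : ell x = G * (x + 8) / 256 - Q / 512
  cl : x = -8 → lo = 0
  G1 : G ≤ 204
  G2 : 173 ≤ G
  Q1 : Q ≤ 3286
  X1 : X ≤ 20971520
  R1 : R ≤ 41943039
  q1 : q ≤ 70368744177664

theorem piece {x : ℝ} {hi : ℕ} (h1 : (vL hi : ℝ) ≤ (x + 8) * 2 ^ 20) (h2 : (x + 8) * 2 ^ 20 ≤ hi) :
    ell x = vG hi * (x + 8) / 256 - vQ hi / 512 ∧ vG hi ≤ 204 ∧ 173 ≤ vG hi ∧ vQ hi ≤ 3286 := by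
  have k : ∀ b : ℕ, Nat.ble hi b = true → (x + 8) * 2 ^ 20 ≤ b := fun b hb =>
    h2.trans (by exact_mod_cast Nat.le_of_ble_eq_true hb)
  unfold vL at h1
  unfold vG vQ ell
  cases a1 : Nat.ble hi 6815744
  · cases a2 : Nat.ble hi 7864320
    · cases a3 : Nat.ble hi 8912896
      · cases a4 : Nat.ble hi 9437184
        · simp only [a1, a2, a3, a4, cond_false] at h1 ⊢
          norm_num at h1 ⊢
          split_ifs <;> linarith
        · have := k _ a4
          simp only [a1, a2, a3, a4, cond_false, cond_true] at h1 ⊢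
          norm_num at h1 this ⊢
          split_ifs <;> linarith
      · have := k _ a3
        simp only [a1, a2, a3, cond_false, cond_true] at h1 ⊢
        norm_num at h1 this ⊢
        split_ifs <;> linarith
    · have := k _ a2
      simp only [a1, a2, cond_false, cond_true] at h1 ⊢
      norm_num at h1 this ⊢
      split_ifs <;> linarith
  · have := k _ a1
    simp only [a1, cond_true] at h1 ⊢
    norm_num at this ⊢
    split_ifs <;> linarith

theorem co_of {x : ℝ} {lo hi : ℕ}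
    (h : okV lo (vL hi) (Nat.add lo hi) (vR lo hi) (vq (Nat.add lo hi)) = true)
    (h1 : (lo : ℝ) ≤ (x + 8) * 2 ^ 20) (h2 : (x + 8) * 2 ^ 20 ≤ hi) :
    ∃ u, CO x u lo (vG hi) (vQ hi) (Nat.add lo hi) (vR lo hi) (vq (Nat.add lo hi)) := by
  simp only [okV, Bool.and_eq_true, Nat.ble_eq] at h
  obtain ⟨k1, k2, k3, k4, k5⟩ := h
  obtain ⟨p1, p2, p3, p4⟩ := piece (le_trans (by exact_mod_cast k1) h1) h2
  have hlh : lo ≤ hi := by exact_mod_cast h1.trans h2
  have hR : (vR lo hi : ℝ) = 8 * (hi - lo) + 1 := by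
    simp only [vR, Nat.add_eq, Nat.mul_eq, Nat.sub_eq]
    push_cast [Nat.cast_sub hlh]
    rfl
  have hX : ((Nat.add lo hi : ℕ) : ℝ) = lo + hi := Nat.cast_add _ _
  have a1 : 2 ^ 44 * exp ((Nat.add lo hi : ℕ) / 2 ^ 22 - 4) ≤ vq (Nat.add lo hi) := by
    refine le_trans ?_ (up_div _ _)
    generalize Nat.add lo hi = X at *
    have : ((Nat.sub 343597383680 (Nat.mul X 16384) : ℕ) : ℝ) = 343597383680 - X * 16384 := by
      have k6 : X * 16384 ≤ 343597383680 := (Nat.mul_le_mul_right _ k3).trans (by norm_num)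
      rw [Nat.sub_eq, Nat.mul_eq, Nat.cast_sub k6]; push_cast; rfl
    rw [this, show (X : ℝ) / 2 ^ 22 - 4 = 1 + -((343597383680 - X * 16384) / 2 ^ 36) by ring,
      exp_add, ← mul_assoc]
    gcongr
    push_cast
    linarith [exp_one_le]
  have a2 : vq (Nat.add lo hi) ≤ 2 ^ 44 * exp ((Nat.add lo hi : ℕ) / 2 ^ 22 - 4 + 1 / 2 ^ 36) := by
    generalize vq (Nat.add lo hi) = q at *
    generalize Nat.add lo hi = X at *
    have b1 := Nat.cast_le (α := ℝ).2 k4
    have b2 := el_le (Nat.add (Nat.mul X 16384) 1)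
    generalize el _ = E at b1 b2
    simp only [Nat.add_eq, Nat.mul_eq] at b1 b2
    push_cast at b1 b2
    have b3 := exp_nat_le 4
    rw [show ((X : ℝ) * 16384 + 1) / 2 ^ 36 = X / 2 ^ 22 - 4 + 1 / 2 ^ 36 + (4 : ℕ) by
      push_cast; ring, exp_add] at b2
    have b4 := mul_le_mul_of_nonneg_left b3 (exp_pos ((X : ℝ) / 2 ^ 22 - 4 + 1 / 2 ^ 36)).le
    have b5 := exp_pos ((X : ℝ) / 2 ^ 22 - 4 + 1 / 2 ^ 36)
    norm_num at b1 b2 b4 b5 ⊢
    linarith
  generalize vq (Nat.add lo hi) = q at *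
  generalize Nat.add lo hi = X at *
  generalize vR lo hi = R at *
  have hlh' : (lo : ℝ) ≤ hi := h1.trans h2
  have hR0 : (0 : ℝ) < R := by rw [hR]; linarith
  have hq : (0 : ℝ) < q / 2 ^ 44 := div_pos (lt_of_lt_of_le (by positivity) a1) (by positivity)
  have c1 : (X : ℝ) / 2 ^ 22 - 4 ≤ log (q / 2 ^ 44) := by
    rw [le_log_iff_exp_le hq, le_div_iff₀ (by positivity)]; linarith
  have c2 : log (q / 2 ^ 44) ≤ (X : ℝ) / 2 ^ 22 - 4 + 1 / 2 ^ 36 := by
    rw [log_le_iff_le_exp hq, div_le_iff₀ (by positivity)]; linarith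
  have e : (R : ℝ) * ((x - 2 * log (q / 2 ^ 44)) * 2 ^ 24 / R)
      = (x - 2 * log (q / 2 ^ 44)) * 2 ^ 24 := mul_div_cancel₀ _ hR0.ne'
  refine ⟨(x - 2 * log (q / 2 ^ 44)) * 2 ^ 24 / R, ?_, ?_, ?_, ?_, p1, fun hx => ?_, p2, p3, p4, k3,
    k2, k5⟩
  · rw [abs_div, abs_of_pos hR0, div_le_one hR0, abs_le]
    constructor <;> linarith
  · rw [e]
    conv_rhs => rw [← exp_log hq, ← exp_add]
    rw [exp_log hq]
    exact congrArg exp (by ring)
  · rw [e]; linarith
  · rw [e]; linarith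
  · rw [hx] at h1
    norm_num at h1
    exact h1

end Pool.Agent.Lib.RC5.X69
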