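import Mathlib.Logic.Basic

/-! Boolean checker (natural numbers only, signed values as residues) for the dual inequality. -/

namespace Pool.Agent.Lib.RC5.X69

/-- coefficients of a cubic polynomial in five variables -/
structure TM (α : Type) : Type where
  mk ::
  (c b0 b1 b2 b3 b4 h00 h01 h02 h03 h04 h11 h12 h13 h14 h22 h23 h24 h33 h34 h44 k000 k001 k002
  k003 k004 k011 k012 k013 k014 k022 k023 k024 k033 k034 k044 k111 k112 k113 k114 k122 k123 k124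
  k133 k134 k144 k222 k223 k224 k233 k234 k244 k333 k334 k344 k444 : α)

noncomputable def edge_3 {α : Type} (ad mu : α → α → α) (A : TM α)
    (k3 k6 c0 a0 a1 a2 a3 a4 c6 p0 p1 p2 p3 p4 s0 s1 s2 s3 s4 d0 d1 d2 d3 d4 e0 e1 e2 e3 e4 o01
    o02 o03 o04 o12 o13 o14 o23 o24 o34 : α) : TM α :=
  TM.rec (motive := fun _ => TM α) (fun
    c b0 b1 b2 b3 b4 h00 h01 h02 h03 h04 h11 h12 h13 h14 h22 h23 h24 h33 h34 h44 k000 k001 k002
    k003 k004 k011 k012 k013 k014 k022 k023 k024 k033 k034 k044 k111 k112 k113 k114 k122 k123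
    k124 k133 k134 k144 k222 k223 k224 k233 k234 k244 k333 k334 k344 k444 =>
    TM.mk
    (ad c c6) (ad b0 s0) (ad b1 s1) (ad b2 s2) (ad b3 s3) (ad b4 s4) (ad h00 e0) (ad h01 o01) (ad
    h02 o02) (ad h03 o03) (ad h04 o04) (ad h11 e1) (ad h12 o12) (ad h13 o13) (ad h14 o14) (ad h22
    e2) (ad h23 o23) (ad h24 o24) (ad h33 e3) (ad h34 o34) (ad h44 e4) (ad k000 (mu d0 a0)) (ad
    k001 (mu e0 a1)) (ad k002 (mu e0 a2)) (ad k003 (mu e0 a3)) (ad k004 (mu e0 a4)) (ad k011 (mu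
    e1 a0)) (ad k012 (mu o01 a2)) (ad k013 (mu o01 a3)) (ad k014 (mu o01 a4)) (ad k022 (mu e2
    a0)) (ad k023 (mu o02 a3)) (ad k024 (mu o02 a4)) (ad k033 (mu e3 a0)) (ad k034 (mu o03 a4))
    (ad k044 (mu e4 a0)) (ad k111 (mu d1 a1)) (ad k112 (mu e1 a2)) (ad k113 (mu e1 a3)) (ad k114
    (mu e1 a4)) (ad k122 (mu e2 a1)) (ad k123 (mu o12 a3)) (ad k124 (mu o12 a4)) (ad k133 (mu e3
    a1)) (ad k134 (mu o13 a4)) (ad k144 (mu e4 a1)) (ad k222 (mu d2 a2)) (ad k223 (mu e2 a3)) (ad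
    k224 (mu e2 a4)) (ad k233 (mu e3 a2)) (ad k234 (mu o23 a4)) (ad k244 (mu e4 a2)) (ad k333 (mu
    d3 a3)) (ad k334 (mu e3 a4)) (ad k344 (mu e4 a3)) (ad k444 (mu d4 a4))) A

noncomputable def edge_2 {α : Type} (ad mu : α → α → α) (A : TM α)
    (k3 k6 c0 a0 a1 a2 a3 a4 c6 p0 p1 p2 p3 p4 s0 s1 s2 s3 s4 d0 d1 d2 d3 d4 : α) : TM α :=
  edge_3 ad mu A
    k3 k6 c0 a0 a1 a2 a3 a4 c6 p0 p1 p2 p3 p4 s0 s1 s2 s3 s4 d0 d1 d2 d3 d4 (mu k3 d0) (mu k3 d1)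
    (mu k3 d2) (mu k3 d3) (mu k3 d4) (mu s0 a1) (mu s0 a2) (mu s0 a3) (mu s0 a4) (mu s1 a2) (mu
    s1 a3) (mu s1 a4) (mu s2 a3) (mu s2 a4) (mu s3 a4)

noncomputable def edge_1 {α : Type} (ad mu : α → α → α) (A : TM α)
    (k3 k6 c0 a0 a1 a2 a3 a4 c6 p0 p1 p2 p3 p4 : α) : TM α :=
  edge_2 ad mu A
    k3 k6 c0 a0 a1 a2 a3 a4 c6 p0 p1 p2 p3 p4 (mu c6 a0) (mu c6 a1) (mu c6 a2) (mu c6 a3) (mu c6
    a4) (mu p0 a0) (mu p1 a1) (mu p2 a2) (mu p3 a3) (mu p4 a4)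

noncomputable def edge {α : Type} (ad mu : α → α → α) (A : TM α)
    (k3 k6 c0 a0 a1 a2 a3 a4 : α) : TM α :=
  edge_1 ad mu A
    k3 k6 c0 a0 a1 a2 a3 a4 (mu k6 c0) (mu c0 a0) (mu c0 a1) (mu c0 a2) (mu c0 a3) (mu c0 a4)

noncomputable def vert0_2 {α : Type} (ad mu : α → α → α) (A : TM α)
    (v0 v1 v2 v3 m n t z0 z1 z2 z3 z4 y0 y1 y2 y3 y4 n0 n1 n2 n3 n4 r0 r1 r2 r3 r4 q00 q01 q02
    q03 q04 q11 q12 q13 q14 q22 q23 q24 q33 q34 q44 : α) : TM α :=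
  TM.rec (motive := fun _ => TM α) (fun
    c b0 b1 b2 b3 b4 h00 h01 h02 h03 h04 h11 h12 h13 h14 h22 h23 h24 h33 h34 h44 k000 k001 k002
    k003 k004 k011 k012 k013 k014 k022 k023 k024 k033 k034 k044 k111 k112 k113 k114 k122 k123
    k124 k133 k134 k144 k222 k223 k224 k233 k234 k244 k333 k334 k344 k444 =>
    TM.mk
    (ad c v0) (ad b0 (ad (ad n0 n0) v1)) (ad b1 (ad n1 n1)) (ad b2 (ad n2 n2)) (ad b3 (ad n3 n3))
    (ad b4 (ad n4 n4)) (ad h00 (ad (ad q00 (ad r0 r0)) v2)) (ad h01 (ad q01 (ad r1 r1))) (ad h02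
    (ad q02 (ad r2 r2))) (ad h03 (ad q03 (ad r3 r3))) (ad h04 (ad q04 (ad r4 r4))) (ad h11 q11)
    (ad h12 q12) (ad h13 q13) (ad h14 q14) (ad h22 q22) (ad h23 q23) (ad h24 q24) (ad h33 q33)
    (ad h34 q34) (ad h44 q44) (ad k000 (ad (mu (ad q00 r0) t) v3)) (ad k001 (mu (ad q01 r1) t))
    (ad k002 (mu (ad q02 r2) t)) (ad k003 (mu (ad q03 r3) t)) (ad k004 (mu (ad q04 r4) t)) (ad
    k011 (mu q11 t)) (ad k012 (mu q12 t)) (ad k013 (mu q13 t)) (ad k014 (mu q14 t)) (ad k022 (mu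
    q22 t)) (ad k023 (mu q23 t)) (ad k024 (mu q24 t)) (ad k033 (mu q33 t)) (ad k034 (mu q34 t))
    (ad k044 (mu q44 t)) k111 k112 k113 k114 k122 k123 k124 k133 k134 k144 k222 k223 k224 k233
    k234 k244 k333 k334 k344 k444) A

noncomputable def vert0_1 {α : Type} (ad mu : α → α → α) (A : TM α)
    (v0 v1 v2 v3 m n t z0 z1 z2 z3 z4 y0 y1 y2 y3 y4 n0 n1 n2 n3 n4 : α) : TM α :=
  vert0_2 ad mu A
    v0 v1 v2 v3 m n t z0 z1 z2 z3 z4 y0 y1 y2 y3 y4 n0 n1 n2 n3 n4 (mu n0 t) (mu n1 t) (mu n2 t)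
    (mu n3 t) (mu n4 t) (mu y0 z0) (mu (ad y0 y0) z1) (mu (ad y0 y0) z2) (mu (ad y0 y0) z3) (mu
    (ad y0 y0) z4) (mu y1 z1) (mu (ad y1 y1) z2) (mu (ad y1 y1) z3) (mu (ad y1 y1) z4) (mu y2 z2)
    (mu (ad y2 y2) z3) (mu (ad y2 y2) z4) (mu y3 z3) (mu (ad y3 y3) z4) (mu y4 z4)

noncomputable def vert0 {α : Type} (ad mu : α → α → α) (A : TM α)
    (v0 v1 v2 v3 m n t z0 z1 z2 z3 z4 : α) : TM α :=
  vert0_1 ad mu A
    v0 v1 v2 v3 m n t z0 z1 z2 z3 z4 (mu m z0) (mu m z1) (mu m z2) (mu m z3) (mu m z4) (mu n z0)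
    (mu n z1) (mu n z2) (mu n z3) (mu n z4)

noncomputable def vert1_2 {α : Type} (ad mu : α → α → α) (A : TM α)
    (v0 v1 v2 v3 m n t z0 z1 z2 z3 z4 y0 y1 y2 y3 y4 n0 n1 n2 n3 n4 r0 r1 r2 r3 r4 q00 q01 q02
    q03 q04 q11 q12 q13 q14 q22 q23 q24 q33 q34 q44 : α) : TM α :=
  TM.rec (motive := fun _ => TM α) (fun
    c b0 b1 b2 b3 b4 h00 h01 h02 h03 h04 h11 h12 h13 h14 h22 h23 h24 h33 h34 h44 k000 k001 k002
    k003 k004 k011 k012 k013 k014 k022 k023 k024 k033 k034 k044 k111 k112 k113 k114 k122 k123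
    k124 k133 k134 k144 k222 k223 k224 k233 k234 k244 k333 k334 k344 k444 =>
    TM.mk
    (ad c v0) (ad b0 (ad n0 n0)) (ad b1 (ad (ad n1 n1) v1)) (ad b2 (ad n2 n2)) (ad b3 (ad n3 n3))
    (ad b4 (ad n4 n4)) (ad h00 q00) (ad h01 (ad q01 (ad r0 r0))) (ad h02 q02) (ad h03 q03) (ad
    h04 q04) (ad h11 (ad (ad q11 (ad r1 r1)) v2)) (ad h12 (ad q12 (ad r2 r2))) (ad h13 (ad q13
    (ad r3 r3))) (ad h14 (ad q14 (ad r4 r4))) (ad h22 q22) (ad h23 q23) (ad h24 q24) (ad h33 q33)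
    (ad h34 q34) (ad h44 q44) k000 (ad k001 (mu q00 t)) k002 k003 k004 (ad k011 (mu (ad q01 r0)
    t)) (ad k012 (mu q02 t)) (ad k013 (mu q03 t)) (ad k014 (mu q04 t)) k022 k023 k024 k033 k034
    k044 (ad k111 (ad (mu (ad q11 r1) t) v3)) (ad k112 (mu (ad q12 r2) t)) (ad k113 (mu (ad q13
    r3) t)) (ad k114 (mu (ad q14 r4) t)) (ad k122 (mu q22 t)) (ad k123 (mu q23 t)) (ad k124 (mu
    q24 t)) (ad k133 (mu q33 t)) (ad k134 (mu q34 t)) (ad k144 (mu q44 t)) k222 k223 k224 k233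
    k234 k244 k333 k334 k344 k444) A

noncomputable def vert1_1 {α : Type} (ad mu : α → α → α) (A : TM α)
    (v0 v1 v2 v3 m n t z0 z1 z2 z3 z4 y0 y1 y2 y3 y4 n0 n1 n2 n3 n4 : α) : TM α :=
  vert1_2 ad mu A
    v0 v1 v2 v3 m n t z0 z1 z2 z3 z4 y0 y1 y2 y3 y4 n0 n1 n2 n3 n4 (mu n0 t) (mu n1 t) (mu n2 t)
    (mu n3 t) (mu n4 t) (mu y0 z0) (mu (ad y0 y0) z1) (mu (ad y0 y0) z2) (mu (ad y0 y0) z3) (mu
    (ad y0 y0) z4) (mu y1 z1) (mu (ad y1 y1) z2) (mu (ad y1 y1) z3) (mu (ad y1 y1) z4) (mu y2 z2)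
    (mu (ad y2 y2) z3) (mu (ad y2 y2) z4) (mu y3 z3) (mu (ad y3 y3) z4) (mu y4 z4)

noncomputable def vert1 {α : Type} (ad mu : α → α → α) (A : TM α)
    (v0 v1 v2 v3 m n t z0 z1 z2 z3 z4 : α) : TM α :=
  vert1_1 ad mu A
    v0 v1 v2 v3 m n t z0 z1 z2 z3 z4 (mu m z0) (mu m z1) (mu m z2) (mu m z3) (mu m z4) (mu n z0)
    (mu n z1) (mu n z2) (mu n z3) (mu n z4)

noncomputable def vert2_2 {α : Type} (ad mu : α → α → α) (A : TM α)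
    (v0 v1 v2 v3 m n t z0 z1 z2 z3 z4 y0 y1 y2 y3 y4 n0 n1 n2 n3 n4 r0 r1 r2 r3 r4 q00 q01 q02
    q03 q04 q11 q12 q13 q14 q22 q23 q24 q33 q34 q44 : α) : TM α :=
  TM.rec (motive := fun _ => TM α) (fun
    c b0 b1 b2 b3 b4 h00 h01 h02 h03 h04 h11 h12 h13 h14 h22 h23 h24 h33 h34 h44 k000 k001 k002
    k003 k004 k011 k012 k013 k014 k022 k023 k024 k033 k034 k044 k111 k112 k113 k114 k122 k123
    k124 k133 k134 k144 k222 k223 k224 k233 k234 k244 k333 k334 k344 k444 =>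
    TM.mk
    (ad c v0) (ad b0 (ad n0 n0)) (ad b1 (ad n1 n1)) (ad b2 (ad (ad n2 n2) v1)) (ad b3 (ad n3 n3))
    (ad b4 (ad n4 n4)) (ad h00 q00) (ad h01 q01) (ad h02 (ad q02 (ad r0 r0))) (ad h03 q03) (ad
    h04 q04) (ad h11 q11) (ad h12 (ad q12 (ad r1 r1))) (ad h13 q13) (ad h14 q14) (ad h22 (ad (ad
    q22 (ad r2 r2)) v2)) (ad h23 (ad q23 (ad r3 r3))) (ad h24 (ad q24 (ad r4 r4))) (ad h33 q33)
    (ad h34 q34) (ad h44 q44) k000 k001 (ad k002 (mu q00 t)) k003 k004 k011 (ad k012 (mu q01 t))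
    k013 k014 (ad k022 (mu (ad q02 r0) t)) (ad k023 (mu q03 t)) (ad k024 (mu q04 t)) k033 k034
    k044 k111 (ad k112 (mu q11 t)) k113 k114 (ad k122 (mu (ad q12 r1) t)) (ad k123 (mu q13 t))
    (ad k124 (mu q14 t)) k133 k134 k144 (ad k222 (ad (mu (ad q22 r2) t) v3)) (ad k223 (mu (ad q23
    r3) t)) (ad k224 (mu (ad q24 r4) t)) (ad k233 (mu q33 t)) (ad k234 (mu q34 t)) (ad k244 (mu
    q44 t)) k333 k334 k344 k444) A

noncomputable def vert2_1 {α : Type} (ad mu : α → α → α) (A : TM α)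
    (v0 v1 v2 v3 m n t z0 z1 z2 z3 z4 y0 y1 y2 y3 y4 n0 n1 n2 n3 n4 : α) : TM α :=
  vert2_2 ad mu A
    v0 v1 v2 v3 m n t z0 z1 z2 z3 z4 y0 y1 y2 y3 y4 n0 n1 n2 n3 n4 (mu n0 t) (mu n1 t) (mu n2 t)
    (mu n3 t) (mu n4 t) (mu y0 z0) (mu (ad y0 y0) z1) (mu (ad y0 y0) z2) (mu (ad y0 y0) z3) (mu
    (ad y0 y0) z4) (mu y1 z1) (mu (ad y1 y1) z2) (mu (ad y1 y1) z3) (mu (ad y1 y1) z4) (mu y2 z2)
    (mu (ad y2 y2) z3) (mu (ad y2 y2) z4) (mu y3 z3) (mu (ad y3 y3) z4) (mu y4 z4)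

noncomputable def vert2 {α : Type} (ad mu : α → α → α) (A : TM α)
    (v0 v1 v2 v3 m n t z0 z1 z2 z3 z4 : α) : TM α :=
  vert2_1 ad mu A
    v0 v1 v2 v3 m n t z0 z1 z2 z3 z4 (mu m z0) (mu m z1) (mu m z2) (mu m z3) (mu m z4) (mu n z0)
    (mu n z1) (mu n z2) (mu n z3) (mu n z4)

noncomputable def vert3_2 {α : Type} (ad mu : α → α → α) (A : TM α)
    (v0 v1 v2 v3 m n t z0 z1 z2 z3 z4 y0 y1 y2 y3 y4 n0 n1 n2 n3 n4 r0 r1 r2 r3 r4 q00 q01 q02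
    q03 q04 q11 q12 q13 q14 q22 q23 q24 q33 q34 q44 : α) : TM α :=
  TM.rec (motive := fun _ => TM α) (fun
    c b0 b1 b2 b3 b4 h00 h01 h02 h03 h04 h11 h12 h13 h14 h22 h23 h24 h33 h34 h44 k000 k001 k002
    k003 k004 k011 k012 k013 k014 k022 k023 k024 k033 k034 k044 k111 k112 k113 k114 k122 k123
    k124 k133 k134 k144 k222 k223 k224 k233 k234 k244 k333 k334 k344 k444 =>
    TM.mk
    (ad c v0) (ad b0 (ad n0 n0)) (ad b1 (ad n1 n1)) (ad b2 (ad n2 n2)) (ad b3 (ad (ad n3 n3) v1))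
    (ad b4 (ad n4 n4)) (ad h00 q00) (ad h01 q01) (ad h02 q02) (ad h03 (ad q03 (ad r0 r0))) (ad
    h04 q04) (ad h11 q11) (ad h12 q12) (ad h13 (ad q13 (ad r1 r1))) (ad h14 q14) (ad h22 q22) (ad
    h23 (ad q23 (ad r2 r2))) (ad h24 q24) (ad h33 (ad (ad q33 (ad r3 r3)) v2)) (ad h34 (ad q34
    (ad r4 r4))) (ad h44 q44) k000 k001 k002 (ad k003 (mu q00 t)) k004 k011 k012 (ad k013 (mu q01
    t)) k014 k022 (ad k023 (mu q02 t)) k024 (ad k033 (mu (ad q03 r0) t)) (ad k034 (mu q04 t))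
    k044 k111 k112 (ad k113 (mu q11 t)) k114 k122 (ad k123 (mu q12 t)) k124 (ad k133 (mu (ad q13
    r1) t)) (ad k134 (mu q14 t)) k144 k222 (ad k223 (mu q22 t)) k224 (ad k233 (mu (ad q23 r2) t))
    (ad k234 (mu q24 t)) k244 (ad k333 (ad (mu (ad q33 r3) t) v3)) (ad k334 (mu (ad q34 r4) t))
    (ad k344 (mu q44 t)) k444) A

noncomputable def vert3_1 {α : Type} (ad mu : α → α → α) (A : TM α)
    (v0 v1 v2 v3 m n t z0 z1 z2 z3 z4 y0 y1 y2 y3 y4 n0 n1 n2 n3 n4 : α) : TM α :=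
  vert3_2 ad mu A
    v0 v1 v2 v3 m n t z0 z1 z2 z3 z4 y0 y1 y2 y3 y4 n0 n1 n2 n3 n4 (mu n0 t) (mu n1 t) (mu n2 t)
    (mu n3 t) (mu n4 t) (mu y0 z0) (mu (ad y0 y0) z1) (mu (ad y0 y0) z2) (mu (ad y0 y0) z3) (mu
    (ad y0 y0) z4) (mu y1 z1) (mu (ad y1 y1) z2) (mu (ad y1 y1) z3) (mu (ad y1 y1) z4) (mu y2 z2)
    (mu (ad y2 y2) z3) (mu (ad y2 y2) z4) (mu y3 z3) (mu (ad y3 y3) z4) (mu y4 z4)

noncomputable def vert3 {α : Type} (ad mu : α → α → α) (A : TM α)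
    (v0 v1 v2 v3 m n t z0 z1 z2 z3 z4 : α) : TM α :=
  vert3_1 ad mu A
    v0 v1 v2 v3 m n t z0 z1 z2 z3 z4 (mu m z0) (mu m z1) (mu m z2) (mu m z3) (mu m z4) (mu n z0)
    (mu n z1) (mu n z2) (mu n z3) (mu n z4)

noncomputable def vert4_2 {α : Type} (ad mu : α → α → α) (A : TM α)
    (v0 v1 v2 v3 m n t z0 z1 z2 z3 z4 y0 y1 y2 y3 y4 n0 n1 n2 n3 n4 r0 r1 r2 r3 r4 q00 q01 q02
    q03 q04 q11 q12 q13 q14 q22 q23 q24 q33 q34 q44 : α) : TM α :=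
  TM.rec (motive := fun _ => TM α) (fun
    c b0 b1 b2 b3 b4 h00 h01 h02 h03 h04 h11 h12 h13 h14 h22 h23 h24 h33 h34 h44 k000 k001 k002
    k003 k004 k011 k012 k013 k014 k022 k023 k024 k033 k034 k044 k111 k112 k113 k114 k122 k123
    k124 k133 k134 k144 k222 k223 k224 k233 k234 k244 k333 k334 k344 k444 =>
    TM.mk
    (ad c v0) (ad b0 (ad n0 n0)) (ad b1 (ad n1 n1)) (ad b2 (ad n2 n2)) (ad b3 (ad n3 n3)) (ad b4
    (ad (ad n4 n4) v1)) (ad h00 q00) (ad h01 q01) (ad h02 q02) (ad h03 q03) (ad h04 (ad q04 (ad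
    r0 r0))) (ad h11 q11) (ad h12 q12) (ad h13 q13) (ad h14 (ad q14 (ad r1 r1))) (ad h22 q22) (ad
    h23 q23) (ad h24 (ad q24 (ad r2 r2))) (ad h33 q33) (ad h34 (ad q34 (ad r3 r3))) (ad h44 (ad
    (ad q44 (ad r4 r4)) v2)) k000 k001 k002 k003 (ad k004 (mu q00 t)) k011 k012 k013 (ad k014 (mu
    q01 t)) k022 k023 (ad k024 (mu q02 t)) k033 (ad k034 (mu q03 t)) (ad k044 (mu (ad q04 r0) t))
    k111 k112 k113 (ad k114 (mu q11 t)) k122 k123 (ad k124 (mu q12 t)) k133 (ad k134 (mu q13 t))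
    (ad k144 (mu (ad q14 r1) t)) k222 k223 (ad k224 (mu q22 t)) k233 (ad k234 (mu q23 t)) (ad
    k244 (mu (ad q24 r2) t)) k333 (ad k334 (mu q33 t)) (ad k344 (mu (ad q34 r3) t)) (ad k444 (ad
    (mu (ad q44 r4) t) v3))) A

noncomputable def vert4_1 {α : Type} (ad mu : α → α → α) (A : TM α)
    (v0 v1 v2 v3 m n t z0 z1 z2 z3 z4 y0 y1 y2 y3 y4 n0 n1 n2 n3 n4 : α) : TM α :=
  vert4_2 ad mu A
    v0 v1 v2 v3 m n t z0 z1 z2 z3 z4 y0 y1 y2 y3 y4 n0 n1 n2 n3 n4 (mu n0 t) (mu n1 t) (mu n2 t)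
    (mu n3 t) (mu n4 t) (mu y0 z0) (mu (ad y0 y0) z1) (mu (ad y0 y0) z2) (mu (ad y0 y0) z3) (mu
    (ad y0 y0) z4) (mu y1 z1) (mu (ad y1 y1) z2) (mu (ad y1 y1) z3) (mu (ad y1 y1) z4) (mu y2 z2)
    (mu (ad y2 y2) z3) (mu (ad y2 y2) z4) (mu y3 z3) (mu (ad y3 y3) z4) (mu y4 z4)

noncomputable def vert4 {α : Type} (ad mu : α → α → α) (A : TM α)
    (v0 v1 v2 v3 m n t z0 z1 z2 z3 z4 : α) : TM α :=
  vert4_1 ad mu A
    v0 v1 v2 v3 m n t z0 z1 z2 z3 z4 (mu m z0) (mu m z1) (mu m z2) (mu m z3) (mu m z4) (mu n z0)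
    (mu n z1) (mu n z2) (mu n z3) (mu n z4)

noncomputable def spart_2 {α : Type} (ad mu : α → α → α) (A : TM α)
    (a0 a1 a2 a3 s0 s1 s2 s3 s4 be0 be1 be2 be3 be4 ga0 ga1 ga2 ga3 ga4 de0 de1 de2 de3 de4 x0 x1
    x2 x3 x4 y0 y1 y2 y3 y4 q00 q01 q02 q03 q04 q11 q12 q13 q14 q22 q23 q24 q33 q34 q44 : α) : TM α :=
  TM.rec (motive := fun _ => TM α) (fun
    c b0 b1 b2 b3 b4 h00 h01 h02 h03 h04 h11 h12 h13 h14 h22 h23 h24 h33 h34 h44 k000 k001 k002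
    k003 k004 k011 k012 k013 k014 k022 k023 k024 k033 k034 k044 k111 k112 k113 k114 k122 k123
    k124 k133 k134 k144 k222 k223 k224 k233 k234 k244 k333 k334 k344 k444 =>
    TM.mk
    (ad c a0) (ad b0 (mu a1 s0)) (ad b1 (mu a1 s1)) (ad b2 (mu a1 s2)) (ad b3 (mu a1 s3)) (ad b4
    (mu a1 s4)) (ad h00 (mu s0 x0)) (ad h01 (ad (mu s0 x1) (mu s1 x0))) (ad h02 (ad (mu s0 x2)
    (mu s2 x0))) (ad h03 (ad (mu s0 x3) (mu s3 x0))) (ad h04 (ad (mu s0 x4) (mu s4 x0))) (ad h11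
    (mu s1 x1)) (ad h12 (ad (mu s1 x2) (mu s2 x1))) (ad h13 (ad (mu s1 x3) (mu s3 x1))) (ad h14
    (ad (mu s1 x4) (mu s4 x1))) (ad h22 (mu s2 x2)) (ad h23 (ad (mu s2 x3) (mu s3 x2))) (ad h24
    (ad (mu s2 x4) (mu s4 x2))) (ad h33 (mu s3 x3)) (ad h34 (ad (mu s3 x4) (mu s4 x3))) (ad h44
    (mu s4 x4)) (ad k000 (mu s0 q00)) (ad k001 (ad (mu s0 q01) (mu s1 q00))) (ad k002 (ad (mu s0
    q02) (mu s2 q00))) (ad k003 (ad (mu s0 q03) (mu s3 q00))) (ad k004 (ad (mu s0 q04) (mu s4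
    q00))) (ad k011 (ad (mu s0 q11) (mu s1 q01))) (ad k012 (ad (ad (mu s0 q12) (mu s1 q02)) (mu
    s2 q01))) (ad k013 (ad (ad (mu s0 q13) (mu s1 q03)) (mu s3 q01))) (ad k014 (ad (ad (mu s0
    q14) (mu s1 q04)) (mu s4 q01))) (ad k022 (ad (mu s0 q22) (mu s2 q02))) (ad k023 (ad (ad (mu
    s0 q23) (mu s2 q03)) (mu s3 q02))) (ad k024 (ad (ad (mu s0 q24) (mu s2 q04)) (mu s4 q02)))
    (ad k033 (ad (mu s0 q33) (mu s3 q03))) (ad k034 (ad (ad (mu s0 q34) (mu s3 q04)) (mu s4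
    q03))) (ad k044 (ad (mu s0 q44) (mu s4 q04))) (ad k111 (mu s1 q11)) (ad k112 (ad (mu s1 q12)
    (mu s2 q11))) (ad k113 (ad (mu s1 q13) (mu s3 q11))) (ad k114 (ad (mu s1 q14) (mu s4 q11)))
    (ad k122 (ad (mu s1 q22) (mu s2 q12))) (ad k123 (ad (ad (mu s1 q23) (mu s2 q13)) (mu s3
    q12))) (ad k124 (ad (ad (mu s1 q24) (mu s2 q14)) (mu s4 q12))) (ad k133 (ad (mu s1 q33) (mu
    s3 q13))) (ad k134 (ad (ad (mu s1 q34) (mu s3 q14)) (mu s4 q13))) (ad k144 (ad (mu s1 q44)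
    (mu s4 q14))) (ad k222 (mu s2 q22)) (ad k223 (ad (mu s2 q23) (mu s3 q22))) (ad k224 (ad (mu
    s2 q24) (mu s4 q22))) (ad k233 (ad (mu s2 q33) (mu s3 q23))) (ad k234 (ad (ad (mu s2 q34) (mu
    s3 q24)) (mu s4 q23))) (ad k244 (ad (mu s2 q44) (mu s4 q24))) (ad k333 (mu s3 q33)) (ad k334
    (ad (mu s3 q34) (mu s4 q33))) (ad k344 (ad (mu s3 q44) (mu s4 q34))) (ad k444 (mu s4 q44))) A

noncomputable def spart_1 {α : Type} (ad mu : α → α → α) (A : TM α)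
    (a0 a1 a2 a3 s0 s1 s2 s3 s4 be0 be1 be2 be3 be4 ga0 ga1 ga2 ga3 ga4 de0 de1 de2 de3 de4 x0 x1
    x2 x3 x4 y0 y1 y2 y3 y4 : α) : TM α :=
  spart_2 ad mu A
    a0 a1 a2 a3 s0 s1 s2 s3 s4 be0 be1 be2 be3 be4 ga0 ga1 ga2 ga3 ga4 de0 de1 de2 de3 de4 x0 x1
    x2 x3 x4 y0 y1 y2 y3 y4 (ad (mu s0 y0) de0) (ad (mu s0 y1) (mu s1 y0)) (ad (mu s0 y2) (mu s2
    y0)) (ad (mu s0 y3) (mu s3 y0)) (ad (mu s0 y4) (mu s4 y0)) (ad (mu s1 y1) de1) (ad (mu s1 y2)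
    (mu s2 y1)) (ad (mu s1 y3) (mu s3 y1)) (ad (mu s1 y4) (mu s4 y1)) (ad (mu s2 y2) de2) (ad (mu
    s2 y3) (mu s3 y2)) (ad (mu s2 y4) (mu s4 y2)) (ad (mu s3 y3) de3) (ad (mu s3 y4) (mu s4 y3))
    (ad (mu s4 y4) de4)

noncomputable def spart {α : Type} (ad mu : α → α → α) (A : TM α)
    (a0 a1 a2 a3 s0 s1 s2 s3 s4 be0 be1 be2 be3 be4 ga0 ga1 ga2 ga3 ga4 de0 de1 de2 de3 de4 : α) : TM α :=
  spart_1 ad mu A
    a0 a1 a2 a3 s0 s1 s2 s3 s4 be0 be1 be2 be3 be4 ga0 ga1 ga2 ga3 ga4 de0 de1 de2 de3 de4 (ad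
    (mu a2 s0) be0) (ad (mu a2 s1) be1) (ad (mu a2 s2) be2) (ad (mu a2 s3) be3) (ad (mu a2 s4)
    be4) (ad (mu a3 s0) ga0) (ad (mu a3 s1) ga1) (ad (mu a3 s2) ga2) (ad (mu a3 s3) ga3) (ad (mu
    a3 s4) ga4)

noncomputable def sqs_2 {α : Type} (ad mu : α → α → α) (A : TM α)
    (w l0c l00 l01 l02 l03 l04 l1c l11 l12 l13 l14 l2c l22 l23 l24 l3c l33 l34 l4c l44 w0c w00
    w01 w02 w03 w04 w1c w11 w12 w13 w14 w2c w22 w23 w24 w3c w33 w34 w4c w44 d0c d00 d01 d02 d03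
    d1c d11 d12 d13 d2c d22 d23 d3c d33 d4c : α) : TM α :=
  TM.rec (motive := fun _ => TM α) (fun
    c b0 b1 b2 b3 b4 h00 h01 h02 h03 h04 h11 h12 h13 h14 h22 h23 h24 h33 h34 h44 k000 k001 k002
    k003 k004 k011 k012 k013 k014 k022 k023 k024 k033 k034 k044 k111 k112 k113 k114 k122 k123
    k124 k133 k134 k144 k222 k223 k224 k233 k234 k244 k333 k334 k344 k444 =>
    TM.mk
    (ad c (ad (ad (ad (ad (mu w0c l0c) (mu w1c l1c)) (mu w2c l2c)) (mu w3c l3c)) (mu w4c l4c)))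
    (ad b0 (mu d0c l00)) (ad b1 (ad (mu d0c l01) (mu d1c l11))) (ad b2 (ad (ad (mu d0c l02) (mu
    d1c l12)) (mu d2c l22))) (ad b3 (ad (ad (ad (mu d0c l03) (mu d1c l13)) (mu d2c l23)) (mu d3c
    l33))) (ad b4 (ad (ad (ad (ad (mu d0c l04) (mu d1c l14)) (mu d2c l24)) (mu d3c l34)) (mu d4c
    l44))) (ad h00 (mu w00 l00)) (ad h01 (mu d00 l01)) (ad h02 (mu d00 l02)) (ad h03 (mu d00
    l03)) (ad h04 (mu d00 l04)) (ad h11 (ad (mu w01 l01) (mu w11 l11))) (ad h12 (ad (mu d01 l02)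
    (mu d11 l12))) (ad h13 (ad (mu d01 l03) (mu d11 l13))) (ad h14 (ad (mu d01 l04) (mu d11
    l14))) (ad h22 (ad (ad (mu w02 l02) (mu w12 l12)) (mu w22 l22))) (ad h23 (ad (ad (mu d02 l03)
    (mu d12 l13)) (mu d22 l23))) (ad h24 (ad (ad (mu d02 l04) (mu d12 l14)) (mu d22 l24))) (ad
    h33 (ad (ad (ad (mu w03 l03) (mu w13 l13)) (mu w23 l23)) (mu w33 l33))) (ad h34 (ad (ad (ad
    (mu d03 l04) (mu d13 l14)) (mu d23 l24)) (mu d33 l34))) (ad h44 (ad (ad (ad (ad (mu w04 l04)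
    (mu w14 l14)) (mu w24 l24)) (mu w34 l34)) (mu w44 l44))) k000 k001 k002 k003 k004 k011 k012
    k013 k014 k022 k023 k024 k033 k034 k044 k111 k112 k113 k114 k122 k123 k124 k133 k134 k144
    k222 k223 k224 k233 k234 k244 k333 k334 k344 k444) A

noncomputable def sqs_1 {α : Type} (ad mu : α → α → α) (A : TM α)
    (w l0c l00 l01 l02 l03 l04 l1c l11 l12 l13 l14 l2c l22 l23 l24 l3c l33 l34 l4c l44 w0c w00
    w01 w02 w03 w04 w1c w11 w12 w13 w14 w2c w22 w23 w24 w3c w33 w34 w4c w44 : α) : TM α :=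
  sqs_2 ad mu A
    w l0c l00 l01 l02 l03 l04 l1c l11 l12 l13 l14 l2c l22 l23 l24 l3c l33 l34 l4c l44 w0c w00 w01
    w02 w03 w04 w1c w11 w12 w13 w14 w2c w22 w23 w24 w3c w33 w34 w4c w44 (ad w0c w0c) (ad w00 w00)
    (ad w01 w01) (ad w02 w02) (ad w03 w03) (ad w1c w1c) (ad w11 w11) (ad w12 w12) (ad w13 w13)
    (ad w2c w2c) (ad w22 w22) (ad w23 w23) (ad w3c w3c) (ad w33 w33) (ad w4c w4c)

noncomputable def sqs {α : Type} (ad mu : α → α → α) (A : TM α)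
    (w l0c l00 l01 l02 l03 l04 l1c l11 l12 l13 l14 l2c l22 l23 l24 l3c l33 l34 l4c l44 : α) : TM α :=
  sqs_1 ad mu A
    w l0c l00 l01 l02 l03 l04 l1c l11 l12 l13 l14 l2c l22 l23 l24 l3c l33 l34 l4c l44 (mu w l0c)
    (mu w l00) (mu w l01) (mu w l02) (mu w l03) (mu w l04) (mu w l1c) (mu w l11) (mu w l12) (mu w
    l13) (mu w l14) (mu w l2c) (mu w l22) (mu w l23) (mu w l24) (mu w l3c) (mu w l33) (mu w l34)
    (mu w l4c) (mu w l44)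

noncomputable def force {α : Type} (n : Nat) (k : Nat → α) : α :=
  Nat.rec (motive := fun _ => α) (k 0) (fun m _ => k (Nat.succ m)) n

def mo  : Nat :=
  39402006196394479212279040100143613805079739270465446667948293404245721771497210611414266254884915640806627990306815

def hf  : Nat :=
  19701003098197239606139520050071806902539869635232723333974146702122860885748605305707133127442457820403313995153408

def fld (h p m : Nat) : Nat :=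
  (Nat.land (Nat.shiftRight h p) m)

def ab (p n : Nat) : Nat :=
  (Nat.add (Nat.sub p n) (Nat.sub n p))

def sn (p n : Nat) : Nat :=
  (Nat.add p (Nat.mul mo n))

def el (a : Nat) : Nat :=
  (Nat.shiftRight (Nat.pow (Nat.div (Nat.add (Nat.mul (Nat.add (Nat.mul (Nat.add (Nat.mul
  (Nat.add (Nat.mul (Nat.add (Nat.mul (Nat.add (Nat.mul (Nat.add a 123145302310912) a)
  12998370412496492886440804352) a) 1143348752854353237236938680970741190492160) a)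
  80456015895459165063813218925391232139983803914639114240) a)
  4246191600076225767660054876205591831097850246550140165773818614251520) a)
  149399585217554847983308227697609486228603065014996081346269753190369836386631024640) a)
  2628265298105807327946999365013316078515046580243537588020773853374996928206647551786066630410240)
  556556825405191063818738712734019332485657427515819971808305953407175229440) 256) 18352)

def vG (hi : Nat) : Nat :=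
  cond (Nat.ble hi 6815744) 192 (cond (Nat.ble hi 7864320) 173 (cond (Nat.ble hi 8912896) 191
  (cond (Nat.ble hi 9437184) 195 204)))

def vQ (hi : Nat) : Nat :=
  cond (Nat.ble hi 6815744) 3033 (cond (Nat.ble hi 7864320) 2786 (cond (Nat.ble hi 8912896) 3056
  (cond (Nat.ble hi 9437184) 3124 3286)))

def vL (hi : Nat) : Nat :=
  cond (Nat.ble hi 6815744) 0 (cond (Nat.ble hi 7864320) 6815744 (cond (Nat.ble hi 8912896)
  7864320 (cond (Nat.ble hi 9437184) 8912896 9437184)))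

def vR (lo hi : Nat) : Nat :=
  (Nat.add (Nat.mul 8 (Nat.sub hi lo)) 1)

def vq (x : Nat) : Nat :=
  (Nat.add (Nat.div 57811460909138771072049840027482028722 (el (Nat.sub 343597383680 (Nat.mul x
  16384)))) 1)

def vF (r : Nat) : Nat :=
  (Nat.add (Nat.div 21474836480 (Nat.sub 83886080 (Nat.mul 2 r))) 1)

def okV (lo l x r q : Nat) : Bool :=
  (Bool.and (Nat.ble l lo) (Bool.and (Nat.ble r 41943039) (Bool.and (Nat.ble x 20971520)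
  (Bool.and (Nat.ble (Nat.mul q 1007158100559408451364) (Nat.mul (el (Nat.add (Nat.mul x 16384)
  1)) 268435456)) (Nat.ble q 70368744177664)))))

def vP (g x e : Nat) : Nat :=
  (Nat.add (Nat.add (Nat.mul (Nat.mul g x) 128) (Nat.mul 1536 (Nat.pow (Nat.sub 256 e) 3))) 2)

def vN (q e : Nat) : Nat :=
  (Nat.add (Nat.mul q 134217728) (Nat.mul 1536 (Nat.pow (Nat.sub e 256) 3)))

def eE (p n : Nat) : Nat :=
  (Nat.add (Nat.div 4031301969897182342376168514771179203495089280 (el (Nat.sub p n))) 1)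

def sa (p n r : Nat) : Nat :=
  (Nat.mul (sn p n) r)

def sumA 
    (p0 p1 p2 p3 p4 n0 n1 n2 n3 n4 r0 r1 r2 r3 r4 : Nat) : Nat :=
  (Nat.add (Nat.add (Nat.add (Nat.add (Nat.mul (ab p0 n0) r0) (Nat.mul (ab p1 n1) r1)) (Nat.mul
  (ab p2 n2) r2)) (Nat.mul (ab p3 n3) r3)) (Nat.mul (ab p4 n4) r4))

noncomputable def estep2 (A : TM Nat) (k : TM Nat → Nat → Bool)
    (rem pp nn E R p0 p1 p2 p3 p4 n0 n1 n2 n3 n4 r0 r1 r2 r3 r4 : Nat) : Bool :=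
  Bool.and (Bool.and (Nat.ble nn pp) (Bool.and (Nat.ble E 4722366482869645213696) (Nat.blt R
  85899345920))) (k (edge Nat.add Nat.mul A 3 6 (Nat.mul E 2658455991569831745807614120560689152)
  (sa p0 n0 r0) (sa p1 n1 r1) (sa p2 n2 r2) (sa p3 n3 r3) (sa p4 n4 r4)) (Nat.add rem (Nat.mul
  (Nat.mul (Nat.mul E (Nat.pow R 4)) (Nat.add (Nat.div 21990232555520 (Nat.sub 85899345920 R))
  1)) 151115727451828646838272)))

noncomputable def estep (A : TM Nat)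
    (rem pp nn p0 p1 p2 p3 p4 n0 n1 n2 n3 n4 r0 r1 r2 r3 r4 : Nat) (k : TM Nat → Nat → Bool) : Bool :=
  estep2 A k rem pp nn (eE pp nn) (sumA p0 p1 p2 p3 p4 n0 n1 n2 n3 n4 r0 r1 r2 r3 r4) p0 p1 p2 p3
  p4 n0 n1 n2 n3 n4 r0 r1 r2 r3 r4

def p0P (Q X w e : Nat) : Nat :=
  (Nat.add (Nat.add (Nat.add (Nat.add (Nat.mul 132 (Nat.pow (ab w 8388608) 2)) (Nat.mul 13824
  (Nat.add (Nat.mul 512 (Nat.pow (Nat.sub e 256) 3)) (Nat.mul 3 (Nat.pow (ab e 256) 4)))))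
  (Nat.mul 106954752 X)) (Nat.mul 618475290624 Q)) 1024)

def p0N (G X e : Nat) : Nat :=
  (Nat.add (Nat.add (Nat.mul 7077888 (Nat.pow (Nat.sub 256 e) 3)) (Nat.mul (Nat.mul 589824 G) X))
  1821822047748096)

noncomputable def vpar2 (k : Nat → Nat → Nat → Nat → Nat → Nat → Nat → Nat → Nat → Nat → Nat → Nat → Nat → Bool)
    (lo G R q F w g T pp pn U N c3 c4 Z W0 W1 W2 W3 W4 r0 r1 r2 r3 r4 : Nat) : Bool :=
  k (Nat.add (Nat.add (Nat.add (Nat.mul 6 U) (Nat.mul 48 c3)) (Nat.mul 6 c4)) (Nat.mul (Nat.sub 1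
  lo) 8620287417370624828265702027720489157855407562282762240)) (Nat.mul (Nat.add (Nat.add
  (Nat.add (Nat.mul 6 U) (Nat.mul 6 N)) (Nat.mul 72 c3)) (Nat.mul 12 c4)) T) (Nat.mul (Nat.mul
  (Nat.add (Nat.add (Nat.add (Nat.mul 3 U) (Nat.mul 6 N)) (Nat.mul 54 c3)) (Nat.mul 12 c4)) T) T)
  (Nat.mul (Nat.mul (Nat.mul (Nat.add (Nat.add (Nat.add U (Nat.mul 3 N)) (Nat.mul 27 c3))
  (Nat.mul 8 c4)) T) T) T) (Nat.mul g 7843588088912169421760851083264) (Nat.mul (Nat.mul (sn w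
  8388608) g) 7480228508865518018494464) T (sa W0 2048 r0) (sa W1 2048 r1) (sa W2 2048 r2) (sa W3
  2048 r3) (sa W4 2048 r4) (Nat.mul (Nat.mul F (Nat.pow R 2)) (Nat.add (Nat.mul (Nat.add (Nat.add
  (Nat.mul (Nat.mul (Nat.sub pp pn) g) 562949953421312) (Nat.mul (Nat.mul q g)
  19370646102343680)) c4) (Nat.pow R 2)) (Nat.mul g (Nat.add (Nat.mul (Nat.mul (Nat.add (Nat.mul
  (Nat.mul 33 (ab w 8388608)) Z) (Nat.mul (Nat.mul (ab 1632 (Nat.mul 9 G)) R) 16777216)) R)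
  18446744073709551616) (Nat.mul (Nat.mul Z Z) 935028563608189752311808)))))

noncomputable def vpar1 (k : Nat → Nat → Nat → Nat → Nat → Nat → Nat → Nat → Nat → Nat → Nat → Nat → Nat → Bool)
    (lo G R q w g ab2 pp pn W0 W1 W2 W3 W4 r0 r1 r2 r3 r4 : Nat) : Bool :=
  vpar2 k lo G R q (vF R) w g (Nat.mul R 1024) pp pn (Nat.mul g (sn (Nat.mul pp 9007199254740992)
  (Nat.add (Nat.mul pn 9007199254740992) ab2))) (Nat.mul (Nat.mul (sn 1632 (Nat.mul 9 G)) g)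
  1237940039285380274899124224) (Nat.mul (Nat.mul q g) 7652600929320960) (Nat.mul 255 (Nat.mul g
  g)) (sumA W0 W1 W2 W3 W4 2048 2048 2048 2048 2048 r0 r1 r2 r3 r4) W0 W1 W2 W3 W4 r0 r1 r2 r3 r4

noncomputable def vpar
    (lo G Q X R q w e ab2 W0 W1 W2 W3 W4 r0 r1 r2 r3 r4 : Nat) (k : Nat → Nat → Nat → Nat → Nat → Nat → Nat → Nat → Nat → Nat → Nat → Nat → Nat → Bool) : Bool :=
  vpar1 k lo G R q w (Nat.mul q q) ab2 (p0P Q X w e) (p0N G X e) W0 W1 W2 W3 W4 r0 r1 r2 r3 r4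

noncomputable def sstep2 (A : TM Nat) (k : TM Nat → Nat → Bool)
    (rem sg a b R C3 C4 u2 u4 s0 s1 s2 s3 s4 t0 t1 t2 t3 t4 x0 x1 x2 x3 x4 : Nat) : Bool :=
  Bool.and (Nat.ble (Nat.add (Nat.mul sg 4096) (Nat.mul 3 R)) 51539607552) (k (spart Nat.add
  Nat.mul A (sn (Nat.mul 6 (Nat.add C3 C4))
  215507185434265620706642550693012228946385189057069056000) (sn (Nat.add (Nat.mul 18 C3)
  (Nat.mul 24 C4)) (Nat.add (Nat.mul 6 a) (Nat.mul 12 b))) (sn (Nat.add (Nat.mul 27 C3) (Nat.mul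
  48 C4)) (Nat.add (Nat.mul 3 a) (Nat.mul 12 b))) (sn (Nat.add (Nat.mul 27 C3) (Nat.mul 64 C4))
  (Nat.add a (Nat.mul 8 b))) s0 s1 s2 s3 s4 (Nat.mul (Nat.mul 2 u2) x0) (Nat.mul (Nat.mul 2 u2)
  x1) (Nat.mul (Nat.mul 2 u2) x2) (Nat.mul (Nat.mul 2 u2) x3) (Nat.mul (Nat.mul 2 u2) x4)
  (Nat.mul u4 x0) (Nat.mul u4 x1) (Nat.mul u4 x2) (Nat.mul u4 x3) (Nat.mul u4 x4) (Nat.mul
  (Nat.mul u2 x0) t0) (Nat.mul (Nat.mul u2 x1) t1) (Nat.mul (Nat.mul u2 x2) t2) (Nat.mul (Nat.mul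
  u2 x3) t3) (Nat.mul (Nat.mul u2 x4) t4)) (Nat.add rem (Nat.mul (Nat.mul (Nat.mul (Nat.add
  (Nat.mul (Nat.pow sg 3) 11545804800) (Nat.mul 1275 (Nat.pow sg 4))) (Nat.pow R 4)) (Nat.add
  (Nat.div 21990232555520 (Nat.sub 85899345920 (Nat.mul 4 R))) 1)) 9007199254740992)))

noncomputable def sstep1 (A : TM Nat) (k : TM Nat → Nat → Bool)
    (rem sg aa bb G s0 s1 s2 s3 s4 t0 t1 t2 t3 t4 g0 g1 g2 g3 g4 : Nat) : Bool :=
  sstep2 A k rem sg (Nat.mul aa G) (Nat.mul bb G) (Nat.add (Nat.add (Nat.add (Nat.add s0 s1) s2)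
  s3) s4) (Nat.mul (Nat.pow sg 3) 22586491334626500184107659032107417600) (Nat.mul (Nat.pow sg 4)
  789186775044429925248191692800) (Nat.mul mo (Nat.add (Nat.mul 3 aa) (Nat.mul 6 bb))) (Nat.mul
  mo (Nat.add (Nat.mul 3 aa) (Nat.mul 12 bb))) s0 s1 s2 s3 s4 t0 t1 t2 t3 t4 (Nat.mul g0 t0)
  (Nat.mul g1 t1) (Nat.mul g2 t2) (Nat.mul g3 t3) (Nat.mul g4 t4)

noncomputable def sstep (A : TM Nat)
    (rem sg aa bb S0 S1 S2 S3 S4 r0 r1 r2 r3 r4 q0 q1 q2 q3 q4 : Nat) (k : TM Nat → Nat → Bool) : Bool :=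
  sstep1 A k rem sg aa bb (Nat.add (Nat.add (Nat.add (Nat.add (Nat.mul q0 q0) (Nat.mul q1 q1))
  (Nat.mul q2 q2)) (Nat.mul q3 q3)) (Nat.mul q4 q4)) (Nat.mul S0 r0) (Nat.mul S1 r1) (Nat.mul S2
  r2) (Nat.mul S3 r3) (Nat.mul S4 r4) (Nat.mul r0 1024) (Nat.mul r1 1024) (Nat.mul r2 1024)
  (Nat.mul r3 1024) (Nat.mul r4 1024) (Nat.mul q0 q0) (Nat.mul q1 q1) (Nat.mul q2 q2) (Nat.mul q3
  q3) (Nat.mul q4 q4)

def xt (x : Nat) : Nat :=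
  (Nat.land (Nat.add x hf) mo)

def az (x : Nat) : Nat :=
  (ab (xt x) hf)

def pz (x : Nat) : Nat :=
  (Nat.sub (xt x) hf)

noncomputable def fin (A : TM Nat) (rem : Nat) : Bool :=
  TM.rec (motive := fun _ => Bool) (fun
    c b0 b1 b2 b3 b4 h00 h01 h02 h03 h04 h11 h12 h13 h14 h22 h23 h24 h33 h34 h44 k000 k001 k002
    k003 k004 k011 k012 k013 k014 k022 k023 k024 k033 k034 k044 k111 k112 k113 k114 k122 k123
    k124 k133 k134 k144 k222 k223 k224 k233 k234 k244 k333 k334 k344 k444 =>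
    (Nat.ble (Nat.add (Nat.add (Nat.add (Nat.add (Nat.mul (xt c) 5070602400912917605986812821504)
    (Nat.mul (Nat.add (Nat.add (Nat.add (Nat.add (az b0) (az b1)) (az b2)) (az b3)) (az b4))
    295147905179352825856)) (Nat.mul (Nat.add (Nat.add (Nat.add (Nat.add (Nat.add (Nat.add
    (Nat.add (Nat.add (Nat.add (Nat.add (Nat.add (Nat.add (Nat.add (Nat.add (pz h00) (az h01))
    (az h02)) (az h03)) (az h04)) (pz h11)) (az h12)) (az h13)) (az h14)) (pz h22)) (az h23)) (az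
    h24)) (pz h33)) (az h34)) (pz h44)) 17179869184)) (Nat.add (Nat.add (Nat.add (Nat.add
    (Nat.add (Nat.add (Nat.add (Nat.add (Nat.add (Nat.add (Nat.add (Nat.add (Nat.add (Nat.add
    (Nat.add (Nat.add (Nat.add (Nat.add (Nat.add (Nat.add (Nat.add (Nat.add (Nat.add (Nat.add
    (Nat.add (Nat.add (Nat.add (Nat.add (Nat.add (Nat.add (Nat.add (Nat.add (Nat.add (Nat.add (az
    k000) (az k001)) (az k002)) (az k003)) (az k004)) (az k011)) (az k012)) (az k013)) (az k014))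
    (az k022)) (az k023)) (az k024)) (az k033)) (az k034)) (az k044)) (az k111)) (az k112)) (az
    k113)) (az k114)) (az k122)) (az k123)) (az k124)) (az k133)) (az k134)) (az k144)) (az
    k222)) (az k223)) (az k224)) (az k233)) (az k234)) (az k244)) (az k333)) (az k334)) (az
    k344)) (az k444))) rem)
    99895953610111751404211111353381321783955140565279076827493022708011895642232499843849795298031743077114461795885011932654335221737225129801285632)) A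

def l0 (x : Nat) : Nat :=
  (sn x 32768)

def l1 (x : Nat) : Nat :=
  (Nat.mul (sn x 32768) 17179869184)

noncomputable def qstep (A : TM Nat)
    (rem ex l0c l00 l01 l02 l03 l04 l1c l11 l12 l13 l14 l2c l22 l23 l24 l3c l33 l34 l4c l44 :
    Nat) : Bool :=
  Bool.and (Nat.ble ex 200) (fin (sqs Nat.add Nat.mul A (Nat.pow 2 ex) (l0 l0c) (l1 l00) (l1 l01)
  (l1 l02) (l1 l03) (l1 l04) (l0 l1c) (l1 l11) (l1 l12) (l1 l13) (l1 l14) (l0 l2c) (l1 l22) (l1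
  l23) (l1 l24) (l0 l3c) (l1 l33) (l1 l34) (l0 l4c) (l1 l44)) rem)

def zero : TM Nat :=
  TM.mk
    0 0 0 0 0 0 0 0 0 0 0 0 0 0 0 0 0 0 0 0 0 0 0 0 0 0 0 0 0 0 0 0 0 0 0 0 0 0 0 0 0 0 0 0 0 0 0
    0 0 0 0 0 0 0 0 0

noncomputable def leafC
    (lo0 lo1 lo2 lo3 lo4 G0 G1 G2 G3 G4 Q0 Q1 Q2 Q3 Q4 X0 X1 X2 X3 X4 R0 R1 R2 R3 R4 q0 q1 q2 q3
    q4 W00 W01 W02 W03 W04 W10 W11 W12 W13 W14 W20 W21 W22 W23 W24 W30 W31 W32 W33 W34 W40 W41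
    W42 W43 W44 w0 w1 w2 w3 w4 e0 e1 e2 e3 e4 S0 S1 S2 S3 S4 sg ex l0c l00 l01 l02 l03 l04 l1c
    l11 l12 l13 l14 l2c l22 l23 l24 l3c l33 l34 l4c l44 P0 P1 P2 P3 P4 N0 N1 N2 N3 N4 aa bb :
    Nat) : Bool :=
  estep zero 0
    (Nat.add (Nat.add (Nat.add 206158430208 N0) N1) (Nat.mul w0 65536)) (Nat.add (Nat.add P0 P1)
    (Nat.mul w1 65536)) (Nat.add W10 (Nat.mul 4 G0)) (Nat.add W11 (Nat.mul 4 G1)) W12 W13 W14 W00
    W01 W02 W03 W04 R0 R1 R2 R3 R4 fun A0 m0 =>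
  estep A0 m0
    (Nat.add (Nat.add (Nat.add 206158430208 N1) N2) (Nat.mul w1 65536)) (Nat.add (Nat.add P1 P2)
    (Nat.mul w2 65536)) W20 (Nat.add W21 (Nat.mul 4 G1)) (Nat.add W22 (Nat.mul 4 G2)) W23 W24 W10
    W11 W12 W13 W14 R0 R1 R2 R3 R4 fun A1 m1 =>
  estep A1 m1
    (Nat.add (Nat.add (Nat.add 206158430208 N2) N3) (Nat.mul w2 65536)) (Nat.add (Nat.add P2 P3)
    (Nat.mul w3 65536)) W30 W31 (Nat.add W32 (Nat.mul 4 G2)) (Nat.add W33 (Nat.mul 4 G3)) W34 W20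
    W21 W22 W23 W24 R0 R1 R2 R3 R4 fun A2 m2 =>
  estep A2 m2
    (Nat.add (Nat.add (Nat.add 206158430208 N3) N4) (Nat.mul w3 65536)) (Nat.add (Nat.add P3 P4)
    (Nat.mul w4 65536)) W40 W41 W42 (Nat.add W43 (Nat.mul 4 G3)) (Nat.add W44 (Nat.mul 4 G4)) W30
    W31 W32 W33 W34 R0 R1 R2 R3 R4 fun A3 m3 =>
  estep A3 m3
    (Nat.add (Nat.add (Nat.add 206158430208 N4) N0) (Nat.mul w4 65536)) (Nat.add (Nat.add P4 P0)
    (Nat.mul w0 65536)) (Nat.add W00 (Nat.mul 4 G0)) W01 W02 W03 (Nat.add W04 (Nat.mul 4 G4)) W40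
    W41 W42 W43 W44 R0 R1 R2 R3 R4 fun A4 m4 =>
  vpar lo0 G0 Q0 X0 R0 q0 w0 e0 (Nat.add aa bb) W00 W01 W02 W03 W04 R0 R1 R2 R3 R4
    fun v00 v01 v02 v03 v04 v05 v06 v07 v08 v09 v010 v011 n0 =>
  vpar lo1 G1 Q1 X1 R1 q1 w1 e1 (Nat.add aa bb) W10 W11 W12 W13 W14 R0 R1 R2 R3 R4
    fun v10 v11 v12 v13 v14 v15 v16 v17 v18 v19 v110 v111 n1 =>
  vpar lo2 G2 Q2 X2 R2 q2 w2 e2 (Nat.add aa bb) W20 W21 W22 W23 W24 R0 R1 R2 R3 R4
    fun v20 v21 v22 v23 v24 v25 v26 v27 v28 v29 v210 v211 n2 =>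
  vpar lo3 G3 Q3 X3 R3 q3 w3 e3 (Nat.add aa bb) W30 W31 W32 W33 W34 R0 R1 R2 R3 R4
    fun v30 v31 v32 v33 v34 v35 v36 v37 v38 v39 v310 v311 n3 =>
  vpar lo4 G4 Q4 X4 R4 q4 w4 e4 (Nat.add aa bb) W40 W41 W42 W43 W44 R0 R1 R2 R3 R4
    fun v40 v41 v42 v43 v44 v45 v46 v47 v48 v49 v410 v411 n4 =>
  sstep
    (vert4 Nat.add Nat.mul (vert3 Nat.add Nat.mul (vert2 Nat.add Nat.mul (vert1 Nat.add Nat.mul
    (vert0 Nat.add Nat.mul A4 v00 v01 v02 v03 v04 v05 v06 v07 v08 v09 v010 v011) v10 v11 v12 v13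
    v14 v15 v16 v17 v18 v19 v110 v111) v20 v21 v22 v23 v24 v25 v26 v27 v28 v29 v210 v211) v30 v31
    v32 v33 v34 v35 v36 v37 v38 v39 v310 v311) v40 v41 v42 v43 v44 v45 v46 v47 v48 v49 v410 v411)
    (Nat.add (Nat.add (Nat.add (Nat.add (Nat.add m4 n0) n1) n2) n3) n4) sg aa bb S0 S1 S2 S3 S4
    R0 R1 R2 R3 R4 q0 q1 q2 q3 q4 fun A5 m5 =>
  qstep A5 m5 ex l0c l00 l01 l02 l03 l04 l1c l11 l12 l13 l14 l2c l22 l23 l24 l3c l33 l34 l4c l44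

noncomputable def leafB
    (lo0 lo1 lo2 lo3 lo4 G0 G1 G2 G3 G4 Q0 Q1 Q2 Q3 Q4 X0 X1 X2 X3 X4 R0 R1 R2 R3 R4 q0 q1 q2 q3
    q4 W00 W01 W02 W03 W04 W10 W11 W12 W13 W14 W20 W21 W22 W23 W24 W30 W31 W32 W33 W34 W40 W41
    W42 W43 W44 w0 w1 w2 w3 w4 e0 e1 e2 e3 e4 S0 S1 S2 S3 S4 sg ex l0c l00 l01 l02 l03 l04 l1c
    l11 l12 l13 l14 l2c l22 l23 l24 l3c l33 l34 l4c l44 : Nat) : Bool :=
  leafC lo0 lo1 lo2 lo3 lo4 G0 G1 G2 G3 G4 Q0 Q1 Q2 Q3 Q4 X0 X1 X2 X3 X4 R0 R1 R2 R3 R4 q0 q1 q2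
  q3 q4 W00 W01 W02 W03 W04 W10 W11 W12 W13 W14 W20 W21 W22 W23 W24 W30 W31 W32 W33 W34 W40 W41
  W42 W43 W44 w0 w1 w2 w3 w4 e0 e1 e2 e3 e4 S0 S1 S2 S3 S4 sg ex l0c l00 l01 l02 l03 l04 l1c l11
  l12 l13 l14 l2c l22 l23 l24 l3c l33 l34 l4c l44 (vP G0 X0 e0) (vP G1 X1 e1) (vP G2 X2 e2) (vP
  G3 X3 e3) (vP G4 X4 e4) (vN Q0 e0) (vN Q1 e1) (vN Q2 e2) (vN Q3 e3) (vN Q4 e4) (Nat.mul sg
  770336032518110875484160) (Nat.mul (Nat.mul sg sg) 17944029765304320)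

noncomputable def leafA
    (h L0 L1 L2 L3 L4 lo0 lo1 lo2 lo3 lo4 G0 G1 G2 G3 G4 Q0 Q1 Q2 Q3 Q4 X0 X1 X2 X3 X4 R0 R1 R2
    R3 R4 q0 q1 q2 q3 q4 : Nat) : Bool :=
  Bool.and (okV lo0 L0 X0 R0 q0) (Bool.and (okV lo1 L1 X1 R1 q1) (Bool.and (okV lo2 L2 X2 R2 q2)
  (Bool.and (okV lo3 L3 X3 R3 q3) (Bool.and (okV lo4 L4 X4 R4 q4) (leafB lo0 lo1 lo2 lo3 lo4 G0
  G1 G2 G3 G4 Q0 Q1 Q2 Q3 Q4 X0 X1 X2 X3 X4 R0 R1 R2 R3 R4 q0 q1 q2 q3 q4 (fld h 0 4095) (fld h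
  12 4095) (fld h 24 4095) (fld h 36 4095) (fld h 48 4095) (fld h 60 4095) (fld h 72 4095) (fld h
  84 4095) (fld h 96 4095) (fld h 108 4095) (fld h 120 4095) (fld h 132 4095) (fld h 144 4095)
  (fld h 156 4095) (fld h 168 4095) (fld h 180 4095) (fld h 192 4095) (fld h 204 4095) (fld h 216
  4095) (fld h 228 4095) (fld h 240 4095) (fld h 252 4095) (fld h 264 4095) (fld h 276 4095) (fld
  h 288 4095) (fld h 300 16777215) (fld h 324 16777215) (fld h 348 16777215) (fld h 372 16777215)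
  (fld h 396 16777215) (fld h 420 511) (fld h 429 511) (fld h 438 511) (fld h 447 511) (fld h 456
  511) (fld h 465 1023) (fld h 475 1023) (fld h 485 1023) (fld h 495 1023) (fld h 505 1023) (fld
  h 515 16777215) (fld h 539 255) (fld h 547 65535) (fld h 563 65535) (fld h 579 65535) (fld h
  595 65535) (fld h 611 65535) (fld h 627 65535) (fld h 643 65535) (fld h 659 65535) (fld h 675
  65535) (fld h 691 65535) (fld h 707 65535) (fld h 723 65535) (fld h 739 65535) (fld h 755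
  65535) (fld h 771 65535) (fld h 787 65535) (fld h 803 65535) (fld h 819 65535) (fld h 835
  65535) (fld h 851 65535))))))

noncomputable def leaf (h lo0 hi0 lo1 hi1 lo2 hi2 lo3 hi3 lo4 hi4 : Nat) : Bool :=
  leafA h (vL hi0) (vL hi1) (vL hi2) (vL hi3) (vL hi4) lo0 lo1 lo2 lo3 lo4 (vG hi0) (vG hi1) (vG
  hi2) (vG hi3) (vG hi4) (vQ hi0) (vQ hi1) (vQ hi2) (vQ hi3) (vQ hi4) (Nat.add lo0 hi0) (Nat.add
  lo1 hi1) (Nat.add lo2 hi2) (Nat.add lo3 hi3) (Nat.add lo4 hi4) (vR lo0 hi0) (vR lo1 hi1) (vR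
  lo2 hi2) (vR lo3 hi3) (vR lo4 hi4) (vq (Nat.add lo0 hi0)) (vq (Nat.add lo1 hi1)) (vq (Nat.add
  lo2 hi2)) (vq (Nat.add lo3 hi3)) (vq (Nat.add lo4 hi4))

def spl (lo hi : Nat) : Nat :=
  (cond (Bool.and (Nat.blt lo 7864320) (Nat.blt 7864320 hi)) 7864320 (cond (Bool.and (Nat.blt lo
  6815744) (Nat.blt 6815744 hi)) 6815744 (cond (Bool.and (Nat.blt lo 8912896) (Nat.blt 8912896
  hi)) 8912896 (cond (Bool.and (Nat.blt lo 9437184) (Nat.blt 9437184 hi)) 9437184 (Nat.shiftRight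
  (Nat.add lo hi) 1)))))

def outB 
    (lo0 hi0 lo1 hi1 lo2 hi2 lo3 hi3 lo4 hi4 : Nat) : Bool :=
  (Bool.or (Bool.and (Nat.blt hi0 10080256) (Bool.or (Nat.ble hi0 lo1) (Bool.or (Nat.ble hi0 lo2)
  (Nat.ble hi0 lo3)))) (Bool.and (Nat.blt hi1 10080256) (Nat.ble hi1 lo4)))

def cenB 
    (lo0 hi0 lo1 hi1 lo2 hi2 lo3 hi3 lo4 hi4 : Nat) : Bool :=
  (Bool.and (Nat.ble 8387584 lo0) (Bool.and (Nat.ble hi0 8389632) (Bool.and (Nat.ble 8387584 lo1)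
  (Bool.and (Nat.ble hi1 8389632) (Bool.and (Nat.ble 8387584 lo2) (Bool.and (Nat.ble hi2 8389632)
  (Bool.and (Nat.ble 8387584 lo3) (Bool.and (Nat.ble hi3 8389632) (Bool.and (Nat.ble 8387584 lo4)
  (Nat.ble hi4 8389632))))))))))

noncomputable def chk (fuel : Nat) :
    Nat → Nat → Nat → Nat → Nat → Nat → Nat → Nat → Nat → Nat → Nat → Bool :=
  Nat.rec (motive := fun _ =>
      Nat → Nat → Nat → Nat → Nat → Nat → Nat → Nat → Nat → Nat → Nat → Bool)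
    (fun _ _ _ _ _ _ _ _ _ _ _ => false)
    (fun _ ih s lo0 hi0 lo1 hi1 lo2 hi2 lo3 hi3 lo4 hi4 =>
      force (Nat.land s 7) fun tag =>
      cond (Nat.ble tag 2)
        (cond (Nat.ble tag 0) (force (Nat.shiftRight s 3) fun h => leaf h lo0 hi0 lo1 hi1 lo2 hi2 lo3 hi3 lo4 hi4)
          (cond (Nat.ble tag 1) (outB lo0 hi0 lo1 hi1 lo2 hi2 lo3 hi3 lo4 hi4)
            (cenB lo0 hi0 lo1 hi1 lo2 hi2 lo3 hi3 lo4 hi4)))
        (force (Nat.land (Nat.shiftRight s 3) 1048575) fun len =>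
          force (Nat.shiftRight s 23) fun r2 =>
          force (Nat.mod r2 (Nat.shiftLeft 1 len)) fun l =>
          force (Nat.shiftRight r2 len) fun r =>
          cond (Nat.ble tag 4)
            (cond (Nat.ble tag 3) (force (spl lo0 hi0) fun m => Bool.and (ih l lo0 m lo1 hi1 lo2 hi2 lo3 hi3 lo4 hi4)
              (ih r m hi0 lo1 hi1 lo2 hi2 lo3 hi3 lo4 hi4))
              (force (spl lo1 hi1) fun m => Bool.and (ih l lo0 hi0 lo1 m lo2 hi2 lo3 hi3 lo4 hi4)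
              (ih r lo0 hi0 m hi1 lo2 hi2 lo3 hi3 lo4 hi4)))
            (cond (Nat.ble tag 5) (force (spl lo2 hi2) fun m => Bool.and (ih l lo0 hi0 lo1 hi1 lo2 m lo3 hi3 lo4 hi4)
              (ih r lo0 hi0 lo1 hi1 m hi2 lo3 hi3 lo4 hi4))
              (cond (Nat.ble tag 6) (force (spl lo3 hi3) fun m => Bool.and (ih l lo0 hi0 lo1 hi1 lo2 hi2 lo3 m lo4 hi4)
              (ih r lo0 hi0 lo1 hi1 lo2 hi2 m hi3 lo4 hi4))
              (force (spl lo4 hi4) fun m => Bool.and (ih l lo0 hi0 lo1 hi1 lo2 hi2 lo3 hi3 lo4 m)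
              (ih r lo0 hi0 lo1 hi1 lo2 hi2 lo3 hi3 m hi4))))))
    fuel

end Pool.Agent.Lib.RC5.X69
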