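import Mathlib
import Pool.Agent.Lib.RC5.RdChk

/-! Residues modulo `2 ^ 384` represent bounded integers; the operations on coefficients. -/

set_option linter.unusedVariables false
set_option exponentiation.threshold 400

namespace Pool.Agent.Lib.RC5.X69

theorem force_eq {α : Type} (n : ℕ) (k : ℕ → α) : force n k = k n := by cases n <;> rfl

/-- the natural number `x` represents the integer `z`, of size at most `b` -/
def Rel (x : ℕ) (z : ℝ) (b : ℕ) : Prop :=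
  ∃ j : ℤ, (j : ℝ) = z ∧ (x : ℤ) ≡ j [ZMOD 2 ^ 384] ∧ |j| ≤ b

abbrev ra (x y : ℝ) : ℝ := x + y

abbrev rm (x y : ℝ) : ℝ := x * y

namespace Rel
variable {x y b c : ℕ} {z w : ℝ}

theorem add (h : Rel x z b) (k : Rel y w c) : Rel (Nat.add x y) (z + w) (b + c) := by
  obtain ⟨i, rfl, h1, h2⟩ := h
  obtain ⟨j, rfl, k1, k2⟩ := k
  refine ⟨i + j, by push_cast; rfl, by simpa using h1.add k1, ?_⟩
  push_cast
  exact (abs_add_le i j).trans (add_le_add h2 k2)

theorem mul (h : Rel x z b) (k : Rel y w c) : Rel (Nat.mul x y) (z * w) (b * c) := by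
  obtain ⟨i, rfl, h1, h2⟩ := h
  obtain ⟨j, rfl, k1, k2⟩ := k
  refine ⟨i * j, by push_cast; rfl, by simpa using h1.mul k1, ?_⟩
  push_cast
  rw [abs_mul]
  exact mul_le_mul h2 k2 (abs_nonneg _) (by positivity)

theorem nat (h : x ≤ b) : Rel x x b :=
  ⟨x, by simp, rfl, by rw [abs_of_nonneg (by positivity)]; exact_mod_cast h⟩

theorem mono (h : Rel x z b) (k : b ≤ c) : Rel x z c := by
  obtain ⟨i, h0, h1, h2⟩ := h
  exact ⟨i, h0, h1, h2.trans (by exact_mod_cast k)⟩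

theorem cong (h : Rel x z b) (k : b ≤ c) (e : z = w) : Rel x w c := e ▸ h.mono k

theorem lit (n : ℕ) [n.AtLeastTwo] : Rel (OfNat.ofNat n) (OfNat.ofNat n) (OfNat.ofNat n) :=
  (nat le_rfl).cong le_rfl (by simp)

theorem neg : Rel mo (-1) 1 := ⟨-1, by simp, by decide +kernel, by simp⟩

theorem sn (h : Rel x z b) (k : Rel y w c) : Rel (sn x y) (z - w) (b + c) :=
  (h.add (neg.mul k)).cong (by omega) (by ring)

theorem acc {B D : ℕ} (h : Rel x z B) (k : Rel y w b) (l : b ≤ D) :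
    Rel (Nat.add x y) (z + w) (B + D) := h.add (k.mono l)

theorem keep {B D : ℕ} (h : Rel x z B) : Rel x z (B + D) := h.mono (Nat.le_add_right _ _)

theorem xt (h : Rel x z b) (hb : b < hf) : (xt x : ℝ) = z + hf := by
  obtain ⟨i, rfl, h1, h2⟩ := h
  have e1 : X69.xt x = (x + hf) % 2 ^ 384 := by
    have : mo = 2 ^ 384 - 1 := by decide +kernel
    rw [← Nat.and_two_pow_sub_one_eq_mod, ← this]; rfl
  have e2 : (2 : ℤ) ^ 384 = 2 * (hf : ℕ) := by decide +kernel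
  have hb' : (b : ℤ) < (hf : ℕ) := by exact_mod_cast hb
  have e3 : ((X69.xt x : ℕ) : ℤ) = i + (hf : ℕ) := by
    rw [e1, Int.natCast_mod, Nat.cast_add, Nat.cast_pow, Nat.cast_ofNat,
      (h1.add_right _ : _ % _ = _), Int.emod_eq_of_lt] <;> linarith [abs_le.1 h2]
  exact_mod_cast congrArg (Int.cast : ℤ → ℝ) e3

end Rel

theorem ab_cast (p n : ℕ) : (ab p n : ℝ) = |(p : ℝ) - n| := by
  change (((p - n) + (n - p) : ℕ) : ℝ) = _
  rcases le_total p n with h | h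
  · have : (p : ℝ) ≤ n := by exact_mod_cast h
    rw [Nat.sub_eq_zero_of_le h, zero_add, Nat.cast_sub h, abs_of_nonpos (by linarith)]; ring
  · have : (n : ℝ) ≤ p := by exact_mod_cast h
    rw [Nat.sub_eq_zero_of_le h, add_zero, Nat.cast_sub h, abs_of_nonneg (by linarith)]

theorem le_tsub_cast (p n : ℕ) : (p : ℝ) - n ≤ (Nat.sub p n : ℕ) := by
  have : p ≤ Nat.sub p n + n := le_tsub_add
  have : (p : ℝ) ≤ (Nat.sub p n : ℕ) + n := by exact_mod_cast this
  linarith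

theorem Rel.az {x b : ℕ} {z m : ℝ} (h : Rel x z b) (hb : b < hf) (hm : |m| ≤ 1) :
    z * m ≤ az x := by
  have : (X69.az x : ℝ) = |z| := by
    rw [X69.az, ab_cast, h.xt hb, add_sub_cancel_right]
  rw [this]
  refine (le_abs_self _).trans ?_
  rw [abs_mul]
  exact mul_le_of_le_one_right (abs_nonneg _) hm

theorem Rel.pz {x b : ℕ} {z m : ℝ} (h : Rel x z b) (hb : b < hf) (hm : |m| ≤ 1) :
    z * (m * m) ≤ pz x := by
  have h1 := le_tsub_cast (X69.xt x) hf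
  rw [h.xt hb, add_sub_cancel_right] at h1
  have h2 : (0 : ℝ) ≤ (X69.pz x : ℕ) := Nat.cast_nonneg _
  have h3 : m * m ≤ 1 := by nlinarith [abs_le.1 hm]
  change z ≤ (X69.pz x : ℕ) at h1
  nlinarith [mul_self_nonneg m]

def bA : ℕ := 2 ^ 40

def bL : ℕ := 2 ^ 51

def bC : ℕ := 2 ^ 210

def bE : ℕ := 2 ^ 255

def bF : ℕ := 2 ^ 295

def bD : ℕ := 2 ^ 340

/-- value of the polynomial -/
def TM.ev (Z : TM ℝ) (v0 v1 v2 v3 v4 : ℝ) : ℝ :=
  Z.c + Z.b0 * v0 + Z.b1 * v1 + Z.b2 * v2 + Z.b3 * v3 + Z.b4 * v4 + Z.h00 * v0 * v0 + Z.h01 * v0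
  * v1 + Z.h02 * v0 * v2 + Z.h03 * v0 * v3 + Z.h04 * v0 * v4 + Z.h11 * v1 * v1 + Z.h12 * v1 * v2
  + Z.h13 * v1 * v3 + Z.h14 * v1 * v4 + Z.h22 * v2 * v2 + Z.h23 * v2 * v3 + Z.h24 * v2 * v4 +
  Z.h33 * v3 * v3 + Z.h34 * v3 * v4 + Z.h44 * v4 * v4 + Z.k000 * v0 * v0 * v0 + Z.k001 * v0 * v0
  * v1 + Z.k002 * v0 * v0 * v2 + Z.k003 * v0 * v0 * v3 + Z.k004 * v0 * v0 * v4 + Z.k011 * v0 * v1
  * v1 + Z.k012 * v0 * v1 * v2 + Z.k013 * v0 * v1 * v3 + Z.k014 * v0 * v1 * v4 + Z.k022 * v0 * v2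
  * v2 + Z.k023 * v0 * v2 * v3 + Z.k024 * v0 * v2 * v4 + Z.k033 * v0 * v3 * v3 + Z.k034 * v0 * v3
  * v4 + Z.k044 * v0 * v4 * v4 + Z.k111 * v1 * v1 * v1 + Z.k112 * v1 * v1 * v2 + Z.k113 * v1 * v1
  * v3 + Z.k114 * v1 * v1 * v4 + Z.k122 * v1 * v2 * v2 + Z.k123 * v1 * v2 * v3 + Z.k124 * v1 * v2
  * v4 + Z.k133 * v1 * v3 * v3 + Z.k134 * v1 * v3 * v4 + Z.k144 * v1 * v4 * v4 + Z.k222 * v2 * v2
  * v2 + Z.k223 * v2 * v2 * v3 + Z.k224 * v2 * v2 * v4 + Z.k233 * v2 * v3 * v3 + Z.k234 * v2 * v3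
  * v4 + Z.k244 * v2 * v4 * v4 + Z.k333 * v3 * v3 * v3 + Z.k334 * v3 * v3 * v4 + Z.k344 * v3 * v4
  * v4 + Z.k444 * v4 * v4 * v4

/-- all coefficients are represented -/
structure RT (X : TM ℕ) (Z : TM ℝ) (B : ℕ) : Prop where
  c : Rel X.c Z.c B
  b0 : Rel X.b0 Z.b0 B
  b1 : Rel X.b1 Z.b1 B
  b2 : Rel X.b2 Z.b2 B
  b3 : Rel X.b3 Z.b3 B
  b4 : Rel X.b4 Z.b4 B
  h00 : Rel X.h00 Z.h00 B
  h01 : Rel X.h01 Z.h01 B
  h02 : Rel X.h02 Z.h02 B
  h03 : Rel X.h03 Z.h03 B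
  h04 : Rel X.h04 Z.h04 B
  h11 : Rel X.h11 Z.h11 B
  h12 : Rel X.h12 Z.h12 B
  h13 : Rel X.h13 Z.h13 B
  h14 : Rel X.h14 Z.h14 B
  h22 : Rel X.h22 Z.h22 B
  h23 : Rel X.h23 Z.h23 B
  h24 : Rel X.h24 Z.h24 B
  h33 : Rel X.h33 Z.h33 B
  h34 : Rel X.h34 Z.h34 B
  h44 : Rel X.h44 Z.h44 B
  k000 : Rel X.k000 Z.k000 B
  k001 : Rel X.k001 Z.k001 B
  k002 : Rel X.k002 Z.k002 B
  k003 : Rel X.k003 Z.k003 B
  k004 : Rel X.k004 Z.k004 B
  k011 : Rel X.k011 Z.k011 B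
  k012 : Rel X.k012 Z.k012 B
  k013 : Rel X.k013 Z.k013 B
  k014 : Rel X.k014 Z.k014 B
  k022 : Rel X.k022 Z.k022 B
  k023 : Rel X.k023 Z.k023 B
  k024 : Rel X.k024 Z.k024 B
  k033 : Rel X.k033 Z.k033 B
  k034 : Rel X.k034 Z.k034 B
  k044 : Rel X.k044 Z.k044 B
  k111 : Rel X.k111 Z.k111 B
  k112 : Rel X.k112 Z.k112 B
  k113 : Rel X.k113 Z.k113 B
  k114 : Rel X.k114 Z.k114 B
  k122 : Rel X.k122 Z.k122 B
  k123 : Rel X.k123 Z.k123 B
  k124 : Rel X.k124 Z.k124 B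
  k133 : Rel X.k133 Z.k133 B
  k134 : Rel X.k134 Z.k134 B
  k144 : Rel X.k144 Z.k144 B
  k222 : Rel X.k222 Z.k222 B
  k223 : Rel X.k223 Z.k223 B
  k224 : Rel X.k224 Z.k224 B
  k233 : Rel X.k233 Z.k233 B
  k234 : Rel X.k234 Z.k234 B
  k244 : Rel X.k244 Z.k244 B
  k333 : Rel X.k333 Z.k333 B
  k334 : Rel X.k334 Z.k334 B
  k344 : Rel X.k344 Z.k344 B
  k444 : Rel X.k444 Z.k444 B

theorem rt_edge {X : TM ℕ} {Z : TM ℝ} {B : ℕ} (H : RT X Z B)
    {c0 a0 a1 a2 a3 a4 : ℕ}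
    {c0' a0' a1' a2' a3' a4' : ℝ}
    (hc0 : Rel c0 c0' bC) (ha0 : Rel a0 a0' bA) (ha1 : Rel a1 a1' bA) (ha2 : Rel a2 a2' bA) (ha3
    : Rel a3 a3' bA) (ha4 : Rel a4 a4' bA) :
    RT (edge Nat.add Nat.mul X 3 6 c0 a0 a1 a2 a3 a4) (edge ra rm Z 3 6 c0' a0' a1' a2' a3' a4')
    (B + bD) := by
  cases X
  cases Z
  have hk3 := Rel.lit 3
  have hk6 := Rel.lit 6
  have hc6 := (hk6.mul hc0)
  have hp0 := (hc0.mul ha0)
  have hp1 := (hc0.mul ha1)
  have hp2 := (hc0.mul ha2)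
  have hp3 := (hc0.mul ha3)
  have hp4 := (hc0.mul ha4)
  have hs0 := (hc6.mul ha0)
  have hs1 := (hc6.mul ha1)
  have hs2 := (hc6.mul ha2)
  have hs3 := (hc6.mul ha3)
  have hs4 := (hc6.mul ha4)
  have hd0 := (hp0.mul ha0)
  have hd1 := (hp1.mul ha1)
  have hd2 := (hp2.mul ha2)
  have hd3 := (hp3.mul ha3)
  have hd4 := (hp4.mul ha4)
  have he0 := (hk3.mul hd0)
  have he1 := (hk3.mul hd1)
  have he2 := (hk3.mul hd2)
  have he3 := (hk3.mul hd3)
  have he4 := (hk3.mul hd4)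
  have ho01 := (hs0.mul ha1)
  have ho02 := (hs0.mul ha2)
  have ho03 := (hs0.mul ha3)
  have ho04 := (hs0.mul ha4)
  have ho12 := (hs1.mul ha2)
  have ho13 := (hs1.mul ha3)
  have ho14 := (hs1.mul ha4)
  have ho23 := (hs2.mul ha3)
  have ho24 := (hs2.mul ha4)
  have ho34 := (hs3.mul ha4)
  dsimp only [edge, edge_1, edge_2, edge_3]
  exact ⟨
    H.c.acc hc6 (by decide +kernel), H.b0.acc hs0 (by decide +kernel), H.b1.acc hs1
    (by decide +kernel), H.b2.acc hs2 (by decide +kernel), H.b3.acc hs3 (by decide +kernel),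
    H.b4.acc hs4 (by decide +kernel), H.h00.acc he0 (by decide +kernel), H.h01.acc ho01
    (by decide +kernel), H.h02.acc ho02 (by decide +kernel), H.h03.acc ho03 (by decide +kernel),
    H.h04.acc ho04 (by decide +kernel), H.h11.acc he1 (by decide +kernel), H.h12.acc ho12
    (by decide +kernel), H.h13.acc ho13 (by decide +kernel), H.h14.acc ho14 (by decide +kernel),
    H.h22.acc he2 (by decide +kernel), H.h23.acc ho23 (by decide +kernel), H.h24.acc ho24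
    (by decide +kernel), H.h33.acc he3 (by decide +kernel), H.h34.acc ho34 (by decide +kernel),
    H.h44.acc he4 (by decide +kernel), H.k000.acc (hd0.mul ha0) (by decide +kernel), H.k001.acc
    (he0.mul ha1) (by decide +kernel), H.k002.acc (he0.mul ha2) (by decide +kernel), H.k003.acc
    (he0.mul ha3) (by decide +kernel), H.k004.acc (he0.mul ha4) (by decide +kernel), H.k011.acc
    (he1.mul ha0) (by decide +kernel), H.k012.acc (ho01.mul ha2) (by decide +kernel), H.k013.acc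
    (ho01.mul ha3) (by decide +kernel), H.k014.acc (ho01.mul ha4) (by decide +kernel), H.k022.acc
    (he2.mul ha0) (by decide +kernel), H.k023.acc (ho02.mul ha3) (by decide +kernel), H.k024.acc
    (ho02.mul ha4) (by decide +kernel), H.k033.acc (he3.mul ha0) (by decide +kernel), H.k034.acc
    (ho03.mul ha4) (by decide +kernel), H.k044.acc (he4.mul ha0) (by decide +kernel), H.k111.acc
    (hd1.mul ha1) (by decide +kernel), H.k112.acc (he1.mul ha2) (by decide +kernel), H.k113.acc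
    (he1.mul ha3) (by decide +kernel), H.k114.acc (he1.mul ha4) (by decide +kernel), H.k122.acc
    (he2.mul ha1) (by decide +kernel), H.k123.acc (ho12.mul ha3) (by decide +kernel), H.k124.acc
    (ho12.mul ha4) (by decide +kernel), H.k133.acc (he3.mul ha1) (by decide +kernel), H.k134.acc
    (ho13.mul ha4) (by decide +kernel), H.k144.acc (he4.mul ha1) (by decide +kernel), H.k222.acc
    (hd2.mul ha2) (by decide +kernel), H.k223.acc (he2.mul ha3) (by decide +kernel), H.k224.acc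
    (he2.mul ha4) (by decide +kernel), H.k233.acc (he3.mul ha2) (by decide +kernel), H.k234.acc
    (ho23.mul ha4) (by decide +kernel), H.k244.acc (he4.mul ha2) (by decide +kernel), H.k333.acc
    (hd3.mul ha3) (by decide +kernel), H.k334.acc (he3.mul ha4) (by decide +kernel), H.k344.acc
    (he4.mul ha3) (by decide +kernel), H.k444.acc (hd4.mul ha4) (by decide +kernel)⟩

theorem ev_edge (Z : TM ℝ)
    (c0 a0 a1 a2 a3 a4 v0 v1 v2 v3 v4 : ℝ) :
    (edge ra rm Z 3 6 c0 a0 a1 a2 a3 a4).ev v0 v1 v2 v3 v4 = Z.ev v0 v1 v2 v3 v4 + c0 * (6 + 6 *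
    (a0 * v0 + a1 * v1 + a2 * v2 + a3 * v3 + a4 * v4) + 3 * (a0 * v0 + a1 * v1 + a2 * v2 + a3 *
    v3 + a4 * v4) ^ 2 + (a0 * v0 + a1 * v1 + a2 * v2 + a3 * v3 + a4 * v4) ^ 3) := by
  cases Z
  dsimp only [edge, edge_1, edge_2, edge_3, TM.ev]
  ring

theorem rt_vert0 {X : TM ℕ} {Z : TM ℝ} {B : ℕ} (H : RT X Z B)
    {v0 v1 v2 v3 m n t z0 z1 z2 z3 z4 : ℕ}
    {v0' v1' v2' v3' m' n' t' z0' z1' z2' z3' z4' : ℝ}
    (hv0 : Rel v0 v0' bD) (hv1 : Rel v1 v1' bD) (hv2 : Rel v2 v2' bD) (hv3 : Rel v3 v3' bD) (hm :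
    Rel m m' bC) (hn : Rel n n' bC) (ht : Rel t t' bA) (hz0 : Rel z0 z0' bA) (hz1 : Rel z1 z1'
    bA) (hz2 : Rel z2 z2' bA) (hz3 : Rel z3 z3' bA) (hz4 : Rel z4 z4' bA) :
    RT (vert0 Nat.add Nat.mul X v0 v1 v2 v3 m n t z0 z1 z2 z3 z4) (vert0 ra rm Z v0' v1' v2' v3'
    m' n' t' z0' z1' z2' z3' z4') (B + 2 * bD) := by
  cases X
  cases Z
  have hy0 := (hm.mul hz0)
  have hy1 := (hm.mul hz1)
  have hy2 := (hm.mul hz2)
  have hy3 := (hm.mul hz3)
  have hy4 := (hm.mul hz4)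
  have hn0 := (hn.mul hz0)
  have hn1 := (hn.mul hz1)
  have hn2 := (hn.mul hz2)
  have hn3 := (hn.mul hz3)
  have hn4 := (hn.mul hz4)
  have hr0 := (hn0.mul ht)
  have hr1 := (hn1.mul ht)
  have hr2 := (hn2.mul ht)
  have hr3 := (hn3.mul ht)
  have hr4 := (hn4.mul ht)
  have hq00 := (hy0.mul hz0)
  have hq01 := ((hy0.add hy0).mul hz1)
  have hq02 := ((hy0.add hy0).mul hz2)
  have hq03 := ((hy0.add hy0).mul hz3)
  have hq04 := ((hy0.add hy0).mul hz4)
  have hq11 := (hy1.mul hz1)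
  have hq12 := ((hy1.add hy1).mul hz2)
  have hq13 := ((hy1.add hy1).mul hz3)
  have hq14 := ((hy1.add hy1).mul hz4)
  have hq22 := (hy2.mul hz2)
  have hq23 := ((hy2.add hy2).mul hz3)
  have hq24 := ((hy2.add hy2).mul hz4)
  have hq33 := (hy3.mul hz3)
  have hq34 := ((hy3.add hy3).mul hz4)
  have hq44 := (hy4.mul hz4)
  dsimp only [vert0, vert0_1, vert0_2]
  exact ⟨
    H.c.acc hv0 (by decide +kernel), H.b0.acc ((hn0.add hn0).add hv1) (by decide +kernel),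
    H.b1.acc (hn1.add hn1) (by decide +kernel), H.b2.acc (hn2.add hn2) (by decide +kernel),
    H.b3.acc (hn3.add hn3) (by decide +kernel), H.b4.acc (hn4.add hn4) (by decide +kernel),
    H.h00.acc ((hq00.add (hr0.add hr0)).add hv2) (by decide +kernel), H.h01.acc (hq01.add
    (hr1.add hr1)) (by decide +kernel), H.h02.acc (hq02.add (hr2.add hr2)) (by decide +kernel),
    H.h03.acc (hq03.add (hr3.add hr3)) (by decide +kernel), H.h04.acc (hq04.add (hr4.add hr4))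
    (by decide +kernel), H.h11.acc hq11 (by decide +kernel), H.h12.acc hq12 (by decide +kernel),
    H.h13.acc hq13 (by decide +kernel), H.h14.acc hq14 (by decide +kernel), H.h22.acc hq22
    (by decide +kernel), H.h23.acc hq23 (by decide +kernel), H.h24.acc hq24 (by decide +kernel),
    H.h33.acc hq33 (by decide +kernel), H.h34.acc hq34 (by decide +kernel), H.h44.acc hq44
    (by decide +kernel), H.k000.acc (((hq00.add hr0).mul ht).add hv3) (by decide +kernel),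
    H.k001.acc ((hq01.add hr1).mul ht) (by decide +kernel), H.k002.acc ((hq02.add hr2).mul ht)
    (by decide +kernel), H.k003.acc ((hq03.add hr3).mul ht) (by decide +kernel), H.k004.acc
    ((hq04.add hr4).mul ht) (by decide +kernel), H.k011.acc (hq11.mul ht) (by decide +kernel),
    H.k012.acc (hq12.mul ht) (by decide +kernel), H.k013.acc (hq13.mul ht) (by decide +kernel),
    H.k014.acc (hq14.mul ht) (by decide +kernel), H.k022.acc (hq22.mul ht) (by decide +kernel),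
    H.k023.acc (hq23.mul ht) (by decide +kernel), H.k024.acc (hq24.mul ht) (by decide +kernel),
    H.k033.acc (hq33.mul ht) (by decide +kernel), H.k034.acc (hq34.mul ht) (by decide +kernel),
    H.k044.acc (hq44.mul ht) (by decide +kernel), H.k111.keep, H.k112.keep, H.k113.keep,
    H.k114.keep, H.k122.keep, H.k123.keep, H.k124.keep, H.k133.keep, H.k134.keep, H.k144.keep,
    H.k222.keep, H.k223.keep, H.k224.keep, H.k233.keep, H.k234.keep, H.k244.keep, H.k333.keep,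
    H.k334.keep, H.k344.keep, H.k444.keep⟩

theorem ev_vert0 (Z : TM ℝ)
    (u0 u1 u2 u3 m n t z0 z1 z2 z3 z4 v0 v1 v2 v3 v4 : ℝ) :
    (vert0 ra rm Z u0 u1 u2 u3 m n t z0 z1 z2 z3 z4).ev v0 v1 v2 v3 v4 = Z.ev v0 v1 v2 v3 v4 +
    (u0 + u1 * v0 + u2 * v0 ^ 2 + u3 * v0 ^ 3 + m * (z0 * v0 + z1 * v1 + z2 * v2 + z3 * v3 + z4 *
    v4) ^ 2 * (1 + t * v0) + n * (z0 * v0 + z1 * v1 + z2 * v2 + z3 * v3 + z4 * v4) * (2 + 2 * (t
    * v0) + (t * v0) ^ 2)) := by
  cases Z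
  dsimp only [vert0, vert0_1, vert0_2, TM.ev]
  ring

theorem rt_vert1 {X : TM ℕ} {Z : TM ℝ} {B : ℕ} (H : RT X Z B)
    {v0 v1 v2 v3 m n t z0 z1 z2 z3 z4 : ℕ}
    {v0' v1' v2' v3' m' n' t' z0' z1' z2' z3' z4' : ℝ}
    (hv0 : Rel v0 v0' bD) (hv1 : Rel v1 v1' bD) (hv2 : Rel v2 v2' bD) (hv3 : Rel v3 v3' bD) (hm :
    Rel m m' bC) (hn : Rel n n' bC) (ht : Rel t t' bA) (hz0 : Rel z0 z0' bA) (hz1 : Rel z1 z1'
    bA) (hz2 : Rel z2 z2' bA) (hz3 : Rel z3 z3' bA) (hz4 : Rel z4 z4' bA) :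
    RT (vert1 Nat.add Nat.mul X v0 v1 v2 v3 m n t z0 z1 z2 z3 z4) (vert1 ra rm Z v0' v1' v2' v3'
    m' n' t' z0' z1' z2' z3' z4') (B + 2 * bD) := by
  cases X
  cases Z
  have hy0 := (hm.mul hz0)
  have hy1 := (hm.mul hz1)
  have hy2 := (hm.mul hz2)
  have hy3 := (hm.mul hz3)
  have hy4 := (hm.mul hz4)
  have hn0 := (hn.mul hz0)
  have hn1 := (hn.mul hz1)
  have hn2 := (hn.mul hz2)
  have hn3 := (hn.mul hz3)
  have hn4 := (hn.mul hz4)
  have hr0 := (hn0.mul ht)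
  have hr1 := (hn1.mul ht)
  have hr2 := (hn2.mul ht)
  have hr3 := (hn3.mul ht)
  have hr4 := (hn4.mul ht)
  have hq00 := (hy0.mul hz0)
  have hq01 := ((hy0.add hy0).mul hz1)
  have hq02 := ((hy0.add hy0).mul hz2)
  have hq03 := ((hy0.add hy0).mul hz3)
  have hq04 := ((hy0.add hy0).mul hz4)
  have hq11 := (hy1.mul hz1)
  have hq12 := ((hy1.add hy1).mul hz2)
  have hq13 := ((hy1.add hy1).mul hz3)
  have hq14 := ((hy1.add hy1).mul hz4)
  have hq22 := (hy2.mul hz2)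
  have hq23 := ((hy2.add hy2).mul hz3)
  have hq24 := ((hy2.add hy2).mul hz4)
  have hq33 := (hy3.mul hz3)
  have hq34 := ((hy3.add hy3).mul hz4)
  have hq44 := (hy4.mul hz4)
  dsimp only [vert1, vert1_1, vert1_2]
  exact ⟨
    H.c.acc hv0 (by decide +kernel), H.b0.acc (hn0.add hn0) (by decide +kernel), H.b1.acc
    ((hn1.add hn1).add hv1) (by decide +kernel), H.b2.acc (hn2.add hn2) (by decide +kernel),
    H.b3.acc (hn3.add hn3) (by decide +kernel), H.b4.acc (hn4.add hn4) (by decide +kernel),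
    H.h00.acc hq00 (by decide +kernel), H.h01.acc (hq01.add (hr0.add hr0)) (by decide +kernel),
    H.h02.acc hq02 (by decide +kernel), H.h03.acc hq03 (by decide +kernel), H.h04.acc hq04
    (by decide +kernel), H.h11.acc ((hq11.add (hr1.add hr1)).add hv2) (by decide +kernel),
    H.h12.acc (hq12.add (hr2.add hr2)) (by decide +kernel), H.h13.acc (hq13.add (hr3.add hr3))
    (by decide +kernel), H.h14.acc (hq14.add (hr4.add hr4)) (by decide +kernel), H.h22.acc hq22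
    (by decide +kernel), H.h23.acc hq23 (by decide +kernel), H.h24.acc hq24 (by decide +kernel),
    H.h33.acc hq33 (by decide +kernel), H.h34.acc hq34 (by decide +kernel), H.h44.acc hq44
    (by decide +kernel), H.k000.keep, H.k001.acc (hq00.mul ht) (by decide +kernel), H.k002.keep,
    H.k003.keep, H.k004.keep, H.k011.acc ((hq01.add hr0).mul ht) (by decide +kernel), H.k012.acc
    (hq02.mul ht) (by decide +kernel), H.k013.acc (hq03.mul ht) (by decide +kernel), H.k014.acc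
    (hq04.mul ht) (by decide +kernel), H.k022.keep, H.k023.keep, H.k024.keep, H.k033.keep,
    H.k034.keep, H.k044.keep, H.k111.acc (((hq11.add hr1).mul ht).add hv3) (by decide +kernel),
    H.k112.acc ((hq12.add hr2).mul ht) (by decide +kernel), H.k113.acc ((hq13.add hr3).mul ht)
    (by decide +kernel), H.k114.acc ((hq14.add hr4).mul ht) (by decide +kernel), H.k122.acc
    (hq22.mul ht) (by decide +kernel), H.k123.acc (hq23.mul ht) (by decide +kernel), H.k124.acc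
    (hq24.mul ht) (by decide +kernel), H.k133.acc (hq33.mul ht) (by decide +kernel), H.k134.acc
    (hq34.mul ht) (by decide +kernel), H.k144.acc (hq44.mul ht) (by decide +kernel), H.k222.keep,
    H.k223.keep, H.k224.keep, H.k233.keep, H.k234.keep, H.k244.keep, H.k333.keep, H.k334.keep,
    H.k344.keep, H.k444.keep⟩

theorem ev_vert1 (Z : TM ℝ)
    (u0 u1 u2 u3 m n t z0 z1 z2 z3 z4 v0 v1 v2 v3 v4 : ℝ) :
    (vert1 ra rm Z u0 u1 u2 u3 m n t z0 z1 z2 z3 z4).ev v0 v1 v2 v3 v4 = Z.ev v0 v1 v2 v3 v4 +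
    (u0 + u1 * v1 + u2 * v1 ^ 2 + u3 * v1 ^ 3 + m * (z0 * v0 + z1 * v1 + z2 * v2 + z3 * v3 + z4 *
    v4) ^ 2 * (1 + t * v1) + n * (z0 * v0 + z1 * v1 + z2 * v2 + z3 * v3 + z4 * v4) * (2 + 2 * (t
    * v1) + (t * v1) ^ 2)) := by
  cases Z
  dsimp only [vert1, vert1_1, vert1_2, TM.ev]
  ring

theorem rt_vert2 {X : TM ℕ} {Z : TM ℝ} {B : ℕ} (H : RT X Z B)
    {v0 v1 v2 v3 m n t z0 z1 z2 z3 z4 : ℕ}
    {v0' v1' v2' v3' m' n' t' z0' z1' z2' z3' z4' : ℝ}
    (hv0 : Rel v0 v0' bD) (hv1 : Rel v1 v1' bD) (hv2 : Rel v2 v2' bD) (hv3 : Rel v3 v3' bD) (hm :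
    Rel m m' bC) (hn : Rel n n' bC) (ht : Rel t t' bA) (hz0 : Rel z0 z0' bA) (hz1 : Rel z1 z1'
    bA) (hz2 : Rel z2 z2' bA) (hz3 : Rel z3 z3' bA) (hz4 : Rel z4 z4' bA) :
    RT (vert2 Nat.add Nat.mul X v0 v1 v2 v3 m n t z0 z1 z2 z3 z4) (vert2 ra rm Z v0' v1' v2' v3'
    m' n' t' z0' z1' z2' z3' z4') (B + 2 * bD) := by
  cases X
  cases Z
  have hy0 := (hm.mul hz0)
  have hy1 := (hm.mul hz1)
  have hy2 := (hm.mul hz2)
  have hy3 := (hm.mul hz3)
  have hy4 := (hm.mul hz4)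
  have hn0 := (hn.mul hz0)
  have hn1 := (hn.mul hz1)
  have hn2 := (hn.mul hz2)
  have hn3 := (hn.mul hz3)
  have hn4 := (hn.mul hz4)
  have hr0 := (hn0.mul ht)
  have hr1 := (hn1.mul ht)
  have hr2 := (hn2.mul ht)
  have hr3 := (hn3.mul ht)
  have hr4 := (hn4.mul ht)
  have hq00 := (hy0.mul hz0)
  have hq01 := ((hy0.add hy0).mul hz1)
  have hq02 := ((hy0.add hy0).mul hz2)
  have hq03 := ((hy0.add hy0).mul hz3)
  have hq04 := ((hy0.add hy0).mul hz4)
  have hq11 := (hy1.mul hz1)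
  have hq12 := ((hy1.add hy1).mul hz2)
  have hq13 := ((hy1.add hy1).mul hz3)
  have hq14 := ((hy1.add hy1).mul hz4)
  have hq22 := (hy2.mul hz2)
  have hq23 := ((hy2.add hy2).mul hz3)
  have hq24 := ((hy2.add hy2).mul hz4)
  have hq33 := (hy3.mul hz3)
  have hq34 := ((hy3.add hy3).mul hz4)
  have hq44 := (hy4.mul hz4)
  dsimp only [vert2, vert2_1, vert2_2]
  exact ⟨
    H.c.acc hv0 (by decide +kernel), H.b0.acc (hn0.add hn0) (by decide +kernel), H.b1.acc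
    (hn1.add hn1) (by decide +kernel), H.b2.acc ((hn2.add hn2).add hv1) (by decide +kernel),
    H.b3.acc (hn3.add hn3) (by decide +kernel), H.b4.acc (hn4.add hn4) (by decide +kernel),
    H.h00.acc hq00 (by decide +kernel), H.h01.acc hq01 (by decide +kernel), H.h02.acc (hq02.add
    (hr0.add hr0)) (by decide +kernel), H.h03.acc hq03 (by decide +kernel), H.h04.acc hq04
    (by decide +kernel), H.h11.acc hq11 (by decide +kernel), H.h12.acc (hq12.add (hr1.add hr1))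
    (by decide +kernel), H.h13.acc hq13 (by decide +kernel), H.h14.acc hq14 (by decide +kernel),
    H.h22.acc ((hq22.add (hr2.add hr2)).add hv2) (by decide +kernel), H.h23.acc (hq23.add
    (hr3.add hr3)) (by decide +kernel), H.h24.acc (hq24.add (hr4.add hr4)) (by decide +kernel),
    H.h33.acc hq33 (by decide +kernel), H.h34.acc hq34 (by decide +kernel), H.h44.acc hq44
    (by decide +kernel), H.k000.keep, H.k001.keep, H.k002.acc (hq00.mul ht) (by decide +kernel),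
    H.k003.keep, H.k004.keep, H.k011.keep, H.k012.acc (hq01.mul ht) (by decide +kernel),
    H.k013.keep, H.k014.keep, H.k022.acc ((hq02.add hr0).mul ht) (by decide +kernel), H.k023.acc
    (hq03.mul ht) (by decide +kernel), H.k024.acc (hq04.mul ht) (by decide +kernel), H.k033.keep,
    H.k034.keep, H.k044.keep, H.k111.keep, H.k112.acc (hq11.mul ht) (by decide +kernel),
    H.k113.keep, H.k114.keep, H.k122.acc ((hq12.add hr1).mul ht) (by decide +kernel), H.k123.acc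
    (hq13.mul ht) (by decide +kernel), H.k124.acc (hq14.mul ht) (by decide +kernel), H.k133.keep,
    H.k134.keep, H.k144.keep, H.k222.acc (((hq22.add hr2).mul ht).add hv3) (by decide +kernel),
    H.k223.acc ((hq23.add hr3).mul ht) (by decide +kernel), H.k224.acc ((hq24.add hr4).mul ht)
    (by decide +kernel), H.k233.acc (hq33.mul ht) (by decide +kernel), H.k234.acc (hq34.mul ht)
    (by decide +kernel), H.k244.acc (hq44.mul ht) (by decide +kernel), H.k333.keep, H.k334.keep,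
    H.k344.keep, H.k444.keep⟩

theorem ev_vert2 (Z : TM ℝ)
    (u0 u1 u2 u3 m n t z0 z1 z2 z3 z4 v0 v1 v2 v3 v4 : ℝ) :
    (vert2 ra rm Z u0 u1 u2 u3 m n t z0 z1 z2 z3 z4).ev v0 v1 v2 v3 v4 = Z.ev v0 v1 v2 v3 v4 +
    (u0 + u1 * v2 + u2 * v2 ^ 2 + u3 * v2 ^ 3 + m * (z0 * v0 + z1 * v1 + z2 * v2 + z3 * v3 + z4 *
    v4) ^ 2 * (1 + t * v2) + n * (z0 * v0 + z1 * v1 + z2 * v2 + z3 * v3 + z4 * v4) * (2 + 2 * (t
    * v2) + (t * v2) ^ 2)) := by
  cases Z
  dsimp only [vert2, vert2_1, vert2_2, TM.ev]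
  ring

theorem rt_vert3 {X : TM ℕ} {Z : TM ℝ} {B : ℕ} (H : RT X Z B)
    {v0 v1 v2 v3 m n t z0 z1 z2 z3 z4 : ℕ}
    {v0' v1' v2' v3' m' n' t' z0' z1' z2' z3' z4' : ℝ}
    (hv0 : Rel v0 v0' bD) (hv1 : Rel v1 v1' bD) (hv2 : Rel v2 v2' bD) (hv3 : Rel v3 v3' bD) (hm :
    Rel m m' bC) (hn : Rel n n' bC) (ht : Rel t t' bA) (hz0 : Rel z0 z0' bA) (hz1 : Rel z1 z1'
    bA) (hz2 : Rel z2 z2' bA) (hz3 : Rel z3 z3' bA) (hz4 : Rel z4 z4' bA) :
    RT (vert3 Nat.add Nat.mul X v0 v1 v2 v3 m n t z0 z1 z2 z3 z4) (vert3 ra rm Z v0' v1' v2' v3'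
    m' n' t' z0' z1' z2' z3' z4') (B + 2 * bD) := by
  cases X
  cases Z
  have hy0 := (hm.mul hz0)
  have hy1 := (hm.mul hz1)
  have hy2 := (hm.mul hz2)
  have hy3 := (hm.mul hz3)
  have hy4 := (hm.mul hz4)
  have hn0 := (hn.mul hz0)
  have hn1 := (hn.mul hz1)
  have hn2 := (hn.mul hz2)
  have hn3 := (hn.mul hz3)
  have hn4 := (hn.mul hz4)
  have hr0 := (hn0.mul ht)
  have hr1 := (hn1.mul ht)
  have hr2 := (hn2.mul ht)
  have hr3 := (hn3.mul ht)
  have hr4 := (hn4.mul ht)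
  have hq00 := (hy0.mul hz0)
  have hq01 := ((hy0.add hy0).mul hz1)
  have hq02 := ((hy0.add hy0).mul hz2)
  have hq03 := ((hy0.add hy0).mul hz3)
  have hq04 := ((hy0.add hy0).mul hz4)
  have hq11 := (hy1.mul hz1)
  have hq12 := ((hy1.add hy1).mul hz2)
  have hq13 := ((hy1.add hy1).mul hz3)
  have hq14 := ((hy1.add hy1).mul hz4)
  have hq22 := (hy2.mul hz2)
  have hq23 := ((hy2.add hy2).mul hz3)
  have hq24 := ((hy2.add hy2).mul hz4)
  have hq33 := (hy3.mul hz3)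
  have hq34 := ((hy3.add hy3).mul hz4)
  have hq44 := (hy4.mul hz4)
  dsimp only [vert3, vert3_1, vert3_2]
  exact ⟨
    H.c.acc hv0 (by decide +kernel), H.b0.acc (hn0.add hn0) (by decide +kernel), H.b1.acc
    (hn1.add hn1) (by decide +kernel), H.b2.acc (hn2.add hn2) (by decide +kernel), H.b3.acc
    ((hn3.add hn3).add hv1) (by decide +kernel), H.b4.acc (hn4.add hn4) (by decide +kernel),
    H.h00.acc hq00 (by decide +kernel), H.h01.acc hq01 (by decide +kernel), H.h02.acc hq02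
    (by decide +kernel), H.h03.acc (hq03.add (hr0.add hr0)) (by decide +kernel), H.h04.acc hq04
    (by decide +kernel), H.h11.acc hq11 (by decide +kernel), H.h12.acc hq12 (by decide +kernel),
    H.h13.acc (hq13.add (hr1.add hr1)) (by decide +kernel), H.h14.acc hq14 (by decide +kernel),
    H.h22.acc hq22 (by decide +kernel), H.h23.acc (hq23.add (hr2.add hr2)) (by decide +kernel),
    H.h24.acc hq24 (by decide +kernel), H.h33.acc ((hq33.add (hr3.add hr3)).add hv2)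
    (by decide +kernel), H.h34.acc (hq34.add (hr4.add hr4)) (by decide +kernel), H.h44.acc hq44
    (by decide +kernel), H.k000.keep, H.k001.keep, H.k002.keep, H.k003.acc (hq00.mul ht)
    (by decide +kernel), H.k004.keep, H.k011.keep, H.k012.keep, H.k013.acc (hq01.mul ht)
    (by decide +kernel), H.k014.keep, H.k022.keep, H.k023.acc (hq02.mul ht) (by decide +kernel),
    H.k024.keep, H.k033.acc ((hq03.add hr0).mul ht) (by decide +kernel), H.k034.acc (hq04.mul ht)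
    (by decide +kernel), H.k044.keep, H.k111.keep, H.k112.keep, H.k113.acc (hq11.mul ht)
    (by decide +kernel), H.k114.keep, H.k122.keep, H.k123.acc (hq12.mul ht) (by decide +kernel),
    H.k124.keep, H.k133.acc ((hq13.add hr1).mul ht) (by decide +kernel), H.k134.acc (hq14.mul ht)
    (by decide +kernel), H.k144.keep, H.k222.keep, H.k223.acc (hq22.mul ht) (by decide +kernel),
    H.k224.keep, H.k233.acc ((hq23.add hr2).mul ht) (by decide +kernel), H.k234.acc (hq24.mul ht)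
    (by decide +kernel), H.k244.keep, H.k333.acc (((hq33.add hr3).mul ht).add hv3)
    (by decide +kernel), H.k334.acc ((hq34.add hr4).mul ht) (by decide +kernel), H.k344.acc
    (hq44.mul ht) (by decide +kernel), H.k444.keep⟩

theorem ev_vert3 (Z : TM ℝ)
    (u0 u1 u2 u3 m n t z0 z1 z2 z3 z4 v0 v1 v2 v3 v4 : ℝ) :
    (vert3 ra rm Z u0 u1 u2 u3 m n t z0 z1 z2 z3 z4).ev v0 v1 v2 v3 v4 = Z.ev v0 v1 v2 v3 v4 +
    (u0 + u1 * v3 + u2 * v3 ^ 2 + u3 * v3 ^ 3 + m * (z0 * v0 + z1 * v1 + z2 * v2 + z3 * v3 + z4 *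
    v4) ^ 2 * (1 + t * v3) + n * (z0 * v0 + z1 * v1 + z2 * v2 + z3 * v3 + z4 * v4) * (2 + 2 * (t
    * v3) + (t * v3) ^ 2)) := by
  cases Z
  dsimp only [vert3, vert3_1, vert3_2, TM.ev]
  ring

theorem rt_vert4 {X : TM ℕ} {Z : TM ℝ} {B : ℕ} (H : RT X Z B)
    {v0 v1 v2 v3 m n t z0 z1 z2 z3 z4 : ℕ}
    {v0' v1' v2' v3' m' n' t' z0' z1' z2' z3' z4' : ℝ}
    (hv0 : Rel v0 v0' bD) (hv1 : Rel v1 v1' bD) (hv2 : Rel v2 v2' bD) (hv3 : Rel v3 v3' bD) (hm :
    Rel m m' bC) (hn : Rel n n' bC) (ht : Rel t t' bA) (hz0 : Rel z0 z0' bA) (hz1 : Rel z1 z1'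
    bA) (hz2 : Rel z2 z2' bA) (hz3 : Rel z3 z3' bA) (hz4 : Rel z4 z4' bA) :
    RT (vert4 Nat.add Nat.mul X v0 v1 v2 v3 m n t z0 z1 z2 z3 z4) (vert4 ra rm Z v0' v1' v2' v3'
    m' n' t' z0' z1' z2' z3' z4') (B + 2 * bD) := by
  cases X
  cases Z
  have hy0 := (hm.mul hz0)
  have hy1 := (hm.mul hz1)
  have hy2 := (hm.mul hz2)
  have hy3 := (hm.mul hz3)
  have hy4 := (hm.mul hz4)
  have hn0 := (hn.mul hz0)
  have hn1 := (hn.mul hz1)
  have hn2 := (hn.mul hz2)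
  have hn3 := (hn.mul hz3)
  have hn4 := (hn.mul hz4)
  have hr0 := (hn0.mul ht)
  have hr1 := (hn1.mul ht)
  have hr2 := (hn2.mul ht)
  have hr3 := (hn3.mul ht)
  have hr4 := (hn4.mul ht)
  have hq00 := (hy0.mul hz0)
  have hq01 := ((hy0.add hy0).mul hz1)
  have hq02 := ((hy0.add hy0).mul hz2)
  have hq03 := ((hy0.add hy0).mul hz3)
  have hq04 := ((hy0.add hy0).mul hz4)
  have hq11 := (hy1.mul hz1)
  have hq12 := ((hy1.add hy1).mul hz2)
  have hq13 := ((hy1.add hy1).mul hz3)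
  have hq14 := ((hy1.add hy1).mul hz4)
  have hq22 := (hy2.mul hz2)
  have hq23 := ((hy2.add hy2).mul hz3)
  have hq24 := ((hy2.add hy2).mul hz4)
  have hq33 := (hy3.mul hz3)
  have hq34 := ((hy3.add hy3).mul hz4)
  have hq44 := (hy4.mul hz4)
  dsimp only [vert4, vert4_1, vert4_2]
  exact ⟨
    H.c.acc hv0 (by decide +kernel), H.b0.acc (hn0.add hn0) (by decide +kernel), H.b1.acc
    (hn1.add hn1) (by decide +kernel), H.b2.acc (hn2.add hn2) (by decide +kernel), H.b3.acc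
    (hn3.add hn3) (by decide +kernel), H.b4.acc ((hn4.add hn4).add hv1) (by decide +kernel),
    H.h00.acc hq00 (by decide +kernel), H.h01.acc hq01 (by decide +kernel), H.h02.acc hq02
    (by decide +kernel), H.h03.acc hq03 (by decide +kernel), H.h04.acc (hq04.add (hr0.add hr0))
    (by decide +kernel), H.h11.acc hq11 (by decide +kernel), H.h12.acc hq12 (by decide +kernel),
    H.h13.acc hq13 (by decide +kernel), H.h14.acc (hq14.add (hr1.add hr1)) (by decide +kernel),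
    H.h22.acc hq22 (by decide +kernel), H.h23.acc hq23 (by decide +kernel), H.h24.acc (hq24.add
    (hr2.add hr2)) (by decide +kernel), H.h33.acc hq33 (by decide +kernel), H.h34.acc (hq34.add
    (hr3.add hr3)) (by decide +kernel), H.h44.acc ((hq44.add (hr4.add hr4)).add hv2)
    (by decide +kernel), H.k000.keep, H.k001.keep, H.k002.keep, H.k003.keep, H.k004.acc (hq00.mul
    ht) (by decide +kernel), H.k011.keep, H.k012.keep, H.k013.keep, H.k014.acc (hq01.mul ht)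
    (by decide +kernel), H.k022.keep, H.k023.keep, H.k024.acc (hq02.mul ht) (by decide +kernel),
    H.k033.keep, H.k034.acc (hq03.mul ht) (by decide +kernel), H.k044.acc ((hq04.add hr0).mul ht)
    (by decide +kernel), H.k111.keep, H.k112.keep, H.k113.keep, H.k114.acc (hq11.mul ht)
    (by decide +kernel), H.k122.keep, H.k123.keep, H.k124.acc (hq12.mul ht) (by decide +kernel),
    H.k133.keep, H.k134.acc (hq13.mul ht) (by decide +kernel), H.k144.acc ((hq14.add hr1).mul ht)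
    (by decide +kernel), H.k222.keep, H.k223.keep, H.k224.acc (hq22.mul ht) (by decide +kernel),
    H.k233.keep, H.k234.acc (hq23.mul ht) (by decide +kernel), H.k244.acc ((hq24.add hr2).mul ht)
    (by decide +kernel), H.k333.keep, H.k334.acc (hq33.mul ht) (by decide +kernel), H.k344.acc
    ((hq34.add hr3).mul ht) (by decide +kernel), H.k444.acc (((hq44.add hr4).mul ht).add hv3)
    (by decide +kernel)⟩

theorem ev_vert4 (Z : TM ℝ)
    (u0 u1 u2 u3 m n t z0 z1 z2 z3 z4 v0 v1 v2 v3 v4 : ℝ) :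
    (vert4 ra rm Z u0 u1 u2 u3 m n t z0 z1 z2 z3 z4).ev v0 v1 v2 v3 v4 = Z.ev v0 v1 v2 v3 v4 +
    (u0 + u1 * v4 + u2 * v4 ^ 2 + u3 * v4 ^ 3 + m * (z0 * v0 + z1 * v1 + z2 * v2 + z3 * v3 + z4 *
    v4) ^ 2 * (1 + t * v4) + n * (z0 * v0 + z1 * v1 + z2 * v2 + z3 * v3 + z4 * v4) * (2 + 2 * (t
    * v4) + (t * v4) ^ 2)) := by
  cases Z
  dsimp only [vert4, vert4_1, vert4_2, TM.ev]
  ring

theorem rt_spart {X : TM ℕ} {Z : TM ℝ} {B : ℕ} (H : RT X Z B)
    {a0 a1 a2 a3 s0 s1 s2 s3 s4 be0 be1 be2 be3 be4 ga0 ga1 ga2 ga3 ga4 de0 de1 de2 de3 de4 : ℕ}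
    {a0' a1' a2' a3' s0' s1' s2' s3' s4' be0' be1' be2' be3' be4' ga0' ga1' ga2' ga3' ga4' de0'
    de1' de2' de3' de4' : ℝ}
    (ha0 : Rel a0 a0' bC) (ha1 : Rel a1 a1' bC) (ha2 : Rel a2 a2' bC) (ha3 : Rel a3 a3' bC) (hs0
    : Rel s0 s0' bA) (hs1 : Rel s1 s1' bA) (hs2 : Rel s2 s2' bA) (hs3 : Rel s3 s3' bA) (hs4 : Rel
    s4 s4' bA) (hbe0 : Rel be0 be0' bE) (hbe1 : Rel be1 be1' bE) (hbe2 : Rel be2 be2' bE) (hbe3 :
    Rel be3 be3' bE) (hbe4 : Rel be4 be4' bE) (hga0 : Rel ga0 ga0' bE) (hga1 : Rel ga1 ga1' bE)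
    (hga2 : Rel ga2 ga2' bE) (hga3 : Rel ga3 ga3' bE) (hga4 : Rel ga4 ga4' bE) (hde0 : Rel de0
    de0' bF) (hde1 : Rel de1 de1' bF) (hde2 : Rel de2 de2' bF) (hde3 : Rel de3 de3' bF) (hde4 :
    Rel de4 de4' bF) :
    RT (spart Nat.add Nat.mul X a0 a1 a2 a3 s0 s1 s2 s3 s4 be0 be1 be2 be3 be4 ga0 ga1 ga2 ga3
    ga4 de0 de1 de2 de3 de4) (spart ra rm Z a0' a1' a2' a3' s0' s1' s2' s3' s4' be0' be1' be2'
    be3' be4' ga0' ga1' ga2' ga3' ga4' de0' de1' de2' de3' de4') (B + bD) := by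
  cases X
  cases Z
  have hx0 := ((ha2.mul hs0).add hbe0)
  have hx1 := ((ha2.mul hs1).add hbe1)
  have hx2 := ((ha2.mul hs2).add hbe2)
  have hx3 := ((ha2.mul hs3).add hbe3)
  have hx4 := ((ha2.mul hs4).add hbe4)
  have hy0 := ((ha3.mul hs0).add hga0)
  have hy1 := ((ha3.mul hs1).add hga1)
  have hy2 := ((ha3.mul hs2).add hga2)
  have hy3 := ((ha3.mul hs3).add hga3)
  have hy4 := ((ha3.mul hs4).add hga4)
  have hq00 := ((hs0.mul hy0).add hde0)
  have hq01 := ((hs0.mul hy1).add (hs1.mul hy0))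
  have hq02 := ((hs0.mul hy2).add (hs2.mul hy0))
  have hq03 := ((hs0.mul hy3).add (hs3.mul hy0))
  have hq04 := ((hs0.mul hy4).add (hs4.mul hy0))
  have hq11 := ((hs1.mul hy1).add hde1)
  have hq12 := ((hs1.mul hy2).add (hs2.mul hy1))
  have hq13 := ((hs1.mul hy3).add (hs3.mul hy1))
  have hq14 := ((hs1.mul hy4).add (hs4.mul hy1))
  have hq22 := ((hs2.mul hy2).add hde2)
  have hq23 := ((hs2.mul hy3).add (hs3.mul hy2))
  have hq24 := ((hs2.mul hy4).add (hs4.mul hy2))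
  have hq33 := ((hs3.mul hy3).add hde3)
  have hq34 := ((hs3.mul hy4).add (hs4.mul hy3))
  have hq44 := ((hs4.mul hy4).add hde4)
  dsimp only [spart, spart_1, spart_2]
  exact ⟨
    H.c.acc ha0 (by decide +kernel), H.b0.acc (ha1.mul hs0) (by decide +kernel), H.b1.acc
    (ha1.mul hs1) (by decide +kernel), H.b2.acc (ha1.mul hs2) (by decide +kernel), H.b3.acc
    (ha1.mul hs3) (by decide +kernel), H.b4.acc (ha1.mul hs4) (by decide +kernel), H.h00.acc
    (hs0.mul hx0) (by decide +kernel), H.h01.acc ((hs0.mul hx1).add (hs1.mul hx0))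
    (by decide +kernel), H.h02.acc ((hs0.mul hx2).add (hs2.mul hx0)) (by decide +kernel),
    H.h03.acc ((hs0.mul hx3).add (hs3.mul hx0)) (by decide +kernel), H.h04.acc ((hs0.mul hx4).add
    (hs4.mul hx0)) (by decide +kernel), H.h11.acc (hs1.mul hx1) (by decide +kernel), H.h12.acc
    ((hs1.mul hx2).add (hs2.mul hx1)) (by decide +kernel), H.h13.acc ((hs1.mul hx3).add (hs3.mul
    hx1)) (by decide +kernel), H.h14.acc ((hs1.mul hx4).add (hs4.mul hx1)) (by decide +kernel),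
    H.h22.acc (hs2.mul hx2) (by decide +kernel), H.h23.acc ((hs2.mul hx3).add (hs3.mul hx2))
    (by decide +kernel), H.h24.acc ((hs2.mul hx4).add (hs4.mul hx2)) (by decide +kernel),
    H.h33.acc (hs3.mul hx3) (by decide +kernel), H.h34.acc ((hs3.mul hx4).add (hs4.mul hx3))
    (by decide +kernel), H.h44.acc (hs4.mul hx4) (by decide +kernel), H.k000.acc (hs0.mul hq00)
    (by decide +kernel), H.k001.acc ((hs0.mul hq01).add (hs1.mul hq00)) (by decide +kernel),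
    H.k002.acc ((hs0.mul hq02).add (hs2.mul hq00)) (by decide +kernel), H.k003.acc ((hs0.mul
    hq03).add (hs3.mul hq00)) (by decide +kernel), H.k004.acc ((hs0.mul hq04).add (hs4.mul hq00))
    (by decide +kernel), H.k011.acc ((hs0.mul hq11).add (hs1.mul hq01)) (by decide +kernel),
    H.k012.acc (((hs0.mul hq12).add (hs1.mul hq02)).add (hs2.mul hq01)) (by decide +kernel),
    H.k013.acc (((hs0.mul hq13).add (hs1.mul hq03)).add (hs3.mul hq01)) (by decide +kernel),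
    H.k014.acc (((hs0.mul hq14).add (hs1.mul hq04)).add (hs4.mul hq01)) (by decide +kernel),
    H.k022.acc ((hs0.mul hq22).add (hs2.mul hq02)) (by decide +kernel), H.k023.acc (((hs0.mul
    hq23).add (hs2.mul hq03)).add (hs3.mul hq02)) (by decide +kernel), H.k024.acc (((hs0.mul
    hq24).add (hs2.mul hq04)).add (hs4.mul hq02)) (by decide +kernel), H.k033.acc ((hs0.mul
    hq33).add (hs3.mul hq03)) (by decide +kernel), H.k034.acc (((hs0.mul hq34).add (hs3.mul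
    hq04)).add (hs4.mul hq03)) (by decide +kernel), H.k044.acc ((hs0.mul hq44).add (hs4.mul
    hq04)) (by decide +kernel), H.k111.acc (hs1.mul hq11) (by decide +kernel), H.k112.acc
    ((hs1.mul hq12).add (hs2.mul hq11)) (by decide +kernel), H.k113.acc ((hs1.mul hq13).add
    (hs3.mul hq11)) (by decide +kernel), H.k114.acc ((hs1.mul hq14).add (hs4.mul hq11))
    (by decide +kernel), H.k122.acc ((hs1.mul hq22).add (hs2.mul hq12)) (by decide +kernel),
    H.k123.acc (((hs1.mul hq23).add (hs2.mul hq13)).add (hs3.mul hq12)) (by decide +kernel),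
    H.k124.acc (((hs1.mul hq24).add (hs2.mul hq14)).add (hs4.mul hq12)) (by decide +kernel),
    H.k133.acc ((hs1.mul hq33).add (hs3.mul hq13)) (by decide +kernel), H.k134.acc (((hs1.mul
    hq34).add (hs3.mul hq14)).add (hs4.mul hq13)) (by decide +kernel), H.k144.acc ((hs1.mul
    hq44).add (hs4.mul hq14)) (by decide +kernel), H.k222.acc (hs2.mul hq22) (by decide +kernel),
    H.k223.acc ((hs2.mul hq23).add (hs3.mul hq22)) (by decide +kernel), H.k224.acc ((hs2.mul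
    hq24).add (hs4.mul hq22)) (by decide +kernel), H.k233.acc ((hs2.mul hq33).add (hs3.mul hq23))
    (by decide +kernel), H.k234.acc (((hs2.mul hq34).add (hs3.mul hq24)).add (hs4.mul hq23))
    (by decide +kernel), H.k244.acc ((hs2.mul hq44).add (hs4.mul hq24)) (by decide +kernel),
    H.k333.acc (hs3.mul hq33) (by decide +kernel), H.k334.acc ((hs3.mul hq34).add (hs4.mul hq33))
    (by decide +kernel), H.k344.acc ((hs3.mul hq44).add (hs4.mul hq34)) (by decide +kernel),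
    H.k444.acc (hs4.mul hq44) (by decide +kernel)⟩

theorem ev_spart (Z : TM ℝ)
    (a0 a1 a2 a3 s0 s1 s2 s3 s4 be0 be1 be2 be3 be4 ga0 ga1 ga2 ga3 ga4 de0 de1 de2 de3 de4 v0 v1
    v2 v3 v4 : ℝ) :
    (spart ra rm Z a0 a1 a2 a3 s0 s1 s2 s3 s4 be0 be1 be2 be3 be4 ga0 ga1 ga2 ga3 ga4 de0 de1 de2
    de3 de4).ev v0 v1 v2 v3 v4 = Z.ev v0 v1 v2 v3 v4 + (a0 + a1 * (s0 * v0 + s1 * v1 + s2 * v2 +
    s3 * v3 + s4 * v4) + a2 * (s0 * v0 + s1 * v1 + s2 * v2 + s3 * v3 + s4 * v4) ^ 2 + a3 * (s0 *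
    v0 + s1 * v1 + s2 * v2 + s3 * v3 + s4 * v4) ^ 3 + (s0 * v0 + s1 * v1 + s2 * v2 + s3 * v3 + s4
    * v4) * (be0 * v0 + be1 * v1 + be2 * v2 + be3 * v3 + be4 * v4) + (s0 * v0 + s1 * v1 + s2 * v2
    + s3 * v3 + s4 * v4) ^ 2 * (ga0 * v0 + ga1 * v1 + ga2 * v2 + ga3 * v3 + ga4 * v4) + (s0 * v0
    + s1 * v1 + s2 * v2 + s3 * v3 + s4 * v4) * (de0 * v0 ^ 2 + de1 * v1 ^ 2 + de2 * v2 ^ 2 + de3
    * v3 ^ 2 + de4 * v4 ^ 2)) := by
  cases Z
  dsimp only [spart, spart_1, spart_2, TM.ev]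
  ring

theorem rt_sqs {X : TM ℕ} {Z : TM ℝ} {B : ℕ} (H : RT X Z B)
    {w l0c l00 l01 l02 l03 l04 l1c l11 l12 l13 l14 l2c l22 l23 l24 l3c l33 l34 l4c l44 : ℕ}
    {w' l0c' l00' l01' l02' l03' l04' l1c' l11' l12' l13' l14' l2c' l22' l23' l24' l3c' l33' l34'
    l4c' l44' : ℝ}
    (hw : Rel w w' bC) (hl0c : Rel l0c l0c' bL) (hl00 : Rel l00 l00' bL) (hl01 : Rel l01 l01' bL)
    (hl02 : Rel l02 l02' bL) (hl03 : Rel l03 l03' bL) (hl04 : Rel l04 l04' bL) (hl1c : Rel l1c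
    l1c' bL) (hl11 : Rel l11 l11' bL) (hl12 : Rel l12 l12' bL) (hl13 : Rel l13 l13' bL) (hl14 :
    Rel l14 l14' bL) (hl2c : Rel l2c l2c' bL) (hl22 : Rel l22 l22' bL) (hl23 : Rel l23 l23' bL)
    (hl24 : Rel l24 l24' bL) (hl3c : Rel l3c l3c' bL) (hl33 : Rel l33 l33' bL) (hl34 : Rel l34
    l34' bL) (hl4c : Rel l4c l4c' bL) (hl44 : Rel l44 l44' bL) :
    RT (sqs Nat.add Nat.mul X w l0c l00 l01 l02 l03 l04 l1c l11 l12 l13 l14 l2c l22 l23 l24 l3c
    l33 l34 l4c l44) (sqs ra rm Z w' l0c' l00' l01' l02' l03' l04' l1c' l11' l12' l13' l14' l2c'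
    l22' l23' l24' l3c' l33' l34' l4c' l44') (B + bD) := by
  cases X
  cases Z
  have hw0c := (hw.mul hl0c)
  have hw00 := (hw.mul hl00)
  have hw01 := (hw.mul hl01)
  have hw02 := (hw.mul hl02)
  have hw03 := (hw.mul hl03)
  have hw04 := (hw.mul hl04)
  have hw1c := (hw.mul hl1c)
  have hw11 := (hw.mul hl11)
  have hw12 := (hw.mul hl12)
  have hw13 := (hw.mul hl13)
  have hw14 := (hw.mul hl14)
  have hw2c := (hw.mul hl2c)
  have hw22 := (hw.mul hl22)
  have hw23 := (hw.mul hl23)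
  have hw24 := (hw.mul hl24)
  have hw3c := (hw.mul hl3c)
  have hw33 := (hw.mul hl33)
  have hw34 := (hw.mul hl34)
  have hw4c := (hw.mul hl4c)
  have hw44 := (hw.mul hl44)
  have hd0c := (hw0c.add hw0c)
  have hd00 := (hw00.add hw00)
  have hd01 := (hw01.add hw01)
  have hd02 := (hw02.add hw02)
  have hd03 := (hw03.add hw03)
  have hd1c := (hw1c.add hw1c)
  have hd11 := (hw11.add hw11)
  have hd12 := (hw12.add hw12)
  have hd13 := (hw13.add hw13)
  have hd2c := (hw2c.add hw2c)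
  have hd22 := (hw22.add hw22)
  have hd23 := (hw23.add hw23)
  have hd3c := (hw3c.add hw3c)
  have hd33 := (hw33.add hw33)
  have hd4c := (hw4c.add hw4c)
  dsimp only [sqs, sqs_1, sqs_2]
  exact ⟨
    H.c.acc (((((hw0c.mul hl0c).add (hw1c.mul hl1c)).add (hw2c.mul hl2c)).add (hw3c.mul
    hl3c)).add (hw4c.mul hl4c)) (by decide +kernel), H.b0.acc (hd0c.mul hl00)
    (by decide +kernel), H.b1.acc ((hd0c.mul hl01).add (hd1c.mul hl11)) (by decide +kernel),
    H.b2.acc (((hd0c.mul hl02).add (hd1c.mul hl12)).add (hd2c.mul hl22)) (by decide +kernel),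
    H.b3.acc ((((hd0c.mul hl03).add (hd1c.mul hl13)).add (hd2c.mul hl23)).add (hd3c.mul hl33))
    (by decide +kernel), H.b4.acc (((((hd0c.mul hl04).add (hd1c.mul hl14)).add (hd2c.mul
    hl24)).add (hd3c.mul hl34)).add (hd4c.mul hl44)) (by decide +kernel), H.h00.acc (hw00.mul
    hl00) (by decide +kernel), H.h01.acc (hd00.mul hl01) (by decide +kernel), H.h02.acc (hd00.mul
    hl02) (by decide +kernel), H.h03.acc (hd00.mul hl03) (by decide +kernel), H.h04.acc (hd00.mul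
    hl04) (by decide +kernel), H.h11.acc ((hw01.mul hl01).add (hw11.mul hl11))
    (by decide +kernel), H.h12.acc ((hd01.mul hl02).add (hd11.mul hl12)) (by decide +kernel),
    H.h13.acc ((hd01.mul hl03).add (hd11.mul hl13)) (by decide +kernel), H.h14.acc ((hd01.mul
    hl04).add (hd11.mul hl14)) (by decide +kernel), H.h22.acc (((hw02.mul hl02).add (hw12.mul
    hl12)).add (hw22.mul hl22)) (by decide +kernel), H.h23.acc (((hd02.mul hl03).add (hd12.mul
    hl13)).add (hd22.mul hl23)) (by decide +kernel), H.h24.acc (((hd02.mul hl04).add (hd12.mul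
    hl14)).add (hd22.mul hl24)) (by decide +kernel), H.h33.acc ((((hw03.mul hl03).add (hw13.mul
    hl13)).add (hw23.mul hl23)).add (hw33.mul hl33)) (by decide +kernel), H.h34.acc ((((hd03.mul
    hl04).add (hd13.mul hl14)).add (hd23.mul hl24)).add (hd33.mul hl34)) (by decide +kernel),
    H.h44.acc (((((hw04.mul hl04).add (hw14.mul hl14)).add (hw24.mul hl24)).add (hw34.mul
    hl34)).add (hw44.mul hl44)) (by decide +kernel), H.k000.keep, H.k001.keep, H.k002.keep,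
    H.k003.keep, H.k004.keep, H.k011.keep, H.k012.keep, H.k013.keep, H.k014.keep, H.k022.keep,
    H.k023.keep, H.k024.keep, H.k033.keep, H.k034.keep, H.k044.keep, H.k111.keep, H.k112.keep,
    H.k113.keep, H.k114.keep, H.k122.keep, H.k123.keep, H.k124.keep, H.k133.keep, H.k134.keep,
    H.k144.keep, H.k222.keep, H.k223.keep, H.k224.keep, H.k233.keep, H.k234.keep, H.k244.keep,
    H.k333.keep, H.k334.keep, H.k344.keep, H.k444.keep⟩

theorem ev_sqs (Z : TM ℝ)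
    (w l0c l00 l01 l02 l03 l04 l1c l11 l12 l13 l14 l2c l22 l23 l24 l3c l33 l34 l4c l44 v0 v1 v2
    v3 v4 : ℝ) :
    (sqs ra rm Z w l0c l00 l01 l02 l03 l04 l1c l11 l12 l13 l14 l2c l22 l23 l24 l3c l33 l34 l4c
    l44).ev v0 v1 v2 v3 v4 = Z.ev v0 v1 v2 v3 v4 + w * ((l0c + l00 * v0 + l01 * v1 + l02 * v2 +
    l03 * v3 + l04 * v4) ^ 2 + (l1c + l11 * v1 + l12 * v2 + l13 * v3 + l14 * v4) ^ 2 + (l2c + l22
    * v2 + l23 * v3 + l24 * v4) ^ 2 + (l3c + l33 * v3 + l34 * v4) ^ 2 + (l4c + l44 * v4) ^ 2) := by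
  cases Z
  dsimp only [sqs, sqs_1, sqs_2, TM.ev]
  ring

theorem fin_sound {X : TM ℕ} {Z : TM ℝ} {B rem : ℕ} (H : RT X Z B) (hB : B < hf)
    (h : fin X rem = true) {u0 u1 u2 u3 u4 : ℝ} (h0 : |u0| ≤ 1) (h1 : |u1| ≤ 1) (h2 : |u2| ≤ 1)
    (h3 : |u3| ≤ 1) (h4 : |u4| ≤ 1) :
    Z.ev (u0 / 2 ^ 34) (u1 / 2 ^ 34) (u2 / 2 ^ 34) (u3 / 2 ^ 34) (u4 / 2 ^ 34) + rem / 2 ^ 102
      ≤ 0 := by
  have m : ∀ {a b : ℝ}, |a| ≤ 1 → |b| ≤ 1 → |a * b| ≤ 1 := fun ha hb => by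
    rw [abs_mul]; exact mul_le_one₀ ha (abs_nonneg _) hb
  have ec := H.c.xt hB
  have eb0 := H.b0.az hB h0
  have eb1 := H.b1.az hB h1
  have eb2 := H.b2.az hB h2
  have eb3 := H.b3.az hB h3
  have eb4 := H.b4.az hB h4
  have eh00 := H.h00.pz hB h0
  have eh01 := H.h01.az hB (m h0 h1)
  have eh02 := H.h02.az hB (m h0 h2)
  have eh03 := H.h03.az hB (m h0 h3)
  have eh04 := H.h04.az hB (m h0 h4)
  have eh11 := H.h11.pz hB h1
  have eh12 := H.h12.az hB (m h1 h2)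
  have eh13 := H.h13.az hB (m h1 h3)
  have eh14 := H.h14.az hB (m h1 h4)
  have eh22 := H.h22.pz hB h2
  have eh23 := H.h23.az hB (m h2 h3)
  have eh24 := H.h24.az hB (m h2 h4)
  have eh33 := H.h33.pz hB h3
  have eh34 := H.h34.az hB (m h3 h4)
  have eh44 := H.h44.pz hB h4
  have ek000 := H.k000.az hB (m (m h0 h0) h0)
  have ek001 := H.k001.az hB (m (m h0 h0) h1)
  have ek002 := H.k002.az hB (m (m h0 h0) h2)
  have ek003 := H.k003.az hB (m (m h0 h0) h3)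
  have ek004 := H.k004.az hB (m (m h0 h0) h4)
  have ek011 := H.k011.az hB (m (m h0 h1) h1)
  have ek012 := H.k012.az hB (m (m h0 h1) h2)
  have ek013 := H.k013.az hB (m (m h0 h1) h3)
  have ek014 := H.k014.az hB (m (m h0 h1) h4)
  have ek022 := H.k022.az hB (m (m h0 h2) h2)
  have ek023 := H.k023.az hB (m (m h0 h2) h3)
  have ek024 := H.k024.az hB (m (m h0 h2) h4)
  have ek033 := H.k033.az hB (m (m h0 h3) h3)
  have ek034 := H.k034.az hB (m (m h0 h3) h4)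
  have ek044 := H.k044.az hB (m (m h0 h4) h4)
  have ek111 := H.k111.az hB (m (m h1 h1) h1)
  have ek112 := H.k112.az hB (m (m h1 h1) h2)
  have ek113 := H.k113.az hB (m (m h1 h1) h3)
  have ek114 := H.k114.az hB (m (m h1 h1) h4)
  have ek122 := H.k122.az hB (m (m h1 h2) h2)
  have ek123 := H.k123.az hB (m (m h1 h2) h3)
  have ek124 := H.k124.az hB (m (m h1 h2) h4)
  have ek133 := H.k133.az hB (m (m h1 h3) h3)
  have ek134 := H.k134.az hB (m (m h1 h3) h4)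
  have ek144 := H.k144.az hB (m (m h1 h4) h4)
  have ek222 := H.k222.az hB (m (m h2 h2) h2)
  have ek223 := H.k223.az hB (m (m h2 h2) h3)
  have ek224 := H.k224.az hB (m (m h2 h2) h4)
  have ek233 := H.k233.az hB (m (m h2 h3) h3)
  have ek234 := H.k234.az hB (m (m h2 h3) h4)
  have ek244 := H.k244.az hB (m (m h2 h4) h4)
  have ek333 := H.k333.az hB (m (m h3 h3) h3)
  have ek334 := H.k334.az hB (m (m h3 h3) h4)
  have ek344 := H.k344.az hB (m (m h3 h4) h4)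
  have ek444 := H.k444.az hB (m (m h4 h4) h4)
  cases X
  cases Z
  dsimp only [fin, TM.ev] at *
  have h' := Nat.cast_le (α := ℝ).2 (Nat.le_of_ble_eq_true h)
  simp only [Nat.add_eq, Nat.mul_eq, Nat.cast_add, Nat.cast_mul, Nat.cast_ofNat] at h'
  have e : ((hf : ℕ) : ℝ) = 19701003098197239606139520050071806902539869635232723333974146702122860885748605305707133127442457820403313995153408 := by simp [hf]
  rw [e] at ec
  norm_num
  linarith

end Pool.Agent.Lib.RC5.X69
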