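import Pool.Agent.Lib.RC5.RdAna

/-! Soundness of the single steps of the checker. -/

set_option exponentiation.threshold 400
set_option linter.unusedVariables false

namespace Pool.Agent.Lib.RC5.X69

open Real

variable {u0 u1 u2 u3 u4 : ℝ} {r0 r1 r2 r3 r4 : ℕ}

theorem Rel.pow {x b : ℕ} {z : ℝ} (h : Rel x z b) (n : ℕ) : Rel (Nat.pow x n) (z ^ n) (b ^ n) := by
  obtain ⟨i, rfl, h1, h2⟩ := h
  refine ⟨i ^ n, by push_cast; rfl, by simpa using h1.pow n, ?_⟩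
  push_cast
  rw [abs_pow]
  exact pow_le_pow_left₀ (abs_nonneg _) h2 n

theorem Rel.ct (n : ℕ) : Rel n n n := Rel.nat le_rfl

theorem rel_ab {p n : ℕ} (a b : ℕ) (hp : p ≤ a) (hn : n ≤ b) : Rel (ab p n) (ab p n) (a + b) :=
  Rel.nat (Nat.add_le_add ((Nat.sub_le _ _).trans hp) ((Nat.sub_le _ _).trans hn))

theorem rel_sa {p n r : ℕ} (hp : p ≤ 8192) (hn : n ≤ 8192) (hr : r ≤ 41943039) :
    Rel (sa p n r) ((p - n) * r) bA :=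
  (((Rel.nat hp).sn (Rel.nat hn)).mul (Rel.nat hr)).mono (by decide +kernel)

/-- the normalised point and the radii -/
structure UB (u0 u1 u2 u3 u4 : ℝ) (r0 r1 r2 r3 r4 : ℕ) : Prop where
  a0 : |u0| ≤ 1
  b0 : r0 ≤ 41943039
  a1 : |u1| ≤ 1
  b1 : r1 ≤ 41943039
  a2 : |u2| ≤ 1
  b2 : r2 ≤ 41943039
  a3 : |u3| ≤ 1
  b3 : r3 ≤ 41943039
  a4 : |u4| ≤ 1
  b4 : r4 ≤ 41943039

/-- a linear form -/
noncomputable def lin (u0 u1 u2 u3 u4 : ℝ) (p0 p1 p2 p3 p4 n0 n1 n2 n3 n4 r0 r1 r2 r3 r4 : ℕ) : ℝ :=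
  ((p0 : ℝ) - n0) * r0 * (u0 / 2 ^ 34) + ((p1 : ℝ) - n1) * r1 * (u1 / 2 ^ 34) +
  ((p2 : ℝ) - n2) * r2 * (u2 / 2 ^ 34) + ((p3 : ℝ) - n3) * r3 * (u3 / 2 ^ 34) +
  ((p4 : ℝ) - n4) * r4 * (u4 / 2 ^ 34)

theorem abs_term {u : ℝ} (hu : |u| ≤ 1) (p n r : ℕ) :
    |((p : ℝ) - n) * r * (u / 2 ^ 34)| ≤ (ab p n : ℝ) * r / 2 ^ 34 := by
  rw [abs_mul, abs_mul, ab_cast, Nat.abs_cast, abs_div, abs_of_pos (by positivity : (0 : ℝ) < 2 ^ 34),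
    mul_div_assoc']
  exact div_le_div_of_nonneg_right (mul_le_of_le_one_right (by positivity) hu) (by positivity)

theorem abs_lin (hU : UB u0 u1 u2 u3 u4 r0 r1 r2 r3 r4) (p0 p1 p2 p3 p4 n0 n1 n2 n3 n4 : ℕ) :
    |lin u0 u1 u2 u3 u4 p0 p1 p2 p3 p4 n0 n1 n2 n3 n4 r0 r1 r2 r3 r4|
      ≤ sumA p0 p1 p2 p3 p4 n0 n1 n2 n3 n4 r0 r1 r2 r3 r4 / 2 ^ 34 := by
  simp only [lin, sumA, Nat.add_eq, Nat.mul_eq]
  push_cast
  rw [abs_le]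
  constructor <;> linarith [abs_le.1 (abs_term hU.a0 p0 n0 r0),
    abs_le.1 (abs_term hU.a1 p1 n1 r1),
    abs_le.1 (abs_term hU.a2 p2 n2 r2),
    abs_le.1 (abs_term hU.a3 p3 n3 r3),
    abs_le.1 (abs_term hU.a4 p4 n4 r4)]

/-- the value is bounded by the polynomial and the remainder collected so far -/
def Inv (u0 u1 u2 u3 u4 : ℝ) (A : TM ℕ) (rem : ℕ) (val : ℝ) (B : ℕ) : Prop :=
  ∃ Z, RT A Z B ∧
    val ≤ Z.ev (u0 / 2 ^ 34) (u1 / 2 ^ 34) (u2 / 2 ^ 34) (u3 / 2 ^ 34) (u4 / 2 ^ 34) + rem / 2 ^ 102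

theorem inv_zero : Inv u0 u1 u2 u3 u4 zero 0 0 0 := by
  have h : Rel 0 (0 : ℝ) 0 := (Rel.nat le_rfl).cong le_rfl Nat.cast_zero
  refine ⟨TM.mk
    0 0 0 0 0 0 0 0 0 0 0 0 0 0 0 0 0 0 0 0 0 0 0 0 0 0 0 0 0 0 0 0 0 0 0 0 0 0 0 0 0 0 0 0 0 0 0
    0 0 0 0 0 0 0 0 0, ?_, ?_⟩
  · constructor <;> exact h
  · simp [TM.ev]

theorem factor {R c : ℕ} (h : c * R < 85899345920) :
    1 ≤ ((Nat.add (Nat.div 21990232555520 (Nat.sub 85899345920 (c * R))) 1 : ℕ) : ℝ) / 2 ^ 8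
      * (1 - c * (R / 2 ^ 34) / 5) := by
  have h1 := le_div_succ 21990232555520 (Nat.sub_pos_of_lt h)
  rw [Nat.cast_sub h.le] at h1
  change _ ≤ ((Nat.add (Nat.div _ (Nat.sub _ _)) 1 : ℕ) : ℝ) * _ at h1
  generalize Nat.add _ 1 = F at *
  push_cast at h1
  linarith

theorem estep_sound {A : TM ℕ} {rem pp nn p0 p1 p2 p3 p4 n0 n1 n2 n3 n4 B : ℕ}
    {k : TM ℕ → ℕ → Bool} {val : ℝ}
    (h : estep A rem pp nn p0 p1 p2 p3 p4 n0 n1 n2 n3 n4 r0 r1 r2 r3 r4 k = true)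
    (hI : Inv u0 u1 u2 u3 u4 A rem val B) (hU : UB u0 u1 u2 u3 u4 r0 r1 r2 r3 r4)
    (hp0 : p0 ≤ 8192) (hn0 : n0 ≤ 8192) (hp1 : p1 ≤ 8192) (hn1 : n1 ≤ 8192) (hp2 : p2 ≤ 8192)
    (hn2 : n2 ≤ 8192) (hp3 : p3 ≤ 8192) (hn3 : n3 ≤ 8192) (hp4 : p4 ≤ 8192) (hn4 : n4 ≤ 8192)
    {Y : ℝ} (hY : Y ≤ 3 - (pp - nn) / 2 ^ 36
      + lin u0 u1 u2 u3 u4 p0 p1 p2 p3 p4 n0 n1 n2 n3 n4 r0 r1 r2 r3 r4) :
    ∃ A' rem', k A' rem' = true ∧ Inv u0 u1 u2 u3 u4 A' rem' (val + 54 * 2 ^ 185 * exp Y) (B + bD) := by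
  simp only [estep, estep2, Bool.and_eq_true, Nat.ble_eq, Nat.blt_eq] at h
  obtain ⟨⟨k1, k2, k3⟩, hk⟩ := h
  obtain ⟨Z, hZ, hv⟩ := hI
  have hE := up_div 4031301969897182342376168514771179203495089280 (Nat.sub pp nn)
  change _ ≤ ((eE pp nn : ℕ) : ℝ) at hE
  have hL := abs_lin hU p0 p1 p2 p3 p4 n0 n1 n2 n3 n4
  generalize eE pp nn = E at *
  generalize sumA p0 p1 p2 p3 p4 n0 n1 n2 n3 n4 r0 r1 r2 r3 r4 = R at *
  have hF := factor (c := 1) (R := R) (by rw [one_mul]; exact k3)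
  rw [one_mul, Nat.cast_one, one_mul] at hF
  refine ⟨_, _, hk, _, rt_edge hZ (((Rel.nat k2).mul (Rel.ct _)).mono (by decide +kernel))
    (rel_sa hp0 hn0 hU.b0) (rel_sa hp1 hn1 hU.b1) (rel_sa hp2 hn2 hU.b2) (rel_sa hp3 hn3 hU.b3)
    (rel_sa hp4 hn4 hU.b4), ?_⟩
  rw [ev_edge]
  change _ ≤ _ + _ * P3 (lin u0 u1 u2 u3 u4 p0 p1 p2 p3 p4 n0 n1 n2 n3 n4 r0 r1 r2 r3 r4) + _
  generalize lin u0 u1 u2 u3 u4 p0 p1 p2 p3 p4 n0 n1 n2 n3 n4 r0 r1 r2 r3 r4 = L at *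
  generalize Nat.add (Nat.div 21990232555520 _) 1 = F at *
  have a1 := le_P3 hL (by positivity) hF
  have a2 : 9 * 2 ^ 64 * exp Y ≤ E * exp L := by
    have b1 := exp_nat_le 3
    have b2 : exp Y ≤ exp (3 : ℕ) * exp (-((Nat.sub pp nn : ℕ) / 2 ^ 36)) * exp L := by
      rw [← exp_add, ← exp_add, Nat.sub_eq, Nat.cast_sub k1]
      exact exp_le_exp.2 (by push_cast; linarith)
    have b3 := mul_le_mul_of_nonneg_right hE (exp_pos L).le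
    have b4 := mul_le_mul_of_nonneg_right b1
      (mul_pos (exp_pos (-((Nat.sub pp nn : ℕ) / 2 ^ 36))) (exp_pos L)).le
    have b5 := mul_pos (exp_pos (-((Nat.sub pp nn : ℕ) / 2 ^ 36))) (exp_pos L)
    generalize exp (-((Nat.sub pp nn : ℕ) / 2 ^ 36)) = D at *
    generalize exp ((3 : ℕ) : ℝ) = D3 at *
    norm_num at b3 b4 ⊢
    linarith
  have a3 := mul_le_mul_of_nonneg_left a1 (Nat.cast_nonneg (α := ℝ) E)
  simp only [Nat.add_eq, Nat.mul_eq, Nat.pow_eq]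
  push_cast
  linarith

theorem cube_cast (e : ℕ) : ((e : ℝ) - 256) ^ 3
    = ((Nat.sub e 256 : ℕ) : ℝ) ^ 3 - ((Nat.sub 256 e : ℕ) : ℝ) ^ 3 := by
  simp only [Nat.sub_eq]
  rcases le_total e 256 with h | h
  · rw [Nat.sub_eq_zero_of_le h, Nat.cast_sub h]; push_cast; ring
  · rw [Nat.sub_eq_zero_of_le h, Nat.cast_sub h]; push_cast; ring

theorem CO.ell_le {x u : ℝ} {lo G Q X R q : ℕ} (h : CO x u lo G Q X R q) (e : ℕ) :
    ell x - 3 / 64 * ((e - 256) / 128) ^ 3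
      ≤ (vP G X e - vN Q e) / 2 ^ 36 + 4 * G * R * (u / 2 ^ 34) := by
  have h1 := mul_le_mul_of_nonneg_left h.l2 (Nat.cast_nonneg (α := ℝ) G)
  have h2 : (G : ℝ) ≤ 204 := by exact_mod_cast h.G1
  rw [h.el, div_pow, cube_cast]
  simp only [vP, vN, Nat.add_eq, Nat.mul_eq, Nat.pow_eq]
  push_cast
  linarith

/-- the increment of a step at a point -/
def vInc (a0 a1 a2 a3 m n t Z V : ℝ) : ℝ :=
  a0 + a1 * V + a2 * V ^ 2 + a3 * V ^ 3 + m * Z ^ 2 * (1 + t * V)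
    + n * Z * (2 + 2 * (t * V) + (t * V) ^ 2)

/-- what a step at a point delivers -/
def VOK (u0 u1 u2 u3 u4 u val : ℝ) (v0 v1 v2 v3 m n t z0 z1 z2 z3 z4 rm : ℕ) : Prop :=
  ∃ a0 a1 a2 a3 m' n' t' y0 y1 y2 y3 y4 : ℝ, Rel v0 a0 bD ∧ Rel v1 a1 bD ∧ Rel v2 a2 bD ∧
    Rel v3 a3 bD ∧ Rel m m' bC ∧ Rel n n' bC ∧ Rel t t' bA ∧ Rel z0 y0 bA ∧ Rel z1 y1 bA ∧
    Rel z2 y2 bA ∧ Rel z3 y3 bA ∧ Rel z4 y4 bA ∧
    val ≤ vInc a0 a1 a2 a3 m' n' t' (y0 * (u0 / 2 ^ 34) + y1 * (u1 / 2 ^ 34) + y2 * (u2 / 2 ^ 34)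
      + y3 * (u3 / 2 ^ 34) + y4 * (u4 / 2 ^ 34)) (u / 2 ^ 34) + rm / 2 ^ 102

theorem Inv.v0 {A : TM ℕ} {rem B v0 v1 v2 v3 m n t z0 z1 z2 z3 z4 c : ℕ} {val w : ℝ}
    (hI : Inv u0 u1 u2 u3 u4 A rem val B)
    (h : VOK u0 u1 u2 u3 u4 u0 w v0 v1 v2 v3 m n t z0 z1 z2 z3 z4 c) :
    Inv u0 u1 u2 u3 u4 (vert0 Nat.add Nat.mul A v0 v1 v2 v3 m n t z0 z1 z2 z3 z4) (Nat.add rem c)
      (val + w) (B + 2 * bD) := by
  obtain ⟨Z, hZ, hv⟩ := hI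
  obtain ⟨_, _, _, _, _, _, _, _, _, _, _, _, a, b, c, d, e, f, g, i, j, k, l, m, n⟩ := h
  refine ⟨_, rt_vert0 hZ a b c d e f g i j k l m, ?_⟩
  rw [ev_vert0, Nat.add_eq, Nat.cast_add, add_div]
  exact (add_le_add hv n).trans (le_of_eq (by unfold vInc; ring))

theorem Inv.v1 {A : TM ℕ} {rem B v0 v1 v2 v3 m n t z0 z1 z2 z3 z4 c : ℕ} {val w : ℝ}
    (hI : Inv u0 u1 u2 u3 u4 A rem val B)
    (h : VOK u0 u1 u2 u3 u4 u1 w v0 v1 v2 v3 m n t z0 z1 z2 z3 z4 c) :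
    Inv u0 u1 u2 u3 u4 (vert1 Nat.add Nat.mul A v0 v1 v2 v3 m n t z0 z1 z2 z3 z4) (Nat.add rem c)
      (val + w) (B + 2 * bD) := by
  obtain ⟨Z, hZ, hv⟩ := hI
  obtain ⟨_, _, _, _, _, _, _, _, _, _, _, _, a, b, c, d, e, f, g, i, j, k, l, m, n⟩ := h
  refine ⟨_, rt_vert1 hZ a b c d e f g i j k l m, ?_⟩
  rw [ev_vert1, Nat.add_eq, Nat.cast_add, add_div]
  exact (add_le_add hv n).trans (le_of_eq (by unfold vInc; ring))

theorem Inv.v2 {A : TM ℕ} {rem B v0 v1 v2 v3 m n t z0 z1 z2 z3 z4 c : ℕ} {val w : ℝ}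
    (hI : Inv u0 u1 u2 u3 u4 A rem val B)
    (h : VOK u0 u1 u2 u3 u4 u2 w v0 v1 v2 v3 m n t z0 z1 z2 z3 z4 c) :
    Inv u0 u1 u2 u3 u4 (vert2 Nat.add Nat.mul A v0 v1 v2 v3 m n t z0 z1 z2 z3 z4) (Nat.add rem c)
      (val + w) (B + 2 * bD) := by
  obtain ⟨Z, hZ, hv⟩ := hI
  obtain ⟨_, _, _, _, _, _, _, _, _, _, _, _, a, b, c, d, e, f, g, i, j, k, l, m, n⟩ := h
  refine ⟨_, rt_vert2 hZ a b c d e f g i j k l m, ?_⟩
  rw [ev_vert2, Nat.add_eq, Nat.cast_add, add_div]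
  exact (add_le_add hv n).trans (le_of_eq (by unfold vInc; ring))

theorem Inv.v3 {A : TM ℕ} {rem B v0 v1 v2 v3 m n t z0 z1 z2 z3 z4 c : ℕ} {val w : ℝ}
    (hI : Inv u0 u1 u2 u3 u4 A rem val B)
    (h : VOK u0 u1 u2 u3 u4 u3 w v0 v1 v2 v3 m n t z0 z1 z2 z3 z4 c) :
    Inv u0 u1 u2 u3 u4 (vert3 Nat.add Nat.mul A v0 v1 v2 v3 m n t z0 z1 z2 z3 z4) (Nat.add rem c)
      (val + w) (B + 2 * bD) := by
  obtain ⟨Z, hZ, hv⟩ := hI
  obtain ⟨_, _, _, _, _, _, _, _, _, _, _, _, a, b, c, d, e, f, g, i, j, k, l, m, n⟩ := h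
  refine ⟨_, rt_vert3 hZ a b c d e f g i j k l m, ?_⟩
  rw [ev_vert3, Nat.add_eq, Nat.cast_add, add_div]
  exact (add_le_add hv n).trans (le_of_eq (by unfold vInc; ring))

theorem Inv.v4 {A : TM ℕ} {rem B v0 v1 v2 v3 m n t z0 z1 z2 z3 z4 c : ℕ} {val w : ℝ}
    (hI : Inv u0 u1 u2 u3 u4 A rem val B)
    (h : VOK u0 u1 u2 u3 u4 u4 w v0 v1 v2 v3 m n t z0 z1 z2 z3 z4 c) :
    Inv u0 u1 u2 u3 u4 (vert4 Nat.add Nat.mul A v0 v1 v2 v3 m n t z0 z1 z2 z3 z4) (Nat.add rem c)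
      (val + w) (B + 2 * bD) := by
  obtain ⟨Z, hZ, hv⟩ := hI
  obtain ⟨_, _, _, _, _, _, _, _, _, _, _, _, a, b, c, d, e, f, g, i, j, k, l, m, n⟩ := h
  refine ⟨_, rt_vert4 hZ a b c d e f g i j k l m, ?_⟩
  rw [ev_vert4, Nat.add_eq, Nat.cast_add, add_div]
  exact (add_le_add hv n).trans (le_of_eq (by unfold vInc; ring))

theorem p0_le {x u : ℝ} {lo G Q X R q : ℕ} (h : CO x u lo G Q X R q) (w e : ℕ) :
    15 * (11 / 20 * (((w : ℝ) - 2 ^ 23) / 2 ^ 20) ^ 2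
      + 9 / 320 * (2 * (((e : ℝ) - 256) / 128) ^ 3 + 3 / 2 * (((e : ℝ) - 256) / 128) ^ 4)
      + 17 / 20 * x - 6 / 5 * ell x - 133 / 1280)
      ≤ (p0P Q X w e - p0N G X e) / 2 ^ 44 + (1632 - 9 * G) / 128 * (R * u / 2 ^ 24) := by
  have h0 : (173 : ℝ) ≤ G := by exact_mod_cast h.G2
  have h1 := mul_le_mul_of_nonneg_left h.l1 (sub_nonneg.2 h0)
  have h2 := h.l2
  have h3 : ((ab w 8388608 : ℕ) : ℝ) ^ 2 = (w - 2 ^ 23) ^ 2 := by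
    rw [ab_cast, sq_abs]; norm_num
  have h4 : ((ab e 256 : ℕ) : ℝ) ^ 4 = (e - 256) ^ 4 := by
    rw [ab_cast, Even.pow_abs (by decide)]; norm_num
  rw [h.el, div_pow, div_pow, div_pow, cube_cast, ← h3, ← h4]
  simp only [p0P, p0N, Nat.add_eq, Nat.mul_eq, Nat.pow_eq]
  push_cast
  linarith

theorem vpar_sound {lo G Q X R q w e ab2 W0 W1 W2 W3 W4 : ℕ} {x u : ℝ}
    {k : ℕ → ℕ → ℕ → ℕ → ℕ → ℕ → ℕ → ℕ → ℕ → ℕ → ℕ → ℕ → ℕ → Bool}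
    (h : vpar lo G Q X R q w e ab2 W0 W1 W2 W3 W4 r0 r1 r2 r3 r4 k = true)
    (hC : CO x u lo G Q X R q) (hU : UB u0 u1 u2 u3 u4 r0 r1 r2 r3 r4) (kw : w ≤ 16777215)
    (ke : e ≤ 511) (ka : ab2 ≤ 2 ^ 106)
    (kW0 : W0 ≤ 8192) (kW1 : W1 ≤ 8192) (kW2 : W2 ≤ 8192) (kW3 : W3 ≤ 8192) (kW4 : W4 ≤ 8192) :
    ∃ v0 v1 v2 v3 m n t z0 z1 z2 z3 z4 c, k v0 v1 v2 v3 m n t z0 z1 z2 z3 z4 c = true ∧
      VOK u0 u1 u2 u3 u4 u (90 * 2 ^ 185 * gV x ((w - 2 ^ 23) / 2 ^ 20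
        + lin u0 u1 u2 u3 u4 W0 W1 W2 W3 W4 2048 2048 2048 2048 2048 r0 r1 r2 r3 r4) ((e - 256) / 128) 0
        - ab2 * q ^ 2 * P3 (R * u / 2 ^ 24)) v0 v1 v2 v3 m n t z0 z1 z2 z3 z4 c := by
  have hp := p0_le hC w e
  have hq := Rel.nat hC.q1
  have hG := Rel.nat hC.G1
  have hR := Rel.nat hC.R1
  have hw := Rel.nat kw
  have hab2 := Rel.nat ka
  have kp : p0P Q X w e ≤ 2 ^ 60 := by
    have a1 : ab w 8388608 ≤ 16777215 + 8388608 :=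
      Nat.add_le_add ((Nat.sub_le _ _).trans kw) (Nat.sub_le _ _)
    have a2 : ab e 256 ≤ 511 + 256 := Nat.add_le_add ((Nat.sub_le _ _).trans ke) (Nat.sub_le _ _)
    have a3 : e - 256 ≤ 511 := (Nat.sub_le _ _).trans ke
    simp only [p0P, Nat.add_eq, Nat.mul_eq, Nat.pow_eq, Nat.sub_eq]
    refine le_trans (b := 132 * (16777215 + 8388608) ^ 2 + 13824 * (512 * 511 ^ 3
      + 3 * (511 + 256) ^ 4) + 106954752 * 20971520 + 618475290624 * 3286 + 1024) ?_ (by norm_num)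
    gcongr
    exacts [hC.X1, hC.Q1]
  have kn : p0N G X e ≤ 2 ^ 60 := by
    have a3 : 256 - e ≤ 256 := Nat.sub_le _ _
    simp only [p0N, Nat.add_eq, Nat.mul_eq, Nat.pow_eq, Nat.sub_eq]
    refine le_trans (b := 7077888 * 256 ^ 3 + 589824 * 204 * 20971520 + 1821822047748096) ?_
      (by norm_num)
    gcongr
    exacts [hC.G1, hC.X1]
  have hZ := abs_lin hU W0 W1 W2 W3 W4 2048 2048 2048 2048 2048
  unfold vpar vpar1 vpar2 at h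
  generalize p0P Q X w e = pp at *
  generalize p0N G X e = pn at *
  have hpp := Rel.nat kp
  have hpn := Rel.nat kn
  have hl : Rel (Nat.sub 1 lo) (Nat.sub 1 lo : ℕ) 1 := Rel.nat (Nat.sub_le _ _)
  have hg := hq.mul hq
  have hT := (hR.mul (Rel.ct 1024))
  have hA := (hg.mul ((hpp.mul (Rel.ct 9007199254740992)).sn ((hpn.mul (Rel.ct 9007199254740992)).add hab2)))
  have hN := ((((Rel.ct 1632).sn ((Rel.ct 9).mul hG)).mul hg).mul (Rel.ct 1237940039285380274899124224))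
  have hc3 := ((hq.mul hg).mul (Rel.ct 7652600929320960))
  have hc4 := ((Rel.ct 255).mul (hg.mul hg))
  have k8 : 2048 ≤ 8192 := by norm_num
  refine ⟨_, _, _, _, _, _, _, _, _, _, _, _, _, h, _, _, _, _, _, _, _, _, _, _, _, _,
    (((((Rel.ct 6).mul hA).add ((Rel.ct 48).mul hc3)).add ((Rel.ct 6).mul hc4)).add (hl.mul
    (Rel.ct 8620287417370624828265702027720489157855407562282762240))).mono (by decide +kernel),
    ((((((Rel.ct 6).mul hA).add ((Rel.ct 6).mul hN)).add ((Rel.ct 72).mul hc3)).add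
    ((Rel.ct 12).mul hc4)).mul hT).mono (by decide +kernel), (((((((Rel.ct 3).mul hA).add
    ((Rel.ct 6).mul hN)).add ((Rel.ct 54).mul hc3)).add ((Rel.ct 12).mul hc4)).mul hT).mul
    hT).mono (by decide +kernel), ((((((hA.add ((Rel.ct 3).mul hN)).add ((Rel.ct 27).mul
    hc3)).add ((Rel.ct 8).mul hc4)).mul hT).mul hT).mul hT).mono (by decide +kernel), (hg.mul
    (Rel.ct 7843588088912169421760851083264)).mono (by decide +kernel), (((hw.sn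
    (Rel.ct 8388608)).mul hg).mul (Rel.ct 7480228508865518018494464)).mono (by decide +kernel),
    hT.mono (by decide +kernel), rel_sa kW0 k8 hU.b0, rel_sa kW1 k8 hU.b1, rel_sa kW2 k8 hU.b2,
    rel_sa kW3 k8 hU.b3, rel_sa kW4 k8 hU.b4, ?_⟩
  change _ ≤ vInc _ _ _ _ _ _ _ (lin u0 u1 u2 u3 u4 W0 W1 W2 W3 W4 2048 2048 2048 2048 2048 r0 r1 r2 r3 r4) _ + _
  generalize lin u0 u1 u2 u3 u4 W0 W1 W2 W3 W4 2048 2048 2048 2048 2048 r0 r1 r2 r3 r4 = Z at *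
  generalize sumA W0 W1 W2 W3 W4 2048 2048 2048 2048 2048 r0 r1 r2 r3 r4 = Zb at *
  have hF : 1 ≤ (vF R : ℝ) / 2 ^ 8 * (1 - 2 * (R / 2 ^ 24) / 5) := by
    have a0 : 2 * R < 83886080 := by have := hC.R1; omega
    have a1 := le_div_succ 21474836480 (Nat.sub_pos_of_lt a0)
    rw [Nat.cast_sub a0.le] at a1
    change _ ≤ ((vF R : ℕ) : ℝ) * _ at a1
    push_cast at a1
    linarith
  generalize vF R = F at *
  have ht : |R * u / 2 ^ 24| ≤ (R : ℝ) / 2 ^ 24 := by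
    rw [abs_div, abs_mul, Nat.abs_cast, abs_of_pos (by positivity : (0 : ℝ) < 2 ^ 24)]
    gcongr
    exact mul_le_of_le_one_right (by positivity) hC.hu
  have hs := le_tsub_cast pp pn
  have key := vert_real (p := (pp - pn) * (q ^ 2 * 2 ^ 53)) (pP := (Nat.sub pp pn : ℕ) * (q ^ 2 * 2 ^ 53))
    (N := (1632 - 9 * G) * (q ^ 2 * 2 ^ 90)) (Na := (ab 1632 (Nat.mul 9 G) : ℕ) * (q ^ 2 * 2 ^ 90))
    (l := (w - 2 ^ 23) * (33 * q ^ 2 * 2 ^ 76)) (la := (ab w 8388608 : ℕ) * (33 * q ^ 2 * 2 ^ 76))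
    (κ := 33 * q ^ 2 * 2 ^ 95) (c3 := 435 * q ^ 3 * 2 ^ 47) (c4 := 255 * q ^ 4) ht (by positivity) hF
    (by gcongr) (by positivity)
    (by rw [abs_mul, ab_cast, Nat.mul_eq, abs_of_nonneg (by positivity : (0 : ℝ) ≤ q ^ 2 * 2 ^ 90)]
        norm_num)
    (by rw [abs_mul, ab_cast, abs_of_nonneg (by positivity : (0 : ℝ) ≤ 33 * q ^ 2 * 2 ^ 76)]
        norm_num)
    (by positivity) hZ (by positivity) (by positivity)
  have e0 := hC.ex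
  have x1 : exp x = exp (x / 2) ^ 2 := by rw [← exp_nat_mul]; exact congrArg exp (by push_cast; ring)
  have x2 : exp (3 / 2 * x) = exp (x / 2) ^ 3 := by
    rw [← exp_nat_mul]; exact congrArg exp (by push_cast; ring)
  have x3 : exp (2 * x) = exp (x / 2) ^ 4 := by
    rw [← exp_nat_mul]; exact congrArg exp (by push_cast; ring)
  have y1 : exp (R * u / 2 ^ 24) = exp (R * u / 2 ^ 25) ^ 2 := by
    rw [← exp_nat_mul]; exact congrArg exp (by push_cast; ring)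
  have y2 : exp (3 / 2 * (R * u / 2 ^ 24)) = exp (R * u / 2 ^ 25) ^ 3 := by
    rw [← exp_nat_mul]; exact congrArg exp (by push_cast; ring)
  have y3 : exp (2 * (R * u / 2 ^ 24)) = exp (R * u / 2 ^ 25) ^ 4 := by
    rw [← exp_nat_mul]; exact congrArg exp (by push_cast; ring)
  have hc : (if x = -8 then (1 / 512 : ℝ) else 0) ≤ (Nat.sub 1 lo : ℕ) / 512 := by
    split_ifs with hx
    · rw [hC.cl hx]; norm_num
    · positivity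
  rw [y1, y2, y3] at key
  unfold gV
  rw [x1, x2, x3, e0]
  generalize exp (R * u / 2 ^ 25) = y at *
  have hp' := mul_le_mul_of_nonneg_left hp (by positivity : (0 : ℝ) ≤ q ^ 2 * y ^ 2)
  generalize ell x = lx at *
  generalize (if x = -8 then (1 / 512 : ℝ) else 0) = cl at *
  simp only [vInc, P3, Nat.add_eq, Nat.mul_eq, Nat.pow_eq] at key ⊢
  push_cast at key ⊢
  linarith

theorem mix_real {a b g y t : ℝ} (ha : 0 ≤ a) (hb : 0 ≤ b) (hg : 0 ≤ g) :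
    g * ((a + b) * P3 t - 6 * a * exp (y + t) - 6 * b * exp (2 * y + t))
      ≤ g * (-(6 * a + 12 * b) * y - (3 * a + 12 * b) * y ^ 2 - (a + 8 * b) * y ^ 3
        - (6 * a + 12 * b) * y * t - (3 * a + 12 * b) * y ^ 2 * t - (3 * a + 6 * b) * y * t ^ 2) := by
  have h1 := mul_le_mul_of_nonneg_left (P3_le (y + t)) ha
  have h2 := mul_le_mul_of_nonneg_left (P3_le (2 * y + t)) hb
  refine mul_le_mul_of_nonneg_left ?_ hg
  unfold P3 at *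
  linarith

/-- the terms that couple a point with the mean -/
noncomputable def mix (a b q : ℕ) (y t : ℝ) : ℝ :=
  q ^ 2 * ((a + b) * P3 t - 6 * a * exp (y + t) - 6 * b * exp (2 * y + t))

theorem sstep_sound {A : TM ℕ} {rem sg aa bb S0 S1 S2 S3 S4 q0 q1 q2 q3 q4 B : ℕ}
    {k : TM ℕ → ℕ → Bool} {val : ℝ}
    (h : sstep A rem sg aa bb S0 S1 S2 S3 S4 r0 r1 r2 r3 r4 q0 q1 q2 q3 q4 k = true)
    (hI : Inv u0 u1 u2 u3 u4 A rem val B) (hU : UB u0 u1 u2 u3 u4 r0 r1 r2 r3 r4)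
    (ks : sg ≤ 16777215) (ka : aa ≤ 2 ^ 104) (kb : bb ≤ 2 ^ 102)
    (kS0 : S0 ≤ 1023) (kq0 : q0 ≤ 70368744177664) (kS1 : S1 ≤ 1023) (kq1 : q1 ≤ 70368744177664)
    (kS2 : S2 ≤ 1023) (kq2 : q2 ≤ 70368744177664) (kS3 : S3 ≤ 1023) (kq3 : q3 ≤ 70368744177664)
    (kS4 : S4 ≤ 1023) (kq4 : q4 ≤ 70368744177664)
    {y : ℝ} (hy : y = lin u0 u1 u2 u3 u4 S0 S1 S2 S3 S4 0 0 0 0 0 r0 r1 r2 r3 r4) :
    sg / 2 ^ 22 * exp y ≤ 3 ∧ ∃ A' rem', k A' rem' = true ∧ Inv u0 u1 u2 u3 u4 A' rem' (val + (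
      mix aa bb q0 y (r0 * u0 / 2 ^ 24) + mix aa bb q1 y (r1 * u1 / 2 ^ 24) +
      mix aa bb q2 y (r2 * u2 / 2 ^ 24) + mix aa bb q3 y (r3 * u3 / 2 ^ 24) +
      mix aa bb q4 y (r4 * u4 / 2 ^ 24)
      + 6 * (2175 * 2 ^ 113 * sg ^ 3) * exp (3 * y) + 6 * (1275 * 2 ^ 89 * sg ^ 4) * exp (4 * y)
      - 2250 * 2 ^ 176)) (B + bD) := by
  simp only [sstep, sstep1, sstep2, Bool.and_eq_true, Nat.ble_eq] at h
  obtain ⟨k1, hk⟩ := h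
  obtain ⟨Z, hZ, hv⟩ := hI
  have hL := abs_lin hU S0 S1 S2 S3 S4 0 0 0 0 0
  have e0 : sumA S0 S1 S2 S3 S4 0 0 0 0 0 r0 r1 r2 r3 r4 = (Nat.add (Nat.add (Nat.add (Nat.add (Nat.mul S0 r0) (Nat.mul S1 r1)) (Nat.mul S2 r2)) (Nat.mul S3 r3)) (Nat.mul S4 r4)) := by
    simp [sumA, ab]
  rw [e0, ← hy] at hL
  generalize (Nat.add (Nat.add (Nat.add (Nat.add (Nat.mul S0 r0) (Nat.mul S1 r1)) (Nat.mul S2 r2)) (Nat.mul S3 r3)) (Nat.mul S4 r4)) = R at *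
  have k2 : (sg : ℝ) * 4096 + 3 * R ≤ 51539607552 := by exact_mod_cast k1
  have k3 : 4 * R < 85899345920 := by simp only [Nat.add_eq, Nat.mul_eq] at k1; omega
  have hF := factor (c := 4) (R := R) k3
  refine ⟨?_, ?_⟩
  · have a1 := add_one_le_exp (-y)
    have a2 : exp (-y) * exp y = 1 := by rw [← exp_add]; simp
    have a3 := mul_le_mul_of_nonneg_right (show (sg : ℝ) / 2 ^ 22 ≤ 3 * exp (-y) by
      linarith [(abs_le.1 hL).2]) (exp_pos y).le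
    linarith
  have hsg := Rel.nat ks
  have haa := Rel.nat ka
  have hbb := Rel.nat kb
  have hg0 := (Rel.nat kq0).mul (Rel.nat kq0)
  have ht0 := (Rel.nat hU.b0).mul (Rel.ct 1024)
  have hx0 := hg0.mul ht0
  have hs0 := (Rel.nat kS0).mul (Rel.nat hU.b0)
  have hg1 := (Rel.nat kq1).mul (Rel.nat kq1)
  have ht1 := (Rel.nat hU.b1).mul (Rel.ct 1024)
  have hx1 := hg1.mul ht1
  have hs1 := (Rel.nat kS1).mul (Rel.nat hU.b1)
  have hg2 := (Rel.nat kq2).mul (Rel.nat kq2)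
  have ht2 := (Rel.nat hU.b2).mul (Rel.ct 1024)
  have hx2 := hg2.mul ht2
  have hs2 := (Rel.nat kS2).mul (Rel.nat hU.b2)
  have hg3 := (Rel.nat kq3).mul (Rel.nat kq3)
  have ht3 := (Rel.nat hU.b3).mul (Rel.ct 1024)
  have hx3 := hg3.mul ht3
  have hs3 := (Rel.nat kS3).mul (Rel.nat hU.b3)
  have hg4 := (Rel.nat kq4).mul (Rel.nat kq4)
  have ht4 := (Rel.nat hU.b4).mul (Rel.ct 1024)
  have hx4 := hg4.mul ht4
  have hs4 := (Rel.nat kS4).mul (Rel.nat hU.b4)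
  have hG := ((((hg0.add hg1).add hg2).add hg3).add hg4)
  have ha := haa.mul hG
  have hb := hbb.mul hG
  have hC3 := ((hsg.pow 3).mul (Rel.ct 22586491334626500184107659032107417600))
  have hC4 := ((hsg.pow 4).mul (Rel.ct 789186775044429925248191692800))
  have hu2 := (Rel.mul Rel.neg (((Rel.ct 3).mul haa).add ((Rel.ct 6).mul hbb)))
  have hu4 := (Rel.mul Rel.neg (((Rel.ct 3).mul haa).add ((Rel.ct 12).mul hbb)))
  refine ⟨_, _, hk, _, rt_spart hZ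
    ((((Rel.ct 6).mul (hC3.add hC4)).sn
    (Rel.ct 215507185434265620706642550693012228946385189057069056000)).mono (by decide +kernel))
    (((((Rel.ct 18).mul hC3).add ((Rel.ct 24).mul hC4)).sn (((Rel.ct 6).mul ha).add
    ((Rel.ct 12).mul hb))).mono (by decide +kernel)) (((((Rel.ct 27).mul hC3).add
    ((Rel.ct 48).mul hC4)).sn (((Rel.ct 3).mul ha).add ((Rel.ct 12).mul hb))).mono
    (by decide +kernel)) (((((Rel.ct 27).mul hC3).add ((Rel.ct 64).mul hC4)).sn (ha.add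
    ((Rel.ct 8).mul hb))).mono (by decide +kernel)) (hs0.mono (by decide +kernel)) (hs1.mono
    (by decide +kernel)) (hs2.mono (by decide +kernel)) (hs3.mono (by decide +kernel)) (hs4.mono
    (by decide +kernel)) ((((Rel.ct 2).mul hu2).mul hx0).mono (by decide +kernel))
    ((((Rel.ct 2).mul hu2).mul hx1).mono (by decide +kernel)) ((((Rel.ct 2).mul hu2).mul
    hx2).mono (by decide +kernel)) ((((Rel.ct 2).mul hu2).mul hx3).mono (by decide +kernel))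
    ((((Rel.ct 2).mul hu2).mul hx4).mono (by decide +kernel)) ((hu4.mul hx0).mono
    (by decide +kernel)) ((hu4.mul hx1).mono (by decide +kernel)) ((hu4.mul hx2).mono
    (by decide +kernel)) ((hu4.mul hx3).mono (by decide +kernel)) ((hu4.mul hx4).mono
    (by decide +kernel)) (((hu2.mul hx0).mul ht0).mono (by decide +kernel)) (((hu2.mul hx1).mul
    ht1).mono (by decide +kernel)) (((hu2.mul hx2).mul ht2).mono (by decide +kernel)) (((hu2.mul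
    hx3).mul ht3).mono (by decide +kernel)) (((hu2.mul hx4).mul ht4).mono (by decide +kernel)), ?_⟩
  rw [ev_spart]
  have e1 : (S0 : ℝ) * r0 * (u0 / 2 ^ 34) + (S1 : ℝ) * r1 * (u1 / 2 ^ 34) + (S2 : ℝ) * r2 * (u2 / 2 ^ 34) + (S3 : ℝ) * r3 * (u3 / 2 ^ 34) + (S4 : ℝ) * r4 * (u4 / 2 ^ 34) = y := by
    rw [hy, lin]; push_cast; ring
  rw [e1]
  change 1 ≤ ((Nat.add (Nat.div _ (Nat.sub _ (Nat.mul 4 R))) 1 : ℕ) : ℝ) / _ * _ at hF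
  generalize Nat.add (Nat.div 21990232555520 _) 1 = F at *
  have hR : (0 : ℝ) ≤ F / 2 ^ 8 * (R / 2 ^ 34) := by positivity
  have a3 := le_P3 (y := 3 * y) (R := 3 * (R / 2 ^ 34)) (F := F / 2 ^ 8)
    (by rw [abs_mul, abs_of_pos (by norm_num : (0 : ℝ) < 3)]; linarith) (by positivity)
    (by push_cast at hF; linarith)
  have a4 := le_P3 (y := 4 * y) (R := 4 * (R / 2 ^ 34)) (F := F / 2 ^ 8)
    (by rw [abs_mul, abs_of_pos (by norm_num : (0 : ℝ) < 4)]; linarith) (by positivity)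
    (by push_cast at hF; linarith)
  have b3 := mul_le_mul_of_nonneg_left a3 (by positivity : (0 : ℝ) ≤ 2175 * 2 ^ 113 * sg ^ 3)
  have b4 := mul_le_mul_of_nonneg_left a4 (by positivity : (0 : ℝ) ≤ 1275 * 2 ^ 89 * sg ^ 4)
  have c0 := mix_real (y := y) (t := r0 * u0 / 2 ^ 24) (Nat.cast_nonneg aa) (Nat.cast_nonneg bb)
    (sq_nonneg (q0 : ℝ))
  have c1 := mix_real (y := y) (t := r1 * u1 / 2 ^ 24) (Nat.cast_nonneg aa) (Nat.cast_nonneg bb)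
    (sq_nonneg (q1 : ℝ))
  have c2 := mix_real (y := y) (t := r2 * u2 / 2 ^ 24) (Nat.cast_nonneg aa) (Nat.cast_nonneg bb)
    (sq_nonneg (q2 : ℝ))
  have c3 := mix_real (y := y) (t := r3 * u3 / 2 ^ 24) (Nat.cast_nonneg aa) (Nat.cast_nonneg bb)
    (sq_nonneg (q3 : ℝ))
  have c4 := mix_real (y := y) (t := r4 * u4 / 2 ^ 24) (Nat.cast_nonneg aa) (Nat.cast_nonneg bb)
    (sq_nonneg (q4 : ℝ))
  unfold mix
  generalize (q0 : ℝ) ^ 2 * ((aa + bb) * P3 _ - _ - _) = d0 at *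
  generalize (q1 : ℝ) ^ 2 * ((aa + bb) * P3 _ - _ - _) = d1 at *
  generalize (q2 : ℝ) ^ 2 * ((aa + bb) * P3 _ - _ - _) = d2 at *
  generalize (q3 : ℝ) ^ 2 * ((aa + bb) * P3 _ - _ - _) = d3 at *
  generalize (q4 : ℝ) ^ 2 * ((aa + bb) * P3 _ - _ - _) = d4 at *
  simp only [P3, Nat.add_eq, Nat.mul_eq, Nat.pow_eq] at b3 b4 ⊢
  push_cast
  linarith

theorem qstep_sound {A : TM ℕ} {B rem ex
    l0c l00 l01 l02 l03 l04 l1c l11 l12 l13 l14 l2c l22 l23 l24 l3c l33 l34 l4c l44 : ℕ} {val : ℝ}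
    (h : qstep A rem ex
    l0c l00 l01 l02 l03 l04 l1c l11 l12 l13 l14 l2c l22 l23 l24 l3c l33 l34 l4c l44 = true)
    (hI : Inv u0 u1 u2 u3 u4 A rem val B) (hU : UB u0 u1 u2 u3 u4 r0 r1 r2 r3 r4)
    (hB : B + bD < hf)
    (kl0c : l0c ≤ 65535) (kl00 : l00 ≤ 65535) (kl01 : l01 ≤ 65535) (kl02 : l02 ≤ 65535)
    (kl03 : l03 ≤ 65535) (kl04 : l04 ≤ 65535) (kl1c : l1c ≤ 65535) (kl11 : l11 ≤ 65535)
    (kl12 : l12 ≤ 65535) (kl13 : l13 ≤ 65535) (kl14 : l14 ≤ 65535) (kl2c : l2c ≤ 65535)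
    (kl22 : l22 ≤ 65535) (kl23 : l23 ≤ 65535) (kl24 : l24 ≤ 65535) (kl3c : l3c ≤ 65535)
    (kl33 : l33 ≤ 65535) (kl34 : l34 ≤ 65535) (kl4c : l4c ≤ 65535) (kl44 : l44 ≤ 65535) : val ≤ 0 := by
  simp only [qstep, Bool.and_eq_true, Nat.ble_eq] at h
  obtain ⟨Z, hZ, hv⟩ := hI
  have a0 : ∀ {x : ℕ}, x ≤ 65535 → Rel (l0 x) _ bL := fun hx =>
    ((Rel.nat hx).sn (Rel.ct 32768)).mono (by decide +kernel)
  have a1 : ∀ {x : ℕ}, x ≤ 65535 → Rel (l1 x) _ bL := fun hx =>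
    (((Rel.nat hx).sn (Rel.ct 32768)).mul (Rel.ct 17179869184)).mono (by decide +kernel)
  have a2 : Rel (Nat.pow 2 ex) (Nat.pow 2 ex : ℕ) bC :=
    Rel.nat (Nat.pow_le_pow_right two_pos (h.1.trans (by norm_num)))
  have a3 := fin_sound (rt_sqs hZ a2
    (a0 kl0c) (a1 kl00) (a1 kl01) (a1 kl02) (a1 kl03) (a1 kl04) (a0 kl1c) (a1 kl11) (a1 kl12)
    (a1 kl13) (a1 kl14) (a0 kl2c) (a1 kl22) (a1 kl23) (a1 kl24) (a0 kl3c) (a1 kl33) (a1 kl34)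
    (a0 kl4c) (a1 kl44)) hB h.2 hU.a0 hU.a1 hU.a2 hU.a3 hU.a4
  rw [ev_sqs] at a3
  refine hv.trans (le_trans (add_le_add (le_add_of_nonneg_right ?_) le_rfl) a3)
  positivity

end Pool.Agent.Lib.RC5.X69
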