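import Pool.Agent.Lib.RC5.Blue

/-! A checker for the inequality at a point on tetrahedra: definitions. -/

namespace Pool.Agent.Lib.RC5.T74

/-- evaluate the number before it is passed on -/
noncomputable def fc (x : ℕ) (k : ℕ → Bool) : Bool :=
  Nat.rec (k (nat_lit 0)) (fun n _ => k (Nat.succ n)) x

/-- one step of the Horner scheme -/
def hs (c y acc : ℕ) : ℕ := Nat.add c (Nat.shiftRight (Nat.mul acc y) (nat_lit 40))

/-- first terms of the series of the logarithm -/
def ser (z y : ℕ) : ℕ :=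
  Nat.shiftRight (Nat.mul z (hs (nat_lit 1099511627776) y (hs (nat_lit 366503875925) y
    (hs (nat_lit 219902325555) y (hs (nat_lit 157073089682) y (hs (nat_lit 122167958641) y
    (hs (nat_lit 99955602525) y (hs (nat_lit 84577817521) y (nat_lit 73300775185)))))))))
    (nat_lit 39)

/-- lower bound of `2 ^ 40 * log (a / b)` -/
noncomputable def lo (a b : ℕ) (k : ℕ → Bool) : Bool :=
  fc (Nat.div (Nat.shiftLeft (Nat.sub a b) (nat_lit 40)) (Nat.add a b)) fun z =>
  fc (Nat.shiftRight (Nat.mul z z) (nat_lit 40)) fun y => k (ser z y)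

/-- lower bound of `2 ^ 40 * log n` -/
noncomputable def lgLo (n : ℕ) (k : ℕ → Bool) : Bool :=
  fc (Nat.log2 n) fun m => fc (Nat.shiftLeft (nat_lit 1) m) fun p =>
  lo n p fun s => fc (Nat.add (Nat.mul m (nat_lit 762123384785)) s) k

/-- upper bound of `2 ^ 40 * n * log n` -/
noncomputable def lgHi (n : ℕ) (k : ℕ → Bool) : Bool :=
  fc (Nat.succ (Nat.log2 n)) fun m => fc (Nat.shiftLeft (nat_lit 1) m) fun p =>
  lo p n fun s => k (Nat.mul n (Nat.sub (Nat.mul m (nat_lit 762123384786)) s))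

/-- a vertex with a bound of the convex part -/
structure V where
  e : ℕ
  w : ℕ
  n : ℕ
  s : ℕ
  f : ℕ

/-- distance of two numbers -/
def ad (a b : ℕ) : ℕ := Nat.add (Nat.sub a b) (Nat.sub b a)

/-- the vertex with given coordinates -/
noncomputable def mk (e w n s : ℕ) (k : V → Bool) : Bool :=
  lgHi e fun a => lgHi w fun b => lgHi n fun c => lgHi s fun d =>
  fc (ad e w) fun h => fc (ad n s) fun v => fc (ad (Nat.add e w) (Nat.add n s)) fun u =>
  fc (Nat.mul u u) fun q =>
  fc (Nat.add (Nat.add (Nat.mul (nat_lit 27) (Nat.add (Nat.add a b) (Nat.add c d)))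
      (Nat.mul (nat_lit 6720) (Nat.add (Nat.mul h h) (Nat.mul v v))))
      (Nat.succ (Nat.shiftRight (Nat.mul (nat_lit 9) (Nat.mul q q)) (nat_lit 61)))) fun f =>
  k (V.mk e w n s f)

/-- half of an even number -/
noncomputable def hf (a b : ℕ) (k : ℕ → Bool) : Bool :=
  fc (Nat.shiftRight (Nat.add a b) (nat_lit 1)) fun m =>
  Bool.rec false (k m) (Nat.beq (Nat.add m m) (Nat.add a b))

/-- the midpoint -/
noncomputable def mid (x y : V) (k : V → Bool) : Bool :=
  hf x.e y.e fun e => hf x.w y.w fun w => hf x.n y.n fun n => hf x.s y.s fun s => mk e w n s k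

/-- sixteen times the generating function -/
def pp (E W N S : ℕ) : ℕ :=
  Nat.add (Nat.add
    (Nat.mul (Nat.mul E E) (Nat.add (Nat.add E (Nat.mul (nat_lit 48) W))
      (Nat.mul (nat_lit 12) (Nat.add N S))))
    (Nat.mul (Nat.mul W W) (Nat.add (Nat.add W (Nat.mul (nat_lit 48) E))
      (Nat.mul (nat_lit 12) (Nat.add N S))))) (Nat.add (Nat.add
    (Nat.mul (Nat.mul N N) (Nat.add (Nat.add N (Nat.mul (nat_lit 48) S))
      (Nat.mul (nat_lit 12) (Nat.add E W))))
    (Nat.mul (Nat.mul S S) (Nat.add (Nat.add S (Nat.mul (nat_lit 48) N))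
      (Nat.mul (nat_lit 12) (Nat.add E W)))))
    (Nat.mul (nat_lit 96) (Nat.add (Nat.mul (Nat.mul E W) (Nat.add N S))
      (Nat.mul (Nat.mul N S) (Nat.add E W)))))

/-- the test at a vertex -/
def vt (c a b g d : ℕ) (x : V) : Bool :=
  Nat.ble (Nat.add x.f c) (Nat.add (Nat.mul (nat_lit 30) (Nat.add (Nat.add (Nat.mul x.e a)
    (Nat.mul x.w b)) (Nat.add (Nat.mul x.n g) (Nat.mul x.s d)))) (nat_lit 47223664828696452136960))

/-- a field of the packed tilt -/
def fld (q : ℕ) : ℕ := Nat.shiftLeft (Nat.succ (Nat.land q (nat_lit 4194303))) (nat_lit 9)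

/-- the test at a leaf -/
noncomputable def lf (q : ℕ) (x y z u : V) : Bool :=
  fc (fld q) fun E => fc (fld (Nat.shiftRight q (nat_lit 22))) fun W =>
  fc (fld (Nat.shiftRight q (nat_lit 44))) fun N => fc (fld (Nat.shiftRight q (nat_lit 66))) fun S =>
  lgLo E fun a => lgLo W fun b => lgLo N fun g => lgLo S fun d =>
  fc (Nat.succ (Nat.div (Nat.mul (nat_lit 5) (pp E W N S)) (nat_lit 173056))) fun c =>
  Bool.rec false (Bool.rec false (Bool.rec false (vt c a b g d u) (vt c a b g d z))
    (vt c a b g d y)) (vt c a b g d x)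

/-- the vertex is near the centre -/
def ct (x : V) : Bool :=
  Bool.rec false (Bool.rec false (Nat.ble (ad x.n x.s) (nat_lit 33554432))
    (Nat.ble (ad x.e x.w) (nat_lit 33554432)))
    (Nat.ble (ad (Nat.add x.e x.w) (Nat.add x.n x.s)) (nat_lit 33554432))

/-- certificates -/
inductive Tr where
  | L : ℕ → Tr
  | C : Tr
  | a : Tr → Tr → Tr
  | b : Tr → Tr → Tr
  | c : Tr → Tr → Tr
  | d : Tr → Tr → Tr
  | e : Tr → Tr → Tr
  | f : Tr → Tr → Tr

/-- the checker -/
noncomputable def chk (t : Tr) : V → V → V → V → Bool :=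
  Tr.rec (fun q x y z u => lf q x y z u)
    (fun x y z u => Bool.rec false (Bool.rec false (Bool.rec false (ct u) (ct z)) (ct y)) (ct x))
    (fun _ _ l r x y z u => mid x y fun m => Bool.rec false (r x m z u) (l m y z u))
    (fun _ _ l r x y z u => mid x z fun m => Bool.rec false (r x y m u) (l m y z u))
    (fun _ _ l r x y z u => mid x u fun m => Bool.rec false (r x y z m) (l m y z u))
    (fun _ _ l r x y z u => mid y z fun m => Bool.rec false (r x y m u) (l x m z u))
    (fun _ _ l r x y z u => mid y u fun m => Bool.rec false (r x y z m) (l x m z u))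
    (fun _ _ l r x y z u => mid z u fun m => Bool.rec false (r x y z m) (l x y m u)) t

/-- the checker on a tetrahedron given by coordinates -/
noncomputable def top (t : Tr) (x y z u : ℕ × ℕ × ℕ × ℕ) : Bool :=
  mk x.1 x.2.1 x.2.2.1 x.2.2.2 fun x => mk y.1 y.2.1 y.2.2.1 y.2.2.2 fun y =>
  mk z.1 z.2.1 z.2.2.1 z.2.2.2 fun z => mk u.1 u.2.1 u.2.2.1 u.2.2.2 fun u => chk t x y z u

end Pool.Agent.Lib.RC5.T74
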