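import Pool.Agent.Lib.RC5.STk

/-! A checker for the inequality at a point on tetrahedra: logarithms. -/

namespace Pool.Agent.Lib.RC5.T74

open Real

theorem fc_eq (x : ℕ) (k : ℕ → Bool) : fc x k = k x := by cases x <;> rfl

theorem shr_le (x j : ℕ) : ((Nat.shiftRight x j : ℕ) : ℝ) ≤ x / 2 ^ j := by
  have : Nat.shiftRight x j = x / 2 ^ j := Nat.shiftRight_eq_div_pow x j
  rw [this]
  exact Nat.cast_div_le.trans (by rw [Nat.cast_pow, Nat.cast_ofNat])

theorem lt_shr (x j : ℕ) : (x : ℝ) / 2 ^ j ≤ ((Nat.succ (Nat.shiftRight x j) : ℕ) : ℝ) := by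
  have : Nat.shiftRight x j = x / 2 ^ j := Nat.shiftRight_eq_div_pow x j
  rw [this, div_le_iff₀ (by positivity)]
  have h := Nat.lt_mul_div_succ x (show 0 < 2 ^ j by positivity)
  rw [mul_comm] at h
  exact_mod_cast h.le

theorem hs_le {c y acc : ℕ} {g A w : ℝ} (hc : (c : ℝ) ≤ 2 ^ 40 * g) (hy : (y : ℝ) ≤ 2 ^ 40 * w)
    (ha : (acc : ℝ) ≤ 2 ^ 40 * A) : ((hs c y acc : ℕ) : ℝ) ≤ 2 ^ 40 * (g + A * w) := by
  have h1 := shr_le (Nat.mul acc y) 40
  have h2 : (acc : ℝ) * y ≤ (2 ^ 40 * A) * (2 ^ 40 * w) :=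
    mul_le_mul ha hy (Nat.cast_nonneg _) ((Nat.cast_nonneg _).trans ha)
  have h3 : ((hs c y acc : ℕ) : ℝ) = c + (Nat.shiftRight (Nat.mul acc y) 40 : ℕ) := Nat.cast_add _ _
  have h4 : ((Nat.mul acc y : ℕ) : ℝ) = acc * y := Nat.cast_mul _ _
  rw [h4] at h1
  rw [h3]
  linarith

theorem ser_le {z y : ℕ} {x : ℝ} (h0 : 0 ≤ x) (h1 : x < 1) (hz : (z : ℝ) ≤ 2 ^ 40 * x)
    (hy : (y : ℝ) ≤ 2 ^ 40 * x ^ 2) : ((ser z y : ℕ) : ℝ) ≤ 2 ^ 40 * log ((1 + x) / (1 - x)) := by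
  have a7 : ((73300775185 : ℕ) : ℝ) ≤ 2 ^ 40 * (1 / 15) := by norm_num
  have a6 := hs_le (c := 84577817521) (g := 1 / 13) (by norm_num) hy a7
  have a5 := hs_le (c := 99955602525) (g := 1 / 11) (by norm_num) hy a6
  have a4 := hs_le (c := 122167958641) (g := 1 / 9) (by norm_num) hy a5
  have a3 := hs_le (c := 157073089682) (g := 1 / 7) (by norm_num) hy a4
  have a2 := hs_le (c := 219902325555) (g := 1 / 5) (by norm_num) hy a3
  have a1 := hs_le (c := 366503875925) (g := 1 / 3) (by norm_num) hy a2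
  have a0 := hs_le (c := 1099511627776) (g := 1) (by norm_num) hy a1
  have b := sum_range_le_log_div h0 h1 8
  simp only [Finset.sum_range_succ, Finset.sum_range_zero] at b
  refine (shr_le _ 39).trans ?_
  have h4 : ∀ u v : ℕ, ((Nat.mul u v : ℕ) : ℝ) = u * v := fun u v => Nat.cast_mul _ _
  rw [h4, div_le_iff₀ (by positivity)]
  refine (mul_le_mul hz a0 (Nat.cast_nonneg _) (by positivity)).trans ?_
  push_cast at b
  norm_num at b ⊢
  linarith

theorem lo_spec {a b : ℕ} {k : ℕ → Bool} (h : lo a b k = true) :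
    ∃ s, k s = true ∧ (0 < b → b ≤ a → (s : ℝ) ≤ 2 ^ 40 * (log a - log b)) := by
  unfold lo at h
  rw [fc_eq, fc_eq] at h
  refine ⟨_, h, fun hb hab => ?_⟩
  have hb' : (0 : ℝ) < b := Nat.cast_pos.2 hb
  have hab' : (b : ℝ) ≤ a := Nat.cast_le.2 hab
  have hs : (0 : ℝ) < a + b := by linarith
  have hz : ((Nat.div (Nat.shiftLeft (Nat.sub a b) 40) (Nat.add a b) : ℕ) : ℝ)
      ≤ 2 ^ 40 * ((a - b) / (a + b)) := by
    have e : Nat.div (Nat.shiftLeft (Nat.sub a b) 40) (Nat.add a b) = (a - b) * 2 ^ 40 / (a + b) :=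
      congrArg (fun t => t / (a + b)) (Nat.shiftLeft_eq (a - b) 40)
    rw [e]
    refine Nat.cast_div_le.trans (le_of_eq ?_)
    push_cast [Nat.cast_sub hab]
    ring
  have h0 : (0 : ℝ) ≤ (a - b) / (a + b) := div_nonneg (by linarith) hs.le
  have h1 : ((a : ℝ) - b) / (a + b) < 1 := by rw [div_lt_one hs]; linarith
  have e2 : (1 + ((a : ℝ) - b) / (a + b)) / (1 - (a - b) / (a + b)) = a / b := by
    rw [div_eq_div_iff (by linarith) hb'.ne']
    field_simp; ring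
  have := ser_le h0 h1 hz (y := Nat.shiftRight (Nat.mul
    (Nat.div (Nat.shiftLeft (Nat.sub a b) 40) (Nat.add a b))
    (Nat.div (Nat.shiftLeft (Nat.sub a b) 40) (Nat.add a b))) 40) (by
      refine (shr_le _ 40).trans ?_
      have h4 : ∀ u v : ℕ, ((Nat.mul u v : ℕ) : ℝ) = u * v := fun u v => Nat.cast_mul _ _
      rw [h4, div_le_iff₀ (by positivity)]
      refine (mul_le_mul hz hz (Nat.cast_nonneg _) (by positivity)).trans (le_of_eq ?_)
      ring)
  rwa [e2, log_div (by linarith) hb'.ne'] at this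

theorem l2_lo : (762123384785 : ℝ) ≤ 2 ^ 40 * log 2 := by
  have b := sum_range_le_log_div (x := 1 / 3) (by norm_num) (by norm_num) 15
  norm_num [Finset.sum_range_succ] at b
  linarith

theorem l2_hi : 2 ^ 40 * log 2 ≤ (762123384786 : ℝ) := by
  have b := log_div_le_sum_range_add (x := 1 / 3) (by norm_num) (by norm_num) 15
  norm_num [Finset.sum_range_succ] at b
  linarith

theorem shl_one (m : ℕ) : Nat.shiftLeft 1 m = 2 ^ m := Nat.one_shiftLeft m

theorem lgLo_spec {n : ℕ} {k : ℕ → Bool} (hn : n ≠ 0) (h : lgLo n k = true) :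
    ∃ s, k s = true ∧ (s : ℝ) ≤ 2 ^ 40 * log n := by
  unfold lgLo at h
  rw [fc_eq, fc_eq] at h
  obtain ⟨s, h, hs⟩ := lo_spec h
  rw [fc_eq] at h
  refine ⟨_, h, ?_⟩
  rw [shl_one] at hs
  have h1 := hs (by positivity) (Nat.log2_self_le hn)
  have e : ((Nat.add (Nat.mul n.log2 762123384785) s : ℕ) : ℝ) = n.log2 * 762123384785 + s := by
    show ((n.log2 * 762123384785 + s : ℕ) : ℝ) = _
    push_cast; rfl
  rw [e]
  rw [Nat.cast_pow, Nat.cast_ofNat, log_pow] at h1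
  have := mul_le_mul_of_nonneg_left l2_lo (Nat.cast_nonneg (α := ℝ) n.log2)
  linarith

theorem lgHi_spec {n : ℕ} {k : ℕ → Bool} (h : lgHi n k = true) :
    ∃ s, k s = true ∧ 2 ^ 40 * (n * log n) ≤ (s : ℝ) := by
  unfold lgHi at h
  rw [fc_eq, fc_eq] at h
  obtain ⟨s, h, hs⟩ := lo_spec h
  refine ⟨_, h, ?_⟩
  rcases Nat.eq_zero_or_pos n with rfl | hn
  · simp
  rw [shl_one] at hs
  have h1 := hs hn (Nat.lt_log2_self (n := n)).le
  have e : ((Nat.mul n (Nat.sub (Nat.mul n.log2.succ 762123384786) s) : ℕ) : ℝ)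
      = n * ((n.log2.succ * 762123384786 - s : ℕ) : ℝ) := Nat.cast_mul _ _
  rw [e, mul_left_comm]
  refine mul_le_mul_of_nonneg_left ?_ (Nat.cast_nonneg _)
  have h2 : ((n.log2.succ * 762123384786 : ℕ) : ℝ)
      ≤ ((n.log2.succ * 762123384786 - s : ℕ) : ℝ) + s := by
    exact_mod_cast le_tsub_add
  rw [Nat.cast_pow, Nat.cast_ofNat, log_pow] at h1
  have := mul_le_mul_of_nonneg_left l2_hi (Nat.cast_nonneg (α := ℝ) n.log2.succ)
  rw [Nat.cast_mul, Nat.cast_ofNat] at h2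
  linarith

end Pool.Agent.Lib.RC5.T74
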