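import Pool.Agent.Lib.RC5.STl

/-! A checker for the inequality at a point on tetrahedra: soundness. -/

namespace Pool.Agent.Lib.RC5.T74

open Real

theorem Pp_pos {a b c d : ℝ} (ha : 0 < a) (hb : 0 < b) (hc : 0 < c) (hd : 0 < d) :
    0 < Pp a b c d := by unfold Pp; positivity

/-- the inequality from unnormalised tilts -/
theorem sin_of {E W N S a b c d K : ℝ} (h1 : E + W + N + S = 1) (ha : 0 < a) (hb : 0 < b)
    (hc : 0 < c) (hd : 0 < d) (hK : 0 < K)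
    (h : Pp a b c d / K - 1 + log K - 3 * (E * log a + W * log b + N * log c + S * log d)
      + 27 / 10 * (E * log E + W * log W + N * log N + S * log S)
      + 21 / 8 * ((E - W) ^ 2 + (N - S) ^ 2) + 9 / 320 * (E + W - N - S) ^ 4
      ≤ 3 / 10 * log 4 + 2 * log (13 / 16)) : SIn E W N S := by
  have hP := Pp_pos ha hb hc hd
  refine ⟨log a - log (Pp a b c d) / 3, log b - log (Pp a b c d) / 3,
    log c - log (Pp a b c d) / 3, log d - log (Pp a b c d) / 3, ?_, ?_⟩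
  · have e : ∀ x : ℝ, 0 < x → exp (log x - log (Pp a b c d) / 3)
        = x * exp (-(log (Pp a b c d) / 3)) := fun x hx => by
      rw [sub_eq_add_neg, exp_add, exp_log hx]
    have e3 : exp (-(log (Pp a b c d) / 3)) ^ 3 * Pp a b c d = 1 := by
      rw [← exp_nat_mul, show ((3 : ℕ) : ℝ) * -(log (Pp a b c d) / 3) = -log (Pp a b c d) by
        push_cast; ring, exp_neg, exp_log hP, inv_mul_cancel₀ hP.ne']
    rw [e a ha, e b hb, e c hc, e d hd, ← e3]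
    generalize exp (-(log (Pp a b c d) / 3)) = r
    unfold Pp
    exact le_of_eq (by ring)
  · have h2 := log_le_sub_one_of_pos (div_pos hP hK)
    rw [log_div hP.ne' hK.ne'] at h2
    have h3 : (E + W + N + S) * log (Pp a b c d) = log (Pp a b c d) := by rw [h1, one_mul]
    linarith

/-- the convex part, scaled -/
noncomputable def Fi (e w n s : ℝ) : ℝ :=
  27 * 2 ^ 40 * (e * log e + w * log w + n * log n + s * log s)
    + 6720 * ((e - w) ^ 2 + (n - s) ^ 2) + 9 * (e + w - n - s) ^ 4 / 2 ^ 61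

theorem jen {f : ℝ → ℝ} {I : Set ℝ} (hf : ConvexOn ℝ I f) {a b c d x y z u : ℝ} (ha : 0 ≤ a)
    (hb : 0 ≤ b) (hc : 0 ≤ c) (hd : 0 ≤ d) (h1 : a + b + c + d = 1) (hx : x ∈ I) (hy : y ∈ I)
    (hz : z ∈ I) (hu : u ∈ I) :
    f (a * x + b * y + c * z + d * u) ≤ a * f x + b * f y + c * f z + d * f u := by
  have := hf.map_sum_le (t := Finset.univ) (w := ![a, b, c, d]) (p := ![x, y, z, u])
    (fun i _ => by fin_cases i <;> simpa) (by simpa [Fin.sum_univ_four] using h1)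
    (fun i _ => by fin_cases i <;> simpa)
  simpa [Fin.sum_univ_four] using this

/-- the vertex is valid -/
def ok (x : V) : Prop :=
  (x.e : ℝ) + x.w + x.n + x.s = 2 ^ 32 ∧ Fi x.e x.w x.n x.s ≤ x.f

/-- the inequality holds on the tetrahedron -/
def TN (x y z u : V) : Prop :=
  ∀ a b c d : ℝ, 0 ≤ a → 0 ≤ b → 0 ≤ c → 0 ≤ d → a + b + c + d = 1 →
    SIn ((a * x.e + b * y.e + c * z.e + d * u.e) / 2 ^ 32)
      ((a * x.w + b * y.w + c * z.w + d * u.w) / 2 ^ 32)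
      ((a * x.n + b * y.n + c * z.n + d * u.n) / 2 ^ 32)
      ((a * x.s + b * y.s + c * z.s + d * u.s) / 2 ^ 32)

theorem cA (u v : ℕ) : ((Nat.add u v : ℕ) : ℝ) = u + v := Nat.cast_add _ _

theorem cM (u v : ℕ) : ((Nat.mul u v : ℕ) : ℝ) = u * v := Nat.cast_mul _ _

theorem ad_eq (a b : ℕ) : ((ad a b : ℕ) : ℝ) = |(a : ℝ) - b| := by
  have e : ad a b = (a - b) + (b - a) := rfl
  rcases le_total a b with h | h
  · rw [e, Nat.sub_eq_zero_of_le h, zero_add, Nat.cast_sub h, abs_sub_comm,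
      abs_of_nonneg (sub_nonneg.2 (Nat.cast_le.2 h))]
  · rw [e, Nat.sub_eq_zero_of_le h, add_zero, Nat.cast_sub h,
      abs_of_nonneg (sub_nonneg.2 (Nat.cast_le.2 h))]

theorem mk_spec {e w n s : ℕ} {k : V → Bool} (h : mk e w n s k = true) :
    ∃ f, k ⟨e, w, n, s, f⟩ = true ∧ Fi e w n s ≤ f := by
  unfold mk at h
  obtain ⟨a, h, ha⟩ := lgHi_spec h
  obtain ⟨b, h, hb⟩ := lgHi_spec h
  obtain ⟨c, h, hc⟩ := lgHi_spec h
  obtain ⟨d, h, hd⟩ := lgHi_spec h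
  rw [fc_eq, fc_eq, fc_eq, fc_eq, fc_eq] at h
  refine ⟨_, h, ?_⟩
  have h1 := lt_shr (Nat.mul 9 (Nat.mul (Nat.mul (ad (Nat.add e w) (Nat.add n s))
    (ad (Nat.add e w) (Nat.add n s))) (Nat.mul (ad (Nat.add e w) (Nat.add n s))
    (ad (Nat.add e w) (Nat.add n s))))) 61
  rw [cA, cA]
  refine le_trans ?_ (add_le_add le_rfl h1)
  simp only [cA, cM, ad_eq, abs_mul_abs_self]
  unfold Fi
  push_cast
  linarith

theorem brec {p q : Bool} (h : (Bool.rec false q p : Bool) = true) : p = true ∧ q = true := by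
  cases p
  · exact absurd h (by simp)
  · exact ⟨rfl, h⟩

theorem hf_spec {a b : ℕ} {k : ℕ → Bool} (h : hf a b k = true) :
    ∃ m, k m = true ∧ (m : ℝ) = (a + b) / 2 := by
  unfold hf at h
  rw [fc_eq] at h
  obtain ⟨h1, h⟩ := brec h
  refine ⟨_, h, ?_⟩
  have := congrArg (Nat.cast : ℕ → ℝ) (Nat.eq_of_beq_eq_true h1)
  rw [cA, cA] at this
  linarith

theorem mid_spec {x y : V} {k : V → Bool} (hx : ok x) (hy : ok y) (h : mid x y k = true) :
    ∃ m, k m = true ∧ ok m ∧ ∀ z u, TN m y z u → TN x m z u → TN x y z u := by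
  unfold mid at h
  obtain ⟨e, h, he⟩ := hf_spec h
  obtain ⟨w, h, hw⟩ := hf_spec h
  obtain ⟨n, h, hn⟩ := hf_spec h
  obtain ⟨s, h, hs⟩ := hf_spec h
  obtain ⟨f, h, hf⟩ := mk_spec h
  refine ⟨_, h, ⟨?_, hf⟩, fun z u h1 h2 a b c d ha hb hc hd h3 => ?_⟩
  · show (e : ℝ) + w + n + s = _
    linarith [hx.1, hy.1]
  · rcases le_total a b with hab | hab
    · have := h1 (2 * a) (b - a) c d (by linarith) (by linarith) hc hd (by linarith)
      simp only [he, hw, hn, hs] at this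
      convert this using 1 <;> ring
    · have := h2 (a - b) (2 * b) c d (by linarith) (by linarith) hc hd (by linarith)
      simp only [he, hw, hn, hs] at this
      convert this using 1 <;> ring

theorem TN.s01 {x y z u : V} (h : TN x y z u) : TN y x z u := fun a b c d ha hb hc hd h1 => by
  convert h b a c d hb ha hc hd (by linarith) using 1 <;> ring

theorem TN.s12 {x y z u : V} (h : TN x y z u) : TN x z y u := fun a b c d ha hb hc hd h1 => by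
  convert h a c b d ha hc hb hd (by linarith) using 1 <;> ring

theorem TN.s23 {x y z u : V} (h : TN x y z u) : TN x y u z := fun a b c d ha hb hc hd h1 => by
  convert h a b d c ha hb hd hc (by linarith) using 1 <;> ring

theorem fld_pos (q : ℕ) : fld q ≠ 0 := by
  have : fld q = (Nat.land q 4194303 + 1) * 2 ^ 9 := Nat.shiftLeft_eq _ 9
  rw [this]; positivity

theorem vt_spec {c a b g d : ℕ} {x : V} {la lb lg ld : ℝ} (hx : ok x) (ha : (a : ℝ) ≤ la)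
    (hb : (b : ℝ) ≤ lb) (hg : (g : ℝ) ≤ lg) (hd : (d : ℝ) ≤ ld) (h : vt c a b g d x = true) :
    Fi x.e x.w x.n x.s + c ≤ 30 * (x.e * la + x.w * lb + x.n * lg + x.s * ld) + 10 * 2 ^ 72 := by
  have h1 := (Nat.cast_le (α := ℝ)).2 (Nat.le_of_ble_eq_true h)
  simp only [cA, cM] at h1
  push_cast at h1
  have := mul_le_mul_of_nonneg_left ha (Nat.cast_nonneg (α := ℝ) x.e)
  have := mul_le_mul_of_nonneg_left hb (Nat.cast_nonneg (α := ℝ) x.w)
  have := mul_le_mul_of_nonneg_left hg (Nat.cast_nonneg (α := ℝ) x.n)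
  have := mul_le_mul_of_nonneg_left hd (Nat.cast_nonneg (α := ℝ) x.s)
  linarith [hx.2]

theorem Fi_conv {a b c d : ℝ} (ha : 0 ≤ a) (hb : 0 ≤ b) (hc : 0 ≤ c) (hd : 0 ≤ d)
    (h1 : a + b + c + d = 1) (x y z u : V) :
    Fi (a * x.e + b * y.e + c * z.e + d * u.e) (a * x.w + b * y.w + c * z.w + d * u.w)
      (a * x.n + b * y.n + c * z.n + d * u.n) (a * x.s + b * y.s + c * z.s + d * u.s)
    ≤ a * Fi x.e x.w x.n x.s + b * Fi y.e y.w y.n y.s + c * Fi z.e z.w z.n z.s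
      + d * Fi u.e u.w u.n u.s := by
  have L := fun p q r s : ℕ => jen (x := (p : ℝ)) (y := (q : ℝ)) (z := (r : ℝ)) (u := (s : ℝ))
    convexOn_mul_log ha hb hc hd h1 (Nat.cast_nonneg (α := ℝ) p)
    (Nat.cast_nonneg (α := ℝ) q) (Nat.cast_nonneg (α := ℝ) r) (Nat.cast_nonneg (α := ℝ) s)
  have Q := fun (k : ℕ) (hk : Even k) (p q r s : ℝ) => jen (hk.convexOn_pow (𝕜 := ℝ)) ha hb hc hd h1
    (Set.mem_univ p) (Set.mem_univ q) (Set.mem_univ r) (Set.mem_univ s)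
  have l1 := L x.e y.e z.e u.e
  have l2 := L x.w y.w z.w u.w
  have l3 := L x.n y.n z.n u.n
  have l4 := L x.s y.s z.s u.s
  have q1 := Q 2 (by decide) (x.e - x.w) (y.e - y.w) (z.e - z.w) (u.e - u.w)
  have q2 := Q 2 (by decide) (x.n - x.s) (y.n - y.s) (z.n - z.s) (u.n - u.s)
  have q3 := Q 4 (by decide) (x.e + x.w - x.n - x.s) (y.e + y.w - y.n - y.s)
    (z.e + z.w - z.n - z.s) (u.e + u.w - u.n - u.s)
  unfold Fi
  rw [show a * x.e + b * y.e + c * z.e + d * u.e - (a * x.w + b * y.w + c * z.w + d * u.w) =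
      a * ((x.e : ℝ) - x.w) + b * (y.e - y.w) + c * (z.e - z.w) + d * (u.e - u.w) by ring,
    show a * x.n + b * y.n + c * z.n + d * u.n - (a * x.s + b * y.s + c * z.s + d * u.s) =
      a * ((x.n : ℝ) - x.s) + b * (y.n - y.s) + c * (z.n - z.s) + d * (u.n - u.s) by ring,
    show a * x.e + b * y.e + c * z.e + d * u.e + (a * x.w + b * y.w + c * z.w + d * u.w)
      - (a * x.n + b * y.n + c * z.n + d * u.n) - (a * x.s + b * y.s + c * z.s + d * u.s) =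
      a * ((x.e : ℝ) + x.w - x.n - x.s) + b * (y.e + y.w - y.n - y.s) + c * (z.e + z.w - z.n - z.s)
        + d * (u.e + u.w - u.n - u.s) by ring]
  beta_reduce at l1 l2 l3 l4 q1 q2 q3
  generalize (a * ((x.e : ℝ) - x.w) + b * (y.e - y.w) + c * (z.e - z.w) + d * (u.e - u.w)) ^ 2 = A
    at q1
  generalize (a * ((x.n : ℝ) - x.s) + b * (y.n - y.s) + c * (z.n - z.s) + d * (u.n - u.s)) ^ 2 = B
    at q2
  generalize (a * ((x.e : ℝ) + x.w - x.n - x.s) + b * (y.e + y.w - y.n - y.s)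
    + c * (z.e + z.w - z.n - z.s) + d * (u.e + u.w - u.n - u.s)) ^ 4 = C at q3
  generalize ((x.e : ℝ) + x.w - x.n - x.s) ^ 4 = C1 at q3
  generalize ((y.e : ℝ) + y.w - y.n - y.s) ^ 4 = C2 at q3
  generalize ((z.e : ℝ) + z.w - z.n - z.s) ^ 4 = C3 at q3
  generalize ((u.e : ℝ) + u.w - u.n - u.s) ^ 4 = C4 at q3
  linarith

theorem ml (t : ℝ) : t / 2 ^ 32 * log (t / 2 ^ 32) = (t * log t - t * (32 * log 2)) / 2 ^ 32 := by
  rcases eq_or_ne t 0 with rfl | h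
  · simp
  · rw [log_div h (by positivity), log_pow]; push_cast; ring

theorem pt_spec {E W N S a b c d k : ℝ} (h1 : E + W + N + S = 2 ^ 32) (ha : 0 < a) (hb : 0 < b)
    (hc : 0 < c) (hd : 0 < d) (hk : 5 * (16 * Pp a b c d) / 173056 ≤ k)
    (h : Fi E W N S + k ≤ 30 * (E * (2 ^ 40 * log a) + W * (2 ^ 40 * log b) + N * (2 ^ 40 * log c)
      + S * (2 ^ 40 * log d)) + 10 * 2 ^ 72) :
    SIn (E / 2 ^ 32) (W / 2 ^ 32) (N / 2 ^ 32) (S / 2 ^ 32) := by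
  refine sin_of (K := (13 / 16) ^ 2 * 2 ^ 87) (by linarith) ha hb hc hd (by positivity) ?_
  rw [ml, ml, ml, ml, log_mul (by positivity) (by positivity), log_pow, log_pow,
    show (4 : ℝ) = 2 ^ 2 by norm_num, log_pow,
    show E / 2 ^ 32 + W / 2 ^ 32 - N / 2 ^ 32 - S / 2 ^ 32 = (E + W - N - S) / 2 ^ 32 by ring,
    show E / 2 ^ 32 - W / 2 ^ 32 = (E - W) / 2 ^ 32 by ring,
    show N / 2 ^ 32 - S / 2 ^ 32 = (N - S) / 2 ^ 32 by ring, div_pow (E - W), div_pow (N - S),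
    div_pow (E + W - N - S)]
  unfold Fi at h
  have h2 : (E + W + N + S) * log 2 = 2 ^ 32 * log 2 := by rw [h1]
  generalize (E + W - N - S) ^ 4 = A at h
  generalize (E - W) ^ 2 = B at h
  generalize (N - S) ^ 2 = C at h
  push_cast
  linarith

theorem comb {a b c d F F1 F2 F3 F4 k R1 R2 R3 R4 M : ℝ} (a0 : 0 ≤ a) (b0 : 0 ≤ b) (c0 : 0 ≤ c)
    (d0 : 0 ≤ d) (hs : a + b + c + d = 1) (h : F ≤ a * F1 + b * F2 + c * F3 + d * F4)
    (h1 : F1 + k ≤ R1 + M) (h2 : F2 + k ≤ R2 + M) (h3 : F3 + k ≤ R3 + M) (h4 : F4 + k ≤ R4 + M) :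
    F + k ≤ a * R1 + b * R2 + c * R3 + d * R4 + M := by
  have := mul_le_mul_of_nonneg_left h1 a0
  have := mul_le_mul_of_nonneg_left h2 b0
  have := mul_le_mul_of_nonneg_left h3 c0
  have := mul_le_mul_of_nonneg_left h4 d0
  have : (a + b + c + d) * k = k := by rw [hs, one_mul]
  have : (a + b + c + d) * M = M := by rw [hs, one_mul]
  linarith

theorem pp_le (E W N S : ℕ) : 5 * (16 * Pp E W N S) / 173056
    ≤ ((Nat.succ (Nat.div (Nat.mul 5 (pp E W N S)) 173056) : ℕ) : ℝ) := by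
  have h3 : ((pp E W N S : ℕ) : ℝ) = 16 * Pp E W N S := by
    unfold pp Pp
    simp only [cA, cM]
    push_cast
    ring
  rw [← h3]
  generalize pp E W N S = X
  have h1 : 5 * X ≤ 173056 * (5 * X / 173056 + 1) :=
    (Nat.lt_mul_div_succ (5 * X) (show 0 < 173056 by norm_num)).le
  rw [div_le_iff₀ (by norm_num), mul_comm _ (173056 : ℝ)]
  show _ ≤ 173056 * ((5 * X / 173056 + 1 : ℕ) : ℝ)
  exact_mod_cast h1

theorem lf_fin {E W N S k la lb lg ld : ℕ} {x y z u : V} (hx : ok x) (hy : ok y) (hz : ok z)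
    (hu : ok u) (e0 : E ≠ 0) (w0 : W ≠ 0) (n0 : N ≠ 0) (s0 : S ≠ 0)
    (ha : (la : ℝ) ≤ 2 ^ 40 * log E) (hb : (lb : ℝ) ≤ 2 ^ 40 * log W)
    (hg : (lg : ℝ) ≤ 2 ^ 40 * log N) (hd : (ld : ℝ) ≤ 2 ^ 40 * log S)
    (hk : 5 * (16 * Pp E W N S) / 173056 ≤ (k : ℝ))
    (h : (Bool.rec false (Bool.rec false (Bool.rec false (vt k la lb lg ld u) (vt k la lb lg ld z))
        (vt k la lb lg ld y)) (vt k la lb lg ld x) : Bool) = true) : TN x y z u := by
  have h1 := (brec h).1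
  have h2 := (brec (brec h).2).1
  have h3 := (brec (brec (brec h).2).2).1
  have h4 := (brec (brec (brec h).2).2).2
  have v1 := vt_spec hx ha hb hg hd h1
  have v2 := vt_spec hy ha hb hg hd h2
  have v3 := vt_spec hz ha hb hg hd h3
  have v4 := vt_spec hu ha hb hg hd h4
  intro a b c d a0 b0 c0 d0 hs
  have p : ∀ n : ℕ, n ≠ 0 → (0 : ℝ) < n := fun n hn => Nat.cast_pos.2 (Nat.pos_of_ne_zero hn)
  refine pt_spec ?_ (p _ e0) (p _ w0) (p _ n0) (p _ s0) hk ?_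
  · linear_combination a * hx.1 + b * hy.1 + c * hz.1 + d * hu.1 + 2 ^ 32 * hs
  · exact (comb a0 b0 c0 d0 hs (Fi_conv a0 b0 c0 d0 hs x y z u) v1 v2 v3 v4).trans
      (le_of_eq (by ring))

theorem lf_aux {E W N S k : ℕ} {x y z u : V} (hx : ok x) (hy : ok y) (hz : ok z) (hu : ok u)
    (e0 : E ≠ 0) (w0 : W ≠ 0) (n0 : N ≠ 0) (s0 : S ≠ 0)
    (hk : 5 * (16 * Pp E W N S) / 173056 ≤ (k : ℝ))
    (h : (lgLo E fun a => lgLo W fun b => lgLo N fun g => lgLo S fun d => fc k fun c =>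
      Bool.rec false (Bool.rec false (Bool.rec false (vt c a b g d u) (vt c a b g d z))
        (vt c a b g d y)) (vt c a b g d x)) = true) : TN x y z u := by
  obtain ⟨la, h, ha⟩ := lgLo_spec e0 h
  obtain ⟨lb, h, hb⟩ := lgLo_spec w0 h
  obtain ⟨lg, h, hg⟩ := lgLo_spec n0 h
  obtain ⟨ld, h, hd⟩ := lgLo_spec s0 h
  exact lf_fin hx hy hz hu e0 w0 n0 s0 ha hb hg hd hk ((fc_eq _ _).symm.trans h)

theorem lf_spec {q : ℕ} {x y z u : V} (hx : ok x) (hy : ok y) (hz : ok z) (hu : ok u)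
    (h : lf q x y z u = true) : TN x y z u := by
  unfold lf at h
  rw [fc_eq, fc_eq, fc_eq, fc_eq] at h
  exact lf_aux hx hy hz hu (fld_pos _) (fld_pos _) (fld_pos _) (fld_pos _) (pp_le _ _ _ _) h

theorem ct_spec {x : V} (h : ct x = true) : |(x.e : ℝ) + x.w - x.n - x.s| ≤ 2 ^ 25 ∧
    |(x.e : ℝ) - x.w| ≤ 2 ^ 25 ∧ |(x.n : ℝ) - x.s| ≤ 2 ^ 25 := by
  obtain ⟨h1, h⟩ := brec h
  obtain ⟨h2, h3⟩ := brec h
  have g1 := (Nat.cast_le (α := ℝ)).2 (Nat.le_of_ble_eq_true h1)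
  have g2 := (Nat.cast_le (α := ℝ)).2 (Nat.le_of_ble_eq_true h2)
  have g3 := (Nat.cast_le (α := ℝ)).2 (Nat.le_of_ble_eq_true h3)
  rw [ad_eq] at g1 g2 g3
  rw [cA, cA, ← sub_sub] at g1
  push_cast at g1 g2 g3
  exact ⟨g1.trans (by norm_num), g2.trans (by norm_num), g3.trans (by norm_num)⟩

theorem cc_abs {a b c d x y z u t : ℝ} (ha : 0 ≤ a) (hb : 0 ≤ b) (hc : 0 ≤ c) (hd : 0 ≤ d)
    (h1 : a + b + c + d = 1) (hx : |x| ≤ 2 ^ 25) (hy : |y| ≤ 2 ^ 25) (hz : |z| ≤ 2 ^ 25)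
    (hu : |u| ≤ 2 ^ 25) (ht : t = (a * x + b * y + c * z + d * u) / 2 ^ 32) : |t| ≤ 1 / 128 := by
  rw [abs_le] at *
  have := mul_le_mul_of_nonneg_left hx.1 ha
  have := mul_le_mul_of_nonneg_left hx.2 ha
  have := mul_le_mul_of_nonneg_left hy.1 hb
  have := mul_le_mul_of_nonneg_left hy.2 hb
  have := mul_le_mul_of_nonneg_left hz.1 hc
  have := mul_le_mul_of_nonneg_left hz.2 hc
  have := mul_le_mul_of_nonneg_left hu.1 hd
  have := mul_le_mul_of_nonneg_left hu.2 hd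
  constructor <;> linarith

theorem chk_spec (hC : St_SC) (t : Tr) : ∀ x y z u : V, ok x → ok y → ok z → ok u →
    chk t x y z u = true → TN x y z u := by
  induction t with
  | L q => exact fun x y z u hx hy hz hu h => lf_spec hx hy hz hu h
  | C =>
    intro x y z u hx hy hz hu h a b c d a0 b0 c0 d0 hs
    obtain ⟨h1, h⟩ := brec h
    obtain ⟨h2, h⟩ := brec h
    obtain ⟨h3, h4⟩ := brec h
    have g1 := ct_spec h1
    have g2 := ct_spec h2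
    have g3 := ct_spec h3
    have g4 := ct_spec h4
    refine hC _ _ _ _ ?_ (cc_abs a0 b0 c0 d0 hs g1.1 g2.1 g3.1 g4.1 (by ring))
      (cc_abs a0 b0 c0 d0 hs g1.2.1 g2.2.1 g3.2.1 g4.2.1 (by ring))
      (cc_abs a0 b0 c0 d0 hs g1.2.2 g2.2.2 g3.2.2 g4.2.2 (by ring))
    linear_combination (a * hx.1 + b * hy.1 + c * hz.1 + d * hu.1) / 2 ^ 32 + hs
  | a l r il ir =>
    intro x y z u hx hy hz hu h
    obtain ⟨m, h, hm, g⟩ := mid_spec hx hy h
    exact g z u (il _ _ _ _ hm hy hz hu (brec h).1) (ir _ _ _ _ hx hm hz hu (brec h).2)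
  | b l r il ir =>
    intro x y z u hx hy hz hu h
    obtain ⟨m, h, hm, g⟩ := mid_spec hx hz h
    exact (g y u (il _ _ _ _ hm hy hz hu (brec h).1).s12
      (ir _ _ _ _ hx hy hm hu (brec h).2).s12).s12
  | c l r il ir =>
    intro x y z u hx hy hz hu h
    obtain ⟨m, h, hm, g⟩ := mid_spec hx hu h
    exact (g y z (il _ _ _ _ hm hy hz hu (brec h).1).s23.s12
      (ir _ _ _ _ hx hy hz hm (brec h).2).s23.s12).s12.s23
  | d l r il ir =>
    intro x y z u hx hy hz hu h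
    obtain ⟨m, h, hm, g⟩ := mid_spec hy hz h
    exact (g x u (il _ _ _ _ hx hm hz hu (brec h).1).s01.s12
      (ir _ _ _ _ hx hy hm hu (brec h).2).s01.s12).s12.s01
  | e l r il ir =>
    intro x y z u hx hy hz hu h
    obtain ⟨m, h, hm, g⟩ := mid_spec hy hu h
    exact (g x z (il _ _ _ _ hx hm hz hu (brec h).1).s23.s01.s12
      (ir _ _ _ _ hx hy hz hm (brec h).2).s23.s01.s12).s12.s01.s23
  | f l r il ir =>
    intro x y z u hx hy hz hu h
    obtain ⟨m, h, hm, g⟩ := mid_spec hz hu h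
    exact (g x y (il _ _ _ _ hx hy hm hu (brec h).1).s12.s01.s23.s12
      (ir _ _ _ _ hx hy hz hm (brec h).2).s12.s01.s23.s12).s12.s23.s01.s12

theorem top_spec (hC : St_SC) {t : Tr} {x y z u : ℕ × ℕ × ℕ × ℕ} {x' y' z' u' : ℝ × ℝ × ℝ × ℝ}
    (h : top t x y z u = true)
    (hx : x'.1 * 2 ^ 30 = x.1 ∧ x'.2.1 * 2 ^ 30 = x.2.1 ∧ x'.2.2.1 * 2 ^ 30 = x.2.2.1 ∧
      x'.2.2.2 * 2 ^ 30 = x.2.2.2 ∧ x'.1 + x'.2.1 + x'.2.2.1 + x'.2.2.2 = 4)
    (hy : y'.1 * 2 ^ 30 = y.1 ∧ y'.2.1 * 2 ^ 30 = y.2.1 ∧ y'.2.2.1 * 2 ^ 30 = y.2.2.1 ∧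
      y'.2.2.2 * 2 ^ 30 = y.2.2.2 ∧ y'.1 + y'.2.1 + y'.2.2.1 + y'.2.2.2 = 4)
    (hz : z'.1 * 2 ^ 30 = z.1 ∧ z'.2.1 * 2 ^ 30 = z.2.1 ∧ z'.2.2.1 * 2 ^ 30 = z.2.2.1 ∧
      z'.2.2.2 * 2 ^ 30 = z.2.2.2 ∧ z'.1 + z'.2.1 + z'.2.2.1 + z'.2.2.2 = 4)
    (hu : u'.1 * 2 ^ 30 = u.1 ∧ u'.2.1 * 2 ^ 30 = u.2.1 ∧ u'.2.2.1 * 2 ^ 30 = u.2.2.1 ∧
      u'.2.2.2 * 2 ^ 30 = u.2.2.2 ∧ u'.1 + u'.2.1 + u'.2.2.1 + u'.2.2.2 = 4) :
    Tet x' y' z' u' := by
  unfold top at h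
  obtain ⟨f1, h, g1⟩ := mk_spec h
  obtain ⟨f2, h, g2⟩ := mk_spec h
  obtain ⟨f3, h, g3⟩ := mk_spec h
  obtain ⟨f4, h, g4⟩ := mk_spec h
  obtain ⟨x1, x2, x3, x4, x5⟩ := hx
  obtain ⟨y1, y2, y3, y4, y5⟩ := hy
  obtain ⟨z1, z2, z3, z4, z5⟩ := hz
  obtain ⟨u1, u2, u3, u4, u5⟩ := hu
  have o : ∀ {e w n s f : ℕ}, (e : ℝ) + w + n + s = 2 ^ 32 → Fi e w n s ≤ f →
      ok ⟨e, w, n, s, f⟩ := fun h g => ⟨h, g⟩
  have := chk_spec hC t _ _ _ _ (o (by linarith) g1) (o (by linarith) g2) (o (by linarith) g3)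
    (o (by linarith) g4) h
  intro a b c d a0 b0 c0 d0 hs
  have := this a b c d a0 b0 c0 d0 hs
  dsimp only at this
  rw [← x1, ← x2, ← x3, ← x4, ← y1, ← y2, ← y3, ← y4, ← z1, ← z2, ← z3, ← z4, ← u1, ← u2, ← u3,
    ← u4] at this
  convert this using 1 <;> ring

end Pool.Agent.Lib.RC5.T74
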